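import Pool.Agent.W_7d29a1_h3.Wt

/-!
Symmetries of the environment: signed permutations of the coordinates.
-/

namespace Pool.Agent.W_7d29a1_h3

open MeasureTheory ProbabilityTheory Filter Topology Pool.Agent.W_MP_7d29a1_pr
  Pool.Agent.W_7d29a1_h46 Pool.Agent.W_7d29a1_h46u

variable {d : ℕ} {ρ : Measure ℝ} [IsProbabilityMeasure ρ] {β : ℝ}

/-- The signed permutation `(σ x) j = e j * x (τ j)`. -/
def sAct {d : ℕ} (τ : Equiv.Perm (Fin d)) (e : Fin d → Bool) (x : Site d) : Site d :=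
  fun j => (if e j then 1 else -1) * x (τ j)

/-- The same on tilts. -/
noncomputable def vAct {d : ℕ} (τ : Equiv.Perm (Fin d)) (e : Fin d → Bool) (h : Vec d) : Vec d :=
  WithLp.toLp 2 fun j => (if e j then 1 else -1) * h (τ j)

/-- The environment seen through the symmetry. -/
def eAct {d : ℕ} (τ : Equiv.Perm (Fin d)) (e : Fin d → Bool) (η : Env d) : Env d :=
  fun p => η (p.1, sAct τ e p.2)

theorem sAct_add (τ : Equiv.Perm (Fin d)) (e : Fin d → Bool) (x y : Site d) :
    sAct τ e (x + y) = sAct τ e x + sAct τ e y := by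
  funext j
  simp only [sAct, Pi.add_apply, mul_add]

theorem sAct_bij (τ : Equiv.Perm (Fin d)) (e : Fin d → Bool) :
    Function.Bijective (sAct τ e : Site d → Site d) := by
  rw [Function.bijective_iff_has_inverse]
  refine ⟨fun y i => (if e (τ.symm i) then 1 else -1) * y (τ.symm i), ?_, ?_⟩
  · intro x
    funext i
    simp only [sAct, Equiv.apply_symm_apply]
    split_ifs <;> ring
  · intro x
    funext i
    simp only [sAct, Equiv.symm_apply_apply]
    split_ifs <;> ring

theorem SymA_natAbs (τ : Equiv.Perm (Fin d)) (e : Fin d → Bool) (x : Site d) (j : Fin d) :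
    (sAct τ e x j).natAbs = (x (τ j)).natAbs := by
  unfold sAct
  split_ifs <;> simp

theorem sAct_sn (τ : Equiv.Perm (Fin d)) (e : Fin d → Bool) (x : Site d) : sn (sAct τ e x) = sn x := by
  apply le_antisymm
  · refine Finset.sup_le fun j _ => ?_
    rw [SymA_natAbs]
    exact Cat_le_sn x (τ j)
  · refine Finset.sup_le fun j _ => ?_
    have h1 := Cat_le_sn (sAct τ e x) (τ.symm j)
    rwa [SymA_natAbs, Equiv.apply_symm_apply] at h1

theorem sAct_ln (τ : Equiv.Perm (Fin d)) (e : Fin d → Bool) (x : Site d) : ln (sAct τ e x) = ln x := by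
  unfold ln
  rw [Finset.sum_congr rfl fun j _ => SymA_natAbs τ e x j]
  exact Equiv.sum_comp τ fun j => (x j).natAbs

theorem inner_act (τ : Equiv.Perm (Fin d)) (e : Fin d → Bool) (h : Vec d) (x : Site d) :
    inner ℝ (vAct τ e h) (emb (sAct τ e x)) = inner ℝ h (emb x) := by
  rw [PiLp.inner_apply, PiLp.inner_apply]
  rw [← Equiv.sum_comp τ fun j => inner ℝ (h j) (emb x j)]
  refine Finset.sum_congr rfl fun j _ => ?_
  simp only [vAct, emb, sAct]
  split_ifs <;> simp

theorem mp_eAct (τ : Equiv.Perm (Fin d)) (e : Fin d → Bool) :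
    MeasurePreserving (eAct τ e) (law d ρ) (law d ρ) := by
  refine LawU_reindex (f := fun p : ℕ × Site d => (p.1, sAct τ e p.2)) ?_
  rintro ⟨i, y⟩ ⟨j, z⟩ h
  simp only [Prod.mk.injEq] at h
  exact Prod.ext h.1 ((sAct_bij τ e).1 h.2)

/-- The action on the steps. -/
def SymA_st {d : ℕ} (τ : Equiv.Perm (Fin d)) (e : Fin d → Bool) : Step d ≃ Step d where
  toFun a := (τ.symm a.1, if e (τ.symm a.1) then a.2 else !a.2)
  invFun a := (τ a.1, if e a.1 then a.2 else !a.2)
  left_inv a := by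
    obtain ⟨i, b⟩ := a
    simp only [Equiv.apply_symm_apply]
    split_ifs <;> simp
  right_inv a := by
    obtain ⟨i, b⟩ := a
    simp only [Equiv.symm_apply_apply]
    split_ifs <;> simp

theorem SymA_vec (τ : Equiv.Perm (Fin d)) (e : Fin d → Bool) (a : Step d) :
    vec (SymA_st τ e a) = sAct τ e (vec a) := by
  obtain ⟨i, b⟩ := a
  funext j
  simp only [SymA_st, Equiv.coe_fn_mk, vec, sAct]
  by_cases h : j = τ.symm i
  · subst h
    rw [Equiv.apply_symm_apply, Pi.single_eq_same, Pi.single_eq_same]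
    cases e (τ.symm i) <;> cases b <;> simp
  · have h1 : τ j ≠ i := fun h' => h (by rw [← h', Equiv.symm_apply_apply])
    rw [Pi.single_eq_of_ne h, Pi.single_eq_of_ne h1, mul_zero]

theorem SymA_zero (τ : Equiv.Perm (Fin d)) (e : Fin d → Bool) : sAct τ e (0 : Site d) = 0 := by
  funext j
  simp [sAct]

theorem SymA_sum (τ : Equiv.Perm (Fin d)) (e : Fin d → Bool) {ι : Type} (s : Finset ι) (f : ι → Site d) :
    sAct τ e (∑ i ∈ s, f i) = ∑ i ∈ s, sAct τ e (f i) :=
  map_sum (⟨⟨sAct τ e, SymA_zero τ e⟩, sAct_add τ e⟩ : Site d →+ Site d) f s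

theorem SymA_pos (τ : Equiv.Perm (Fin d)) (e : Fin d → Bool) {n : ℕ} (s : Fin n → Step d) (i : ℕ) :
    pos (fun k => SymA_st τ e (s k)) i = sAct τ e (pos s i) := by
  unfold pos
  rw [SymA_sum]
  refine Finset.sum_congr rfl fun j _ => ?_
  split_ifs
  · exact SymA_vec τ e (s j)
  · exact (SymA_zero τ e).symm

theorem SymA_energy (τ : Equiv.Perm (Fin d)) (e : Fin d → Bool) (η : Env d) {n : ℕ} (s : Fin n → Step d) :
    energy (eAct τ e η) s = energy η (fun k => SymA_st τ e (s k)) := by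
  unfold energy
  refine Finset.sum_congr rfl fun i _ => ?_
  rw [SymA_pos]
  rfl

theorem SymA_wgt (τ : Equiv.Perm (Fin d)) (e : Fin d → Bool) (h : Vec d) (η : Env d) {n : ℕ} (s : Fin n → Step d) :
    wgt β h (eAct τ e η) s = wgt β (vAct τ e h) η (fun k => SymA_st τ e (s k)) := by
  unfold wgt
  rw [SymA_energy, SymA_pos, inner_act]

/-- The action on the walks. -/
def SymA_wk {d : ℕ} (τ : Equiv.Perm (Fin d)) (e : Fin d → Bool) (n : ℕ) : (Fin n → Step d) ≃ (Fin n → Step d) :=
  Equiv.piCongrRight fun _ => SymA_st τ e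

theorem SymA_ZT (τ : Equiv.Perm (Fin d)) (e : Fin d → Bool) (h : Vec d) (η : Env d) {n : ℕ}
    (E E' : Set (Fin n → Step d)) (hE : ∀ s, s ∈ E ↔ SymA_wk τ e n s ∈ E') :
    ZT β h (eAct τ e η) E = ZT β (vAct τ e h) η E' := by
  classical
  unfold ZT
  refine Fintype.sum_equiv (SymA_wk τ e n) _ _ fun s => ?_
  by_cases hs : s ∈ E
  · rw [if_pos hs, if_pos ((hE s).1 hs), SymA_wgt]
    rfl
  · rw [if_neg hs, if_neg fun h' => hs ((hE s).2 h')]

/-- TASK Sym1. The walk `s` is mapped to the walk with steps `sAct τ e (vec (s i))` (a bijection of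
`Fin n → Step d`, coordinatewise). -/
theorem V_act (τ : Equiv.Perm (Fin d)) (e : Fin d → Bool) (η : Env d) (n : ℕ) (y : Site d) :
    Vp ρ β (eAct τ e η) n y = Vp ρ β η n (sAct τ e y) := by
  unfold Vp V
  congr 1
  have h0 : vAct τ e (0 : Vec d) = 0 := by
    ext j
    simp [vAct]
  rw [SymA_ZT τ e 0 η (toP n y) (toP n (sAct τ e y)), h0]
  intro s
  change pos s n = y ↔ pos (fun k => SymA_st τ e (s k)) n = sAct τ e y
  rw [SymA_pos]
  exact ((sAct_bij τ e).1.eq_iff).symm

theorem H_act (τ : Equiv.Perm (Fin d)) (e : Fin d → Bool) (h : Vec d) (η : Env d) (n : ℕ) :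
    HH ρ β h (eAct τ e η) n = HH ρ β (vAct τ e h) η n := by
  unfold HH X Z
  rw [SymA_ZT τ e h η Set.univ Set.univ fun s => by simp]

end Pool.Agent.W_7d29a1_h3
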