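import Pool.Agent.W_7d29a1_h46u.RateU
import Pool.Agent.W_7d29a1_h46u.StrU

/-!
Almost sure convergence of the free energy, and ballisticity.
-/

namespace Pool.Agent.W_7d29a1_h3

open MeasureTheory ProbabilityTheory Filter Topology Pool.Agent.W_MP_7d29a1_pr
  Pool.Agent.W_7d29a1_h46 Pool.Agent.W_7d29a1_h46u

variable {d : ℕ} {ρ : Measure ℝ} [IsProbabilityMeasure ρ]

/-- Nonnegative functions with summable integrals tend to zero almost surely. -/
private theorem AeX_tendsto {Ω : Type*} [MeasurableSpace Ω] {μ : Measure Ω} {f : ℕ → Ω → ℝ}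
    (hm : ∀ n, Measurable (f n)) (h0 : ∀ n x, 0 ≤ f n x) (hi : ∀ n, 1 ≤ n → Integrable (f n) μ)
    {C : ℝ} (hC : ∀ n : ℕ, 1 ≤ n → ∫ x, f n x ∂μ ≤ C * (n : ℝ) ^ (-(2 : ℝ))) :
    ∀ᵐ x ∂μ, Tendsto (fun n => f n x) atTop (𝓝 0) := by
  have hsum : Summable fun n => ∫ x, f (n + 1) x ∂μ := by
    have h2 : Summable fun n : ℕ => C * ((n + 1 : ℕ) : ℝ) ^ (-(2 : ℝ)) := by
      refine Summable.mul_left C ?_
      exact (summable_nat_add_iff 1).2 (Real.summable_nat_rpow.2 (by norm_num))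
    exact Summable.of_nonneg_of_le (fun n => integral_nonneg fun x => h0 _ x)
      (fun n => hC (n + 1) (Nat.le_add_left 1 n)) h2
  have hlin : ∫⁻ x, ∑' n, ENNReal.ofReal (f (n + 1) x) ∂μ ≠ ⊤ := by
    rw [lintegral_tsum fun n => (hm (n + 1)).ennreal_ofReal.aemeasurable]
    have h2 : ∀ n, ∫⁻ x, ENNReal.ofReal (f (n + 1) x) ∂μ =
        ENNReal.ofReal (∫ x, f (n + 1) x ∂μ) := fun n =>
      (ofReal_integral_eq_lintegral_ofReal (hi (n + 1) (Nat.le_add_left 1 n))
        (Eventually.of_forall (h0 (n + 1)))).symm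
    simp only [h2]
    rw [← ENNReal.ofReal_tsum_of_nonneg (fun n => integral_nonneg fun x => h0 (n + 1) x) hsum]
    exact ENNReal.ofReal_ne_top
  have hae := ae_lt_top (Measurable.tsum fun n => (hm (n + 1)).ennreal_ofReal) hlin
  filter_upwards [hae] with x hx
  have h2 := ENNReal.tendsto_atTop_zero_of_tsum_ne_top hx.ne
  have h3 := (ENNReal.tendsto_toReal ENNReal.zero_ne_top).comp h2
  simp only [ENNReal.toReal_zero] at h3
  rw [← tendsto_add_atTop_iff_nat 1]
  refine h3.congr fun n => ?_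
  change (ENNReal.ofReal (f (n + 1) x)).toReal = f (n + 1) x
  exact ENNReal.toReal_ofReal (h0 (n + 1) x)

/-- TASK AeX1. `concU` with `θ = ± n ^ (-1/2)`: `P(|X - A| ≥ n ^ (3/4)) ≤ 2 exp (Kc² - n ^ (1/4))` is summable
(Borel-Cantelli, `measure_limsup_atTop_eq_zero` / `ae_eventually_notMem`), and `tendsto_A`. -/
theorem ae_X (hd : 0 < d) (hρ : EM ρ) (β : ℝ) (h : Vec d) :
    ∀ᵐ η ∂(law d ρ), Tendsto (fun n : ℕ => X β h η n / n) atTop (𝓝 (lam ρ β h)) := by
  obtain ⟨C, hC0, hC⟩ := momU (ρ := ρ) hd hρ β 6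
  have hm : ∀ n : ℕ, Measurable fun η : Env d => |X β h η n - A ρ β h n| ^ 6 / (n : ℝ) ^ 6 := by
    intro n
    exact (((measurable_X β h n).sub_const _).abs.pow_const 6).div_const _
  have hae := AeX_tendsto (μ := law d ρ)
    (f := fun (n : ℕ) (η : Env d) => |X β h η n - A ρ β h n| ^ 6 / (n : ℝ) ^ 6) hm
    (fun n η => by positivity) (fun n hn => (hC h n hn).1.div_const _) (C := C) (by
      intro n hn
      have hn1 : (1 : ℝ) ≤ n := by exact_mod_cast hn
      have hn0 : (0 : ℝ) < n := by linarith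
      rw [integral_div]
      have h1 := (hC h n hn).2
      have h2 : (n : ℝ) ^ ((1 / 2 : ℝ) * ((6 : ℕ) : ℝ)) = (n : ℝ) ^ 3 := by
        rw [← Real.rpow_natCast]
        norm_num
      rw [h2] at h1
      have h3 : (n : ℝ) ^ (-(2 : ℝ)) = ((n : ℝ) ^ 2)⁻¹ := by
        rw [Real.rpow_neg hn0.le]
        norm_num
      rw [h3, div_le_iff₀ (by positivity)]
      refine h1.trans ?_
      have h4 : C * ((n : ℝ) ^ 2)⁻¹ * (n : ℝ) ^ 6 = C * (n : ℝ) ^ 4 := by
        field_simp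
      rw [h4]
      exact mul_le_mul_of_nonneg_left (pow_le_pow_right₀ hn1 (by norm_num)) hC0)
  filter_upwards [hae] with η hη
  have hA := tendsto_A (ρ := ρ) hd hρ β h
  have h1 : Tendsto (fun n : ℕ => (X β h η n - A ρ β h n) / n) atTop (𝓝 0) := by
    rw [Metric.tendsto_atTop] at hη ⊢
    intro ε hε
    obtain ⟨N, hN⟩ := hη (ε ^ 6) (by positivity)
    refine ⟨N, fun n hn => ?_⟩
    have h2 := hN n hn
    rw [Real.dist_eq, sub_zero, ← div_pow, abs_of_nonneg (by positivity)] at h2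
    rw [Real.dist_eq, sub_zero, abs_div, Nat.abs_cast]
    exact lt_of_pow_lt_pow_left₀ 6 hε.le h2
  have h2 := h1.add hA
  rw [zero_add] at h2
  refine h2.congr fun n => ?_
  rw [← add_div]
  congr 1
  ring

/-- TASK AeX2. Ballisticity: `PolT β h η {inner < c n} ≤ exp (c n) Z_0 / Z_h = exp (c n + X 0 - X h)`. -/
theorem ballistic (hd : 0 < d) (hρ : EM ρ) (β : ℝ) (h : Vec d) {c : ℝ}
    (hc : c < lam ρ β h - lam ρ β (0 : Vec d)) :
    ∀ᵐ η ∂(law d ρ), Tendsto (fun n : ℕ => PolT β h η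
      {s : Fin n → Step d | c * n ≤ inner ℝ h (emb (pos s n))}) atTop (𝓝 1) := by
  filter_upwards [ae_X (ρ := ρ) hd hρ β h, ae_X (ρ := ρ) hd hρ β 0] with η h1 h2
  have h3 : Tendsto (fun n : ℕ => c + X β 0 η n / n - X β h η n / n) atTop
      (𝓝 (c + lam ρ β (0 : Vec d) - lam ρ β h)) := (h2.const_add c).sub h1
  have hneg : c + lam ρ β (0 : Vec d) - lam ρ β h < 0 := by linarith
  have h4 : Tendsto (fun n : ℕ => (n : ℝ) * (c + X β 0 η n / n - X β h η n / n)) atTop atBot :=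
    Tendsto.atTop_mul_neg hneg tendsto_natCast_atTop_atTop h3
  have h5 : Tendsto (fun n : ℕ => Real.exp ((n : ℝ) * (c + X β 0 η n / n - X β h η n / n)))
      atTop (𝓝 0) := Real.tendsto_exp_atBot.comp h4
  have h6 : Tendsto (fun n : ℕ => 1 - Real.exp ((n : ℝ) * (c + X β 0 η n / n - X β h η n / n)))
      atTop (𝓝 1) := by
    have := h5.const_sub 1
    simpa using this
  refine tendsto_of_tendsto_of_tendsto_of_le_of_le' h6 tendsto_const_nhds ?_
    (Eventually.of_forall fun n => PolT_le_one β h η _)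
  filter_upwards [eventually_ge_atTop 1] with n hn
  have hn0 : (0 : ℝ) < n := by exact_mod_cast hn
  obtain ⟨E, hE⟩ : ∃ E : Set (Fin n → Step d), E =
    {s : Fin n → Step d | c * n ≤ inner ℝ h (emb (pos s n))} := ⟨_, rfl⟩
  rw [← hE]
  have hZh := Z_pos hd β h η n
  have hZ0 := Z_pos hd β (0 : Vec d) η n
  have hsplit : ZT β h η (Set.univ : Set (Fin n → Step d)) = ZT β h η E + ZT β h η Eᶜ := by
    unfold ZT
    rw [← Finset.sum_add_distrib]
    refine Finset.sum_congr rfl fun s _ => ?_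
    rw [if_pos (Set.mem_univ s)]
    by_cases hs : s ∈ E
    · rw [if_pos hs, if_neg (fun hs' => hs' hs), add_zero]
    · rw [if_neg hs, if_pos (Set.mem_compl hs), zero_add]
  have h7 : Real.exp (-(c * n)) * ZT β h η Eᶜ ≤ ZT β (0 : Vec d) η Eᶜ := by
    refine ZT_tilt_ge β h 0 η fun s hs => ?_
    have hs1 : ¬ (c * n ≤ inner ℝ h (emb (pos s n))) := by
      intro hcon
      refine hs ?_
      rw [hE]
      exact hcon
    push Not at hs1
    rw [zero_sub, inner_neg_left]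
    linarith
  have h8 : ZT β (0 : Vec d) η Eᶜ ≤ Z β (0 : Vec d) η n := ZT_mono β 0 η (Set.subset_univ _)
  have h9 : ZT β h η Eᶜ ≤ Real.exp (c * n) * Z β (0 : Vec d) η n := by
    have h10 := mul_le_mul_of_nonneg_left (h7.trans h8) (Real.exp_pos (c * n)).le
    rwa [← mul_assoc, ← Real.exp_add, add_neg_cancel, Real.exp_zero, one_mul] at h10
  have h11 : Real.exp ((n : ℝ) * (c + X β 0 η n / n - X β h η n / n)) =
      Real.exp (c * n) * Z β (0 : Vec d) η n / Z β h η n := by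
    have e1 : (n : ℝ) * (c + X β 0 η n / n - X β h η n / n) = c * n + X β 0 η n - X β h η n := by
      field_simp
    rw [e1, Real.exp_sub, Real.exp_add]
    unfold X
    rw [Real.exp_log hZ0, Real.exp_log hZh]
  rw [h11]
  unfold PolT
  have hZu : ZT β h η (Set.univ : Set (Fin n → Step d)) = Z β h η n := rfl
  rw [hZu] at hsplit ⊢
  rw [le_div_iff₀ hZh, sub_mul, div_mul_cancel₀ _ hZh.ne', one_mul]
  linarith

end Pool.Agent.W_7d29a1_h3
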