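import Pool.Agent.W_7d29a1_h3.Defs

/-!
Walks: admissible end points, weights, concatenation.
-/

namespace Pool.Agent.W_7d29a1_h3

open MeasureTheory ProbabilityTheory Filter Topology Pool.Agent.W_MP_7d29a1_pr
  Pool.Agent.W_7d29a1_h46 Pool.Agent.W_7d29a1_h46u

variable {d : ℕ} {ρ : Measure ℝ} {β : ℝ}

theorem Cat_pos_zero {n : ℕ} (s : Fin n → Step d) : pos s 0 = 0 := by
  unfold pos
  refine Finset.sum_eq_zero fun j _ => if_neg (Nat.not_lt_zero _)

theorem Cat_pos_succ {n : ℕ} (s : Fin n → Step d) {i : ℕ} (hi : i < n) :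
    pos s (i + 1) = pos s i + vec (s ⟨i, hi⟩) := by
  unfold pos
  have h1 : ∀ j : Fin n, (if (j : ℕ) < i + 1 then vec (s j) else 0) =
      (if (j : ℕ) < i then vec (s j) else 0) + (if j = ⟨i, hi⟩ then vec (s j) else 0) := by
    intro j
    by_cases h2 : j = ⟨i, hi⟩
    · subst h2
      simp
    · have h3 : (j : ℕ) ≠ i := fun h => h2 (Fin.ext h)
      rw [if_neg h2, add_zero]
      by_cases h4 : (j : ℕ) < i
      · rw [if_pos h4, if_pos (by omega)]
      · rw [if_neg h4, if_neg (by omega)]
  rw [Finset.sum_congr rfl fun j _ => h1 j, Finset.sum_add_distrib, Finset.sum_ite_eq' Finset.univ]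
  simp

theorem Cat_ln_split (x : Site d) (j : Fin d) : ln x = (x j).natAbs + ∑ i ∈ Finset.univ.erase j, (x i).natAbs := by
  unfold ln
  rw [Finset.add_sum_erase Finset.univ (fun i => (x i).natAbs) (Finset.mem_univ j)]

theorem Cat_ln_vec (x : Site d) (e : Step d) :
    ln (x + vec e) = (x e.1 + (if e.2 then 1 else -1)).natAbs + ∑ i ∈ Finset.univ.erase e.1, (x i).natAbs := by
  rw [Cat_ln_split _ e.1]
  congr 1
  · simp [vec]
  · refine Finset.sum_congr rfl fun i hi => ?_
    have h1 := Finset.ne_of_mem_erase hi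
    simp [vec, Pi.single_eq_of_ne h1]

/-- A step changes `ln` by `1`. -/
theorem Cat_ln_step (x : Site d) (e : Step d) : ln (x + vec e) = ln x + 1 ∨ ln (x + vec e) + 1 = ln x := by
  rw [Cat_ln_vec, Cat_ln_split x e.1]
  split_ifs <;> omega

theorem Cat_ln_zero : ln (0 : Site d) = 0 := by
  simp [ln]

theorem Cat_eq_zero {x : Site d} (h : ln x = 0) : x = 0 := by
  unfold ln at h
  rw [Finset.sum_eq_zero_iff] at h
  funext j
  have h1 := h j (Finset.mem_univ j)
  simpa using h1

/-- A walk of length `n` ends in an admissible point of the box. -/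
theorem adm_pos {n : ℕ} (s : Fin n → Step d) {i : ℕ} (hi : i ≤ n) : adm i (pos s i) := by
  induction i with
  | zero =>
    rw [Cat_pos_zero]
    exact ⟨by rw [Cat_ln_zero], by rw [Cat_ln_zero]⟩
  | succ i ih =>
    obtain ⟨h1, h2⟩ := ih (by omega)
    rw [Cat_pos_succ s (by omega)]
    have h3 := Cat_ln_step (pos s i) (s ⟨i, by omega⟩)
    constructor <;> rcases h3 with h3 | h3 <;> omega

private theorem Cat_exists (j0 : Fin d) (n : ℕ) : ∀ y : Site d, adm n y → ∃ s : Fin n → Step d, pos s n = y := by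
  induction n with
  | zero =>
    intro y hy
    have h1 : ln y = 0 := Nat.le_zero.1 hy.1
    exact ⟨fun i => i.elim0, by rw [Cat_pos_zero, Cat_eq_zero h1]⟩
  | succ n ih =>
    intro y hy
    obtain ⟨e, he⟩ : ∃ e : Step d, adm n (y + vec (e.1, !e.2)) ∧ vec (e.1, !e.2) + vec e = 0 := by
      obtain ⟨hy1, hy2⟩ := hy
      by_cases h0 : ln y = 0
      · refine ⟨(j0, true), ⟨?_, ?_⟩, ?_⟩
        · have h1 := Cat_ln_step y ((j0, true).1, !(j0, true).2)
          rcases h1 with h1 | h1 <;> omega
        · have h1 := Cat_ln_step y ((j0, true).1, !(j0, true).2)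
          rcases h1 with h1 | h1 <;> omega
        · simp [vec, ← Pi.single_add]
      · obtain ⟨j, hj⟩ : ∃ j, y j ≠ 0 := by
          by_contra h1
          push Not at h1
          apply h0
          unfold ln
          exact Finset.sum_eq_zero fun j _ => by rw [h1 j]; rfl
        refine ⟨(j, decide (0 < y j)), ?_, ?_⟩
        · have h2 := Cat_ln_vec y (j, !decide (0 < y j))
          have h3 := Cat_ln_split y j
          simp only at h2
          by_cases h4 : 0 < y j
          · simp only [h4, decide_true, Bool.not_true, Bool.false_eq_true, if_false] at h2 ⊢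
            constructor <;> omega
          · simp only [h4, decide_false, Bool.not_false, if_true] at h2 ⊢
            constructor <;> omega
        · by_cases h4 : 0 < y j <;> simp [vec, h4, ← Pi.single_add]
    obtain ⟨s, hs⟩ := ih _ he.1
    refine ⟨Fin.append s (fun _ : Fin 1 => e), ?_⟩
    rw [pos_glue_add s (fun _ : Fin 1 => e) 1, hs]
    have h1 : pos (fun _ : Fin 1 => e) 1 = vec e := by
      rw [Cat_pos_succ _ Nat.zero_lt_one, Cat_pos_zero, zero_add]
    rw [h1, add_assoc, he.2, add_zero]

/-- TASK Cat1. (`→`) induction on `n`: if `ln y > 0` walk one step towards `0` in a coordinate with `y j ≠ 0`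
(then `adm (n - 1)`), if `y = 0`, `n ≥ 2` even: one step `+e_j0`, then `adm (n - 1) (∓ e_j0)`. (`←`) each step
changes `ln` by exactly `±1`. -/
theorem adm_iff (j0 : Fin d) {n : ℕ} {y : Site d} : adm n y ↔ (toP n y).Nonempty := by
  constructor
  · intro h
    exact Cat_exists j0 n y h
  · rintro ⟨s, hs⟩
    have h1 := adm_pos s le_rfl
    rwa [show pos s n = y from hs] at h1

theorem adm_zero (k : ℕ) : adm (2 * k) (0 : Site d) := by
  constructor
  · rw [Cat_ln_zero]
    exact Nat.zero_le _
  · rw [Cat_ln_zero]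
    omega

theorem adm_neg {n : ℕ} {y : Site d} (h : adm n y) : adm n (-y) := by
  have h1 : ln (-y) = ln y := by
    unfold ln
    exact Finset.sum_congr rfl fun j _ => by simp
  unfold adm
  rw [h1]
  exact h

theorem adm_add {m n : ℕ} {x y : Site d} (h : adm m x) (h' : adm n y) : adm (m + n) (x + y) := by
  have h1 : ln (x + y) ≤ ln x + ln y := by
    unfold ln
    rw [← Finset.sum_add_distrib]
    exact Finset.sum_le_sum fun j _ => Int.natAbs_add_le _ _
  have h2 : 2 ∣ ln (x + y) + (ln x + ln y) := by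
    unfold ln
    rw [← Finset.sum_add_distrib, ← Finset.sum_add_distrib]
    refine Finset.dvd_sum fun j _ => ?_
    rw [Pi.add_apply]
    omega
  obtain ⟨g1, g2⟩ := h
  obtain ⟨g3, g4⟩ := h'
  constructor <;> omega

theorem sn_le_ln (x : Site d) : sn x ≤ ln x :=
  Finset.sup_le fun j _ => Finset.single_le_sum (f := fun j => (x j).natAbs) (fun _ _ => Nat.zero_le _) (Finset.mem_univ j)

theorem Cat_le_sn (x : Site d) (j : Fin d) : (x j).natAbs ≤ sn x :=
  Finset.le_sup (f := fun j => (x j).natAbs) (Finset.mem_univ j)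

theorem ln_le_sn (x : Site d) : ln x ≤ d * sn x := by
  unfold ln
  have h1 := Finset.sum_le_card_nsmul Finset.univ (fun j => (x j).natAbs) (sn x) fun j _ => Cat_le_sn x j
  simpa using h1

theorem sn_add (x y : Site d) : sn (x + y) ≤ sn x + sn y :=
  Finset.sup_le fun j _ => (Int.natAbs_add_le (x j) (y j)).trans (Nat.add_le_add (Cat_le_sn x j) (Cat_le_sn y j))

theorem sn_neg (x : Site d) : sn (-x) = sn x := by
  simp [sn]

theorem sn_le_iff {x : Site d} {k : ℕ} : sn x ≤ k ↔ ∀ j, |x j| ≤ k := by
  unfold sn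
  rw [Finset.sup_le_iff]
  constructor
  · intro h j
    have h1 := h j (Finset.mem_univ j)
    rw [Int.abs_eq_natAbs]
    exact_mod_cast h1
  · intro h j _
    have h1 := h j
    rw [Int.abs_eq_natAbs] at h1
    exact_mod_cast h1

theorem mem_boxF_iff {k : ℕ} {x : Site d} : x ∈ boxF d k ↔ sn x ≤ k := by
  rw [mem_boxF, sn_le_iff]

/-- `+e, -e, +e, ...` stays in the cube of side `1`. -/
theorem stP_nonempty (j0 : Fin d) (r : ℕ) {S : ℕ} (hS : 1 ≤ S) :
    (stP (2 * r) S (0 : Site d)).Nonempty := by
  set s : Fin (2 * r) → Step d := fun i => (j0, decide ((i : ℕ) % 2 = 0)) with hs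
  have h1 : ∀ i ≤ 2 * r, pos s i = if i % 2 = 0 then 0 else Pi.single j0 1 := by
    intro i
    induction i with
    | zero => intro _; rw [Cat_pos_zero]; rfl
    | succ i ih =>
      intro hi
      rw [Cat_pos_succ s (by omega), ih (by omega), hs]
      by_cases h2 : i % 2 = 0
      · have h3 : ¬ (i + 1) % 2 = 0 := by omega
        simp [vec, h2, h3]
      · have h3 : (i + 1) % 2 = 0 := by omega
        simp only [vec, h2, h3, if_false, if_true, decide_false, Bool.false_eq_true]
        rw [← Pi.single_add]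
        simp
  refine ⟨s, fun i hi => ?_, ?_⟩
  · rw [h1 i hi, sn_le_iff]
    intro j
    have hS' : (1 : ℤ) ≤ S := by exact_mod_cast hS
    split_ifs
    · simp
    · by_cases h4 : j = j0
      · subst h4
        simpa using hS'
      · rw [Pi.single_eq_of_ne h4]
        simp
  · rw [h1 _ le_rfl, if_pos (by omega)]

theorem stP_sub {n S : ℕ} {y : Site d} : stP n S y ⊆ toP n y := fun _ hs => hs.2

/-- For `S ≥ n` the strip is no restriction. -/
theorem stP_eq {n S : ℕ} (hS : n ≤ S) (y : Site d) : stP n S y = toP n y := by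
  refine Set.Subset.antisymm stP_sub fun s hs => ⟨fun i _ => ?_, hs⟩
  exact (mem_boxF_iff.1 (pos_mem_box s i)).trans hS

end Pool.Agent.W_7d29a1_h3
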