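import Pool.Agent.W_7d29a1_h3.Cat

/-!
Section 9: centres with hysteresis.
-/

namespace Pool.Agent.W_7d29a1_h3

open MeasureTheory ProbabilityTheory Filter Topology Pool.Agent.W_MP_7d29a1_pr
  Pool.Agent.W_7d29a1_h46 Pool.Agent.W_7d29a1_h46u

variable {d : ℕ}

open Classical in
/-- The number of changes of a sequence up to `m`. -/
noncomputable def chg {α : Type*} (m : ℕ) (c : ℕ → α) : ℕ :=
  ((Finset.range m).filter fun i => c (i + 1) ≠ c i).card

private theorem CentreA_sn_le {x : Site d} {K : ℕ} : sn x ≤ K ↔ ∀ j, (x j).natAbs ≤ K := by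
  unfold sn
  simp [Finset.sup_le_iff]

private theorem CentreA_le_sn (x : Site d) (j : Fin d) : (x j).natAbs ≤ sn x :=
  CentreA_sn_le.1 le_rfl j

private theorem CentreA_tri (x y z : Site d) : sn (x - z) ≤ sn (y - z) + sn (x - y) := by
  refine CentreA_sn_le.2 fun j => ?_
  have h1 := CentreA_le_sn (y - z) j
  have h2 := CentreA_le_sn (x - y) j
  simp only [Pi.sub_apply] at h1 h2 ⊢
  omega

/-- The sequence of the centres. -/
private def CentreA_c (x : ℕ → Site d) (R : ℕ) : ℕ → Site d
  | 0 => 0
  | i + 1 => if sn (x (i + 1) - CentreA_c x R i) ≤ 2 * R then CentreA_c x R i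
      else fun j => (R : ℤ) * (x (i + 1) j / R)

private theorem CentreA_chg_succ {α : Type*} (c : ℕ → α) (i : ℕ) :
    (c (i + 1) = c i → chg (i + 1) c = chg i c) ∧ chg (i + 1) c ≤ chg i c + 1 := by
  classical
  unfold chg
  rw [Finset.range_add_one, Finset.filter_insert]
  constructor
  · intro h
    rw [if_neg (by simpa using h)]
  · split_ifs
    · exact Finset.card_insert_le _ _
    · omega

/-- TASK Centre1. `c (i+1) = c i` if `sn (x (i+1) - c i) ≤ 2 R`, otherwise a point of `(R ℤ)^d` at distance `≤ R` from `x (i+1)`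
(coordinatewise `R * (x j / R)`). Between two changes (or from the start) the sequence `x` moves by more than `R`. -/
theorem centres (x : ℕ → Site d) (m : ℕ) {R : ℕ} (hR : 0 < R) (hx : x 0 = 0) {K : ℕ}
    (hK : ∀ i ≤ m, sn (x i) ≤ K) :
    ∃ c : ℕ → Site d, c 0 = 0 ∧ (∀ i ≤ m, sn (x i - c i) ≤ 2 * R) ∧
      (∀ i ≤ m, ∀ j, (R : ℤ) ∣ c i j) ∧ (∀ i ≤ m, sn (c i) ≤ K + R) ∧
      chg m c * R ≤ ∑ i ∈ Finset.range m, sn (x (i + 1) - x i) := by
  have hRZ : (0 : ℤ) < R := by exact_mod_cast hR
  have hnew : ∀ i, sn (x i - fun j => (R : ℤ) * (x i j / R)) ≤ R := by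
    intro i
    refine CentreA_sn_le.2 fun j => ?_
    have h1 := Int.emod_add_mul_ediv (x i j) R
    have h2 := Int.emod_nonneg (x i j) hRZ.ne'
    have h3 := Int.emod_lt_of_pos (x i j) hRZ
    simp only [Pi.sub_apply]
    omega
  refine ⟨CentreA_c x R, rfl, ?_, ?_, ?_, ?_⟩
  · intro i _
    cases i with
    | zero => simp [CentreA_c, hx, sn]
    | succ i =>
      simp only [CentreA_c]
      split_ifs with h
      · exact h
      · exact (hnew (i + 1)).trans (by omega)
  · intro i _
    induction i with
    | zero => intro j; simp [CentreA_c]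
    | succ i ih =>
      simp only [CentreA_c]
      split_ifs with h
      · exact ih (by omega)
      · intro j
        exact Dvd.intro _ rfl
  · intro i hi
    induction i with
    | zero => simp [CentreA_c, sn]
    | succ i ih =>
      simp only [CentreA_c]
      split_ifs with h
      · exact ih (by omega)
      · refine CentreA_sn_le.2 fun j => ?_
        have h1 := CentreA_le_sn (x (i + 1)) j
        have h2 := hK (i + 1) hi
        have h3 := CentreA_le_sn (x (i + 1) - fun j => (R : ℤ) * (x (i + 1) j / R)) j
        have h4 := hnew (i + 1)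
        simp only [Pi.sub_apply] at h3
        omega
  · have key : ∀ i, chg i (CentreA_c x R) * R + (sn (x i - CentreA_c x R i) - R) ≤
        ∑ k ∈ Finset.range i, sn (x (k + 1) - x k) := by
      intro i
      induction i with
      | zero => simp [CentreA_c, hx, sn, chg]
      | succ i ih =>
        rw [Finset.sum_range_succ]
        have htri := CentreA_tri (x (i + 1)) (x i) (CentreA_c x R i)
        obtain ⟨h1, h2⟩ := CentreA_chg_succ (CentreA_c x R) i
        by_cases h : sn (x (i + 1) - CentreA_c x R i) ≤ 2 * R
        · have h3 : CentreA_c x R (i + 1) = CentreA_c x R i := by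
            simp only [CentreA_c]
            rw [if_pos h]
          rw [h1 h3, h3]
          omega
        · have h3 : CentreA_c x R (i + 1) = fun j => (R : ℤ) * (x (i + 1) j / R) := by
            simp only [CentreA_c]
            rw [if_neg h]
          have h4 := hnew (i + 1)
          rw [← h3] at h4
          have h5 : chg (i + 1) (CentreA_c x R) * R ≤ chg i (CentreA_c x R) * R + R := by
            calc chg (i + 1) (CentreA_c x R) * R ≤ (chg i (CentreA_c x R) + 1) * R :=
                  Nat.mul_le_mul_right _ h2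
              _ = _ := by ring
          omega
    exact (Nat.le_add_right _ _).trans (key m)

end Pool.Agent.W_7d29a1_h3
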