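import Pool.Agent.W_7d29a1_h3.CentreA

/-!
Section 9: the number of sequences.
-/

namespace Pool.Agent.W_7d29a1_h3

open MeasureTheory ProbabilityTheory Filter Topology Pool.Agent.W_MP_7d29a1_pr
  Pool.Agent.W_7d29a1_h46 Pool.Agent.W_7d29a1_h46u

variable {d : ℕ}

private theorem CentreB_chg {α : Type*} (m : ℕ) (c : ℕ → α)
    [DecidablePred fun i => c (i + 1) ≠ c i] :
    chg m c = ((Finset.range m).filter fun i => c (i + 1) ≠ c i).card := by
  unfold chg
  refine congrArg Finset.card (Finset.ext fun i => ?_)
  simp only [Finset.mem_filter]

/-- TASK Centre2. A sequence with at most `k` changes is given by at most `k` pairs (time, new value). -/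
theorem count_seq {α : Type*} [DecidableEq α] (G : Finset α) (a : α) (m k : ℕ) :
    ∃ F : Finset (ℕ → α), F.card ≤ (m * G.card + 1) ^ k ∧
      ∀ c : ℕ → α, c 0 = a → (∀ i ≤ m, c i ∈ G) → chg m c ≤ k → ∃ c' ∈ F, ∀ i ≤ m, c' i = c i := by
  classical
  induction k with
  | zero =>
    refine ⟨{fun _ => a}, by simp, ?_⟩
    intro c hc _ hk
    refine ⟨_, Finset.mem_singleton_self _, ?_⟩
    intro i hi
    rw [CentreB_chg, Nat.le_zero, Finset.card_eq_zero, Finset.filter_eq_empty_iff] at hk
    have key : ∀ j, j ≤ m → c j = a := by
      intro j
      induction j with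
      | zero => intro _; exact hc
      | succ j ih =>
        intro hj
        have h1 := hk (Finset.mem_range.2 (show j < m by omega))
        rw [not_not] at h1
        rw [h1]
        exact ih (by omega)
    exact (key i hi).symm
  | succ k ih =>
    obtain ⟨F, hF, hFc⟩ := ih
    refine ⟨F ∪ (F ×ˢ (Finset.range m ×ˢ G)).image
      (fun p => fun i => if p.2.1 < i then p.2.2 else p.1 i), ?_, ?_⟩
    · refine (Finset.card_union_le _ _).trans ?_
      have h1 := Finset.card_image_le (s := F ×ˢ (Finset.range m ×ˢ G))
        (f := fun p : (ℕ → α) × (ℕ × α) => fun i => if p.2.1 < i then p.2.2 else p.1 i)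
      rw [Finset.card_product, Finset.card_product, Finset.card_range] at h1
      calc _ ≤ F.card + F.card * (m * G.card) := Nat.add_le_add_left h1 _
        _ = F.card * (m * G.card + 1) := by ring
        _ ≤ (m * G.card + 1) ^ k * (m * G.card + 1) := Nat.mul_le_mul_right _ hF
        _ = _ := by rw [pow_succ]
    · intro c hc hG hk
      by_cases hk' : chg m c ≤ k
      · obtain ⟨c', h1, h2⟩ := hFc c hc hG hk'
        exact ⟨c', Finset.mem_union_left _ h1, h2⟩
      · have hne : ((Finset.range m).filter fun i => c (i + 1) ≠ c i).Nonempty := by
          rw [← Finset.card_pos]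
          rw [CentreB_chg] at hk'
          omega
        obtain ⟨t, ht, htm⟩ := Finset.exists_max_image _ id hne
        rw [Finset.mem_filter, Finset.mem_range] at ht
        have hcon : ∀ j, t + 1 ≤ j → j ≤ m → c j = c (t + 1) := by
          intro j
          induction j with
          | zero => intro h; omega
          | succ j ih2 =>
            intro h1 h2
            rcases Nat.lt_or_ge t j with h | h
            · rw [← ih2 h (by omega)]
              by_contra h3
              have h4 := htm j (Finset.mem_filter.2 ⟨Finset.mem_range.2 (by omega), h3⟩)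
              simp only [id] at h4
              omega
            · have : j = t := by omega
              rw [this]
        obtain ⟨c1, h1, h2⟩ := hFc (fun i => if i ≤ t then c i else c t) (by simp [hc])
          (by
            intro i hi
            split_ifs
            · exact hG i hi
            · exact hG t (by omega))
          (by
            have hsub : ((Finset.range m).filter fun i =>
                (if i + 1 ≤ t then c (i + 1) else c t) ≠ (if i ≤ t then c i else c t)) ⊂
                ((Finset.range m).filter fun i => c (i + 1) ≠ c i) := by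
              rw [Finset.ssubset_iff_of_subset]
              · refine ⟨t, Finset.mem_filter.2 ⟨Finset.mem_range.2 ht.1, ht.2⟩, ?_⟩
                rw [Finset.mem_filter]
                rintro ⟨_, h⟩
                simp at h
              · intro i hi
                rw [Finset.mem_filter] at hi ⊢
                refine ⟨hi.1, ?_⟩
                have h5 := hi.2
                rcases Nat.lt_trichotomy i t with h | h | h
                · rw [if_pos (by omega), if_pos (by omega)] at h5
                  exact h5
                · rw [h, if_neg (by omega), if_pos le_rfl] at h5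
                  exact absurd rfl h5
                · rw [if_neg (by omega), if_neg (by omega)] at h5
                  exact absurd rfl h5
            have h6 := Finset.card_lt_card hsub
            rw [CentreB_chg] at hk ⊢
            omega)
        refine ⟨fun i => if t < i then c (t + 1) else c1 i, Finset.mem_union_right _ ?_, ?_⟩
        · rw [Finset.mem_image]
          exact ⟨(c1, (t, c (t + 1))), Finset.mem_product.2 ⟨h1, Finset.mem_product.2
            ⟨Finset.mem_range.2 ht.1, hG _ (by omega)⟩⟩, rfl⟩
        · intro i hi
          dsimp only
          split_ifs with h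
          · exact (hcon i h hi).symm
          · rw [h2 i hi]
            simp [show i ≤ t by omega]

/-- The grid points in a cube. -/
theorem card_grid {R K : ℕ} (hR : 0 < R) :
    ∃ G : Finset (Site d), G.card ≤ (2 * K / R + 1) ^ d ∧
      ∀ c : Site d, (∀ j, (R : ℤ) ∣ c j) → sn c ≤ K → c ∈ G := by
  classical
  have hRZ : (0 : ℤ) < R := by exact_mod_cast hR
  refine ⟨Fintype.piFinset fun _ => (Finset.Icc (-((K / R : ℕ) : ℤ)) ((K / R : ℕ) : ℤ)).image
    fun t => (R : ℤ) * t, ?_, ?_⟩
  · rw [Fintype.card_piFinset, Finset.prod_const, Finset.card_univ, Fintype.card_fin]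
    refine Nat.pow_le_pow_left (Finset.card_image_le.trans ?_) d
    rw [Int.card_Icc]
    have h1 : 2 * (K / R) ≤ 2 * K / R := Nat.mul_div_le_mul_div_assoc 2 K R
    omega
  · intro c hc hK
    rw [Fintype.mem_piFinset]
    intro j
    obtain ⟨t, ht⟩ := hc j
    rw [Finset.mem_image]
    refine ⟨t, ?_, ht.symm⟩
    have h1 : (c j).natAbs ≤ K := by
      refine le_trans ?_ hK
      unfold sn
      exact Finset.le_sup (f := fun j => (c j).natAbs) (Finset.mem_univ j)
    have h2 : t.natAbs ≤ K / R := by
      rw [Nat.le_div_iff_mul_le hR, mul_comm]
      rw [ht, Int.natAbs_mul, Int.natAbs_natCast] at h1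
      exact h1
    rw [Finset.mem_Icc]
    omega

end Pool.Agent.W_7d29a1_h3
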