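import Pool.Agent.W_7d29a1_h3.SymB

/-!
Section 1: the threshold.
-/

namespace Pool.Agent.W_7d29a1_h3

open MeasureTheory ProbabilityTheory Filter Topology Pool.Agent.W_MP_7d29a1_pr
  Pool.Agent.W_7d29a1_h46 Pool.Agent.W_7d29a1_h46u

variable {d : ℕ} {ρ : Measure ℝ} [IsProbabilityMeasure ρ]

/-- Averaging over the sign changes of the coordinates outside a set. -/
private theorem CheapA_avg (j0 : Fin d) (hρ : EM ρ) (β : ℝ) (h : Vec d) (e : Fin d → Bool) :
    lam ρ β ((1 / 2 : ℝ) • h + (1 / 2 : ℝ) • vAct (Equiv.refl _) e h) ≤ lam ρ β h := by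
  have h1 := (lam_convex (ρ := ρ) (Fin.pos j0) hρ β).2 (Set.mem_univ h)
    (Set.mem_univ (vAct (Equiv.refl _) e h)) (by norm_num : (0 : ℝ) ≤ 1 / 2)
    (by norm_num : (0 : ℝ) ≤ 1 / 2) (by norm_num)
  simp only [lam_act, smul_eq_mul] at h1
  linarith

/-- `lam h ≥ lam 0` (convexity and `lam (-h) = lam h`). -/
theorem lam_ge (j0 : Fin d) (hρ : EM ρ) (β : ℝ) (h : Vec d) :
    lam ρ β (0 : Vec d) ≤ lam ρ β h := by
  have h1 := CheapA_avg j0 hρ β h (fun _ => false)
  have h2 : (1 / 2 : ℝ) • h + (1 / 2 : ℝ) • vAct (Equiv.refl _) (fun _ => false) h = (0 : Vec d) := by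
    ext k
    simp [vAct]
  rwa [h2] at h1

private theorem CheapA_one (j0 : Fin d) (hρ : EM ρ) (β : ℝ) (h : Vec d) (i : Fin d) :
    lam ρ β ((h i) • ej i) ≤ lam ρ β h := by
  have h1 := CheapA_avg j0 hρ β h (fun j => decide (j = i))
  have h2 : (1 / 2 : ℝ) • h + (1 / 2 : ℝ) • vAct (Equiv.refl _) (fun j => decide (j = i)) h =
      (h i) • ej i := by
    ext k
    by_cases hk : k = i
    · subst hk
      simp [vAct, ej]
      ring
    · simp [vAct, ej, hk]
  rwa [h2] at h1

private theorem CheapA_axis (β t : ℝ) (j j' : Fin d) :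
    lam ρ β (t • ej j) = lam ρ β (t • ej j') := by
  obtain ⟨τ, e, h⟩ := tl_act t j j' true true
  have h1 := lam_act (ρ := ρ) (β := β) τ e (tl t j true)
  rw [h] at h1
  simp only [tl, if_true] at h1
  exact h1.symm

private theorem CheapA_neg (β t : ℝ) (j : Fin d) :
    lam ρ β ((-t) • ej j) = lam ρ β (t • ej j) := by
  obtain ⟨τ, e, h⟩ := tl_act t j j true false
  have h1 := lam_act (ρ := ρ) (β := β) τ e (tl t j true)
  rw [h] at h1
  simp only [tl, if_true, Bool.false_eq_true, if_false] at h1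
  exact h1

private theorem CheapA_grow (j : Fin d) (hρ : EM ρ) (β t : ℝ) :
    t + β * ∫ x, x ∂ρ ≤ lam ρ β (t • ej j) := by
  have hd := Fin.pos j
  have h1 := A_le_lam (ρ := ρ) hd hρ β (t • ej j) 1
  rw [Nat.cast_one, one_mul] at h1
  refine le_trans ?_ h1
  have hi : Integrable (fun x : ℝ => x) ρ := by
    refine ((hρ 1).add (hρ (-1))).mono' measurable_id.aestronglyMeasurable
      (Filter.Eventually.of_forall fun x => ?_)
    rw [Real.norm_eq_abs]
    simp only [Pi.add_apply, one_mul, neg_mul]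
    have e1 := Real.add_one_le_exp x
    have e2 := Real.add_one_le_exp (-x)
    have e3 := Real.exp_pos x
    have e4 := Real.exp_pos (-x)
    rcases abs_cases x with ⟨h, -⟩ | ⟨h, -⟩ <;> rw [h] <;> linarith
  have hmp : MeasurePreserving (fun η : Env d => η (1, Pi.single j 1)) (law d ρ) ρ := by
    refine ⟨measurable_pi_apply _, ?_⟩
    exact Measure.infinitePi_map_eval (μ := fun _ : ℕ × Site d => ρ) (1, Pi.single j 1)
  have hi2 : Integrable (fun η : Env d => η (1, Pi.single j 1)) (law d ρ) :=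
    (hmp.integrable_comp measurable_id.aestronglyMeasurable).2 hi
  have hi3 : ∫ η : Env d, η (1, Pi.single j 1) ∂(law d ρ) = ∫ x, x ∂ρ :=
    LawU_integral hmp (F := fun x : ℝ => x) measurable_id.aestronglyMeasurable
  have h2 : ∀ η : Env d, t + β * η (1, Pi.single j 1) ≤ X β (t • ej j) η 1 := by
    intro η
    have hZ := Z_pos hd β (t • ej j) η 1
    rw [X, Real.le_log_iff_exp_le hZ, Z_eq]
    have h3 : wgt β (t • ej j) η (fun _ : Fin 1 => (j, true)) =
        Real.exp (t + β * η (1, Pi.single j 1)) := by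
      unfold wgt
      congr 1
      have e1 : pos (fun _ : Fin 1 => (j, true)) 1 = (Pi.single j 1 : Site d) := by
        simp [pos, vec]
      have e2 : energy η (fun _ : Fin 1 => (j, true)) = η (1, Pi.single j 1) := by
        unfold energy
        rw [Fin.sum_univ_one]
        simp [e1]
      have e3 : inner ℝ (t • ej j) (emb (Pi.single j 1 : Site d)) = t := by
        rw [real_inner_smul_left]
        have e4 : inner ℝ (ej j) (emb (Pi.single j 1 : Site d)) = (1 : ℝ) := by
          unfold ej emb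
          rw [EuclideanSpace.inner_single_left]
          simp
        rw [e4, mul_one]
      rw [e1, e2, e3]
    rw [← h3]
    exact Finset.single_le_sum (f := fun s => wgt β (t • ej j) η s)
      (fun s _ => (wgt_pos β (t • ej j) η s).le) (Finset.mem_univ _)
  have h4 := integral_mono ((integrable_const t).add (hi2.const_mul β)) (concU hd hρ β (t • ej j) 1).1 h2
  have h5 : ∫ η : Env d, (t + β * η (1, Pi.single j 1)) ∂(law d ρ) = t + β * ∫ x, x ∂ρ := by
    rw [integral_add (integrable_const t) (hi2.const_mul β), integral_const_mul, hi3]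
    simp
  rw [← h5]
  exact h4

/-- TASK Cheap1. Suppose `lam h ≤ lam 0`, `h ≠ 0`, `h i ≠ 0`. Convexity over the sign changes of the other
coordinates (one coordinate after the other, `lam_act`) gives `lam ((h i) • ej i) = lam 0`; by `lam_act`
`{t ≥ 0 | lam (t • ej j) = lam 0}` is the same for all `j`, it is closed (a finite convex function on `ℝ` is
continuous), bounded (`lam (t e) ≥ t + β ∫ x dρ`, one straight path: `A_le_lam` with `n = 1`,
`A 1 ≥ t + β ∫ x dρ`), and `κ` is its maximum. -/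
theorem setup_of (hρ : EM ρ) (hnc : ∀ c : ℝ, ρ {c} ≠ 1) {β : ℝ} (hβ : 0 < β) {h : Vec d}
    (hh : h ≠ 0) (hlam : lam ρ β h ≤ lam ρ β (0 : Vec d)) : ∃ κ : ℝ, Setup d ρ β κ := by
  obtain ⟨i, hi⟩ : ∃ i, h i ≠ 0 := by
    by_contra hcon
    push Not at hcon
    exact hh (by ext k; simp [hcon k])
  have hconv : ConvexOn ℝ Set.univ (fun t : ℝ => lam ρ β (t • ej i)) := by
    refine ⟨convex_univ, fun x _ y _ a b ha hb hab => ?_⟩
    have h1 := (lam_convex (ρ := ρ) (Fin.pos i) hρ β).2 (Set.mem_univ (x • ej i))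
      (Set.mem_univ (y • ej i)) ha hb hab
    have h2 : (a • x + b • y) • (ej i : Vec d) = a • (x • ej i) + b • (y • ej i) := by
      rw [add_smul, smul_assoc, smul_assoc]
    simp only [h2]
    exact h1
  have hcont : Continuous (fun t : ℝ => lam ρ β (t • ej i)) := by
    rw [← continuousOn_univ]
    exact hconv.continuousOn isOpen_univ
  obtain ⟨S, hS⟩ : ∃ S : Set ℝ, S = {t : ℝ | lam ρ β (t • ej i) ≤ lam ρ β (0 : Vec d)} := ⟨_, rfl⟩
  have hcl : IsClosed S := by
    rw [hS]
    exact isClosed_le hcont continuous_const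
  have hbd : BddAbove S := by
    refine ⟨lam ρ β (0 : Vec d) - β * ∫ x, x ∂ρ, fun t ht => ?_⟩
    rw [hS] at ht
    have h1 := CheapA_grow (ρ := ρ) i hρ β t
    have h2 : lam ρ β (t • ej i) ≤ lam ρ β (0 : Vec d) := ht
    linarith
  have hmem : |h i| ∈ S := by
    rw [hS]
    have h1 := (CheapA_one i hρ β h i).trans hlam
    rcases abs_cases (h i) with ⟨h2, -⟩ | ⟨h2, -⟩
    · rw [Set.mem_ofPred_eq, h2]
      exact h1
    · rw [Set.mem_ofPred_eq, h2, CheapA_neg]
      exact h1
  have hk := hcl.csSup_mem ⟨_, hmem⟩ hbd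
  have hle := le_csSup hbd hmem
  have hub : ∀ t ∈ S, t ≤ sSup S := fun t ht => le_csSup hbd ht
  generalize sSup S = κ at hk hle hub
  have hpos : 0 < κ := lt_of_lt_of_le (abs_pos.2 hi) hle
  have hk1 : lam ρ β (κ • ej i) ≤ lam ρ β (0 : Vec d) := by
    rw [hS] at hk
    exact hk
  refine ⟨κ, hρ, hnc, hβ, hpos, fun j t ht => ?_, fun j t ht => ?_⟩
  · refine le_antisymm ?_ (lam_ge i hρ β _)
    rw [CheapA_axis β t j i]
    have h1 := hconv.le_max_of_mem_Icc (Set.mem_univ (-κ)) (Set.mem_univ κ)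
      (show t ∈ Set.Icc (-κ) κ from ⟨(abs_le.1 ht).1, (abs_le.1 ht).2⟩)
    simp only [CheapA_neg, max_self] at h1
    exact h1.trans hk1
  · rw [CheapA_axis β t j i]
    by_contra hcon
    push Not at hcon
    have h1 : t ∈ S := by
      rw [hS]
      exact hcon
    have := hub t h1
    linarith

end Pool.Agent.W_7d29a1_h3
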