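import Pool.Agent.W_7d29a1_h3.MeanC

/-!
Section 1: the cheap direction.
-/

namespace Pool.Agent.W_7d29a1_h3

open MeasureTheory ProbabilityTheory Filter Topology Pool.Agent.W_MP_7d29a1_pr
  Pool.Agent.W_7d29a1_h46 Pool.Agent.W_7d29a1_h46u

variable {d : ℕ} {ρ : Measure ℝ} [IsProbabilityMeasure ρ]

/-- `√l log l` is small compared with `l`. -/
private theorem CheapB_log {C c : ℝ} (hC : 0 < C) (hc : 0 < c) :
    ∀ᶠ l : ℕ in atTop, C * (Real.sqrt l * Real.log l) ≤ c * l := by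
  have h1 := (isLittleO_log_rpow_atTop (r := 1 / 2) (by norm_num)).def (div_pos hc hC)
  have h2 := (tendsto_natCast_atTop_atTop (R := ℝ)).eventually h1
  filter_upwards [h2] with l hl
  rw [← Real.sqrt_eq_rpow, Real.norm_of_nonneg (Real.sqrt_nonneg _)] at hl
  have h3 : Real.log l ≤ c / C * Real.sqrt l := (le_abs_self _).trans hl
  have h4 : Real.sqrt l * Real.log l ≤ Real.sqrt l * (c / C * Real.sqrt l) :=
    mul_le_mul_of_nonneg_left h3 (Real.sqrt_nonneg _)
  have h5 : Real.sqrt l * (c / C * Real.sqrt l) = c / C * l := by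
    have := Real.mul_self_sqrt (Nat.cast_nonneg (α := ℝ) l)
    linear_combination (c / C) * this
  calc C * (Real.sqrt l * Real.log l) ≤ C * (c / C * l) :=
        mul_le_mul_of_nonneg_left (h4.trans h5.le) hC.le
    _ = c * l := by field_simp

/-- `l ^ 0.52` is small compared with `l`. -/
private theorem CheapB_pow {C c : ℝ} (hC : 0 < C) (hc : 0 < c) :
    ∀ᶠ l : ℕ in atTop, C * (l : ℝ) ^ (0.52 : ℝ) ≤ c * l := by
  have h1 : Tendsto (fun x : ℝ => x ^ (-(0.48 : ℝ))) atTop (𝓝 0) :=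
    tendsto_rpow_neg_atTop (by norm_num)
  have h2 := (h1.comp (tendsto_natCast_atTop_atTop (R := ℝ))).eventually
    (gt_mem_nhds (div_pos hc hC))
  filter_upwards [h2, eventually_gt_atTop 0] with l hl hl0
  have hl' : (0 : ℝ) < l := by exact_mod_cast hl0
  have h3 : (l : ℝ) ^ (0.52 : ℝ) = (l : ℝ) ^ (-(0.48 : ℝ)) * l := by
    have := Real.rpow_add hl' (-(0.48 : ℝ)) 1
    rw [Real.rpow_one] at this
    rw [← this]
    norm_num
  have h4 : (l : ℝ) ^ (-(0.48 : ℝ)) ≤ c / C := by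
    simpa [Function.comp] using hl.le
  rw [h3]
  calc C * ((l : ℝ) ^ (-(0.48 : ℝ)) * l) ≤ C * (c / C * l) :=
        mul_le_mul_of_nonneg_left (mul_le_mul_of_nonneg_right h4 hl'.le) hC.le
    _ = c * l := by field_simp

private theorem CheapB_inner (j0 : Fin d) (t : ℝ) (y : Site d) :
    inner ℝ (t • ej j0 : Vec d) (emb y) = t * y j0 := by
  have h := inner_tl (d := d) t j0 true y
  simpa [tl] using h

/-- The reflection in the coordinates other than `j0`. -/
private theorem CheapB_refl (j0 : Fin d) (y : Site d) :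
    y + sAct 1 (fun j => decide (j = j0)) y = (2 * y j0) • es j0 := by
  funext j
  by_cases hj : j = j0
  · subst hj
    simp [sAct, es]
    ring
  · simp [sAct, es, hj]

private theorem CheapB_le_ln (j0 : Fin d) (y : Site d) : (y j0).natAbs ≤ ln y :=
  Finset.single_le_sum (f := fun j => (y j).natAbs) (fun _ _ => Nat.zero_le _)
    (Finset.mem_univ j0)

/-- TASK Cheap2. (1.1). `h = (κ + ε/2) • ej j0`, `lam' = lam h - lam 0 > 0`. For large `l`
`- ∫ H_h(l) = A_h(l) - l lam 0 ≥ l lam' / 2` (`tendsto_A`), so `exists_y` gives `y`, `adm l y`, with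
`(κ + ε/2) y_j0 - g l y ≥ l lam' / 4`. As `g ≥ 0`, `y_j0 ≥ c l > 0`, and `g l y ≤ (κ + ε/2) y_j0`. Reflect the
other coordinates (`g_act`, `e j = (j = j0)`): `g (2 l) (2 y_j0 e_j0) ≤ 2 g l y`. `L = 2 l`, `a = 2 y_j0`;
`g L 0 ≤ C l ^ 0.52 ≤ ε a` for large `l`. -/
theorem cheap (j0 : Fin d) (hρ : EM ρ) {β κ : ℝ} (hκ : 0 ≤ κ)
    (hst : ∀ t : ℝ, κ < t → lam ρ β (0 : Vec d) < lam ρ β (t • ej j0)) {ε : ℝ} (hε : 0 < ε) :
    ∃ L a : ℕ, 0 < L ∧ 0 < a ∧ Even L ∧ Even a ∧ a ≤ L ∧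
      g ρ β L ((a : ℤ) • es j0) ≤ (κ + ε) * a ∧ g ρ β L (0 : Site d) ≤ ε * a := by
  have hd : 0 < d := Fin.pos j0
  obtain ⟨t, ht⟩ : ∃ t : ℝ, t = κ + ε / 2 := ⟨_, rfl⟩
  have ht0 : 0 < t := by rw [ht]; linarith
  have hκt : κ < t := by rw [ht]; linarith
  have htκ : t ≤ κ + ε := by rw [ht]; linarith
  obtain ⟨v, hv⟩ : ∃ v : ℝ, v = lam ρ β (t • ej j0) - lam ρ β (0 : Vec d) := ⟨_, rfl⟩
  have hv0 : 0 < v := by rw [hv]; linarith [hst t hκt]
  obtain ⟨C1, hC1, hy⟩ := exists_y j0 hρ β ‖(t • ej j0 : Vec d)‖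
  obtain ⟨C2, hC2, hz⟩ := g_zero_le j0 hρ β
  have hA := (tendsto_A hd hρ β (t • ej j0)).eventually
    (lt_mem_nhds (show lam ρ β (t • ej j0) - v / 4 < lam ρ β (t • ej j0) by linarith))
  have hB := CheapB_log hC1 (show (0 : ℝ) < v / 4 by positivity)
  have hP := CheapB_pow hC2 (show (0 : ℝ) < ε * (v / t) by positivity)
  obtain ⟨l, hAl, hBl, hPl, hl2⟩ := (hA.and (hB.and (hP.and (eventually_ge_atTop 2)))).exists
  have hl0 : (0 : ℝ) < l := by
    have : 0 < l := by omega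
    exact_mod_cast this
  obtain ⟨y, hyl, hyi⟩ := hy (t • ej j0) le_rfl l hl2
  rw [CheapB_inner] at hyi
  have hH : ∫ η, HH ρ β (t • ej j0) η l ∂(law d ρ) =
      l * lam ρ β (0 : Vec d) - A ρ β (t • ej j0) l := by
    unfold HH A
    rw [integral_sub (integrable_const _) (concU hd hρ β (t • ej j0) l).1]
    simp
  have hAl' : (lam ρ β (t • ej j0) - v / 4) * l < A ρ β (t • ej j0) l :=
    (lt_div_iff₀ hl0).1 hAl
  have hg := g_nonneg j0 hρ β hyl
  have hkey : v / 2 * l ≤ t * y j0 - g ρ β l y := by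
    rw [hH] at hyi
    have h1 : (lam ρ β (t • ej j0) - v / 4) * l =
        l * lam ρ β (0 : Vec d) + (3 / 4) * v * l := by
      have : lam ρ β (t • ej j0) = lam ρ β (0 : Vec d) + v := by rw [hv]; ring
      rw [this]
      ring
    nlinarith [hyi, hAl', h1, hBl]
  have hvl : 0 < v / 2 * l := by positivity
  have hty : v / 2 * l ≤ t * (y j0 : ℝ) := by linarith
  have hyr : (v / t) * l ≤ 2 * (y j0 : ℝ) := by
    have h1 : (v / t) * l = 2 / t * (v / 2 * l) := by field_simp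
    have h2 : 2 / t * (v / 2 * l) ≤ 2 / t * (t * (y j0 : ℝ)) :=
      mul_le_mul_of_nonneg_left hty (by positivity)
    have h3 : 2 / t * (t * (y j0 : ℝ)) = 2 * (y j0 : ℝ) := by field_simp
    linarith
  have hypos : (0 : ℝ) < y j0 := by
    by_contra hneg
    have := mul_nonpos_of_nonneg_of_nonpos ht0.le (not_lt.1 hneg)
    linarith
  have hyZ : 0 < y j0 := by exact_mod_cast hypos
  obtain ⟨m, hm⟩ : ∃ m : ℕ, y j0 = m := ⟨(y j0).toNat, (Int.toNat_of_nonneg hyZ.le).symm⟩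
  have hm0 : 0 < m := by
    rw [hm] at hyZ
    exact_mod_cast hyZ
  have hml : m ≤ l := by
    have h1 := CheapB_le_ln j0 y
    rw [hm, Int.natAbs_natCast] at h1
    exact h1.trans hyl.1
  have hyl' : adm l (sAct 1 (fun j => decide (j = j0)) y) := by
    unfold adm
    rw [sAct_ln]
    exact hyl
  refine ⟨2 * l, 2 * m, by omega, by omega, even_two_mul l, even_two_mul m, by omega, ?_, ?_⟩
  · have h1 := g_add j0 hρ β hyl hyl'
    rw [g_act, CheapB_refl, ← two_mul l, hm] at h1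
    have h2 : ((2 * m : ℕ) : ℤ) = 2 * (m : ℤ) := by push_cast; ring
    rw [h2]
    have hmR : (y j0 : ℝ) = m := by rw [hm]; simp
    rw [hmR] at hkey
    have h3 : t * (m : ℝ) ≤ (κ + ε) * m := mul_le_mul_of_nonneg_right htκ (Nat.cast_nonneg m)
    push_cast
    linarith
  · have h1 := hz l (by omega)
    have hmR : (y j0 : ℝ) = m := by rw [hm]; simp
    rw [hmR] at hyr
    have h2 := mul_le_mul_of_nonneg_left hyr hε.le
    push_cast
    linarith

end Pool.Agent.W_7d29a1_h3
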