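import Pool.Agent.W_7d29a1_h3.CheapB

/-!
Section 1: travelling along the cheap direction.
-/

namespace Pool.Agent.W_7d29a1_h3

open MeasureTheory ProbabilityTheory Filter Topology Pool.Agent.W_MP_7d29a1_pr
  Pool.Agent.W_7d29a1_h46 Pool.Agent.W_7d29a1_h46u

variable {d : ℕ} {ρ : Measure ℝ} [IsProbabilityMeasure ρ]

private theorem CheapC_ln (j0 : Fin d) (k : ℕ) : ln (((k : ℕ) : ℤ) • es j0) = k := by
  classical
  unfold ln es
  rw [Finset.sum_eq_single j0]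
  · simp
  · intro j _ hj
    simp [hj]
  · intro h
    exact absurd (Finset.mem_univ j0) h

private theorem CheapC_adm (j0 : Fin d) {n k : ℕ} (hk : k ≤ n) (hn : Even n) (hk2 : Even k) :
    adm n (((k : ℕ) : ℤ) • es j0) := by
  refine ⟨by rw [CheapC_ln]; exact hk, ?_⟩
  rw [CheapC_ln]
  exact Nat.even_iff.1 (hk2.add hn)

/-- TASK Cheap3. (1.2): mean by `g_mul` (`≤ κ j a + 2 ε i a`), tail by `concE_up` with a small constant `t`. -/
theorem travel (j0 : Fin d) (hρ : EM ρ) {β κ : ℝ} (hκ : 0 ≤ κ)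
    (hst : ∀ t : ℝ, κ < t → lam ρ β (0 : Vec d) < lam ρ β (t • ej j0)) {ε : ℝ} (hε : 0 < ε) :
    ∃ L a : ℕ, 0 < L ∧ 0 < a ∧ Even L ∧ Even a ∧ a ≤ L ∧ ∃ c : ℝ, 0 < c ∧ ∀ i j : ℕ, j ≤ i → 1 ≤ i →
      (law d ρ).real {η | ¬ Real.exp (-(κ * (j * a) + 4 * ε * (i * a))) ≤
        Vp ρ β η (i * L) (((j * a : ℕ) : ℤ) • es j0)} ≤ Real.exp (-(c * i)) := by
  obtain ⟨L, a, hL, ha, hLe, hae, haL, h1, h2⟩ := cheap j0 hρ hκ hst hε
  refine ⟨L, a, hL, ha, hLe, hae, haL, ?_⟩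
  have haR : (0 : ℝ) < a := by exact_mod_cast ha
  have hLR : (0 : ℝ) < L := by exact_mod_cast hL
  have hden : 0 < Kc β ρ ^ 2 * L + 1 := by positivity
  obtain ⟨t, ht⟩ : ∃ t : ℝ, t = min 1 (ε * a / (Kc β ρ ^ 2 * L + 1)) := ⟨_, rfl⟩
  have ht0 : 0 < t := by
    rw [ht]
    exact lt_min one_pos (by positivity)
  have ht1 : t ≤ 1 := by
    rw [ht]
    exact min_le_left _ _
  have ht2 : t * (Kc β ρ ^ 2 * L) ≤ ε * a := by
    have e1 : t ≤ ε * a / (Kc β ρ ^ 2 * L + 1) := by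
      rw [ht]
      exact min_le_right _ _
    rw [le_div_iff₀ hden] at e1
    linarith
  refine ⟨2 * ε * a * t, by positivity, ?_⟩
  intro i j hji hi
  have hjR : (j : ℝ) ≤ i := by exact_mod_cast hji
  have hiR : (1 : ℝ) ≤ i := by exact_mod_cast hi
  have hx : adm L (((a : ℕ) : ℤ) • es j0) := CheapC_adm j0 haL hLe hae
  have hz : adm L (0 : Site d) := by
    have := CheapC_adm (d := d) j0 (n := L) (k := 0) (Nat.zero_le _) hLe Even.zero
    simpa using this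
  have hy : adm (i * L) (((j * a : ℕ) : ℤ) • es j0) :=
    CheapC_adm j0 (Nat.mul_le_mul hji haL) (hLe.mul_left i) (hae.mul_left j)
  have hsm : j • (((a : ℕ) : ℤ) • es j0 : Site d) = ((j * a : ℕ) : ℤ) • es j0 := by
    rw [← natCast_zsmul, smul_smul]
    push_cast
    rfl
  have hg := g_mul j0 hρ β hx hz i j hji
  rw [hsm] at hg
  have hg2 : g ρ β (i * L) (((j * a : ℕ) : ℤ) • es j0) ≤ κ * (j * a) + ε * (i * a) := by
    have e1 : (j : ℝ) * g ρ β L (((a : ℕ) : ℤ) • es j0) ≤ j * ((κ + ε) * a) :=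
      mul_le_mul_of_nonneg_left h1 (Nat.cast_nonneg j)
    have e2 : ((i : ℝ) - j) * g ρ β L (0 : Site d) ≤ ((i : ℝ) - j) * (ε * a) :=
      mul_le_mul_of_nonneg_left h2 (by linarith)
    nlinarith
  have hne : (toP (i * L) (((j * a : ℕ) : ℤ) • es j0)).Nonempty := (adm_iff j0).1 hy
  have hup := concE_up (t := t) (z := 3 * ε * (i * a)) hρ β hne ht0.le ht1
  have hmono : (law d ρ).real {η | ¬ Real.exp (-(κ * (j * a) + 4 * ε * (i * a))) ≤
        Vp ρ β η (i * L) (((j * a : ℕ) : ℤ) • es j0)} ≤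
      (law d ρ).real {η | ¬ Real.exp (-(gE ρ β (toP (i * L) (((j * a : ℕ) : ℤ) • es j0)) + 3 * ε * (i * a))) ≤
        V ρ β η (toP (i * L) (((j * a : ℕ) : ℤ) • es j0))} := by
    refine measureReal_mono ?_
    intro η hη hcon
    apply hη
    refine le_trans (Real.exp_le_exp.2 ?_) hcon
    have : gE ρ β (toP (i * L) (((j * a : ℕ) : ℤ) • es j0)) ≤ κ * (j * a) + ε * (i * a) := hg2
    linarith
  refine hmono.trans (hup.trans (Real.exp_le_exp.2 ?_))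
  have e3 : Kc β ρ ^ 2 * t ^ 2 * ((i * L : ℕ) : ℝ) = (t * (Kc β ρ ^ 2 * L)) * (t * i) := by
    push_cast
    ring
  rw [e3]
  have e4 : (t * (Kc β ρ ^ 2 * L)) * (t * i) ≤ (ε * a) * (t * i) :=
    mul_le_mul_of_nonneg_right ht2 (by positivity)
  nlinarith

end Pool.Agent.W_7d29a1_h3
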