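import Pool.Agent.W_7d29a1_h3.Wt

/-!
Concentration of `log V` for every nonempty set of walks.
-/

namespace Pool.Agent.W_7d29a1_h3

open MeasureTheory ProbabilityTheory Filter Topology Pool.Agent.W_MP_7d29a1_pr
  Pool.Agent.W_7d29a1_h46 Pool.Agent.W_7d29a1_h46u

variable {d : ℕ} {ρ : Measure ℝ} [IsProbabilityMeasure ρ]

/-- The partition function of a finite set of walks as a function of the rows. -/
noncomputable def Conc_Z {d : ℕ} (β : ℝ) (n : ℕ) (E : Finset (Fin n → Step d))
    (ξ : Fin n → Site d → ℝ) : ℝ :=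
  ∑ s ∈ E, Real.exp (β * ∑ i : Fin n, ξ i (pos s ((i : ℕ) + 1)))

/-- The weight of a walk without the row `i`. -/
noncomputable def Conc_w (β : ℝ) (n : ℕ) (i : Fin n) (ξ : Fin n → Site d → ℝ)
    (s : Fin n → Step d) : ℝ :=
  Real.exp (β * ∑ j ∈ Finset.univ.erase i, ξ j (pos s ((j : ℕ) + 1)))

lemma Conc_w_pos (β : ℝ) (n : ℕ) (i : Fin n) (ξ : Fin n → Site d → ℝ)
    (s : Fin n → Step d) : 0 < Conc_w β n i ξ s := Real.exp_pos _

lemma Conc_w_meas (β : ℝ) (n : ℕ) (i : Fin n) (s : Fin n → Step d) :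
    Measurable fun ξ : Fin n → Site d → ℝ => Conc_w β n i ξ s := by
  unfold Conc_w
  refine Real.measurable_exp.comp (Measurable.const_mul ?_ β)
  refine Finset.measurable_sum _ fun j _ => ?_
  exact (measurable_pi_apply _).comp (measurable_pi_apply j)

lemma Conc_w_upd (β : ℝ) (n : ℕ) (i : Fin n) (ξ : Fin n → Site d → ℝ)
    (u : Site d → ℝ) (s : Fin n → Step d) :
    Conc_w β n i (Function.update ξ i u) s = Conc_w β n i ξ s := by
  unfold Conc_w
  congr 2
  refine Finset.sum_congr rfl fun j hj => ?_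
  rw [Function.update_of_ne (Finset.ne_of_mem_erase hj)]

lemma Conc_Z_upd (β : ℝ) (n : ℕ) (E : Finset (Fin n → Step d)) (i : Fin n)
    (ξ : Fin n → Site d → ℝ) (u : Site d → ℝ) : Conc_Z β n E (Function.update ξ i u) =
      ∑ s ∈ E, Real.exp (β * u (pos s ((i : ℕ) + 1))) * Conc_w β n i ξ s := by
  unfold Conc_Z
  refine Finset.sum_congr rfl fun s _ => ?_
  have h1 : ∑ j : Fin n, Function.update ξ i u j (pos s ((j : ℕ) + 1)) =
      u (pos s ((i : ℕ) + 1)) + ∑ j ∈ Finset.univ.erase i, ξ j (pos s ((j : ℕ) + 1)) := by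
    rw [← Finset.add_sum_erase _ _ (Finset.mem_univ i), Function.update_self]
    congr 1
    refine Finset.sum_congr rfl fun j hj => ?_
    rw [Function.update_of_ne (Finset.ne_of_mem_erase hj)]
  rw [h1]
  unfold Conc_w
  rw [← Real.exp_add]
  congr 1
  ring

lemma Conc_meas (β : ℝ) (n : ℕ) (E : Finset (Fin n → Step d)) :
    Measurable fun ξ : Fin n → Site d → ℝ => Real.log (Conc_Z β n E ξ) := by
  refine Real.measurable_log.comp ?_
  unfold Conc_Z
  refine Finset.measurable_sum _ fun s _ => Real.measurable_exp.comp ?_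
  refine Measurable.const_mul (Finset.measurable_sum _ fun i _ => ?_) β
  exact (measurable_pi_apply _).comp (measurable_pi_apply i)

/-- One row. -/
theorem Conc_row (hρ : EM ρ) (β : ℝ) (n : ℕ) {E : Finset (Fin n → Step d)} (hE : E.Nonempty)
    (i : Fin n) :
    ∃ G : (Fin n → Site d → ℝ) → ℝ, Measurable G ∧
      (∀ ξ u, G (Function.update ξ i u) = G ξ) ∧
      ∀ ξ, Integrable (fun u => Real.exp (2 * |Real.log (Conc_Z β n E (Function.update ξ i u)) - G ξ|))
          (Measure.infinitePi fun _ : Site d => ρ) ∧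
        ∫ u, Real.exp (2 * |Real.log (Conc_Z β n E (Function.update ξ i u)) - G ξ|)
          ∂(Measure.infinitePi fun _ : Site d => ρ) ≤ Kc β ρ := by
  classical
  refine ⟨fun ξ => Real.log (∑ s ∈ E, Conc_w β n i ξ s), ?_, ?_, ?_⟩
  · exact Real.measurable_log.comp (Finset.measurable_sum _ fun s _ => Conc_w_meas β n i s)
  · intro ξ u
    simp only [Conc_w_upd]
  intro ξ
  obtain ⟨w, hw⟩ : ∃ w : (Fin n → Step d) → ℝ, w = Conc_w β n i ξ := ⟨_, rfl⟩
  obtain ⟨U, hU⟩ : ∃ U : ℝ, U = ∑ s ∈ E, w s := ⟨_, rfl⟩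
  have hw0 : ∀ s, 0 < w s := fun s => by rw [hw]; exact Conc_w_pos _ _ _ _ _
  have hU0 : 0 < U := by
    rw [hU]
    exact Finset.sum_pos (fun s _ => hw0 s) hE
  -- the bound
  obtain ⟨B, hB⟩ : ∃ B : (Site d → ℝ) → ℝ, B = fun u => ∑ s ∈ E, (w s / U) *
      (Real.exp (2 * β * u (pos s ((i : ℕ) + 1))) +
        Real.exp (-(2 * β) * u (pos s ((i : ℕ) + 1)))) := ⟨_, rfl⟩
  have hle : ∀ u : Site d → ℝ, Real.exp (2 * |Real.log (Conc_Z β n E (Function.update ξ i u)) -
      Real.log (∑ s ∈ E, Conc_w β n i ξ s)|) ≤ B u := by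
    intro u
    rw [Conc_Z_upd, ← hw]
    have h1 := (ConcU_alg E w (fun s => β * u (pos s ((i : ℕ) + 1)))
      (fun s _ => (hw0 s).le) (by rw [← hU]; exact hU0)).2
    refine h1.trans ?_
    rw [← hU, hB, Finset.sum_div]
    refine Finset.sum_le_sum fun s _ => ?_
    rw [mul_div_right_comm]
    refine mul_le_mul_of_nonneg_left ?_ (div_nonneg (hw0 s).le hU0.le)
    have h2 := ConcU_exp_abs (β * u (pos s ((i : ℕ) + 1)))
    have e1 : 2 * (β * u (pos s ((i : ℕ) + 1))) = 2 * β * u (pos s ((i : ℕ) + 1)) := by ring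
    rw [e1] at h2
    rw [show -(2 * β * u (pos s ((i : ℕ) + 1))) = -(2 * β) * u (pos s ((i : ℕ) + 1)) by ring] at h2
    exact h2
  have hI : ∀ s : Fin n → Step d, Integrable (fun u : Site d → ℝ => (w s / U) *
      (Real.exp (2 * β * u (pos s ((i : ℕ) + 1))) +
        Real.exp (-(2 * β) * u (pos s ((i : ℕ) + 1)))))
      (Measure.infinitePi fun _ : Site d => ρ) := fun s =>
    ((ConcU_int hρ _ _).1.add (ConcU_int hρ _ _).1).const_mul _
  have hBI : Integrable B (Measure.infinitePi fun _ : Site d => ρ) := by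
    rw [hB]
    exact integrable_finsetSum _ fun s _ => hI s
  have hBv : ∫ u, B u ∂(Measure.infinitePi fun _ : Site d => ρ) = Kc β ρ := by
    rw [hB, integral_finsetSum _ fun s _ => hI s]
    have h3 : ∀ s : Fin n → Step d, ∫ u : Site d → ℝ, (w s / U) *
        (Real.exp (2 * β * u (pos s ((i : ℕ) + 1))) +
          Real.exp (-(2 * β) * u (pos s ((i : ℕ) + 1))))
        ∂(Measure.infinitePi fun _ : Site d => ρ) = (w s / U) * Kc β ρ := by
      intro s
      rw [integral_const_mul, integral_add (ConcU_int hρ _ _).1 (ConcU_int hρ _ _).1,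
        (ConcU_int hρ _ _).2, (ConcU_int hρ _ _).2]
      unfold Kc
      rw [← integral_add (hρ _) (hρ _)]
      congr 1
      refine integral_congr_ae (Filter.Eventually.of_forall fun t => ?_)
      change Real.exp (2 * β * t) + Real.exp (-(2 * β) * t) =
        Real.exp (2 * β * t) + Real.exp (-(2 * β * t))
      rw [neg_mul]
    rw [Finset.sum_congr rfl fun s _ => h3 s, ← Finset.sum_mul, ← Finset.sum_div, ← hU,
      div_self hU0.ne', one_mul]
  have hmeas : Measurable fun u : Site d → ℝ =>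
      Real.exp (2 * |Real.log (Conc_Z β n E (Function.update ξ i u)) -
        Real.log (∑ s ∈ E, Conc_w β n i ξ s)|) := by
    have h4 : Measurable fun u : Site d → ℝ => Conc_Z β n E (Function.update ξ i u) := by
      simp only [Conc_Z_upd]
      refine Finset.measurable_sum _ fun s _ => ?_
      have h6 : Measurable fun u : Site d → ℝ => u (pos s ((i : ℕ) + 1)) :=
        measurable_pi_apply _
      exact (Real.measurable_exp.comp (h6.const_mul β)).mul_const _
    have h5 := ((Real.measurable_log.comp h4).sub_const (Real.log (∑ s ∈ E, Conc_w β n i ξ s)))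
    exact Real.measurable_exp.comp ((measurable_norm.comp h5).const_mul 2)
  have hint : Integrable (fun u : Site d → ℝ =>
      Real.exp (2 * |Real.log (Conc_Z β n E (Function.update ξ i u)) -
        Real.log (∑ s ∈ E, Conc_w β n i ξ s)|)) (Measure.infinitePi fun _ : Site d => ρ) := by
    refine hBI.mono' hmeas.aestronglyMeasurable (Filter.Eventually.of_forall fun u => ?_)
    rw [Real.norm_eq_abs, abs_of_pos (Real.exp_pos _)]
    exact hle u
  refine ⟨hint, ?_⟩
  rw [← hBv]
  exact integral_mono hint hBI hle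

/-- The rows of the environment. -/
noncomputable def Conc_rows {d : ℕ} (n : ℕ) (η : Env d) : Fin n → Site d → ℝ :=
  fun i y => η ((i : ℕ) + 1, y)

open Classical in
lemma Conc_ZT (β : ℝ) {n : ℕ} (E : Set (Fin n → Step d)) (η : Env d) :
    ZT β 0 η E = Conc_Z β n (Finset.univ.filter (· ∈ E)) (Conc_rows n η) := by
  unfold ZT Conc_Z
  rw [Finset.sum_filter]
  refine Finset.sum_congr rfl fun s _ => ?_
  split_ifs with hs
  · unfold wgt energy Conc_rows
    rw [inner_zero_left, zero_add]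
  · rfl

/-- TASK Conc1. (0.4). Copy of `ConcU.row_bound` (use `ConcU_alg`, `ConcU_int`) and `ConcV.concU` with the
weights `if s ∈ E then exp (β ∑ ..) else 0` in place of `exp (⟨h, pos s n⟩ + β ∑ ..)` (sums over
`Finset.univ.filter (· ∈ E)`), `conc_pi`, `mp_rows`. The factor `exp (-(n lam 0))` only shifts. -/
theorem concE (hρ : EM ρ) (β : ℝ) {n : ℕ} {E : Set (Fin n → Step d)} (hE : E.Nonempty) :
    Integrable (fun η => Real.log (V ρ β η E)) (law d ρ) ∧ ∀ t : ℝ, |t| ≤ 1 →
      Integrable (fun η => Real.exp (t * (-Real.log (V ρ β η E) - gE ρ β E))) (law d ρ) ∧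
      ∫ η, Real.exp (t * (-Real.log (V ρ β η E) - gE ρ β E)) ∂(law d ρ) ≤
        Real.exp (Kc β ρ ^ 2 * t ^ 2 * n) := by
  classical
  obtain ⟨T, hT⟩ : ∃ T : Finset (Fin n → Step d), T = Finset.univ.filter (· ∈ E) := ⟨_, rfl⟩
  have hTne : T.Nonempty := by
    obtain ⟨s, hs⟩ := hE
    exact ⟨s, by rw [hT]; exact Finset.mem_filter.2 ⟨Finset.mem_univ _, hs⟩⟩
  have hZ : ∀ η : Env d, ZT β 0 η E = Conc_Z β n T (Conc_rows n η) := by
    intro η
    rw [hT]
    convert Conc_ZT β E η
  have hZpos : ∀ ξ : Fin n → Site d → ℝ, 0 < Conc_Z β n T ξ := fun ξ =>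
    Finset.sum_pos (fun s _ => Real.exp_pos _) hTne
  have hV : ∀ η : Env d, Real.log (V ρ β η E) =
      Real.log (Conc_Z β n T (Conc_rows n η)) - n * lam ρ β (0 : Vec d) := by
    intro η
    unfold V
    rw [hZ, Real.log_mul (Real.exp_pos _).ne' (hZpos _).ne', Real.log_exp]
    ring
  have hmp : MeasurePreserving (Conc_rows (d := d) n) (law d ρ)
      (Measure.pi fun _ : Fin n => Measure.infinitePi fun _ : Site d => ρ) :=
    mp_rows (d := d) (ρ := ρ) n
  have hFm := Conc_meas (d := d) β n T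
  obtain ⟨h1, h2⟩ := conc_pi n (fun ξ : Fin n → Site d → ℝ => Real.log (Conc_Z β n T ξ)) hFm
    (fun i => Conc_row hρ β n hTne i)
  obtain ⟨m, hm⟩ : ∃ m : ℝ, m = ∫ ξ, Real.log (Conc_Z β n T ξ)
      ∂(Measure.pi fun _ : Fin n => Measure.infinitePi fun _ : Site d => ρ) := ⟨_, rfl⟩
  have hint : Integrable (fun η : Env d => Real.log (Conc_Z β n T (Conc_rows n η))) (law d ρ) :=
    hmp.integrable_comp_of_integrable h1
  have hm' : ∫ η, Real.log (Conc_Z β n T (Conc_rows n η)) ∂(law d ρ) = m := by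
    rw [hm, ← hmp.map_eq, integral_map hmp.measurable.aemeasurable hFm.aestronglyMeasurable]
  rw [← hm] at h2
  have hVi : Integrable (fun η => Real.log (V ρ β η E)) (law d ρ) := by
    have e : (fun η => Real.log (V ρ β η E)) = fun η : Env d =>
        Real.log (Conc_Z β n T (Conc_rows n η)) - n * lam ρ β (0 : Vec d) := funext hV
    rw [e]
    exact hint.sub (integrable_const _)
  have hg : gE ρ β E = n * lam ρ β (0 : Vec d) - m := by
    unfold gE
    have e : ∀ η : Env d, -Real.log (V ρ β η E) =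
        n * lam ρ β (0 : Vec d) - Real.log (Conc_Z β n T (Conc_rows n η)) := fun η => by
      rw [hV]; ring
    simp only [e]
    rw [integral_sub (integrable_const _) hint, hm', integral_const]
    simp
  have hexp : ∀ (t : ℝ) (η : Env d), Real.exp (t * (-Real.log (V ρ β η E) - gE ρ β E)) =
      Real.exp (-t * (Real.log (Conc_Z β n T (Conc_rows n η)) - m)) := by
    intro t η
    rw [hV, hg]
    congr 1
    ring
  refine ⟨hVi, fun t ht => ?_⟩
  obtain ⟨h3, h4⟩ := h2 (-t) (by rwa [abs_neg])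
  have hm2 : Measurable fun ξ : Fin n → Site d → ℝ =>
      Real.exp (-t * (Real.log (Conc_Z β n T ξ) - m)) :=
    Real.measurable_exp.comp ((hFm.sub_const _).const_mul (-t))
  simp only [hexp]
  refine ⟨hmp.integrable_comp_of_integrable h3, ?_⟩
  have h5 : ∫ η, Real.exp (-t * (Real.log (Conc_Z β n T (Conc_rows n η)) - m)) ∂(law d ρ) =
      ∫ ξ, Real.exp (-t * (Real.log (Conc_Z β n T ξ) - m))
        ∂(Measure.pi fun _ : Fin n => Measure.infinitePi fun _ : Site d => ρ) := by
    rw [← hmp.map_eq, integral_map hmp.measurable.aemeasurable hm2.aestronglyMeasurable]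
  rw [h5]
  refine h4.trans (le_of_eq ?_)
  rw [neg_sq]

end Pool.Agent.W_7d29a1_h3
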