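import Pool.Agent.W_7d29a1_h3.DecA

/-!
Section 6: exits need luck.
-/

namespace Pool.Agent.W_7d29a1_h3

open MeasureTheory ProbabilityTheory Filter Topology Pool.Agent.W_MP_7d29a1_pr
  Pool.Agent.W_7d29a1_h46 Pool.Agent.W_7d29a1_h46u

variable {d : ℕ} {ρ : Measure ℝ} [IsProbabilityMeasure ρ]

private theorem ConfA_sn (z p : Site d) : sn p ≤ sn z + sn (z - p) := by
  unfold sn
  apply Finset.sup_le
  intro j _
  have h1 : (z j).natAbs ≤ Finset.univ.sup fun j => (z j).natAbs :=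
    Finset.le_sup (f := fun j => (z j).natAbs) (Finset.mem_univ j)
  have h2 : ((z - p) j).natAbs ≤ Finset.univ.sup fun j => ((z - p) j).natAbs :=
    Finset.le_sup (f := fun j => ((z - p) j).natAbs) (Finset.mem_univ j)
  have h3 : ((z - p) j).natAbs = (z j - p j).natAbs := rfl
  omega

/-- TASK Conf0. One exit estimate: if with probability at least `p` the strip has at most half of the weight of the
walks from `0` to `(N, z)` while this weight is at least `exp (-u)`, then one of two lucks happens with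
probability `≥ p`: deterministic part. `exit_exists` gives `(i, pt)`, `sn pt = Y + 1`, and
`exp (-u) ≤ 2 (N+1) (2N+1)^d Vp i pt * Vp (N-i) (z - pt)`; if both factors were `< exp (v - κ sn ..)` then
`-u - log (2 (N+1) (2N+1)^d) < 2 v - κ (Y + 1) - κ (Y + 1 - sn z)`. -/
theorem exit_luck (j0 : Fin d) {β κ : ℝ} (hκ : 0 < κ) (η : Env d) {N Y : ℕ} {z : Site d} {u v : ℝ}
    (hz : adm N z) (hu : Real.exp (-u) ≤ Vp ρ β η N z)
    (hhalf : V ρ β η (stP N Y z) ≤ 1 / 2 * Vp ρ β η N z)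
    (hv : 2 * v ≤ κ * (2 * (Y + 1) - sn z) - u - Real.log (2 * ((N : ℝ) + 1) * (2 * (N : ℝ) + 1) ^ d)) :
    (∃ l ≤ N, ∃ y : Site d, Real.exp (v - κ * sn y) ≤ Vp ρ β η l y) ∨
    (∃ l ≤ N, ∃ y : Site d, Real.exp (v - κ * sn y) ≤ Vp ρ β (sh (N - l) (z - y) η) l y) := by
  obtain ⟨i, hi, p, hp, hw⟩ := exit_exists j0 η hz hhalf
  by_contra hcon
  push Not at hcon
  obtain ⟨h1, h2⟩ := hcon
  have ha := h1 i hi p
  have hb := h2 (N - i) (Nat.sub_le _ _) (z - p)
  have e1 : N - (N - i) = i := by omega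
  have e2 : z - (z - p) = p := by abel
  rw [e1, e2] at hb
  have ha0 : 0 ≤ Vp ρ β η i p := V_nonneg η _
  have hb0 : 0 ≤ Vp ρ β (sh i p η) (N - i) (z - p) := V_nonneg _ _
  have hC : (0 : ℝ) < 2 * ((N : ℝ) + 1) * (2 * (N : ℝ) + 1) ^ d := by positivity
  have hab := mul_lt_mul'' ha hb ha0 hb0
  rw [← Real.exp_add] at hab
  have h3 := lt_of_le_of_lt (hu.trans hw) (mul_lt_mul_of_pos_left hab hC)
  rw [← Real.exp_log hC, ← Real.exp_add] at h3
  have h4 := Real.exp_lt_exp.mp h3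
  have h5 : sn p ≤ sn z + sn (z - p) := ConfA_sn z p
  have h6 : ((sn p : ℕ) : ℝ) = (Y : ℝ) + 1 := by rw [hp]; push_cast; ring
  have h7 : (Y : ℝ) + 1 ≤ sn z + sn (z - p) := by rw [← h6]; exact_mod_cast h5
  rw [h6] at h4
  have h8 := mul_le_mul_of_nonneg_left h7 hκ.le
  nlinarith [h8, h4, hv]

end Pool.Agent.W_7d29a1_h3
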