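import Pool.Agent.W_7d29a1_h3.Wt

/-!
Time reversal.
-/

namespace Pool.Agent.W_7d29a1_h3

open MeasureTheory ProbabilityTheory Filter Topology Pool.Agent.W_MP_7d29a1_pr
  Pool.Agent.W_7d29a1_h46 Pool.Agent.W_7d29a1_h46u

variable {d : ℕ} {ρ : Measure ℝ} [IsProbabilityMeasure ρ] {β : ℝ}

/-- The environment seen backwards from `(N, z)`. -/
def rev {d : ℕ} (N : ℕ) (z : Site d) (η : Env d) : Env d :=
  fun p => η (if p.1 ≤ N then N - p.1 else p.1, z - p.2)

theorem mp_rev (N : ℕ) (z : Site d) : MeasurePreserving (rev N z) (law d ρ) (law d ρ) := by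
  refine LawU_reindex (f := fun p : ℕ × Site d => (if p.1 ≤ N then N - p.1 else p.1, z - p.2)) ?_
  rintro ⟨i, y⟩ ⟨j, x⟩ h
  simp only [Prod.mk.injEq] at h
  obtain ⟨h1, h2⟩ := h
  have h3 : y = x := sub_right_injective h2
  have h4 : i = j := by
    split_ifs at h1 <;> omega
  rw [h3, h4]

omit [IsProbabilityMeasure ρ] in
private theorem Rev_pos {l : ℕ} (s : Fin l → Step d) {i : ℕ} (hi : i ≤ l) :
    pos (fun j => s (Fin.rev j)) i = pos s l - pos s (l - i) := by
  have h1 : pos (fun j => s (Fin.rev j)) i =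
      ∑ j : Fin l, if ((Fin.rev j : Fin l) : ℕ) < i then vec (s j) else 0 := by
    unfold pos
    have := Equiv.sum_comp (Fin.revPerm (n := l))
      (fun j : Fin l => if ((Fin.rev j : Fin l) : ℕ) < i then vec (s j) else 0)
    rw [← this]
    refine Finset.sum_congr rfl fun j _ => ?_
    simp
  rw [h1, eq_sub_iff_add_eq]
  unfold pos
  rw [← Finset.sum_add_distrib]
  refine Finset.sum_congr rfl fun j _ => ?_
  have hj := j.2
  have h2 : ((Fin.rev j : Fin l) : ℕ) = l - (j + 1) := Fin.val_rev j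
  by_cases h3 : (j : ℕ) < l - i
  · have h4 : ¬ ((Fin.rev j : Fin l) : ℕ) < i := by omega
    rw [if_neg h4, if_pos h3, if_pos hj, zero_add]
  · have h4 : ((Fin.rev j : Fin l) : ℕ) < i := by omega
    rw [if_pos h4, if_neg h3, if_pos hj, add_zero]

omit [IsProbabilityMeasure ρ] in
private theorem Rev_zero {l : ℕ} (s : Fin l → Step d) : pos s 0 = 0 := by
  unfold pos
  simp

omit [IsProbabilityMeasure ρ] in
private theorem Rev_energy {N l : ℕ} (hl : l ≤ N) (z y : Site d) (η : Env d) (s : Fin l → Step d)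
    (hs : pos s l = y) :
    energy (sh (N - l) (z - y) η) s =
      energy (rev N z η) (fun j => s (Fin.rev j)) + (rev N z η (0, 0) - rev N z η (l, y)) := by
  set G : ℕ → ℝ := fun k => η (N - l + k, z - y + pos s k) with hG
  have h1 : energy (sh (N - l) (z - y) η) s = ∑ k ∈ Finset.range l, G (k + 1) := by
    unfold energy
    rw [← Fin.sum_univ_eq_sum_range (fun k => G (k + 1)) l]
    refine Finset.sum_congr rfl fun i _ => ?_
    show η ((i : ℕ) + 1 + (N - l), pos s ((i : ℕ) + 1) + (z - y)) =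
      η (N - l + ((i : ℕ) + 1), z - y + pos s ((i : ℕ) + 1))
    rw [add_comm ((i : ℕ) + 1) (N - l), add_comm (pos s ((i : ℕ) + 1)) (z - y)]
  have h2 : energy (rev N z η) (fun j => s (Fin.rev j)) = ∑ k ∈ Finset.range l, G k := by
    unfold energy
    rw [← Finset.sum_range_reflect (fun k => G k) l,
      ← Fin.sum_univ_eq_sum_range (fun k => G (l - 1 - k)) l]
    refine Finset.sum_congr rfl fun i _ => ?_
    have hi := i.2
    show η (if (i : ℕ) + 1 ≤ N then N - ((i : ℕ) + 1) else (i : ℕ) + 1,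
      z - pos (fun j => s (Fin.rev j)) ((i : ℕ) + 1)) =
      η (N - l + (l - 1 - (i : ℕ)), z - y + pos s (l - 1 - (i : ℕ)))
    rw [if_pos (by omega), Rev_pos s (by omega : (i : ℕ) + 1 ≤ l), hs]
    have e1 : N - ((i : ℕ) + 1) = N - l + (l - 1 - (i : ℕ)) := by omega
    have e2 : l - ((i : ℕ) + 1) = l - 1 - (i : ℕ) := by omega
    rw [e1, e2]
    congr 2
    abel
  have h3 : ∑ k ∈ Finset.range l, (G (k + 1) - G k) = G l - G 0 := Finset.sum_range_sub G l
  rw [Finset.sum_sub_distrib] at h3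
  have h4 : G l = rev N z η (0, 0) := by
    show η (N - l + l, z - y + pos s l) = η (if 0 ≤ N then N - 0 else 0, z - 0)
    rw [if_pos (Nat.zero_le N), hs, Nat.sub_add_cancel hl, Nat.sub_zero, sub_add_cancel, sub_zero]
  have h5 : G 0 = rev N z η (l, y) := by
    show η (N - l + 0, z - y + pos s 0) = η (if l ≤ N then N - l else l, z - y)
    rw [if_pos hl, Rev_zero, add_zero, add_zero]
  rw [h1, h2, ← h4, ← h5]
  linarith

/-- TASK Rev. (0.9). The walk `s` (steps `s 0, ..., s (l-1)`) from `(N - l, z - y)` to `(N, z)` corresponds to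
the walk with the reversed order of the steps (`Fin.rev`): `S'_k = z - S_(N-k)`. The energy counts the sites of the
times `N - l + 1, ..., N`, i.e. `η'(k, S'_k)` for `k = 0, ..., l - 1`, instead of `k = 1, ..., l`. -/
theorem Vp_rev {N l : ℕ} (hl : l ≤ N) (z y : Site d) (η : Env d) :
    Vp ρ β (sh (N - l) (z - y) η) l y =
      Real.exp (β * (rev N z η (0, 0) - rev N z η (l, y))) * Vp ρ β (rev N z η) l y := by
  classical
  unfold Vp V
  rw [mul_left_comm]
  congr 1
  unfold ZT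
  rw [Finset.mul_sum]
  have hinv : Function.Involutive (fun (s : Fin l → Step d) (j : Fin l) => s (Fin.rev j)) := by
    intro s
    funext j
    show s (Fin.rev (Fin.rev j)) = s j
    rw [Fin.rev_rev]
  have h1 := Equiv.sum_comp (hinv.toPerm _) (fun s : Fin l → Step d =>
    Real.exp (β * (rev N z η (0, 0) - rev N z η (l, y))) *
      (if s ∈ toP l y then wgt β 0 (rev N z η) s else 0))
  refine Eq.trans ?_ h1
  refine Finset.sum_congr rfl fun s _ => ?_
  have h2 : (hinv.toPerm _) s = fun j => s (Fin.rev j) := rfl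
  rw [h2]
  have h3 : pos (fun j => s (Fin.rev j)) l = pos s l := by
    rw [Rev_pos s le_rfl, Nat.sub_self, Rev_zero, sub_zero]
  by_cases hs : pos s l = y
  · have h4 : s ∈ toP l y := hs
    have h5 : (fun j => s (Fin.rev j)) ∈ toP l y := h3.trans hs
    rw [if_pos h4, if_pos h5]
    unfold wgt
    rw [← Real.exp_add, Rev_energy hl z y η s hs, h3]
    congr 1
    ring
  · have h4 : s ∉ toP l y := hs
    have h5 : (fun j => s (Fin.rev j)) ∉ toP l y := fun h6 => hs (h3.symm.trans h6)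
    rw [if_neg h4, if_neg h5, mul_zero]

omit [IsProbabilityMeasure ρ] in
private theorem Rev_int (hρ : EM ρ) (β : ℝ) : Integrable (fun t => Real.exp |β * t|) ρ := by
  refine Integrable.mono ((hρ β).add (hρ (-β))) ?_ ?_
  · exact (by fun_prop : Measurable fun t : ℝ => Real.exp |β * t|).aestronglyMeasurable
  · refine Filter.Eventually.of_forall fun t => ?_
    have h1 : Real.exp |β * t| ≤ Real.exp (β * t) + Real.exp (-β * t) := by
      have e1 := (Real.exp_pos (β * t)).le
      have e2 := (Real.exp_pos (-β * t)).le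
      rcases abs_cases (β * t) with ⟨h, _⟩ | ⟨h, _⟩
      · rw [h]
        linarith
      · rw [h, ← neg_mul]
        linarith
    have e1 := (Real.exp_pos (β * t)).le
    have e2 := (Real.exp_pos (-β * t)).le
    rw [Real.norm_of_nonneg (Real.exp_pos _).le]
    show Real.exp |β * t| ≤ ‖Real.exp (β * t) + Real.exp (-β * t)‖
    rw [Real.norm_of_nonneg (by linarith)]
    exact h1

private theorem Rev_one (hρ : EM ρ) (β : ℝ) (p : ℕ × Site d) (Y : ℝ) :
    (law d ρ).real {η : Env d | Y / 2 < |β * η p|} ≤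
      (∫ t, Real.exp |β * t| ∂ρ) * Real.exp (-(Y / 2)) := by
  have hmp : MeasurePreserving (Function.eval p) (law d ρ) ρ :=
    measurePreserving_eval_infinitePi (fun _ : ℕ × Site d => ρ) p
  have hmeas : MeasurableSet {t : ℝ | Y / 2 < |β * t|} :=
    measurableSet_lt measurable_const (by fun_prop)
  have h1 : (law d ρ).real {η : Env d | Y / 2 < |β * η p|} = ρ.real {t : ℝ | Y / 2 < |β * t|} := by
    have h2 := hmp.measure_preimage hmeas.nullMeasurableSet
    have h3 : (Function.eval p : Env d → ℝ) ⁻¹' {t : ℝ | Y / 2 < |β * t|} =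
        {η : Env d | Y / 2 < |β * η p|} := rfl
    rw [h3] at h2
    unfold Measure.real
    rw [h2]
  rw [h1]
  have h4 := mul_meas_ge_le_integral_of_nonneg (μ := ρ) (f := fun t => Real.exp |β * t|)
    (Filter.Eventually.of_forall fun t => (Real.exp_pos _).le) (Rev_int hρ β) (Real.exp (Y / 2))
  have h5 : ρ.real {t : ℝ | Y / 2 < |β * t|} ≤
      ρ.real {t : ℝ | Real.exp (Y / 2) ≤ Real.exp |β * t|} := by
    refine measureReal_mono ?_
    intro t ht
    exact Real.exp_le_exp.2 (le_of_lt ht)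
  have h6 : 0 < Real.exp (Y / 2) := Real.exp_pos _
  rw [Real.exp_neg, ← div_eq_mul_inv, le_div_iff₀ h6, mul_comm]
  exact (mul_le_mul_of_nonneg_left h5 h6.le).trans h4

/-- The boundary terms: with `C ≥ 2 ∫ exp |β t|` times a constant of `d`. -/
theorem bdry (hρ : EM ρ) (β : ℝ) : ∃ C : ℝ, 0 < C ∧ ∀ (N : ℕ) (Y : ℝ), 0 ≤ Y →
    (law d ρ).real {η : Env d | ∃ l ≤ N, ∃ y : Site d, sn y ≤ N ∧
      Y < |β * (η (0, 0) - η (l, y))|} ≤ C * ((N : ℝ) + 1) ^ (d + 1) * Real.exp (-(Y / 2)) := by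
  classical
  set K : ℝ := ∫ t, Real.exp |β * t| ∂ρ with hK
  have hK1 : 1 ≤ K := by
    have h1 : ∫ _t : ℝ, (1 : ℝ) ∂ρ ≤ K :=
      integral_mono (integrable_const 1) (Rev_int hρ β) fun t => Real.one_le_exp (abs_nonneg _)
    simpa using h1
  have hK0 : 0 < K := by linarith
  refine ⟨2 ^ d * K, by positivity, fun N Y _ => ?_⟩
  set I : Finset (ℕ × Site d) := Finset.range (N + 1) ×ˢ boxF d N with hI
  have hsub : {η : Env d | ∃ l ≤ N, ∃ y : Site d, sn y ≤ N ∧ Y < |β * (η (0, 0) - η (l, y))|} ⊆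
      ⋃ p ∈ I, {η : Env d | Y / 2 < |β * η p|} := by
    rintro η ⟨l, hl, y, hy, hY⟩
    have h1 : |β * (η (0, 0) - η (l, y))| ≤ |β * η (0, 0)| + |β * η (l, y)| := by
      rw [mul_sub]
      exact abs_sub _ _
    have hmem0 : ((0 : ℕ), (0 : Site d)) ∈ I := by
      rw [hI, Finset.mem_product]
      refine ⟨Finset.mem_range.2 (Nat.succ_pos N), ?_⟩
      show (0 : Site d) ∈ boxF d N
      rw [boxF, Fintype.mem_piFinset]
      intro i
      rw [Finset.mem_Icc]
      show -(N : ℤ) ≤ 0 ∧ (0 : ℤ) ≤ N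
      omega
    have hmem1 : (l, y) ∈ I := by
      rw [hI, Finset.mem_product]
      exact ⟨Finset.mem_range.2 (Nat.lt_succ_of_le hl), mem_boxF_iff.2 hy⟩
    rcases lt_or_ge (Y / 2) |β * η (0, 0)| with h2 | h2
    · exact Set.mem_biUnion hmem0 h2
    · refine Set.mem_biUnion hmem1 ?_
      show Y / 2 < |β * η (l, y)|
      linarith
  have h1 : (law d ρ).real {η : Env d | ∃ l ≤ N, ∃ y : Site d, sn y ≤ N ∧
      Y < |β * (η (0, 0) - η (l, y))|} ≤ ∑ p ∈ I, (law d ρ).real {η : Env d | Y / 2 < |β * η p|} :=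
    (measureReal_mono hsub (measure_ne_top _ _)).trans (measureReal_biUnion_finset_le I _)
  have h2 : ∑ p ∈ I, (law d ρ).real {η : Env d | Y / 2 < |β * η p|} ≤
      I.card * (K * Real.exp (-(Y / 2))) := by
    rw [← nsmul_eq_mul]
    exact Finset.sum_le_card_nsmul I _ _ fun p _ => Rev_one hρ β p Y
  have h3 : (I.card : ℝ) ≤ 2 ^ d * ((N : ℝ) + 1) ^ (d + 1) := by
    have e1 : I.card = (N + 1) * (2 * N + 1) ^ d := by
      rw [hI, Finset.card_product, Finset.card_range, boxF, Fintype.card_piFinset,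
        Finset.prod_const, Finset.card_univ, Fintype.card_fin, Int.card_Icc]
      congr 2
      omega
    rw [e1]
    push_cast
    have e2 : (2 * (N : ℝ) + 1) ^ d ≤ (2 * ((N : ℝ) + 1)) ^ d :=
      pow_le_pow_left₀ (by positivity) (by linarith) d
    calc ((N : ℝ) + 1) * (2 * (N : ℝ) + 1) ^ d ≤ ((N : ℝ) + 1) * (2 * ((N : ℝ) + 1)) ^ d :=
          mul_le_mul_of_nonneg_left e2 (by positivity)
      _ = 2 ^ d * ((N : ℝ) + 1) ^ (d + 1) := by
          rw [mul_pow]
          ring
  refine h1.trans (h2.trans ?_)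
  calc (I.card : ℝ) * (K * Real.exp (-(Y / 2)))
      ≤ (2 ^ d * ((N : ℝ) + 1) ^ (d + 1)) * (K * Real.exp (-(Y / 2))) :=
        mul_le_mul_of_nonneg_right h3 (by positivity)
    _ = 2 ^ d * K * ((N : ℝ) + 1) ^ (d + 1) * Real.exp (-(Y / 2)) := by ring

end Pool.Agent.W_7d29a1_h3
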