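import Pool.Agent.W_7d29a1_h3.SymA

/-!
Symmetries: consequences.
-/

namespace Pool.Agent.W_7d29a1_h3

open MeasureTheory ProbabilityTheory Filter Topology Pool.Agent.W_MP_7d29a1_pr
  Pool.Agent.W_7d29a1_h46 Pool.Agent.W_7d29a1_h46u

variable {d : ℕ} {ρ : Measure ℝ} [IsProbabilityMeasure ρ] {β : ℝ}

/-- Change of variables along a symmetry. -/
private theorem SymB_integral (τ : Equiv.Perm (Fin d)) (e : Fin d → Bool) {f : Env d → ℝ}
    (hf : Measurable f) : ∫ η, f (eAct τ e η) ∂(law d ρ) = ∫ η, f η ∂(law d ρ) := by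
  have hmp := mp_eAct (ρ := ρ) τ e
  have h1 := integral_map hmp.measurable.aemeasurable (μ := law d ρ) (f := f)
    hf.aestronglyMeasurable
  rw [hmp.map_eq] at h1
  exact h1.symm

private theorem SymB_X (τ : Equiv.Perm (Fin d)) (e : Fin d → Bool) (h : Vec d) (η : Env d) (n : ℕ) :
    X β (vAct τ e h) η n = X β h (eAct τ e η) n := by
  have h1 := H_act (ρ := Measure.dirac (0 : ℝ)) (β := β) τ e h η n
  unfold HH at h1
  linarith

private theorem SymB_measX (h : Vec d) (n : ℕ) : Measurable fun η : Env d => X β h η n := by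
  unfold X Z
  exact Real.measurable_log.comp (measurable_ZT β h _)

private theorem SymB_A (τ : Equiv.Perm (Fin d)) (e : Fin d → Bool) (h : Vec d) (n : ℕ) :
    A ρ β (vAct τ e h) n = A ρ β h n := by
  unfold A
  simp_rw [SymB_X]
  exact SymB_integral τ e (SymB_measX h n)

/-- TASK Sym2. -/
theorem lam_act (τ : Equiv.Perm (Fin d)) (e : Fin d → Bool) (h : Vec d) :
    lam ρ β (vAct τ e h) = lam ρ β h := by
  unfold lam
  simp_rw [SymB_A]

theorem g_act (τ : Equiv.Perm (Fin d)) (e : Fin d → Bool) (n : ℕ) (y : Site d) :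
    g ρ β n (sAct τ e y) = g ρ β n y := by
  have h1 : ∀ η : Env d, V ρ β η (toP n (sAct τ e y)) = V ρ β (eAct τ e η) (toP n y) :=
    fun η => (V_act τ e η n y).symm
  unfold g gE
  simp_rw [h1]
  exact SymB_integral (f := fun η => -Real.log (V ρ β η (toP n y))) τ e
    (Real.measurable_log.comp (measurable_V _)).neg

/-- Any two coordinate tilts are related by a symmetry. -/
theorem tl_act (κ : ℝ) (j j' : Fin d) (s s' : Bool) :
    ∃ (τ : Equiv.Perm (Fin d)) (e : Fin d → Bool), vAct τ e (tl κ j s) = tl κ j' s' := by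
  refine ⟨Equiv.swap j j', fun _ => s == s', ?_⟩
  ext k
  have hk : Equiv.swap j j' k = j ↔ k = j' := by
    constructor
    · intro h
      have h2 := congrArg (Equiv.swap j j') h
      rwa [Equiv.swap_apply_self, Equiv.swap_apply_left] at h2
    · rintro rfl
      exact Equiv.swap_apply_right _ _
  simp only [vAct, tl, ej, PiLp.smul_apply, EuclideanSpace.single_apply, smul_eq_mul, hk]
  by_cases hkj : k = j'
  · cases s <;> cases s' <;> simp [hkj]
  · simp [hkj]

theorem D1_tl (κ : ℝ) (j j' : Fin d) (s s' : Bool) (N : ℕ) :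
    D1 ρ β (tl κ j s) N = D1 ρ β (tl κ j' s') N := by
  obtain ⟨τ, e, he⟩ := tl_act κ j j' s s'
  have h1 : ∀ l : ℕ, ∫ η, max (HH ρ β (tl κ j' s') η l) 0 ∂(law d ρ) =
      ∫ η, max (HH ρ β (tl κ j s) η l) 0 ∂(law d ρ) := by
    intro l
    rw [← he]
    simp_rw [← H_act]
    exact SymB_integral (f := fun η => max (HH ρ β (tl κ j s) η l) 0) τ e
      ((measurable_HH _ l).max measurable_const)
  unfold D1
  simp_rw [h1]

theorem inner_tl (κ : ℝ) (j : Fin d) (s : Bool) (y : Site d) :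
    inner ℝ (tl κ j s) (emb y) = (if s then κ else -κ) * y j := by
  unfold tl ej emb
  rw [real_inner_smul_left, EuclideanSpace.inner_single_left]
  simp

/-- `κ |y| = max_θ θ.y`. -/
theorem exists_tl (j0 : Fin d) {κ : ℝ} (hκ : 0 ≤ κ) (y : Site d) :
    ∃ (j : Fin d) (s : Bool), inner ℝ (tl κ j s) (emb y) = κ * sn y := by
  obtain ⟨j, -, hj⟩ := Finset.exists_mem_eq_sup (Finset.univ : Finset (Fin d)) ⟨j0, Finset.mem_univ _⟩
    fun j => (y j).natAbs
  have hs : (sn y : ℝ) = |(y j : ℝ)| := by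
    unfold sn
    rw [hj, Nat.cast_natAbs, Int.cast_abs]
  rw [hs]
  rcases le_total 0 (y j : ℝ) with h | h
  · refine ⟨j, true, ?_⟩
    rw [inner_tl, abs_of_nonneg h]
    simp
  · refine ⟨j, false, ?_⟩
    rw [inner_tl, abs_of_nonpos h]
    simp

end Pool.Agent.W_7d29a1_h3
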