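import Pool.Agent.W_7d29a1_h3.LaneB

/-!
Section 4: the proposition.
-/

namespace Pool.Agent.W_7d29a1_h3

open MeasureTheory ProbabilityTheory Filter Topology Pool.Agent.W_MP_7d29a1_pr
  Pool.Agent.W_7d29a1_h46 Pool.Agent.W_7d29a1_h46u

/-- `n ^ k * exp (- c * n ^ a)` tends to zero. -/
private theorem LaneC_exp {a c : ℝ} (ha : 0 < a) (hc : 0 < c) (k : ℕ) :
    Tendsto (fun n : ℕ => (n : ℝ) ^ k * Real.exp (-(c * (n : ℝ) ^ a))) atTop (𝓝 0) := by
  have h1 := tendsto_rpow_mul_exp_neg_mul_atTop_nhds_zero (k / a) c hc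
  have h2 : Tendsto (fun n : ℕ => (n : ℝ) ^ a) atTop atTop :=
    (tendsto_rpow_atTop ha).comp tendsto_natCast_atTop_atTop
  refine (h1.comp h2).congr fun n => ?_
  show ((n : ℝ) ^ a) ^ ((k : ℝ) / a) * Real.exp (-c * (n : ℝ) ^ a) = _
  rw [← Real.rpow_mul (Nat.cast_nonneg n), mul_div_cancel₀ _ ha.ne', Real.rpow_natCast, neg_mul]

/-- The error term of `lane_sum` with `J = n` and `i ≥ n ^ a` is at most one. -/
private theorem LaneC_err {a b c C : ℝ} (ha : 0 < a) (hb : 0 < b) (hc : 0 < c) (hC : 0 < C) :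
    ∀ᶠ n : ℕ in atTop, C * (n : ℝ) ^ 2 * Real.sqrt ((1 / 8) ^ n +
      n * Real.exp (-(c * (n : ℝ) ^ b)) + Real.exp (-(c * (n : ℝ) ^ a))) ≤ 1 := by
  have t1 : Tendsto (fun n : ℕ => C ^ 2 * ((n : ℝ) ^ 4 * (1 / 8) ^ n)) atTop (𝓝 0) := by
    have := (tendsto_pow_const_mul_const_pow_of_abs_lt_one 4
      (r := (1 / 8 : ℝ)) (by rw [abs_of_pos] <;> norm_num)).const_mul (C ^ 2)
    simpa using this
  have t2 : Tendsto (fun n : ℕ => C ^ 2 * ((n : ℝ) ^ 5 * Real.exp (-(c * (n : ℝ) ^ b)))) atTop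
      (𝓝 0) := by
    have := (LaneC_exp hb hc 5).const_mul (C ^ 2)
    simpa using this
  have t3 : Tendsto (fun n : ℕ => C ^ 2 * ((n : ℝ) ^ 4 * Real.exp (-(c * (n : ℝ) ^ a)))) atTop
      (𝓝 0) := by
    have := (LaneC_exp ha hc 4).const_mul (C ^ 2)
    simpa using this
  have t := (t1.add t2).add t3
  rw [add_zero, add_zero] at t
  filter_upwards [t.eventually_le_const (show (0 : ℝ) < 1 by norm_num)] with n hn
  have h0 : 0 ≤ C * (n : ℝ) ^ 2 := by positivity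
  have e : C * (n : ℝ) ^ 2 * Real.sqrt ((1 / 8) ^ n +
      n * Real.exp (-(c * (n : ℝ) ^ b)) + Real.exp (-(c * (n : ℝ) ^ a))) =
      Real.sqrt ((C * (n : ℝ) ^ 2) ^ 2 * ((1 / 8) ^ n +
      n * Real.exp (-(c * (n : ℝ) ^ b)) + Real.exp (-(c * (n : ℝ) ^ a)))) := by
    rw [Real.sqrt_mul (sq_nonneg _), Real.sqrt_sq h0]
  rw [e]
  refine Real.sqrt_le_one.2 (le_trans (le_of_eq ?_) hn)
  ring

variable {d : ℕ} {ρ : Measure ℝ} [IsProbabilityMeasure ρ]

/-- TASK Lane4. The proposition of section 4 (`C6` absolute). `l ≤ n ^ (c0/2)`: `H_four`. Otherwise write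
`l = i L + r`, `r < L` (`H2_add`, `H_four` for the rest), `lane_sum` with `J = C log n`. -/
theorem lanes (j0 : Fin d) {β κ : ℝ} (S : Setup d ρ β κ) {q : ℝ} (h0 : 0 < q) (h1 : q ≤ 1 / 16)
    {ε : ℝ} (hε : 0 < ε) : ∀ᶠ n : ℕ in atTop,
      D2 ρ β (tl κ j0 true) (2 * n) ≤ 100 * (bb d ρ β q n + ε * xi' d ρ β q n) := by
  have hd : 0 < d := j0.pos
  obtain ⟨L, hL, C, c, hC, hc, hlane⟩ := lane_sum j0 S h0 h1 (ε := ε / 2) (by positivity)
  obtain ⟨C4, hC4, hmom⟩ := H_four hd S.em β (tl κ j0 true)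
  have hLR : (0 : ℝ) < L := by exact_mod_cast hL
  have hc0 : 0 < c0 d := by unfold c0; positivity
  have hc02 : 0 < c0 d / 2 := by positivity
  -- a priori bound
  have hap : ∀ k : ℕ, Real.sqrt (∫ η, max (HH ρ β (tl κ j0 true) η k) 0 ^ 2 ∂(law d ρ)) ≤
      Real.sqrt C4 * k := by
    intro k
    have hk : (0 : ℝ) ≤ k := Nat.cast_nonneg k
    have e : Real.sqrt C4 * k = Real.sqrt (C4 * (k : ℝ) ^ 2) := by
      rw [Real.sqrt_mul hC4, Real.sqrt_sq hk]
    rw [e]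
    refine Real.sqrt_le_sqrt ?_
    have hpt : ∀ η : Env d, max (HH ρ β (tl κ j0 true) η k) 0 ^ 2 ≤
        HH ρ β (tl κ j0 true) η k ^ 2 := by
      intro η
      rcases le_total (HH ρ β (tl κ j0 true) η k) 0 with h | h
      · rw [max_eq_right h]
        nlinarith [sq_nonneg (HH ρ β (tl κ j0 true) η k)]
      · rw [max_eq_left h]
    refine le_trans ?_ (hmom k).2.2.2.2
    exact integral_mono_of_nonneg (ae_of_all _ fun η => sq_nonneg _) (hmom k).2.1
      (ae_of_all _ hpt)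
  -- the conditions on n
  have hpow : Tendsto (fun n : ℕ => (n : ℝ) ^ (c0 d / 2)) atTop atTop :=
    (tendsto_rpow_atTop hc02).comp tendsto_natCast_atTop_atTop
  filter_upwards [eventually_ge_atTop 1, LaneC_err (a := c0 d / 2) (b := c0 d) hc02 hc0 hc hC,
    hpow.eventually_ge_atTop 1, hpow.eventually_ge_atTop C,
    hpow.eventually_ge_atTop (2 * Real.sqrt C4 * L / ε)] with n hn herr hp1 hpC hpL
  obtain ⟨p, hp⟩ : ∃ p : ℝ, p = (n : ℝ) ^ (c0 d / 2) := ⟨_, rfl⟩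
  have hpp : (n : ℝ) ^ c0 d = p * p := by
    rw [hp, ← Real.rpow_add (by exact_mod_cast hn)]
    congr 1
    ring
  rw [← hp] at hp1 hpC hpL
  obtain ⟨X', hX'⟩ : ∃ X' : ℝ, X' = xi' d ρ β q n := ⟨_, rfl⟩
  obtain ⟨b, hb⟩ : ∃ b : ℝ, b = bb d ρ β q n := ⟨_, rfl⟩
  have hb1 : 1 ≤ b := by rw [hb]; exact one_le_bb β q n
  have hnX : p * p ≤ X' := by rw [hX', ← hpp]; exact le_max_right _ _
  rw [← hX', ← hb]
  have hs4 := Real.sqrt_nonneg C4
  have hCX : C ≤ X' := by nlinarith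
  have hLX : 2 * Real.sqrt C4 * L * p ≤ ε * X' := by
    rw [div_le_iff₀ hε] at hpL
    calc 2 * Real.sqrt C4 * L * p ≤ p * ε * p := mul_le_mul_of_nonneg_right hpL (by linarith)
      _ = ε * (p * p) := by ring
      _ ≤ ε * X' := mul_le_mul_of_nonneg_left hnX hε.le
  have hX0 : 0 ≤ X' := le_trans (by positivity) hnX
  have hεX : 0 ≤ ε * X' := by positivity
  unfold D2
  refine Finset.sup'_le _ _ fun l hl => ?_
  have hl2 : l ≤ 2 * n := by
    have := Finset.mem_range.1 hl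
    omega
  obtain ⟨i, hi⟩ : ∃ i : ℕ, i = l / L := ⟨_, rfl⟩
  obtain ⟨r, hr⟩ : ∃ r : ℕ, r = l % L := ⟨_, rfl⟩
  have hlir : l = i * L + r := by
    rw [hi, hr]
    have := Nat.div_add_mod l L
    rw [mul_comm] at this
    exact this.symm
  have hrL : r < L := by rw [hr]; exact Nat.mod_lt _ hL
  have hrR : (r : ℝ) ≤ L := by exact_mod_cast hrL.le
  rw [hlir]
  have hadd := H2_add hd S.em β (tl κ j0 true) (i * L) r
  have hr2 := hap r
  have hr3 : Real.sqrt C4 * (r : ℝ) ≤ Real.sqrt C4 * L := mul_le_mul_of_nonneg_left hrR hs4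
  have hr4 : Real.sqrt C4 * L ≤ Real.sqrt C4 * L * p := by
    have : 0 ≤ Real.sqrt C4 * L := by positivity
    nlinarith
  rcases lt_or_ge (i : ℝ) p with hip | hip
  · have h5 := hap (i * L)
    have h6 : Real.sqrt C4 * ((i * L : ℕ) : ℝ) ≤ Real.sqrt C4 * L * p := by
      push_cast
      have : Real.sqrt C4 * L * (i : ℝ) ≤ Real.sqrt C4 * L * p :=
        mul_le_mul_of_nonneg_left hip.le (by positivity)
      linarith
    linarith
  · have hi1 : 1 ≤ i := by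
      have : (1 : ℝ) ≤ i := le_trans hp1 hip
      exact_mod_cast this
    have h5 := hlane n n i hn hn hi1 (by omega)
    rw [← hX', ← hb] at h5
    have h6 : C * (n : ℝ) ^ 2 * Real.sqrt ((2 * q) ^ n + n * Real.exp (-(c * (n : ℝ) ^ c0 d)) +
          Real.exp (-(c * i))) ≤ 1 := by
      refine le_trans (mul_le_mul_of_nonneg_left (Real.sqrt_le_sqrt ?_) (by positivity)) herr
      have e1 : (2 * q) ^ n ≤ (1 / 8) ^ n := pow_le_pow_left₀ (by positivity) (by linarith) n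
      have e2 : Real.exp (-(c * i)) ≤ Real.exp (-(c * (n : ℝ) ^ (c0 d / 2))) := by
        refine Real.exp_le_exp.2 (neg_le_neg (mul_le_mul_of_nonneg_left ?_ hc.le))
        rw [← hp]
        exact hip
      linarith
    obtain ⟨Y, hY⟩ : ∃ Y : ℝ, Y = b + 1 + ε / 2 * (X' + C) := ⟨_, rfl⟩
    have hY0 : 0 ≤ Y := by rw [hY]; positivity
    have hY1 : Y ≤ 2 * b + ε * X' := by
      rw [hY]
      nlinarith
    rw [← hY] at h5
    have h7 : Real.sqrt (∫ η, max (HH ρ β (tl κ j0 true) η (i * L)) 0 ^ 2 ∂(law d ρ)) ≤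
        10 * Y + 1 := by
      rw [Real.sqrt_le_left (by positivity)]
      nlinarith
    linarith

end Pool.Agent.W_7d29a1_h3
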