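import Pool.Agent.W_7d29a1_h3.ScaleA
import Pool.Agent.W_7d29a1_h3.LaneC

/-!
Section 5: a lower bound for the scale.
-/

namespace Pool.Agent.W_7d29a1_h3

open MeasureTheory ProbabilityTheory Filter Topology Pool.Agent.W_MP_7d29a1_pr
  Pool.Agent.W_7d29a1_h46 Pool.Agent.W_7d29a1_h46u

variable {d : ℕ} {ρ : Measure ℝ} [IsProbabilityMeasure ρ]

/-- TASK Scale2. Section 5: `u = b + 1` (`xi_spec`), `v = 4 D1(2 n) / εF` (`stop`, `V_le_H`), `lanes` with
`ε = 1`, `D1_le_D2`; if `ξ, b < n ^ c0` the left side is `≥ c n` and the right side is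
`≤ C n ^ c0 * n ^ (1/2) * n ^ (c0 d / 2)`, `c0 (1 + d/2) = 1/4`. -/
theorem scale (j0 : Fin d) {β κ : ℝ} (S : Setup d ρ β κ) {q εF cF : ℝ} (h0 : 0 < q)
    (h1 : q ≤ 1 / 16) (hc : 0 < cF) (hf : FluctAt ρ β εF cF) (hq : 4 * q ≤ εF) :
    ∀ᶠ n : ℕ in atTop, (n : ℝ) ^ c0 d ≤ max (xi d ρ β q n : ℝ) (bb d ρ β q n) := by
  have hd : 0 < d := lt_of_le_of_lt (Nat.zero_le _) j0.isLt
  have hε : 0 < εF := by linarith
  obtain ⟨K, hK⟩ : ∃ K : ℝ, K = 2 + 4 * 201 / εF := ⟨_, rfl⟩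
  have hK0 : 0 < K := by rw [hK]; positivity
  have hlim : ∀ᶠ n : ℕ in atTop, K ^ 2 * 3 ^ d / (2 * cF ^ 2) < Real.sqrt n :=
    (Real.tendsto_sqrt_atTop.comp tendsto_natCast_atTop_atTop).eventually_gt_atTop _
  filter_upwards [lanes j0 S h0 h1 (ε := 1) one_pos, hlim, eventually_ge_atTop 1] with n hn1 hn2 hn3
  by_contra hcon
  push Not at hcon
  rw [max_lt_iff] at hcon
  obtain ⟨hx, hb⟩ := hcon
  have hn : (1 : ℝ) ≤ n := by exact_mod_cast hn3
  obtain ⟨t, ht⟩ : ∃ t : ℝ, t = (n : ℝ) ^ c0 d := ⟨_, rfl⟩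
  have hc0 : 0 < c0 d := by unfold c0; positivity
  have ht1 : 1 ≤ t := by rw [ht]; exact Real.one_le_rpow hn hc0.le
  have htp : t ^ (d + 2) = Real.sqrt n := by
    rw [ht, ← Real.rpow_natCast, ← Real.rpow_mul (by linarith), Real.sqrt_eq_rpow]
    congr 1
    unfold c0
    push_cast
    field_simp
    ring
  rw [← ht] at hx hb
  have hxi : xi' d ρ β q n = t := by
    unfold xi'
    rw [← ht]
    exact max_eq_right hx.le
  rw [hxi, one_mul] at hn1
  have hD2 : D2 ρ β (tl κ j0 true) (2 * n) ≤ 200 * t := by linarith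
  have hD1 : D1 ρ β (tl κ j0 true) (2 * n) ≤ 200 * t :=
    (D1_le_D2 hd S.em β _ _).trans hD2
  have hD0 := D1_nonneg (ρ := ρ) β (tl κ j0 true) (2 * n)
  -- the strip
  obtain ⟨Y, hY⟩ : ∃ Y : ℕ, Y = max (xi d ρ β q n) 1 := ⟨_, rfl⟩
  have hY1 : 1 ≤ Y := by rw [hY]; exact le_max_right _ _
  have hYx : xi d ρ β q n ≤ Y := by rw [hY]; exact le_max_left _ _
  have hYt : (Y : ℝ) ≤ t := by
    rw [hY]
    push_cast
    exact max_le hx.le ht1
  have hst : stP (2 * n) (xi d ρ β q n) (0 : Site d) ⊆ stP (2 * n) Y 0 :=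
    fun s hs => ⟨fun i hi => (hs.1 i hi).trans hYx, hs.2⟩
  obtain ⟨v, hv⟩ : ∃ v : ℝ, v = 4 * (D1 ρ β (tl κ j0 true) (2 * n) + 1) / εF := ⟨_, rfl⟩
  have hv0 : 0 < v := by rw [hv]; positivity
  have hP1 : (law d ρ).real {η : Env d | ¬ Real.exp (-(bb d ρ β q n + 1)) ≤
      V ρ β η (stP (2 * n) Y 0)} ≤ 2 * q := by
    refine le_trans (measureReal_mono ?_) (xi_spec j0 β h0 (by linarith) (le_refl n))
    intro η hη h
    exact hη (h.trans (V_mono η hst))
  have hflat : lam ρ β (tl κ j0 true) ≤ lam ρ β (0 : Vec d) := by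
    have h2 := S.flat j0 κ (by rw [abs_of_pos S.κpos])
    unfold tl
    rw [if_pos rfl]
    exact h2.le
  have hP2 : (law d ρ).real {η : Env d | Real.exp v ≤ V ρ β η (stP (2 * n) Y 0)} ≤ εF / 2 := by
    have h2 := stop (ρ := ρ) hd S.em β (tl κ j0 true) hflat (2 * n) hv0
    refine le_trans (measureReal_mono ?_) (h2.trans ?_)
    · intro η hη
      refine ⟨2 * n, le_rfl, ?_⟩
      have h3 := V_le_H (ρ := ρ) (β := β) j0 (tl κ j0 true) η (stP_sub (S := Y) (n := 2 * n) (y := (0 : Site d)))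
      have h4 : emb (0 : Site d) = 0 := by
        ext j
        simp [emb]
      rw [h4, inner_zero_right, Real.exp_zero, mul_one] at h3
      have h50 : Real.exp v ≤ V ρ β η (stP (2 * n) Y 0) := hη
      have h5 := h50.trans h3
      have h6 := Real.exp_le_exp.1 h5
      linarith
    · rw [div_le_iff₀ hv0]
      have h7 : εF / 2 * v = 2 * (D1 ρ β (tl κ j0 true) (2 * n) + 1) := by
        rw [hv]
        field_simp
        ring
      rw [h7]
      linarith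
  have key := strip_fluct (ρ := ρ) j0 hf hY1 (u := bb d ρ β q n + 1) (v := v) (n := n) (by linarith)
  -- arithmetic
  have hu : bb d ρ β q n + 1 + v ≤ K * t := by
    have h2 : v ≤ 4 * (201 * t) / εF := by
      rw [hv]
      refine div_le_div_of_nonneg_right ?_ hε.le
      linarith
    have h3 : K * t = 2 * t + 4 * (201 * t) / εF := by
      rw [hK]
      ring
    rw [h3]
    linarith
  have hu0 : 0 ≤ bb d ρ β q n + 1 + v := by
    have := one_le_bb (d := d) (ρ := ρ) β q n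
    linarith
  have hW : 2 * (n : ℝ) * (2 * (Y : ℝ) + 1) ^ d ≤ 2 * n * (3 * t) ^ d := by
    refine mul_le_mul_of_nonneg_left ?_ (by linarith)
    refine pow_le_pow_left₀ (by positivity) ?_ d
    linarith
  have hkey2 : cF * (2 * n) ≤ K * t * Real.sqrt (2 * n * (3 * t) ^ d) :=
    key.trans (mul_le_mul hu (Real.sqrt_le_sqrt hW) (Real.sqrt_nonneg _) (by positivity))
  have hsq : (cF * (2 * n)) ^ 2 ≤ (K * t * Real.sqrt (2 * n * (3 * t) ^ d)) ^ 2 :=
    pow_le_pow_left₀ (by positivity) hkey2 2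
  have e1 : (K * t * Real.sqrt (2 * n * (3 * t) ^ d)) ^ 2 = 2 * K ^ 2 * 3 ^ d * n * t ^ (d + 2) := by
    rw [mul_pow, Real.sq_sqrt (by positivity), mul_pow 3 t d]
    ring
  rw [e1, htp] at hsq
  have hsn : 0 < Real.sqrt n := Real.sqrt_pos.2 (by linarith)
  have hss : Real.sqrt n * Real.sqrt n = n := Real.mul_self_sqrt (by linarith)
  rw [div_lt_iff₀ (by positivity)] at hn2
  have h8 : K ^ 2 * 3 ^ d * (2 * n * Real.sqrt n) < Real.sqrt n * (2 * cF ^ 2) * (2 * n * Real.sqrt n) :=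
    mul_lt_mul_of_pos_right hn2 (by positivity)
  have h9 : Real.sqrt n * (2 * cF ^ 2) * (2 * n * Real.sqrt n) = (cF * (2 * n)) ^ 2 := by
    calc Real.sqrt n * (2 * cF ^ 2) * (2 * n * Real.sqrt n)
        = 4 * cF ^ 2 * n * (Real.sqrt n * Real.sqrt n) := by ring
      _ = 4 * cF ^ 2 * n * n := by rw [hss]
      _ = (cF * (2 * n)) ^ 2 := by ring
  have h10 : 2 * K ^ 2 * 3 ^ d * n * Real.sqrt n = K ^ 2 * 3 ^ d * (2 * n * Real.sqrt n) := by ring
  linarith

end Pool.Agent.W_7d29a1_h3
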