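import Pool.Agent.W_7d29a1_h3.ConfA
import Pool.Agent.W_7d29a1_h3.ScaleB
import Pool.Agent.W_7d29a1_h3.Luck

/-!
Section 6: confinement.
-/

namespace Pool.Agent.W_7d29a1_h3

open MeasureTheory ProbabilityTheory Filter Topology Pool.Agent.W_MP_7d29a1_pr
  Pool.Agent.W_7d29a1_h46 Pool.Agent.W_7d29a1_h46u

variable {d : ℕ} {ρ : Measure ℝ} [IsProbabilityMeasure ρ]

private theorem ConfB_small (p : ℕ) {b c θ : ℝ} (hb : 0 < b) (hc : 0 < c) (hθ : 0 < θ) :
    ∀ᶠ n : ℕ in atTop, (n : ℝ) ^ p * Real.exp (-(b * (n : ℝ) ^ c)) ≤ θ := by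
  have h1 := (tendsto_rpow_mul_exp_neg_mul_atTop_nhds_zero ((p : ℝ) / c) b hb).comp
    ((tendsto_rpow_atTop hc).comp tendsto_natCast_atTop_atTop)
  filter_upwards [h1.eventually (gt_mem_nhds hθ)] with n hn
  have h2 : ((n : ℝ) ^ c) ^ ((p : ℝ) / c) = (n : ℝ) ^ p := by
    rw [← Real.rpow_mul (Nat.cast_nonneg n), mul_div_cancel₀ _ hc.ne', Real.rpow_natCast]
  simp only [Function.comp] at hn
  rw [h2] at hn
  have h3 : -(b * (n : ℝ) ^ c) = -b * (n : ℝ) ^ c := by ring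
  rw [h3]
  exact hn.le

/-- TASK Conf1. Section 6. `Y = ξ - 1`, `xi_min` gives `r`; with probability `≥ q`:
`exp (-b) ≤ Vp (2 r) 0` (`bb_spec`) and `V (stP (2 r) Y 0) < exp (-(b + 1)) ≤ 1/2 Vp`; `exit_luck` with `v = κ ξ / 2`
(possible for `C8` large and `n` large as `ξ ≥ n ^ c0`: `scale`), `luck`, `luck_back`, `lanes` with small `ε`,
`D1_le_D2`, `ξ' = ξ`. -/
theorem confine (j0 : Fin d) {β κ : ℝ} (S : Setup d ρ β κ) {q εF cF : ℝ} (h0 : 0 < q)
    (h1 : q ≤ 1 / 16) (hc : 0 < cF) (hf : FluctAt ρ β εF cF) (hq : 4 * q ≤ εF) :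
    ∃ C : ℝ, 0 < C ∧ ∀ᶠ n : ℕ in atTop, (xi d ρ β q n : ℝ) ≤ C * bb d ρ β q n := by
  classical
  have hd : 0 < d := j0.pos
  have hdR : (0 : ℝ) < d := by exact_mod_cast hd
  have hκ : 0 < κ := S.κpos
  have hc0 : 0 < c0 d := by unfold c0; positivity
  obtain ⟨C, hC, hback⟩ := luck_back (ρ := ρ) j0 S
  set K : ℝ := 2400 * d / κ with hK
  have hK0 : 0 < K := by positivity
  set ε : ℝ := q / (4 * K) with hε
  have hε0 : 0 < ε := by positivity
  set C8 : ℝ := 1 + 2 / κ + 4 * K / q with hC8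
  have hC80 : 0 < C8 := by positivity
  have hC81 : 1 ≤ C8 := by
    have : 0 ≤ 2 / κ + 4 * K / q := by positivity
    linarith
  have hC82 : 2 / κ ≤ C8 := by
    have : 0 ≤ 4 * K / q := by positivity
    linarith
  have hC83 : 4 * K / q ≤ C8 := by
    have : 0 ≤ 2 / κ := by positivity
    linarith
  refine ⟨C8, hC80, ?_⟩
  filter_upwards [lanes (ρ := ρ) j0 S h0 h1 hε0, scale j0 S h0 h1 hc hf hq,
    ConfB_small (d + 2) (b := κ / 2) (c := c0 d) (θ := 1 / 5 ^ (d + 2)) (by positivity) hc0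
      (by positivity),
    ConfB_small (d + 1) (b := κ / 8) (c := c0 d) (θ := q / (4 * C * 3 ^ (d + 1))) (by positivity)
      hc0 (by positivity), eventually_ge_atTop 1] with n hlan hsc hlog hexp hn1
  by_contra hcon
  rw [not_le] at hcon
  have hn1R : (1 : ℝ) ≤ n := by exact_mod_cast hn1
  set b : ℝ := bb d ρ β q n with hb
  set x : ℝ := (xi d ρ β q n : ℝ) with hx
  have hb1 : 1 ≤ b := one_le_bb β q n
  have hbx : b < x := by nlinarith
  have hx0 : 0 < x := by linarith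
  have hnx : (n : ℝ) ^ c0 d ≤ x := by
    rwa [max_eq_left hbx.le] at hsc
  have hxi' : xi' d ρ β q n = x := max_eq_left hnx
  rw [hxi'] at hlan
  set v : ℝ := κ * x / 2 with hv
  have hv0 : 0 < v := by positivity
  -- the scale
  have hxi1 : 1 ≤ xi d ρ β q n := by
    by_contra h2
    have h3 : xi d ρ β q n = 0 := by omega
    rw [hx, h3] at hx0
    simp at hx0
  set Y : ℕ := xi d ρ β q n - 1 with hY
  have hYx : (Y : ℝ) + 1 = x := by
    rw [hY, hx]
    push_cast [Nat.cast_sub hxi1]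
    ring
  obtain ⟨r, hr, hrP⟩ := xi_min (ρ := ρ) (d := d) β q (n := n) (Y := Y) (by omega)
  have hrR : (r : ℝ) ≤ n := by exact_mod_cast hr
  have hq1 : q < 1 := by linarith
  have hbP := bb_spec (ρ := ρ) j0 β h0 hq1 hr
  set G : Set (Env d) := {η | Real.exp (-b) ≤ Vp ρ β η (2 * r) 0 ∧
    ¬ Real.exp (-(b + 1)) ≤ V ρ β η (stP (2 * r) Y 0)} with hG
  have hGP : q ≤ (law d ρ).real G := by
    have h2 : {η : Env d | ¬ Real.exp (-(b + 1)) ≤ V ρ β η (stP (2 * r) Y 0)} ⊆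
        G ∪ {η : Env d | ¬ Real.exp (-b) ≤ Vp ρ β η (2 * r) 0} := by
      intro η hη
      by_cases h3 : Real.exp (-b) ≤ Vp ρ β η (2 * r) 0
      · exact Or.inl ⟨h3, hη⟩
      · exact Or.inr h3
    have h4 := (measureReal_mono (μ := law d ρ) h2).trans (measureReal_union_le _ _)
    linarith
  -- the exit estimate
  have hlog2 : Real.log (2 * (((2 * r : ℕ) : ℝ) + 1) * (2 * ((2 * r : ℕ) : ℝ) + 1) ^ d) ≤
      κ / 2 * x := by
    have h2 : (0 : ℝ) ≤ r := Nat.cast_nonneg r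
    have h3 : 2 * (((2 * r : ℕ) : ℝ) + 1) * (2 * ((2 * r : ℕ) : ℝ) + 1) ^ d ≤
        (5 * (n : ℝ)) ^ (d + 2) := by
      push_cast
      have h4 : (2 * (2 * (r : ℝ)) + 1) ^ d ≤ (5 * (n : ℝ)) ^ d :=
        pow_le_pow_left₀ (by positivity) (by linarith) d
      have h5 : 2 * (2 * (r : ℝ) + 1) ≤ (5 * (n : ℝ)) ^ 2 := by nlinarith
      calc 2 * (2 * (r : ℝ) + 1) * (2 * (2 * (r : ℝ)) + 1) ^ d
          ≤ (5 * (n : ℝ)) ^ 2 * (5 * (n : ℝ)) ^ d :=
            mul_le_mul h5 h4 (by positivity) (by positivity)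
        _ = (5 * (n : ℝ)) ^ (d + 2) := by rw [← pow_add, add_comm]
    have h6 : (5 * (n : ℝ)) ^ (d + 2) ≤ Real.exp (κ / 2 * (n : ℝ) ^ c0 d) := by
      rw [mul_pow]
      have h7 : Real.exp (-(κ / 2 * (n : ℝ) ^ c0 d)) * Real.exp (κ / 2 * (n : ℝ) ^ c0 d) = 1 := by
        rw [← Real.exp_add]
        simp
      have h8 : (5 : ℝ) ^ (d + 2) * ((n : ℝ) ^ (d + 2) *
          Real.exp (-(κ / 2 * (n : ℝ) ^ c0 d))) ≤ 1 := by
        have h9 : (5 : ℝ) ^ (d + 2) * ((n : ℝ) ^ (d + 2) *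
            Real.exp (-(κ / 2 * (n : ℝ) ^ c0 d))) ≤ 5 ^ (d + 2) * (1 / 5 ^ (d + 2)) :=
          mul_le_mul_of_nonneg_left hlog (by positivity)
        have h10 : (5 : ℝ) ^ (d + 2) * (1 / 5 ^ (d + 2)) = 1 := by
          field_simp
        linarith
      calc (5 : ℝ) ^ (d + 2) * (n : ℝ) ^ (d + 2)
          = (5 : ℝ) ^ (d + 2) * (n : ℝ) ^ (d + 2) * (Real.exp (-(κ / 2 * (n : ℝ) ^ c0 d)) *
            Real.exp (κ / 2 * (n : ℝ) ^ c0 d)) := by rw [h7, mul_one]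
        _ = (5 : ℝ) ^ (d + 2) * ((n : ℝ) ^ (d + 2) * Real.exp (-(κ / 2 * (n : ℝ) ^ c0 d))) *
            Real.exp (κ / 2 * (n : ℝ) ^ c0 d) := by ring
        _ ≤ 1 * Real.exp (κ / 2 * (n : ℝ) ^ c0 d) :=
            mul_le_mul_of_nonneg_right h8 (Real.exp_pos _).le
        _ = Real.exp (κ / 2 * (n : ℝ) ^ c0 d) := one_mul _
    have h11 : 0 < 2 * (((2 * r : ℕ) : ℝ) + 1) * (2 * ((2 * r : ℕ) : ℝ) + 1) ^ d := by positivity
    calc Real.log (2 * (((2 * r : ℕ) : ℝ) + 1) * (2 * ((2 * r : ℕ) : ℝ) + 1) ^ d)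
        ≤ Real.log (Real.exp (κ / 2 * (n : ℝ) ^ c0 d)) := Real.log_le_log h11 (h3.trans h6)
      _ = κ / 2 * (n : ℝ) ^ c0 d := Real.log_exp _
      _ ≤ κ / 2 * x := mul_le_mul_of_nonneg_left hnx (by positivity)
  have hbκ : b ≤ κ / 2 * x := by
    have h2 : 2 / κ * b ≤ C8 * b := mul_le_mul_of_nonneg_right hC82 (by linarith)
    have h3 : 2 / κ * b < x := lt_of_le_of_lt h2 hcon
    have h4 : κ / 2 * (2 / κ * b) = b := by
      field_simp
    have h5 : κ / 2 * (2 / κ * b) ≤ κ / 2 * x := mul_le_mul_of_nonneg_left h3.le (by positivity)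
    linarith
  have hsn : (sn (0 : Site d) : ℝ) = 0 := by
    have : sn (0 : Site d) = 0 := by
      have h2 : sn (0 : Site d) ≤ 0 := sn_le_iff.2 (fun j => by simp)
      omega
    rw [this, Nat.cast_zero]
  have hGsub : G ⊆ {η | ∃ l ≤ 2 * r, ∃ y : Site d, Real.exp (v - κ * sn y) ≤ Vp ρ β η l y} ∪
      {η | ∃ l ≤ 2 * r, ∃ y : Site d,
        Real.exp (v - κ * sn y) ≤ Vp ρ β (sh (2 * r - l) (0 - y) η) l y} := by
    rintro η ⟨hη1, hη2⟩
    rw [not_le] at hη2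
    have hhalf : V ρ β η (stP (2 * r) Y 0) ≤ 1 / 2 * Vp ρ β η (2 * r) 0 := by
      have h2 : Real.exp (-(b + 1)) = Real.exp (-1) * Real.exp (-b) := by
        rw [← Real.exp_add]
        congr 1
        ring
      have h3 : Real.exp (-1) ≤ 1 / 2 := by
        rw [Real.exp_neg, one_div]
        apply inv_anti₀ (by norm_num)
        have := Real.add_one_le_exp (1 : ℝ)
        linarith
      have h4 : Real.exp (-1) * Real.exp (-b) ≤ 1 / 2 * Vp ρ β η (2 * r) 0 :=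
        mul_le_mul h3 hη1 (Real.exp_pos _).le (by norm_num)
      linarith
    have h5 := exit_luck (ρ := ρ) (β := β) j0 hκ η (N := 2 * r) (Y := Y) (z := 0) (u := b) (v := v)
      (adm_zero r) hη1 hhalf (by
        rw [hsn, hYx]
        have h6 : κ * (2 * x - 0) = 2 * (κ / 2 * x) + 2 * (κ / 2 * x) := by ring
        have h7 : 2 * v = 2 * (κ / 2 * x) := by rw [hv]; ring
        linarith)
    rcases h5 with h5 | h5
    · exact Or.inl h5
    · exact Or.inr h5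
  have hP := (measureReal_mono (μ := law d ρ) hGsub).trans (measureReal_union_le _ _)
  have hl1 := luck (ρ := ρ) j0 S (2 * r) hv0
  have hl2 := hback (2 * r) 0 v hv0
  have hD : D1 ρ β (tl κ j0 true) (2 * r) ≤ 100 * (b + ε * x) :=
    ((D1_mono β _ (by omega : 2 * r ≤ 2 * n)).trans
      (D1_le_D2 hd S.em β _ (2 * n))).trans hlan
  have hD0 : 0 ≤ D1 ρ β (tl κ j0 true) (2 * r) := D1_nonneg β _ _
  set D : ℝ := D1 ρ β (tl κ j0 true) (2 * r) with hDd
  have hbx2 : b ≤ q / (4 * K) * x := by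
    have h2 : 4 * K / q * b ≤ C8 * b := mul_le_mul_of_nonneg_right hC83 (by linarith)
    have h3 : 4 * K / q * b ≤ x := (lt_of_le_of_lt h2 hcon).le
    have h4 : q / (4 * K) * (4 * K / q * b) = b := by
      field_simp
    have h5 : q / (4 * K) * (4 * K / q * b) ≤ q / (4 * K) * x :=
      mul_le_mul_of_nonneg_left h3 (by positivity)
    linarith
  have hmain : 4 * d * D / v + 8 * d * D / v ≤ q / 2 := by
    have h2 : 4 * (d : ℝ) * D / v + 8 * d * D / v = 12 * d * D / v := by ring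
    rw [h2, div_le_iff₀ hv0]
    have h3 : D ≤ 100 * (2 * (q / (4 * K) * x)) := by
      rw [hε] at hD
      linarith
    have h4 : 12 * (d : ℝ) * D ≤ 12 * d * (100 * (2 * (q / (4 * K) * x))) :=
      mul_le_mul_of_nonneg_left h3 (by positivity)
    refine h4.trans (le_of_eq ?_)
    rw [hK, hv]
    field_simp
    ring
  have hlast : C * (((2 * r : ℕ) : ℝ) + 1) ^ (d + 1) * Real.exp (-(v / 4)) ≤ q / 4 := by
    have h2 : (0 : ℝ) ≤ r := Nat.cast_nonneg r
    have h3 : (((2 * r : ℕ) : ℝ) + 1) ^ (d + 1) ≤ (3 * (n : ℝ)) ^ (d + 1) := by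
      push_cast
      exact pow_le_pow_left₀ (by positivity) (by linarith) _
    have h4 : Real.exp (-(v / 4)) ≤ Real.exp (-(κ / 8 * (n : ℝ) ^ c0 d)) := by
      apply Real.exp_le_exp.2
      rw [hv]
      have : κ / 8 * (n : ℝ) ^ c0 d ≤ κ / 8 * x := mul_le_mul_of_nonneg_left hnx (by positivity)
      linarith
    calc C * (((2 * r : ℕ) : ℝ) + 1) ^ (d + 1) * Real.exp (-(v / 4))
        ≤ C * (3 * (n : ℝ)) ^ (d + 1) * Real.exp (-(κ / 8 * (n : ℝ) ^ c0 d)) := by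
          apply mul_le_mul _ h4 (Real.exp_pos _).le (by positivity)
          exact mul_le_mul_of_nonneg_left h3 hC.le
      _ = C * 3 ^ (d + 1) * ((n : ℝ) ^ (d + 1) * Real.exp (-(κ / 8 * (n : ℝ) ^ c0 d))) := by
          rw [mul_pow]
          ring
      _ ≤ C * 3 ^ (d + 1) * (q / (4 * C * 3 ^ (d + 1))) :=
          mul_le_mul_of_nonneg_left hexp (by positivity)
      _ = q / 4 := by
          field_simp
  linarith

end Pool.Agent.W_7d29a1_h3
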