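import Pool.Agent.W_7d29a1_h3.MeanB

/-!
The mean of the return passage time.
-/

namespace Pool.Agent.W_7d29a1_h3

open MeasureTheory ProbabilityTheory Filter Topology Pool.Agent.W_MP_7d29a1_pr
  Pool.Agent.W_7d29a1_h46 Pool.Agent.W_7d29a1_h46u

variable {d : ℕ} {ρ : Measure ℝ} [IsProbabilityMeasure ρ]

private theorem MeanC_neg (y : Site d) :
    sAct (Equiv.refl (Fin d)) (fun _ => false) y = -y := by
  funext j
  show (if (false : Bool) = true then (1 : ℤ) else -1) * y j = -y j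
  simp

/-- TASK Mean3. (0.8): `h = 0`, `rateU` with `Fl_half`, `x = 1/2`, `ε = 1/100`; `g_add`, `g_act` for `-y`. -/
theorem g_zero_le (j0 : Fin d) (hρ : EM ρ) (β : ℝ) :
    ∃ C : ℝ, 0 < C ∧ ∀ n : ℕ, 1 ≤ n → g ρ β (2 * n) (0 : Site d) ≤ C * (n : ℝ) ^ (0.52 : ℝ) := by
  have hd : 0 < d := j0.pos
  obtain ⟨δ, hδ, C1, hC1, hrate⟩ := rateU hd hρ (β := β) (h := (0 : Vec d)) (x := 1 / 2)
    (by norm_num) (Fl_half hd hρ β 0) (ε := 1 / 100) (by norm_num) (by norm_num)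
  obtain ⟨C2, hC2, hy⟩ := exists_y (d := d) j0 hρ β 0
  obtain ⟨C3, hC3, hg⟩ := g_le (d := d) j0 hρ β
  refine ⟨2 * C1 + 100 * C2 + 2 * C3, by linarith, fun n hn => ?_⟩
  have hn1 : (1 : ℝ) ≤ n := by exact_mod_cast hn
  have hn0 : (0 : ℝ) < n := by linarith
  have hp1 : (1 : ℝ) ≤ (n : ℝ) ^ (0.52 : ℝ) := Real.one_le_rpow hn1 (by norm_num)
  rcases Nat.lt_or_ge n 2 with h2 | h2
  · have h3 : n = 1 := by omega
    have h4 := hg (2 * n) 0 (adm_zero n)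
    subst h3
    rw [Nat.cast_one, Real.one_rpow, mul_one]
    push_cast at h4
    linarith
  obtain ⟨y, hya, hyb⟩ := hy 0 (by rw [norm_zero]) n h2
  rw [inner_zero_left, zero_sub] at hyb
  have hint : ∫ η, HH ρ β (0 : Vec d) η n ∂(law d ρ) =
      n * lam ρ β (0 : Vec d) - A ρ β (0 : Vec d) n := by
    unfold HH
    rw [integral_sub (integrable_const _) (concU hd hρ β 0 n).1, integral_const]
    simp [A]
  have h5 := hrate 0 (by rw [sub_self, norm_zero]; exact hδ) n hn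
  have h6 : (n : ℝ) ^ ((1 : ℝ) / 2 + 1 / 100) ≤ (n : ℝ) ^ (0.52 : ℝ) :=
    Real.rpow_le_rpow_of_exponent_le hn1 (by norm_num)
  have h7 : Real.sqrt n * Real.log n ≤ 50 * (n : ℝ) ^ (0.52 : ℝ) := by
    have e1 : Real.log n ≤ (n : ℝ) ^ (0.02 : ℝ) / 0.02 := Real.log_le_rpow_div hn0.le (by norm_num)
    have e2 : (n : ℝ) ^ (0.52 : ℝ) = Real.sqrt n * (n : ℝ) ^ (0.02 : ℝ) := by
      rw [Real.sqrt_eq_rpow, ← Real.rpow_add hn0]
      norm_num
    rw [e2]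
    have e3 := mul_le_mul_of_nonneg_left e1 (Real.sqrt_nonneg (n : ℝ))
    have e4 : Real.sqrt n * ((n : ℝ) ^ (0.02 : ℝ) / 0.02) = 50 * (Real.sqrt n * (n : ℝ) ^ (0.02 : ℝ)) := by
      ring
    linarith
  have h8 : g ρ β n y ≤ C1 * (n : ℝ) ^ (0.52 : ℝ) + C2 * (50 * (n : ℝ) ^ (0.52 : ℝ)) := by
    have e1 := mul_le_mul_of_nonneg_left h6 hC1
    have e2 := mul_le_mul_of_nonneg_left h7 hC2.le
    rw [hint] at hyb
    linarith
  have h9 := g_add j0 hρ β hya (adm_neg hya)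
  rw [add_neg_cancel, ← two_mul] at h9
  have h10 := g_act (ρ := ρ) (β := β) (Equiv.refl (Fin d)) (fun _ => false) n y
  rw [MeanC_neg] at h10
  rw [h10] at h9
  have h11 : 0 ≤ C3 * (n : ℝ) ^ (0.52 : ℝ) := by positivity
  linarith

end Pool.Agent.W_7d29a1_h3
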