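import Pool.Agent.W_7d29a1_h3.QuantA
import Pool.Agent.W_7d29a1_h3.MeanC

/-!
Section 3: the upper bound for b.
-/

namespace Pool.Agent.W_7d29a1_h3

open MeasureTheory ProbabilityTheory Filter Topology Pool.Agent.W_MP_7d29a1_pr
  Pool.Agent.W_7d29a1_h46 Pool.Agent.W_7d29a1_h46u

variable {d : ℕ} {ρ : Measure ℝ} [IsProbabilityMeasure ρ]

private theorem QuantB_exp_lt {q : ℝ} (h0 : 0 < q) : Real.exp (-(1 / q)) < q := by
  have h1 : 1 / q < Real.exp (1 / q) := by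
    have := Real.add_one_le_exp (1 / q)
    linarith
  rw [Real.exp_neg]
  have h2 : 0 < 1 / q := by positivity
  calc (Real.exp (1 / q))⁻¹ < (1 / q)⁻¹ := by
        apply inv_strictAnti₀ h2 h1
    _ = q := by rw [one_div, inv_inv]

private theorem QuantB_Q_le (j0 : Fin d) (hρ : EM ρ) (β : ℝ) {q : ℝ} (h0 : 0 < q) (h1 : q < 1)
    (r : ℕ) {t z : ℝ} (ht : 0 ≤ t) (ht1 : t ≤ 1)
    (hz : Real.exp (Kc β ρ ^ 2 * t ^ 2 * ((2 * r : ℕ) : ℝ) - t * z) < q) :
    Q d ρ β q r ≤ g ρ β (2 * r) (0 : Site d) + z := by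
  by_contra hlt
  push Not at hlt
  have hE : (toP (2 * r) (0 : Site d)).Nonempty := (adm_iff j0).1 (adm_zero r)
  have h2 := (Q_spec (ρ := ρ) j0 β h0 h1 r).2
  have h3 := concE_up hρ β hE (t := t) (z := z) ht ht1
  have h4 : (law d ρ).real {η : Env d | Vp ρ β η (2 * r) 0 ≤ Real.exp (-Q d ρ β q r)} ≤
      (law d ρ).real {η | ¬ Real.exp (-(gE ρ β (toP (2 * r) (0 : Site d)) + z)) ≤
        V ρ β η (toP (2 * r) (0 : Site d))} := by
    apply measureReal_mono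
    · intro η hη
      simp only [Set.mem_ofPred_eq] at hη ⊢
      intro h5
      have h6 : Real.exp (-(gE ρ β (toP (2 * r) (0 : Site d)) + z)) ≤
          Real.exp (-Q d ρ β q r) := le_trans h5 hη
      rw [Real.exp_le_exp] at h6
      have h7 : g ρ β (2 * r) (0 : Site d) = gE ρ β (toP (2 * r) (0 : Site d)) := rfl
      rw [h7] at hlt
      linarith
    · exact measure_ne_top _ _
  linarith

/-- TASK Quant2. (3.1): `g_zero_le` and `concE_up` with `t = 1 / √(2 r)` (`r ≥ 1`): the deviation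
`C √r` has probability `< q`, so `Q r ≤ g (2 r) 0 + C √r` (otherwise `q ≤ P(T ≥ Q r)` would fail). -/
theorem bb_le (j0 : Fin d) (hρ : EM ρ) (β : ℝ) {q : ℝ} (h0 : 0 < q) (h1 : q < 1) :
    ∃ C : ℝ, 0 < C ∧ ∀ n : ℕ, 1 ≤ n → bb d ρ β q n ≤ C * (n : ℝ) ^ (0.53 : ℝ) := by
  obtain ⟨C1, hC1, hg⟩ := g_zero_le (ρ := ρ) j0 hρ β
  set K : ℝ := Kc β ρ ^ 2 + 1 / q with hK
  have hK0 : 0 < K := by
    have : 0 < 1 / q := by positivity
    have := sq_nonneg (Kc β ρ)
    linarith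
  set G0 : ℝ := |g ρ β (2 * 0) (0 : Site d)| + 1 / q with hG0
  have hG : 0 ≤ G0 := by positivity
  refine ⟨C1 + 2 * K + G0 + 1, by positivity, fun n hn => ?_⟩
  have hn1 : (1 : ℝ) ≤ n := by exact_mod_cast hn
  have hp1 : (1 : ℝ) ≤ (n : ℝ) ^ (0.53 : ℝ) := Real.one_le_rpow hn1 (by norm_num)
  unfold bb
  apply Finset.sup'_le
  intro r hr
  rw [Finset.mem_range] at hr
  apply max_le
  · have : 1 * 1 ≤ (C1 + 2 * K + G0 + 1) * (n : ℝ) ^ (0.53 : ℝ) :=
      mul_le_mul (by linarith) hp1 (by norm_num) (by positivity)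
    linarith
  rcases Nat.eq_zero_or_pos r with h | h
  · subst h
    have h3 : Q d ρ β q 0 ≤ g ρ β (2 * 0) (0 : Site d) + 1 / q := by
      apply QuantB_Q_le j0 hρ β h0 h1 0 (t := 1) (by norm_num) (by norm_num)
      have h4 : Kc β ρ ^ 2 * (1 : ℝ) ^ 2 * ((2 * 0 : ℕ) : ℝ) - 1 * (1 / q) = -(1 / q) := by
        push_cast
        ring
      rw [h4]
      exact QuantB_exp_lt h0
    have h5 : Q d ρ β q 0 ≤ G0 := by
      have := le_abs_self (g ρ β (2 * 0) (0 : Site d))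
      linarith
    calc Q d ρ β q 0 ≤ G0 * 1 := by linarith
      _ ≤ (C1 + 2 * K + G0 + 1) * (n : ℝ) ^ (0.53 : ℝ) :=
        mul_le_mul (by linarith) hp1 (by norm_num) (by positivity)
  · have hr1 : (1 : ℝ) ≤ r := by exact_mod_cast h
    have hrn : (r : ℝ) ≤ n := by
      have : r ≤ n := by omega
      exact_mod_cast this
    have h2r : (0 : ℝ) < 2 * r := by linarith
    have hs : 0 < Real.sqrt (2 * r) := Real.sqrt_pos.2 h2r
    have hs1 : 1 ≤ Real.sqrt (2 * r) := by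
      rw [Real.one_le_sqrt]
      linarith
    have h3 : Q d ρ β q r ≤ g ρ β (2 * r) (0 : Site d) + K * Real.sqrt (2 * r) := by
      apply QuantB_Q_le j0 hρ β h0 h1 r (t := 1 / Real.sqrt (2 * r)) (by positivity)
      · rw [div_le_one hs]
        exact hs1
      · have h4 : Kc β ρ ^ 2 * (1 / Real.sqrt (2 * r)) ^ 2 * ((2 * r : ℕ) : ℝ) -
            1 / Real.sqrt (2 * r) * (K * Real.sqrt (2 * r)) = -(1 / q) := by
          have h5 : (1 / Real.sqrt (2 * r)) ^ 2 = 1 / (2 * (r : ℝ)) := by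
            rw [div_pow, Real.sq_sqrt h2r.le, one_pow]
          rw [h5, hK]
          push_cast
          field_simp
          ring
        rw [h4]
        exact QuantB_exp_lt h0
    have h6 := hg r h
    have h7 : (r : ℝ) ^ (0.52 : ℝ) ≤ (n : ℝ) ^ (0.53 : ℝ) :=
      (Real.rpow_le_rpow (by linarith) hrn (by norm_num)).trans
        (Real.rpow_le_rpow_of_exponent_le hn1 (by norm_num))
    have h8 : Real.sqrt (2 * r) ≤ 2 * (n : ℝ) ^ (0.53 : ℝ) := by
      rw [Real.sqrt_mul (by norm_num)]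
      have h9 : Real.sqrt 2 ≤ 2 := by
        rw [Real.sqrt_le_left (by norm_num)]
        norm_num
      have h10 : Real.sqrt r ≤ (n : ℝ) ^ (0.53 : ℝ) := by
        rw [Real.sqrt_eq_rpow]
        exact (Real.rpow_le_rpow (by linarith) hrn (by norm_num)).trans
          (Real.rpow_le_rpow_of_exponent_le hn1 (by norm_num))
      exact mul_le_mul h9 h10 (Real.sqrt_nonneg _) (by norm_num)
    have h11 : C1 * (r : ℝ) ^ (0.52 : ℝ) ≤ C1 * (n : ℝ) ^ (0.53 : ℝ) :=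
      mul_le_mul_of_nonneg_left h7 hC1.le
    have h12 : K * Real.sqrt (2 * r) ≤ K * (2 * (n : ℝ) ^ (0.53 : ℝ)) :=
      mul_le_mul_of_nonneg_left h8 hK0.le
    have h13 : 0 ≤ (G0 + 1) * (n : ℝ) ^ (0.53 : ℝ) := by positivity
    calc Q d ρ β q r ≤ C1 * (n : ℝ) ^ (0.53 : ℝ) + K * (2 * (n : ℝ) ^ (0.53 : ℝ)) := by linarith
      _ ≤ (C1 + 2 * K + G0 + 1) * (n : ℝ) ^ (0.53 : ℝ) := by nlinarith

end Pool.Agent.W_7d29a1_h3
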