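import Pool.Agent.W_7d29a1_h3.ContraA
import Pool.Agent.W_7d29a1_h3.CentreA

/-!
Section 9: the numbers.
-/

namespace Pool.Agent.W_7d29a1_h3

open MeasureTheory ProbabilityTheory Filter Topology Pool.Agent.W_MP_7d29a1_pr
  Pool.Agent.W_7d29a1_h46 Pool.Agent.W_7d29a1_h46u

variable {d : ℕ} {ρ : Measure ℝ} [IsProbabilityMeasure ρ]

/-- TASK Contra3. The numbers: the final inequality is false. `hlow`: every odd block `i` has `τ' i ≥ -δ B`, at least
`q/8 * #odds` of them have `τ' i ≥ B`, at most `k` of the odd blocks are changed. -/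
theorem contra_num {m k : ℕ} {c : ℕ → Site d} {τ : ℕ → ℝ} {B δ q U : ℝ} (hB : 1 ≤ B) (hδ : 0 ≤ δ)
    (hchg : chg m c ≤ k) (hlow : ∀ i ∈ odds m, -(δ * B) ≤ τ i)
    (hmany : q / 8 * (odds m).card ≤ (Set.ncard {i | i ∈ odds m ∧ B ≤ τ i} : ℝ))
    (hup : ∑ i ∈ (Finset.range m).filter (fun i => Odd i ∧ c (i + 1) = c i), τ i ≤ U) :
    (q / 8 * (odds m).card - k) * B - m * δ * B ≤ U := by
  classical
  have hB0 : (0 : ℝ) ≤ B := by linarith
  set F : Finset ℕ := (Finset.range m).filter (fun i => Odd i ∧ c (i + 1) = c i) with hF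
  set G : Finset ℕ := (odds m).filter (fun i => B ≤ τ i) with hG
  have hGn : Set.ncard {i | i ∈ odds m ∧ B ≤ τ i} = G.card := by
    have : {i | i ∈ odds m ∧ B ≤ τ i} = (G : Set ℕ) := by
      ext i
      simp only [hG, Set.mem_ofPred_eq, Finset.coe_filter]
    rw [this, Set.ncard_coe_finset]
  rw [hGn] at hmany
  have hsub : G ⊆ (F.filter fun i => B ≤ τ i) ∪
      ((Finset.range m).filter fun i => c (i + 1) ≠ c i) := by
    intro i hi
    rw [hG, Finset.mem_filter, odds, Finset.mem_filter] at hi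
    rw [Finset.mem_union, Finset.mem_filter, hF, Finset.mem_filter, Finset.mem_filter]
    by_cases h : c (i + 1) = c i
    · exact Or.inl ⟨⟨hi.1.1, hi.1.2, h⟩, hi.2⟩
    · exact Or.inr ⟨hi.1.1, h⟩
  have hchg2 : ((Finset.range m).filter fun i => c (i + 1) ≠ c i).card = chg m c := by
    unfold chg
    congr 1
    ext i
    simp only [Finset.mem_filter]
  have hcard : G.card ≤ (F.filter fun i => B ≤ τ i).card + k := by
    calc G.card ≤ _ := Finset.card_le_card hsub
      _ ≤ (F.filter fun i => B ≤ τ i).card +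
          ((Finset.range m).filter fun i => c (i + 1) ≠ c i).card := Finset.card_union_le _ _
      _ ≤ _ := Nat.add_le_add_left (hchg2.le.trans hchg) _
  have hcardR : (G.card : ℝ) ≤ ((F.filter fun i => B ≤ τ i).card : ℝ) + k := by
    exact_mod_cast hcard
  have hFm : ((F.filter fun i => ¬ B ≤ τ i).card : ℝ) ≤ m := by
    have h1 : (F.filter fun i => ¬ B ≤ τ i).card ≤ (Finset.range m).card :=
      Finset.card_le_card ((Finset.filter_subset _ _).trans (Finset.filter_subset _ _))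
    rw [Finset.card_range] at h1
    exact_mod_cast h1
  have hs1 : ((F.filter fun i => B ≤ τ i).card : ℝ) * B ≤ ∑ i ∈ F.filter (fun i => B ≤ τ i), τ i := by
    rw [← nsmul_eq_mul]
    exact Finset.card_nsmul_le_sum _ _ _ fun i hi => (Finset.mem_filter.1 hi).2
  have hs2 : ((F.filter fun i => ¬ B ≤ τ i).card : ℝ) * (-(δ * B)) ≤
      ∑ i ∈ F.filter (fun i => ¬ B ≤ τ i), τ i := by
    rw [← nsmul_eq_mul]
    refine Finset.card_nsmul_le_sum _ _ _ fun i hi => hlow i ?_
    have h1 := (Finset.mem_filter.1 hi).1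
    rw [hF, Finset.mem_filter] at h1
    rw [odds, Finset.mem_filter]
    exact ⟨h1.1, h1.2.1⟩
  have hsum := Finset.sum_filter_add_sum_filter_not F (fun i => B ≤ τ i) τ
  have e1 : (q / 8 * (odds m).card - k) * B ≤ ((F.filter fun i => B ≤ τ i).card : ℝ) * B :=
    mul_le_mul_of_nonneg_right (by linarith) hB0
  have e2 : ((F.filter fun i => ¬ B ≤ τ i).card : ℝ) * (δ * B) ≤ m * (δ * B) :=
    mul_le_mul_of_nonneg_right hFm (mul_nonneg hδ hB0)
  nlinarith [hs1, hs2, hsum, e1, e2, hup]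

end Pool.Agent.W_7d29a1_h3
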