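import Pool.Agent.W_7d29a1_h3.DecB

/-!
Section 9: the positions.
-/

namespace Pool.Agent.W_7d29a1_h3

open MeasureTheory ProbabilityTheory Filter Topology Pool.Agent.W_MP_7d29a1_pr
  Pool.Agent.W_7d29a1_h46 Pool.Agent.W_7d29a1_h46u

variable {d : ℕ} {ρ : Measure ℝ} {β : ℝ}

/-- The product of consecutive blocks is at most the weight of the joined block. -/
private theorem DetA_chain (η : Env d) (N1 : ℕ) (x : ℕ → Site d) (i : ℕ) {k : ℕ} (hk : 1 ≤ k) :
    ∏ j ∈ Finset.range k,
        Vp ρ β (sh ((i + j) * N1) (x (i + j)) η) N1 (x (i + j + 1) - x (i + j)) ≤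
      Vp ρ β (sh (i * N1) (x i) η) (k * N1) (x (i + k) - x i) := by
  induction k, hk using Nat.le_induction with
  | base => simp
  | succ k hk ih =>
    rw [Finset.prod_range_succ]
    have h1 : 0 ≤ Vp ρ β (sh ((i + k) * N1) (x (i + k)) η) N1 (x (i + k + 1) - x (i + k)) :=
      V_nonneg _ _
    refine (mul_le_mul_of_nonneg_right ih h1).trans ?_
    have h2 := Vp_add (ρ := ρ) (β := β) (sh (i * N1) (x i) η) (k * N1) N1 (x (i + k) - x i)
      (x (i + k + 1) - x (i + k))
    rw [sh_sh] at h2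
    have e1 : k * N1 + i * N1 = (i + k) * N1 := by ring
    have e2 : x (i + k) - x i + x i = x (i + k) := by abel
    have e3 : k * N1 + N1 = (k + 1) * N1 := by ring
    have e4 : x (i + k) - x i + (x (i + k + 1) - x (i + k)) = x (i + (k + 1)) - x i := by
      rw [show i + (k + 1) = i + k + 1 by ring]
      abel
    rw [e1, e2, e3, e4] at h2
    exact h2

private theorem DetA_adm {N1 : ℕ} {x : ℕ → Site d} {m : ℕ} (h0 : x 0 = 0)
    (ha : ∀ i < m, adm N1 (x (i + 1) - x i)) : ∀ i ≤ m, adm (i * N1) (x i) := by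
  intro i
  induction i with
  | zero =>
    intro _
    rw [h0]
    constructor
    · simp [ln]
    · simp [ln]
  | succ i ih =>
    intro hi
    have h1 := adm_add (ih (by omega)) (ha i (by omega))
    have e1 : i * N1 + N1 = (i + 1) * N1 := by ring
    have e2 : x i + (x (i + 1) - x i) = x (i + 1) := by abel
    rw [e1, e2] at h1
    exact h1

/-- TASK Det1. (9.1) and (9.2): the positions. `block_exists`; `τ i = -log Vp (block i)`; `∑ τ i ≤ 2 M B` (`hlog`). For `i ≤ m`
the products of the first `i` and of the last `m - i` blocks are at most `Vp η (i N1) (x i)` and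
`Vp (sh (i N1) (x i) η) ((m - i) N1) (-(x i))` (`Vp_add`), so if `sn (x i) > K B` then `h2f, h2b` give
`2 κ sn (x i) - κ K B < 2 M B ≤ κ K B`, a contradiction. `adm N1` with `N1` even gives `Even (ln (x i))`, then `h3` gives
`κ sn (x (i+1) - x i) - δ B ≤ τ i`. -/
theorem det_path (j0 : Fin d) {κ : ℝ} (hκ : 0 < κ) (η : Env d) {m N1 : ℕ} {B K δ M : ℝ}
    (hB : 1 ≤ B) (hδ : 0 ≤ δ) (hN1 : Even N1) (hMK : 2 * M ≤ κ * K)
    (hlog : (m : ℝ) * d * Real.log (2 * ((m * N1 : ℕ) : ℝ) + 1) ≤ M * B)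
    (h1 : Real.exp (-(M * B)) ≤ Vp ρ β η (m * N1) 0)
    (h2f : ∀ i ≤ m * N1, ∀ y : Site d, Vp ρ β η i y < Real.exp (κ * K / 2 * B - κ * sn y))
    (h2b : ∀ i ≤ m * N1, ∀ y : Site d,
      Vp ρ β (sh (m * N1 - i) (0 - y) η) i y < Real.exp (κ * K / 2 * B - κ * sn y))
    (h3 : ∀ i < m, ∀ x p : Site d, (sn x : ℝ) ≤ K * B → (sn p : ℝ) ≤ K * B → Even (ln x) →
      Even (ln p) → Vp ρ β (sh (i * N1) x η) N1 (p - x) < Real.exp (δ * B - κ * sn (p - x))) :
    ∃ x : ℕ → Site d, x 0 = 0 ∧ (∀ i ≤ m, (sn (x i) : ℝ) ≤ K * B ∧ Even (ln (x i))) ∧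
      (∀ i < m, adm N1 (x (i + 1) - x i)) ∧
      (∀ i < m, κ * sn (x (i + 1) - x i) - δ * B ≤
        -Real.log (Vp ρ β (sh (i * N1) (x i) η) N1 (x (i + 1) - x i))) ∧
      ∑ i ∈ Finset.range m, -Real.log (Vp ρ β (sh (i * N1) (x i) η) N1 (x (i + 1) - x i)) ≤
        2 * M * B := by
  have hadm0 : adm (m * N1) (0 : Site d) := by
    obtain ⟨k, hk⟩ := hN1.mul_left m
    rw [hk, ← two_mul]
    exact adm_zero k
  obtain ⟨x, hx0, hxm, hadm, hprod⟩ := block_exists (ρ := ρ) (β := β) j0 η N1 m hadm0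
  set f : ℕ → ℝ := fun i => Vp ρ β (sh (i * N1) (x i) η) N1 (x (i + 1) - x i) with hf
  have hfpos : ∀ i < m, 0 < f i := fun i hi => Vp_pos j0 _ (hadm i hi)
  have hM : 0 ≤ M := by
    have h0 : 0 ≤ (m : ℝ) * d * Real.log (2 * ((m * N1 : ℕ) : ℝ) + 1) := by
      refine mul_nonneg (by positivity) (Real.log_nonneg ?_)
      have : (0 : ℝ) ≤ ((m * N1 : ℕ) : ℝ) := Nat.cast_nonneg _
      linarith only [this]
    have h1 : 0 ≤ M * B := h0.trans hlog
    by_contra hcon
    have h2 : M * B < 0 := mul_neg_of_neg_of_pos (not_le.1 hcon) (by linarith only [hB])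
    linarith only [h1, h2]
  have hB0 : 0 < B := by linarith only [hB]
  have hKB : 0 ≤ K * B := by
    have h1 : 0 ≤ κ * K := by linarith only [hM, hMK]
    have h2 : 0 ≤ K := by
      by_contra hcon
      have h3 : κ * K < 0 := mul_neg_of_pos_of_neg hκ (not_le.1 hcon)
      linarith only [h1, h3]
    exact mul_nonneg h2 hB0.le
  have hP : 0 < ∏ i ∈ Finset.range m, f i :=
    Finset.prod_pos fun i hi => hfpos i (Finset.mem_range.1 hi)
  have hA : (1 : ℝ) ≤ 2 * ((m * N1 : ℕ) : ℝ) + 1 := by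
    have : (0 : ℝ) ≤ ((m * N1 : ℕ) : ℝ) := Nat.cast_nonneg _
    linarith only [this]
  have hlogP : Real.log (∏ i ∈ Finset.range m, f i) = ∑ i ∈ Finset.range m, Real.log (f i) :=
    Real.log_prod fun i hi => (hfpos i (Finset.mem_range.1 hi)).ne'
  have hsum : -(2 * M * B) ≤ ∑ i ∈ Finset.range m, Real.log (f i) := by
    have h2 := h1.trans hprod
    have hAp : 0 < ((2 * ((m * N1 : ℕ) : ℝ) + 1) ^ d) ^ m := by positivity
    have h3 := Real.log_le_log (Real.exp_pos _) h2
    rw [Real.log_exp, Real.log_mul hAp.ne' hP.ne', Real.log_pow, Real.log_pow, hlogP] at h3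
    have h4 : (m : ℝ) * ((d : ℝ) * Real.log (2 * ((m * N1 : ℕ) : ℝ) + 1)) ≤ M * B := by
      rw [← mul_assoc]
      exact hlog
    linarith only [h3, h4]
  have hAdm := DetA_adm hx0 hadm
  have hpos : ∀ i ≤ m, (sn (x i) : ℝ) ≤ K * B := by
    intro i hi
    have hzero : (sn (0 : Site d) : ℝ) ≤ K * B := by
      have : sn (0 : Site d) = 0 := by
        have h5 : sn (0 : Site d) ≤ 0 := sn_le_iff.2 fun j => by simp
        omega
      rw [this]
      simpa using hKB
    rcases Nat.eq_zero_or_pos i with h0 | h0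
    · rw [h0, hx0]
      exact hzero
    rcases Nat.eq_or_lt_of_le hi with hm | hm
    · rw [hm, hxm]
      exact hzero
    have hP1 : ∏ j ∈ Finset.range i, f j < Real.exp (κ * K / 2 * B - κ * sn (x i)) := by
      have h5 := DetA_chain (ρ := ρ) (β := β) η N1 x 0 (k := i) h0
      simp only [zero_add, zero_mul] at h5
      rw [hx0, sh_zero, sub_zero] at h5
      exact h5.trans_lt (h2f _ (Nat.mul_le_mul_right _ hi) _)
    have hP2 : ∏ j ∈ Finset.range (m - i), f (i + j) <
        Real.exp (κ * K / 2 * B - κ * sn (x i)) := by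
      have h5 := DetA_chain (ρ := ρ) (β := β) η N1 x i (k := m - i) (by omega)
      have h6 := h2b ((m - i) * N1) (Nat.mul_le_mul_right _ (Nat.sub_le m i)) (0 - x i)
      have e1 : m * N1 - (m - i) * N1 = i * N1 := by
        rw [← Nat.sub_mul]
        congr 1
        omega
      have e2 : i + (m - i) = m := by omega
      rw [e2, hxm] at h5
      rw [e1, sub_sub_cancel] at h6
      rw [show sn (0 - x i) = sn (x i) by rw [zero_sub, sn_neg]] at h6
      exact h5.trans_lt h6
    have hsplit : (∏ j ∈ Finset.range i, f j) * ∏ j ∈ Finset.range (m - i), f (i + j) =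
        ∏ j ∈ Finset.range m, f j := by
      have h7 := Finset.prod_range_add f i (m - i)
      rw [show i + (m - i) = m by omega] at h7
      exact h7.symm
    have hPp2 : 0 < ∏ j ∈ Finset.range (m - i), f (i + j) :=
      Finset.prod_pos fun j hj => hfpos _ (by have := Finset.mem_range.1 hj; omega)
    have h8 : ∏ j ∈ Finset.range m, f j <
        Real.exp (κ * K * B - 2 * (κ * sn (x i))) := by
      rw [← hsplit]
      calc (∏ j ∈ Finset.range i, f j) * ∏ j ∈ Finset.range (m - i), f (i + j)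
          < Real.exp (κ * K / 2 * B - κ * sn (x i)) *
              ∏ j ∈ Finset.range (m - i), f (i + j) := mul_lt_mul_of_pos_right hP1 hPp2
        _ ≤ Real.exp (κ * K / 2 * B - κ * sn (x i)) *
              Real.exp (κ * K / 2 * B - κ * sn (x i)) :=
            mul_le_mul_of_nonneg_left hP2.le (Real.exp_pos _).le
        _ = Real.exp (κ * K * B - 2 * (κ * sn (x i))) := by
            rw [← Real.exp_add]
            congr 1
            ring
    have h9 := (Real.log_lt_iff_lt_exp hP).2 h8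
    rw [hlogP] at h9
    have h10 : 2 * M * B ≤ κ * K * B := mul_le_mul_of_nonneg_right hMK hB0.le
    have h11 : κ * (sn (x i) : ℝ) < κ * (K * B) := by
      have e : κ * (K * B) = κ * K * B := by ring
      rw [e]
      linarith only [h9, h10, hsum]
    exact (lt_of_mul_lt_mul_left h11 hκ.le).le
  have heven : ∀ i ≤ m, Even (ln (x i)) := by
    intro i hi
    have h5 := (hAdm i hi).2
    have h6 : Even (i * N1) := hN1.mul_left i
    have h7 : Even (ln (x i) + i * N1) := Nat.even_iff.2 h5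
    exact (Nat.even_add.1 h7).2 h6
  refine ⟨x, hx0, fun i hi => ⟨hpos i hi, heven i hi⟩, hadm, ?_, ?_⟩
  · intro i hi
    have h5 := h3 i hi (x i) (x (i + 1)) (hpos i hi.le) (hpos (i + 1) hi) (heven i hi.le)
      (heven (i + 1) hi)
    have h6 := (Real.log_lt_iff_lt_exp (hfpos i hi)).2 h5
    have h7 : Real.log (Vp ρ β (sh (i * N1) (x i) η) N1 (x (i + 1) - x i)) <
      δ * B - κ * sn (x (i + 1) - x i) := h6
    linarith only [h7]
  · have h5 : ∑ i ∈ Finset.range m,
        -Real.log (Vp ρ β (sh (i * N1) (x i) η) N1 (x (i + 1) - x i)) =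
        -∑ i ∈ Finset.range m, Real.log (f i) := by
      rw [← Finset.sum_neg_distrib]
    rw [h5]
    linarith only [hsum]

end Pool.Agent.W_7d29a1_h3
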