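import Pool.Agent.W_7d29a1_h3.DecB
import Pool.Agent.W_7d29a1_h3.CentreA

/-!
Section 9: the sequence of centres.
-/

namespace Pool.Agent.W_7d29a1_h3

open MeasureTheory ProbabilityTheory Filter Topology Pool.Agent.W_MP_7d29a1_pr
  Pool.Agent.W_7d29a1_h46 Pool.Agent.W_7d29a1_h46u

variable {d : ℕ} {ρ : Measure ℝ} {β : ℝ}

theorem det_even_ln_sub {x c : Site d} {R : ℕ} (hRe : Even R) (hc : ∀ j, (R : ℤ) ∣ c j)
    (hx : Even (ln x)) : Even (ln (x - c)) := by
  have h1 : Even (ln x + ln (x - c)) := by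
    unfold ln
    rw [← Finset.sum_add_distrib]
    refine Finset.even_sum _ fun j _ => ?_
    obtain ⟨r, hr⟩ := hRe
    obtain ⟨k, hk⟩ := hc j
    have h2 : c j = 2 * ((r : ℤ) * k) := by
      rw [hk, hr]
      push_cast
      ring
    simp only [Pi.sub_apply]
    rw [h2]
    generalize (r : ℤ) * k = w
    rw [Nat.even_iff]
    omega
  exact (Nat.even_add.mp h1).mp hx

/-- TASK Det2. (9.3) and (9.4). `centres` with `K' = ⌊K B⌋`; `κ ∑ sn (x (i+1) - x i) ≤ 2 M B + m δ B`. For an odd `i` with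
`c (i+1) = c i = c`: `Vp_add` with the connectors from `(i N1 - l, c)` to `(i N1, x i)` and from
`((i+1) N1, x (i+1))` to `((i+1) N1 + l, c)`. The other `τ i` are `≥ - δ B`. (`ln (x i - c i)` is even because all coordinates of
`c i` are even.) -/
theorem det_seq (j0 : Fin d) {κ : ℝ} (hκ : 0 < κ) (η : Env d) {m N1 R l : ℕ} {B K δ M C5 : ℝ}
    (hB : 1 ≤ B) (hK : 0 ≤ K) (hδ : 0 ≤ δ) (hC5 : 0 ≤ C5) (hM : 0 ≤ M) (hN1 : Even N1) (hR : 0 < R)
    (hRe : Even R) (hl : Even l) (hlN : l ≤ N1) (x : ℕ → Site d) (hx0 : x 0 = 0)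
    (hx : ∀ i ≤ m, (sn (x i) : ℝ) ≤ K * B ∧ Even (ln (x i)))
    (hadm : ∀ i < m, adm N1 (x (i + 1) - x i))
    (hlow : ∀ i < m, κ * sn (x (i + 1) - x i) - δ * B ≤
        -Real.log (Vp ρ β (sh (i * N1) (x i) η) N1 (x (i + 1) - x i)))
    (hsum : ∑ i ∈ Finset.range m,
        -Real.log (Vp ρ β (sh (i * N1) (x i) η) N1 (x (i + 1) - x i)) ≤ 2 * M * B)
    (h4a : ∀ i, 1 ≤ i → i ≤ m → ∀ c v : Site d, (∀ j, (R : ℤ) ∣ c j) → (sn c : ℝ) ≤ K * B + R →
      sn v ≤ 2 * R → Even (ln v) → Real.exp (-(C5 * l)) ≤ Vp ρ β (sh (i * N1 - l) c η) l v)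
    (h4b : ∀ i, 1 ≤ i → i ≤ m → ∀ c v : Site d, (∀ j, (R : ℤ) ∣ c j) → (sn c : ℝ) ≤ K * B + R →
      sn v ≤ 2 * R → Even (ln v) → Real.exp (-(C5 * l)) ≤ Vp ρ β (sh (i * N1) (c + v) η) l (-v)) :
    ∃ c : ℕ → Site d, c 0 = 0 ∧ (∀ i ≤ m, ∀ j, (R : ℤ) ∣ c i j) ∧
      (∀ i ≤ m, (sn (c i) : ℝ) ≤ K * B + R) ∧ κ * (chg m c * R) ≤ (2 * M + m * δ) * B ∧
      ∑ i ∈ (Finset.range m).filter (fun i => Odd i ∧ c (i + 1) = c i),
        -Real.log (Vp ρ β (sh (i * N1 - l) (c i) η) (N1 + 2 * l) 0) ≤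
        (2 * M + m * δ) * B + 2 * C5 * l * m := by
  obtain ⟨c, hc0, hc1, hc2, hc3, hc4⟩ := centres x m hR hx0 (K := ⌊K * B⌋₊)
    (fun i hi => Nat.le_floor (hx i hi).1)
  obtain ⟨τ, hτ⟩ : ∃ τ : ℕ → ℝ, ∀ i, τ i =
    -Real.log (Vp ρ β (sh (i * N1) (x i) η) N1 (x (i + 1) - x i)) := ⟨_, fun i => rfl⟩
  simp only [← hτ] at hlow hsum
  have hKB : 0 ≤ K * B := mul_nonneg hK (by linarith)
  have hδB : 0 ≤ δ * B := mul_nonneg hδ (by linarith)
  have hfl : ((⌊K * B⌋₊ : ℕ) : ℝ) ≤ K * B := Nat.floor_le hKB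
  have hcn : ∀ i ≤ m, (sn (c i) : ℝ) ≤ K * B + R := fun i hi => by
    have h2 : (sn (c i) : ℝ) ≤ ((⌊K * B⌋₊ : ℕ) : ℝ) + R := by exact_mod_cast hc3 i hi
    linarith
  refine ⟨c, hc0, hc2, hcn, ?_, ?_⟩
  · have h1 : ((chg m c * R : ℕ) : ℝ) ≤
        ((∑ i ∈ Finset.range m, sn (x (i + 1) - x i) : ℕ) : ℝ) := by exact_mod_cast hc4
    have h2 : ∑ i ∈ Finset.range m, (κ * sn (x (i + 1) - x i) - δ * B) ≤
        ∑ i ∈ Finset.range m, τ i :=
      Finset.sum_le_sum fun i hi => hlow i (Finset.mem_range.mp hi)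
    rw [Finset.sum_sub_distrib, ← Finset.mul_sum, Finset.sum_const, Finset.card_range,
      nsmul_eq_mul] at h2
    push_cast at h1
    have h3 := mul_le_mul_of_nonneg_left h1 hκ.le
    nlinarith
  · have key : ∀ i ∈ (Finset.range m).filter (fun i => Odd i ∧ c (i + 1) = c i),
        -Real.log (Vp ρ β (sh (i * N1 - l) (c i) η) (N1 + 2 * l) 0) ≤ τ i + 2 * C5 * l := by
      intro i hi
      rw [Finset.mem_filter, Finset.mem_range] at hi
      obtain ⟨him, ho, hci⟩ := hi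
      have hi1 : 1 ≤ i := ho.pos
      have hiN : l ≤ i * N1 := le_trans hlN (Nat.le_mul_of_pos_left N1 hi1)
      obtain ⟨v, hv⟩ : ∃ v, v = x i - c i := ⟨_, rfl⟩
      obtain ⟨v', hv'⟩ : ∃ v', v' = x (i + 1) - c i := ⟨_, rfl⟩
      have hva : Real.exp (-(C5 * l)) ≤ Vp ρ β (sh (i * N1 - l) (c i) η) l v :=
        h4a i hi1 him.le (c i) v (hc2 i him.le) (hcn i him.le)
          (by rw [hv]; exact hc1 i him.le)
          (by rw [hv]; exact det_even_ln_sub hRe (hc2 i him.le) (hx i him.le).2)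
      have hvb : Real.exp (-(C5 * l)) ≤ Vp ρ β (sh ((i + 1) * N1) (c i + v') η) l (-v') :=
        h4b (i + 1) (by omega) him (c i) v' (hc2 i him.le) (hcn i him.le)
          (by rw [hv', ← hci]; exact hc1 (i + 1) him)
          (by rw [hv']; exact det_even_ln_sub hRe (hc2 i him.le) (hx (i + 1) him).2)
      have hmid : 0 < Vp ρ β (sh (i * N1) (x i) η) N1 (x (i + 1) - x i) :=
        Vp_pos j0 _ (hadm i him)
      have h1 := Vp_add (ρ := ρ) (β := β) (sh (i * N1 - l) (c i) η) l N1 v (x (i + 1) - x i)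
      have e1 : l + (i * N1 - l) = i * N1 := by omega
      have e2 : v + c i = x i := by rw [hv]; abel
      rw [sh_sh, e1, e2] at h1
      have h2 := Vp_add (ρ := ρ) (β := β) (sh (i * N1 - l) (c i) η) (l + N1) l
        (v + (x (i + 1) - x i)) (-v')
      have e3 : l + N1 + (i * N1 - l) = (i + 1) * N1 := by
        rw [Nat.succ_mul]
        omega
      have e4 : v + (x (i + 1) - x i) + c i = c i + v' := by
        rw [hv, hv']
        abel
      have e5 : l + N1 + l = N1 + 2 * l := by ring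
      have e6 : v + (x (i + 1) - x i) + -v' = 0 := by
        rw [hv, hv']
        abel
      rw [sh_sh, e3, e4, e5, e6] at h2
      have hE := Real.exp_pos (-(C5 * l))
      have h3 : Real.exp (-(C5 * l)) * Vp ρ β (sh (i * N1) (x i) η) N1 (x (i + 1) - x i) *
          Real.exp (-(C5 * l)) ≤ Vp ρ β (sh (i * N1 - l) (c i) η) (N1 + 2 * l) 0 := by
        refine le_trans ?_ h2
        refine mul_le_mul ?_ hvb hE.le (le_trans (mul_nonneg (hE.le.trans hva) hmid.le) h1)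
        exact le_trans (mul_le_mul_of_nonneg_right hva hmid.le) h1
      have h4 : 0 < Real.exp (-(C5 * l)) *
          Vp ρ β (sh (i * N1) (x i) η) N1 (x (i + 1) - x i) * Real.exp (-(C5 * l)) :=
        mul_pos (mul_pos hE hmid) hE
      have h5 := Real.log_le_log h4 h3
      rw [Real.log_mul (mul_pos hE hmid).ne' hE.ne', Real.log_mul hE.ne' hmid.ne',
        Real.log_exp] at h5
      rw [hτ i]
      linarith
    have h1 := Finset.sum_le_sum key
    rw [Finset.sum_add_distrib, Finset.sum_const, nsmul_eq_mul] at h1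
    have h2 := Finset.sum_filter_add_sum_filter_not (Finset.range m)
      (fun i => Odd i ∧ c (i + 1) = c i) τ
    have h3 : ∑ i ∈ (Finset.range m).filter (fun i => ¬ (Odd i ∧ c (i + 1) = c i)), (-(δ * B)) ≤
        ∑ i ∈ (Finset.range m).filter (fun i => ¬ (Odd i ∧ c (i + 1) = c i)), τ i := by
      refine Finset.sum_le_sum fun i hi => ?_
      have h4 := hlow i (Finset.mem_range.mp (Finset.mem_filter.mp hi).1)
      have h5 : 0 ≤ κ * sn (x (i + 1) - x i) := mul_nonneg hκ.le (Nat.cast_nonneg _)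
      linarith
    rw [Finset.sum_const, nsmul_eq_mul] at h3
    have h6 : ((((Finset.range m).filter
        (fun i => ¬ (Odd i ∧ c (i + 1) = c i))).card : ℕ) : ℝ) ≤ m := by
      have := Finset.card_filter_le (Finset.range m) (fun i => ¬ (Odd i ∧ c (i + 1) = c i))
      rw [Finset.card_range] at this
      exact_mod_cast this
    have h7 : ((((Finset.range m).filter
        (fun i => Odd i ∧ c (i + 1) = c i)).card : ℕ) : ℝ) ≤ m := by
      have := Finset.card_filter_le (Finset.range m) (fun i => Odd i ∧ c (i + 1) = c i)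
      rw [Finset.card_range] at this
      exact_mod_cast this
    have h8 := mul_le_mul_of_nonneg_right h6 hδB
    have h9 := mul_le_mul_of_nonneg_right h7
      (mul_nonneg (mul_nonneg zero_le_two hC5) (Nat.cast_nonneg l))
    nlinarith

end Pool.Agent.W_7d29a1_h3
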