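import Pool.Agent.W_7d29a1_h3.ConfC

/-!
Section 8: good scales.
-/

namespace Pool.Agent.W_7d29a1_h3

open MeasureTheory ProbabilityTheory Filter Topology Pool.Agent.W_MP_7d29a1_pr
  Pool.Agent.W_7d29a1_h46 Pool.Agent.W_7d29a1_h46u

variable {d : ℕ} {ρ : Measure ℝ} [IsProbabilityMeasure ρ]

/-- A sequence which grows faster than `m ^ 0.7` per factor `m` is not bounded by `C n ^ 0.53`. -/
private theorem Good_growth {b : ℕ → ℝ} {C : ℝ} {m n1 : ℕ} (hm : 2 ≤ m) (hn1 : 1 ≤ n1)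
    (hb1 : ∀ n, 1 ≤ b n) (hC : 0 < C) (hle : ∀ n : ℕ, 1 ≤ n → b n ≤ C * (n : ℝ) ^ (0.53 : ℝ))
    (h : ∀ n ≥ n1, (m : ℝ) ^ (0.7 : ℝ) * b n < b (m * n)) : False := by
  have hm1 : (1 : ℝ) < m := by exact_mod_cast (by omega : 1 < m)
  have hm0 : (0 : ℝ) < m := by linarith
  have hA : ∀ j : ℕ, ((m : ℝ) ^ (0.7 : ℝ)) ^ j ≤ b (m ^ j * n1) := by
    intro j
    induction j with
    | zero => simpa using hb1 n1
    | succ j ih =>
      have hge : n1 ≤ m ^ j * n1 := Nat.le_mul_of_pos_left _ (pow_pos (by omega) j)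
      have h1 := h (m ^ j * n1) hge
      have h2 : m * (m ^ j * n1) = m ^ (j + 1) * n1 := by ring
      rw [h2] at h1
      have h3 : 0 ≤ (m : ℝ) ^ (0.7 : ℝ) := Real.rpow_nonneg hm0.le _
      calc ((m : ℝ) ^ (0.7 : ℝ)) ^ (j + 1) = (m : ℝ) ^ (0.7 : ℝ) * ((m : ℝ) ^ (0.7 : ℝ)) ^ j := by
            rw [pow_succ, mul_comm]
        _ ≤ (m : ℝ) ^ (0.7 : ℝ) * b (m ^ j * n1) := mul_le_mul_of_nonneg_left ih h3
        _ ≤ _ := h1.le
  have hB : ∀ j : ℕ, ((m : ℝ) ^ (0.17 : ℝ)) ^ j ≤ C * (n1 : ℝ) ^ (0.53 : ℝ) := by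
    intro j
    have h1 : 1 ≤ m ^ j * n1 := Nat.mul_pos (pow_pos (by omega) j) hn1
    have h2 := (hA j).trans (hle _ h1)
    have h3 : (((m ^ j * n1 : ℕ) : ℝ)) ^ (0.53 : ℝ) =
        ((m : ℝ) ^ (0.53 : ℝ)) ^ j * (n1 : ℝ) ^ (0.53 : ℝ) := by
      push_cast
      rw [Real.mul_rpow (by positivity) (by positivity), ← Real.rpow_natCast, ← Real.rpow_natCast,
        ← Real.rpow_mul hm0.le, ← Real.rpow_mul hm0.le, mul_comm (j : ℝ)]
    have h4 : ((m : ℝ) ^ (0.7 : ℝ)) ^ j = ((m : ℝ) ^ (0.17 : ℝ)) ^ j * ((m : ℝ) ^ (0.53 : ℝ)) ^ j := by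
      rw [← mul_pow, ← Real.rpow_add hm0]
      norm_num
    rw [h3, h4] at h2
    have h5 : 0 < ((m : ℝ) ^ (0.53 : ℝ)) ^ j := pow_pos (Real.rpow_pos_of_pos hm0 _) j
    have h6 : ((m : ℝ) ^ (0.17 : ℝ)) ^ j * ((m : ℝ) ^ (0.53 : ℝ)) ^ j ≤
        C * (n1 : ℝ) ^ (0.53 : ℝ) * ((m : ℝ) ^ (0.53 : ℝ)) ^ j := by
      calc _ ≤ C * (((m : ℝ) ^ (0.53 : ℝ)) ^ j * (n1 : ℝ) ^ (0.53 : ℝ)) := h2
        _ = _ := by ring
    exact le_of_mul_le_mul_right h6 h5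
  have hr : 1 < (m : ℝ) ^ (0.17 : ℝ) := Real.one_lt_rpow hm1 (by norm_num)
  obtain ⟨j, hj⟩ := ((tendsto_pow_atTop_atTop_of_one_lt hr).eventually_gt_atTop
    (C * (n1 : ℝ) ^ (0.53 : ℝ))).exists
  exact absurd (hB j) (not_le.2 hj)

/-- TASK Good. Otherwise `bb (m n) > m ^ 0.7 bb n` whenever `Q n = bb n`, `n ≥ n0`. For `n` large let `r ≤ n` be the least
number with `bb r = bb n`; then `Q r = bb r` (`bb n > 1` by `Post.low`) and `r ≥ n0` (`bb n > bb n0`), so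
`bb (m n) ≥ bb (m r) > m ^ 0.7 bb n` for all large `n`; iterate: contradiction to `bb_le`. -/
theorem good_scale (j0 : Fin d) {β κ q : ℝ} (P : Post d ρ β κ q) {m : ℕ} (hm : 2 ≤ m) (n0 : ℕ) :
    ∃ n ≥ n0, Q d ρ β q n = bb d ρ β q n ∧
      bb d ρ β q (m * n) ≤ (m : ℝ) ^ (0.7 : ℝ) * bb d ρ β q n := by
  by_contra hcon
  push Not at hcon
  have hq1 : q < 1 := by linarith [P.q1]
  obtain ⟨C, hC, hle⟩ := bb_le j0 P.em β P.q0 hq1
  obtain ⟨c, hc, hlow⟩ := P.low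
  have hc0 : 0 < c0 d := by
    unfold c0
    positivity
  have htend : Tendsto (fun n : ℕ => c * (n : ℝ) ^ c0 d) atTop atTop :=
    ((tendsto_rpow_atTop hc0).comp tendsto_natCast_atTop_atTop).const_mul_atTop hc
  obtain ⟨n1, hn1⟩ := eventually_atTop.1
    (hlow.and (htend.eventually_gt_atTop (bb d ρ β q n0)))
  refine Good_growth (b := bb d ρ β q) (n1 := max n1 1) hm (le_max_right _ _)
    (fun n => one_le_bb β q n) hC hle ?_
  intro n hn
  obtain ⟨h1, h2⟩ := hn1 n ((le_max_left _ _).trans hn)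
  have hbig : bb d ρ β q n0 < bb d ρ β q n := lt_of_lt_of_le h2 h1
  have hone : 1 < bb d ρ β q n := lt_of_le_of_lt (one_le_bb β q n0) hbig
  classical
  have hex : ∃ r, bb d ρ β q r = bb d ρ β q n := ⟨n, rfl⟩
  set r := Nat.find hex with hr
  have hrn : r ≤ n := Nat.find_min' hex rfl
  have hbr : bb d ρ β q r = bb d ρ β q n := Nat.find_spec hex
  have hr0 : n0 ≤ r := by
    by_contra h
    have h3 := bb_mono (d := d) (ρ := ρ) β q (not_le.1 h).le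
    rw [hbr] at h3
    linarith
  have hQ : Q d ρ β q r = bb d ρ β q r := by
    have h3 : ∃ s ∈ Finset.range (r + 1), bb d ρ β q r = max 1 (Q d ρ β q s) := by
      unfold bb
      exact Finset.exists_mem_eq_sup' _ _
    obtain ⟨s, hs, hs2⟩ := h3
    have hsr : s ≤ r := Nat.lt_succ_iff.1 (Finset.mem_range.1 hs)
    have h4 : bb d ρ β q r = Q d ρ β q s := by
      rcases max_choice (1 : ℝ) (Q d ρ β q s) with h5 | h5
      · rw [h5, hbr] at hs2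
        linarith
      · rw [h5] at hs2
        exact hs2
    have h5 : bb d ρ β q s = bb d ρ β q n := by
      refine le_antisymm ?_ ?_
      · rw [← hbr]
        exact bb_mono β q hsr
      · rw [← hbr, h4]
        exact Q_le_bb β q le_rfl
    have h6 : r ≤ s := Nat.find_min' hex h5
    have h7 : s = r := le_antisymm hsr h6
    rw [h7] at h4
    exact h4.symm
  have h3 := hcon r hr0 hQ
  rw [hbr] at h3
  exact h3.trans_le (bb_mono β q (Nat.mul_le_mul_left m hrn))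

end Pool.Agent.W_7d29a1_h3
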