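import Pool.Agent.W_7d29a1_h3.ConfC

/-!
Section 7: localisation.
-/

namespace Pool.Agent.W_7d29a1_h3

open MeasureTheory ProbabilityTheory Filter Topology Pool.Agent.W_MP_7d29a1_pr
  Pool.Agent.W_7d29a1_h46 Pool.Agent.W_7d29a1_h46u

variable {d : ℕ} {ρ : Measure ℝ} [IsProbabilityMeasure ρ]

private theorem ThinB_c0_pos (d : ℕ) : 0 < c0 d := by
  unfold c0; positivity

private theorem ThinB_c0_le (d : ℕ) : c0 d ≤ 1 := by
  unfold c0
  rw [div_le_one (by positivity)]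
  have : (0 : ℝ) ≤ (d : ℝ) := by positivity
  linarith

/-- The logarithmic term is negligible. -/
private theorem ThinB_log (d : ℕ) {a : ℝ} (ha : 0 < a) : ∀ᶠ n : ℕ in atTop, ∀ N ≤ 3 * n,
    Real.log (2 * ((N : ℝ) + 1) * (2 * (N : ℝ) + 1) ^ d) ≤ a * (n : ℝ) ^ c0 d := by
  have hd : (0 : ℝ) < (d : ℝ) + 1 := by positivity
  have he : 0 < a / (8 * ((d : ℝ) + 1)) := by positivity
  have h1 := (isLittleO_log_rpow_atTop (ThinB_c0_pos d)).def he
  have h2 : Tendsto (fun n : ℕ => 8 * (n : ℝ)) atTop atTop :=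
    tendsto_natCast_atTop_atTop.const_mul_atTop (by norm_num)
  filter_upwards [h2.eventually h1, eventually_ge_atTop 1] with n hn hn1 N hN
  have hnr : (1 : ℝ) ≤ (n : ℝ) := by exact_mod_cast hn1
  have hNr : (N : ℝ) ≤ 3 * (n : ℝ) := by exact_mod_cast hN
  have hN0 : (0 : ℝ) ≤ (N : ℝ) := by positivity
  have hlog0 : 0 ≤ Real.log (8 * (n : ℝ)) := Real.log_nonneg (by linarith)
  have hb : 2 * ((N : ℝ) + 1) * (2 * (N : ℝ) + 1) ^ d ≤ (8 * (n : ℝ)) ^ (d + 1) := by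
    have e1 : 2 * ((N : ℝ) + 1) ≤ 8 * (n : ℝ) := by linarith
    have e2 : (2 * (N : ℝ) + 1) ^ d ≤ (8 * (n : ℝ)) ^ d :=
      pow_le_pow_left₀ (by positivity) (by linarith) d
    rw [pow_succ, mul_comm ((8 * (n : ℝ)) ^ d)]
    exact mul_le_mul e1 e2 (by positivity) (by positivity)
  have h3 : Real.log (2 * ((N : ℝ) + 1) * (2 * (N : ℝ) + 1) ^ d) ≤
      ((d : ℝ) + 1) * Real.log (8 * (n : ℝ)) := by
    calc Real.log (2 * ((N : ℝ) + 1) * (2 * (N : ℝ) + 1) ^ d)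
        ≤ Real.log ((8 * (n : ℝ)) ^ (d + 1)) := Real.log_le_log (by positivity) hb
      _ = ((d : ℝ) + 1) * Real.log (8 * (n : ℝ)) := by
          rw [Real.log_pow]; push_cast; ring
  have h4 : Real.log (8 * (n : ℝ)) ≤ a / (8 * ((d : ℝ) + 1)) * (8 * (n : ℝ) ^ c0 d) := by
    rw [Real.norm_eq_abs, Real.norm_eq_abs, abs_of_nonneg hlog0,
      abs_of_nonneg (Real.rpow_nonneg (by positivity) _)] at hn
    refine hn.trans ?_
    refine mul_le_mul_of_nonneg_left ?_ he.le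
    rw [Real.mul_rpow (by norm_num) (by positivity)]
    refine mul_le_mul_of_nonneg_right ?_ (Real.rpow_nonneg (by positivity) _)
    calc (8 : ℝ) ^ c0 d ≤ (8 : ℝ) ^ (1 : ℝ) :=
          Real.rpow_le_rpow_of_exponent_le (by norm_num) (ThinB_c0_le d)
      _ = 8 := Real.rpow_one 8
  calc Real.log (2 * ((N : ℝ) + 1) * (2 * (N : ℝ) + 1) ^ d)
      ≤ ((d : ℝ) + 1) * Real.log (8 * (n : ℝ)) := h3
    _ ≤ ((d : ℝ) + 1) * (a / (8 * ((d : ℝ) + 1)) * (8 * (n : ℝ) ^ c0 d)) :=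
        mul_le_mul_of_nonneg_left h4 hd.le
    _ = a * (n : ℝ) ^ c0 d := by field_simp

/-- TASK Thin2. Localisation. `S = ⌈C9 b⌉` with `C9` large (depends on `K, δ, p1`): if the strip had less than half of the weight, `exit_luck`
with `u = κ z_j0 - δ b / 2` (`≤ 3 K κ b`) and `v = κ C9 b / 2` (for large `n`), and `Post.lk` with
`Y = κ C9 / 2`, `A = 3`: probability `≤ 2 C / Y ≤ p1 / 2`. -/
theorem thin_loc (j0 : Fin d) {β κ q : ℝ} (P : Post d ρ β κ q) {K δ p1 : ℝ} (hK : 0 < K)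
    (hδ : 0 < δ) (hp : 0 < p1) : ∃ C9 : ℝ, 0 < C9 ∧ ∀ᶠ n : ℕ in atTop, ∀ (N' : ℕ) (z : Site d),
      N' ≤ 3 * n → adm N' z → (sn z : ℝ) ≤ 3 * K * bb d ρ β q n →
      p1 ≤ (law d ρ).real {η : Env d | Real.exp (δ / 2 * bb d ρ β q n - κ * z j0) ≤
          Vp ρ β η N' z} →
      p1 / 2 ≤ (law d ρ).real {η : Env d | Real.exp (δ / 2 * bb d ρ β q n - 1 - κ * z j0) ≤
          V ρ β η (stP N' ⌈C9 * bb d ρ β q n⌉₊ z)} := by
  obtain ⟨C, hC, hlk⟩ := P.lk 3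
  obtain ⟨c, hc, hlow⟩ := P.low
  have hκ : 0 < κ := P.κpos
  have hlog := ThinB_log d (mul_pos hκ hc)
  obtain ⟨C9, hC9⟩ : ∃ C9 : ℝ, C9 = 6 * K + 1 + 2 / κ + 8 * C / (κ * p1) := ⟨_, rfl⟩
  have t1 : 0 < 2 / κ := by positivity
  have t2 : 0 < 8 * C / (κ * p1) := by positivity
  have hC9pos : 0 < C9 := by rw [hC9]; linarith
  have hC9a : 6 * K + 1 ≤ C9 := by rw [hC9]; linarith
  have hC9b : 2 / κ ≤ C9 := by rw [hC9]; linarith
  have hC9c : 8 * C / (κ * p1) ≤ C9 := by rw [hC9]; linarith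
  have hY1 : 1 ≤ κ * C9 / 2 := by
    have := mul_le_mul_of_nonneg_left hC9b hκ.le
    rw [mul_div_cancel₀ _ hκ.ne'] at this
    linarith
  have hY2 : C / (κ * C9 / 2) ≤ p1 / 4 := by
    rw [div_le_iff₀ (by linarith)]
    have h := (div_le_iff₀ (mul_pos hκ hp)).1 hC9c
    nlinarith [h]
  refine ⟨C9, hC9pos, ?_⟩
  filter_upwards [hlk, hlow, hlog] with n hl hb hL N' z hN hz hsz hA
  obtain ⟨b, hbb⟩ : ∃ b : ℝ, b = bb d ρ β q n := ⟨_, rfl⟩
  have hb1 : 1 ≤ b := by rw [hbb]; exact one_le_bb β q n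
  rw [← hbb] at hsz hA hb ⊢
  obtain ⟨l1, l2⟩ := hl N' hN (κ * C9 / 2) hY1
  have l2 := l2 z
  rw [← hbb] at l1 l2
  set S : ℕ := ⌈C9 * b⌉₊ with hS
  have hSb : C9 * b ≤ (S : ℝ) := Nat.le_ceil _
  have hsub : {η : Env d | Real.exp (δ / 2 * b - κ * z j0) ≤ Vp ρ β η N' z} ⊆
      {η : Env d | Real.exp (δ / 2 * b - 1 - κ * z j0) ≤ V ρ β η (stP N' S z)} ∪
      ({η : Env d | ∃ l ≤ N', ∃ y : Site d,
        Real.exp (κ * C9 / 2 * b - κ * sn y) ≤ Vp ρ β η l y} ∪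
      {η : Env d | ∃ l ≤ N', ∃ y : Site d,
        Real.exp (κ * C9 / 2 * b - κ * sn y) ≤ Vp ρ β (sh (N' - l) (z - y) η) l y}) := by
    intro η hη
    have hη' : Real.exp (δ / 2 * b - κ * z j0) ≤ Vp ρ β η N' z := hη
    by_cases hhalf : V ρ β η (stP N' S z) ≤ 1 / 2 * Vp ρ β η N' z
    · right
      refine exit_luck j0 hκ η (u := κ * z j0 - δ / 2 * b) hz ?_ hhalf ?_
      · rwa [neg_sub]
      · have hzj : |z j0| ≤ (sn z : ℤ) := (sn_le_iff (k := sn z)).1 le_rfl j0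
        have hzr : ((z j0 : ℤ) : ℝ) ≤ (sn z : ℝ) := by
          have h := (le_abs_self (z j0)).trans hzj
          exact_mod_cast h
        have hLn := hL N' hN
        have hcb : κ * c * (n : ℝ) ^ c0 d ≤ κ * b := by
          rw [mul_assoc]; exact mul_le_mul_of_nonneg_left hb hκ.le
        have hkz : κ * ((z j0 : ℤ) : ℝ) ≤ κ * (sn z : ℝ) := mul_le_mul_of_nonneg_left hzr hκ.le
        have hks : κ * (sn z : ℝ) ≤ κ * (3 * K * b) := mul_le_mul_of_nonneg_left hsz hκ.le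
        have hkS : κ * (C9 * b) ≤ κ * (S : ℝ) := mul_le_mul_of_nonneg_left hSb hκ.le
        have hkC : κ * ((6 * K + 1) * b) ≤ κ * (C9 * b) :=
          mul_le_mul_of_nonneg_left (mul_le_mul_of_nonneg_right hC9a (by linarith)) hκ.le
        have hdb : 0 < δ / 2 * b := by positivity
        have e1 : 2 * (κ * C9 / 2 * b) = κ * (C9 * b) := by ring
        have e2 : κ * (2 * ((S : ℝ) + 1) - (sn z : ℝ)) =
            2 * (κ * (S : ℝ)) + 2 * κ - κ * (sn z : ℝ) := by ring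
        have e3 : κ * ((6 * K + 1) * b) = 2 * (κ * (3 * K * b)) + κ * b := by ring
        rw [e1, e2]
        linarith
    · left
      show Real.exp (δ / 2 * b - 1 - κ * z j0) ≤ V ρ β η (stP N' S z)
      push Not at hhalf
      have h1 : Real.exp (δ / 2 * b - 1 - κ * z j0) =
          Real.exp (-1) * Real.exp (δ / 2 * b - κ * z j0) := by
        rw [← Real.exp_add]; congr 1; ring
      have h2 : Real.exp (-1) ≤ 1 / 2 := by
        rw [Real.exp_neg, inv_eq_one_div]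
        exact one_div_le_one_div_of_le (by norm_num) (by linarith [Real.add_one_le_exp (1 : ℝ)])
      rw [h1]
      calc Real.exp (-1) * Real.exp (δ / 2 * b - κ * z j0)
          ≤ 1 / 2 * Real.exp (δ / 2 * b - κ * z j0) :=
            mul_le_mul_of_nonneg_right h2 (Real.exp_pos _).le
        _ ≤ 1 / 2 * Vp ρ β η N' z := mul_le_mul_of_nonneg_left hη' (by norm_num)
        _ ≤ V ρ β η (stP N' S z) := hhalf.le
  have hm := measureReal_mono (μ := law d ρ) hsub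
  have hu1 := measureReal_union_le (μ := law d ρ)
    {η : Env d | Real.exp (δ / 2 * b - 1 - κ * z j0) ≤ V ρ β η (stP N' S z)}
    ({η : Env d | ∃ l ≤ N', ∃ y : Site d,
        Real.exp (κ * C9 / 2 * b - κ * sn y) ≤ Vp ρ β η l y} ∪
      {η : Env d | ∃ l ≤ N', ∃ y : Site d,
        Real.exp (κ * C9 / 2 * b - κ * sn y) ≤ Vp ρ β (sh (N' - l) (z - y) η) l y})
  have hu2 := measureReal_union_le (μ := law d ρ)
    {η : Env d | ∃ l ≤ N', ∃ y : Site d,
        Real.exp (κ * C9 / 2 * b - κ * sn y) ≤ Vp ρ β η l y}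
    {η : Env d | ∃ l ≤ N', ∃ y : Site d,
        Real.exp (κ * C9 / 2 * b - κ * sn y) ≤ Vp ρ β (sh (N' - l) (z - y) η) l y}
  linarith

end Pool.Agent.W_7d29a1_h3
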