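import Pool.Agent.W_7d29a1_h3.Defs

/-!
Products over disjoint sets of sites; probabilities of shifted events.
-/

namespace Pool.Agent.W_7d29a1_h3

open MeasureTheory ProbabilityTheory Filter Topology Pool.Agent.W_MP_7d29a1_pr
  Pool.Agent.W_7d29a1_h46 Pool.Agent.W_7d29a1_h46u

variable {d : ℕ} {ρ : Measure ℝ} [IsProbabilityMeasure ρ]

/-- TASK Ind1. Induction on `I` with `integral_indep` (which needs no integrability): the product over the
others depends on `⋃ S i ⊆ (S i0)ᶜ`. -/
theorem indep_prod {ι : Type*} (I : Finset ι) (F : ι → Env d → ℝ) (S : ι → Set (ℕ × Site d))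
    (hm : ∀ i ∈ I, Measurable (F i)) (hdep : ∀ i ∈ I, DependsOn (F i) (S i))
    (hdisj : ∀ i ∈ I, ∀ j ∈ I, i ≠ j → Disjoint (S i) (S j)) :
    ∫ η, ∏ i ∈ I, F i η ∂(law d ρ) = ∏ i ∈ I, ∫ η, F i η ∂(law d ρ) := by
  classical
  induction I using Finset.induction_on with
  | empty => simp
  | insert i0 I hi0 ih =>
    simp only [Finset.prod_insert hi0]
    have hP : Measurable (fun η : Env d => ∏ i ∈ I, F i η) :=
      Finset.measurable_fun_prod I fun i hi => hm i (Finset.mem_insert_of_mem hi)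
    have hPd : DependsOn (fun η : Env d => ∏ i ∈ I, F i η) (S i0)ᶜ := by
      intro η η' h
      refine Finset.prod_congr rfl fun i hi => ?_
      refine hdep i (Finset.mem_insert_of_mem hi) fun p hp => h p ?_
      intro hp0
      exact Set.disjoint_left.1 (hdisj i (Finset.mem_insert_of_mem hi) i0
        (Finset.mem_insert_self _ _) (ne_of_mem_of_not_mem hi hi0)) hp hp0
    rw [integral_indep (S i0) (hm i0 (Finset.mem_insert_self _ _)) hP
      (hdep i0 (Finset.mem_insert_self _ _)) hPd, ih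
      (fun i hi => hm i (Finset.mem_insert_of_mem hi))
      (fun i hi => hdep i (Finset.mem_insert_of_mem hi))
      (fun i hi j hj hij => hdisj i (Finset.mem_insert_of_mem hi) j
        (Finset.mem_insert_of_mem hj) hij)]

/-- The same for events (`A i` is an event of the sites `S i`): `F i = indicator`. -/
theorem indep_events {ι : Type*} (I : Finset ι) (A : ι → Set (Env d)) (S : ι → Set (ℕ × Site d))
    (hm : ∀ i ∈ I, MeasurableSet (A i))
    (hdep : ∀ i ∈ I, ∀ η η' : Env d, (∀ p ∈ S i, η p = η' p) → (η ∈ A i ↔ η' ∈ A i))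
    (hdisj : ∀ i ∈ I, ∀ j ∈ I, i ≠ j → Disjoint (S i) (S j)) :
    (law d ρ).real {η | ∀ i ∈ I, η ∈ A i} = ∏ i ∈ I, (law d ρ).real (A i) := by
  classical
  have hB : MeasurableSet {η : Env d | ∀ i ∈ I, η ∈ A i} := by
    have h : {η : Env d | ∀ i ∈ I, η ∈ A i} = ⋂ i ∈ I, A i := by
      ext η
      simp [Set.mem_ofPred_eq]
    rw [h]
    exact Finset.measurableSet_biInter I hm
  have h1 : ∀ η : Env d, ∏ i ∈ I, (A i).indicator (fun _ => (1 : ℝ)) η =
      ({η : Env d | ∀ i ∈ I, η ∈ A i}).indicator (fun _ => (1 : ℝ)) η := by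
    intro η
    by_cases h : ∀ i ∈ I, η ∈ A i
    · rw [Set.indicator_of_mem (show η ∈ {η : Env d | ∀ i ∈ I, η ∈ A i} from h)]
      exact Finset.prod_eq_one fun i hi => Set.indicator_of_mem (h i hi) _
    · rw [Set.indicator_of_notMem (show η ∉ {η : Env d | ∀ i ∈ I, η ∈ A i} from h)]
      push Not at h
      obtain ⟨i, hi, hi'⟩ := h
      exact Finset.prod_eq_zero hi (Set.indicator_of_notMem hi' _)
  have h2 := indep_prod (ρ := ρ) I (fun i => (A i).indicator fun _ => (1 : ℝ)) S
    (fun i hi => measurable_const.indicator (hm i hi))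
    (fun i hi η η' h => by
      have h3 := hdep i hi η η' h
      by_cases h4 : η ∈ A i
      · rw [Set.indicator_of_mem h4, Set.indicator_of_mem (h3.1 h4)]
      · rw [Set.indicator_of_notMem h4, Set.indicator_of_notMem fun h5 => h4 (h3.2 h5)]) hdisj
  simp only [h1] at h2
  rw [integral_indicator_const _ hB] at h2
  rw [smul_eq_mul, mul_one] at h2
  rw [h2]
  refine Finset.prod_congr rfl fun i hi => ?_
  rw [integral_indicator_const _ (hm i hi), smul_eq_mul, mul_one]

/-- Shifted events have the same probability. -/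
theorem real_sh (t : ℕ) (x : Site d) {A : Set (Env d)} (hA : MeasurableSet A) :
    (law d ρ).real {η | sh t x η ∈ A} = (law d ρ).real A := by
  have h := (mp_sh (ρ := ρ) t x).measureReal_preimage hA.nullMeasurableSet
  exact h

private lemma Ind_int {A : Set (Env d)} (hA : MeasurableSet A) :
    ∫ η, Real.exp (-(A.indicator (fun _ => (1 : ℝ)) η)) ∂(law d ρ) =
      1 - (1 - Real.exp (-1)) * (law d ρ).real A := by
  have h : (fun η : Env d => Real.exp (-(A.indicator (fun _ => (1 : ℝ)) η))) =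
      fun η => 1 - (1 - Real.exp (-1)) * A.indicator (fun _ => (1 : ℝ)) η := by
    funext η
    by_cases h : η ∈ A
    · rw [Set.indicator_of_mem h]
      ring
    · rw [Set.indicator_of_notMem h]
      simp
  rw [h, integral_sub (integrable_const _)
    (((integrable_const (1 : ℝ)).indicator hA).const_mul _), integral_const_mul,
    integral_indicator_const _ hA]
  simp

/-- TASK Ind2. Exponential Markov: with `F i = exp (- indicator (A i))`, `∫ F i = 1 - (1 - e⁻¹) P(A i)
≤ exp (-(1 - e⁻¹) q)` and `∏ F i ≥ exp (-(q/8) * card)` on the event, so the probability is at most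
`exp (-((1 - e⁻¹) - 1/8) q card) ≤ exp (- q card / 2)`. -/
theorem few_events {ι : Type*} (I : Finset ι) (A : ι → Set (Env d)) (S : ι → Set (ℕ × Site d))
    (hm : ∀ i ∈ I, MeasurableSet (A i))
    (hdep : ∀ i ∈ I, ∀ η η' : Env d, (∀ p ∈ S i, η p = η' p) → (η ∈ A i ↔ η' ∈ A i))
    (hdisj : ∀ i ∈ I, ∀ j ∈ I, i ≠ j → Disjoint (S i) (S j)) {q : ℝ} (hq : 0 ≤ q)
    (hA : ∀ i ∈ I, q ≤ (law d ρ).real (A i)) :
    (law d ρ).real {η | (Set.ncard {i | i ∈ I ∧ η ∈ A i} : ℝ) < q / 8 * I.card} ≤
      Real.exp (-(q * I.card / 2)) := by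
  classical
  have hN : ∀ η : Env d, ∏ i ∈ I, Real.exp (-((A i).indicator (fun _ => (1 : ℝ)) η)) =
      Real.exp (-((Set.ncard {i | i ∈ I ∧ η ∈ A i} : ℕ) : ℝ)) := by
    intro η
    have h1 : {i | i ∈ I ∧ η ∈ A i} = ((I.filter fun i => η ∈ A i : Finset ι) : Set ι) := by
      ext i
      simp [Set.mem_ofPred_eq]
    rw [h1, Set.ncard_coe_finset, ← Real.exp_sum, Finset.card_filter, Nat.cast_sum,
      ← Finset.sum_neg_distrib]
    congr 1
    refine Finset.sum_congr rfl fun i _ => ?_
    by_cases h : η ∈ A i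
    · simp [h]
    · simp [h]
  have hme : ∀ i ∈ I, Measurable
      (fun η : Env d => Real.exp (-((A i).indicator (fun _ => (1 : ℝ)) η))) := fun i hi =>
    Real.measurable_exp.comp (measurable_const.indicator (hm i hi)).neg
  have hprod := indep_prod (ρ := ρ) I
    (fun i η => Real.exp (-((A i).indicator (fun _ => (1 : ℝ)) η))) S hme
    (fun i hi η η' h => by
      have h3 := hdep i hi η η' h
      by_cases h4 : η ∈ A i
      · simp only [Set.indicator_of_mem h4, Set.indicator_of_mem (h3.1 h4)]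
      · simp only [Set.indicator_of_notMem h4, Set.indicator_of_notMem fun h5 => h4 (h3.2 h5)])
    hdisj
  have he : Real.exp (-1) ≤ 3 / 8 := by
    rw [Real.exp_neg]
    have h1 := Real.exp_one_gt_d9
    rw [inv_le_comm₀ (Real.exp_pos _) (by norm_num)]
    norm_num
    linarith
  have hle : ∏ i ∈ I, ∫ η, Real.exp (-((A i).indicator (fun _ => (1 : ℝ)) η)) ∂(law d ρ) ≤
      ∏ _i ∈ I, Real.exp (-(5 / 8 * q)) := by
    refine Finset.prod_le_prod (fun i _ => integral_nonneg fun η => (Real.exp_pos _).le)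
      fun i hi => ?_
    rw [Ind_int (hm i hi)]
    have h1 := hA i hi
    have h2 := Real.add_one_le_exp (-(5 / 8 * q))
    have h3 : (1 - 3 / 8) * q ≤ (1 - Real.exp (-1)) * (law d ρ).real (A i) :=
      mul_le_mul (by linarith) h1 hq (by linarith)
    linarith
  rw [Finset.prod_const, ← Real.exp_nat_mul] at hle
  have hint : Integrable (fun η : Env d => ∏ i ∈ I,
      Real.exp (-((A i).indicator (fun _ => (1 : ℝ)) η))) (law d ρ) := by
    refine Integrable.of_bound (C := 1)
      (Finset.measurable_fun_prod I hme).aestronglyMeasurable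
      (Filter.Eventually.of_forall fun η => ?_)
    rw [hN η, Real.norm_eq_abs, abs_of_pos (Real.exp_pos _)]
    exact Real.exp_le_one_iff.2 (neg_nonpos.2 (Nat.cast_nonneg _))
  have hmk := mul_meas_ge_le_integral_of_nonneg
    (Filter.Eventually.of_forall fun η => Finset.prod_nonneg fun i _ => (Real.exp_pos _).le) hint
    (Real.exp (-(q / 8 * I.card)))
  rw [hprod] at hmk
  have hsub : (law d ρ).real {η | (Set.ncard {i | i ∈ I ∧ η ∈ A i} : ℝ) < q / 8 * I.card} ≤
      (law d ρ).real {η | Real.exp (-(q / 8 * I.card)) ≤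
        ∏ i ∈ I, Real.exp (-((A i).indicator (fun _ => (1 : ℝ)) η))} := by
    refine measureReal_mono fun η hη => ?_
    simp only [Set.mem_ofPred_eq] at hη ⊢
    rw [hN η]
    exact Real.exp_le_exp.2 (neg_le_neg hη.le)
  have h5 : Real.exp (-(q / 8 * I.card)) *
      (law d ρ).real {η | (Set.ncard {i | i ∈ I ∧ η ∈ A i} : ℝ) < q / 8 * I.card} ≤
      Real.exp (I.card * -(5 / 8 * q)) :=
    ((mul_le_mul_of_nonneg_left hsub (Real.exp_pos _).le).trans hmk).trans hle
  have h6 : Real.exp (I.card * -(5 / 8 * q)) =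
      Real.exp (-(q / 8 * I.card)) * Real.exp (-(q * I.card / 2)) := by
    rw [← Real.exp_add]
    congr 1
    ring
  rw [h6] at h5
  exact le_of_mul_le_mul_left h5 (Real.exp_pos _)

end Pool.Agent.W_7d29a1_h3
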