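import Pool.Agent.W_7d29a1_h3.Wt
import Pool.Agent.W_7d29a1_h3.Ind

/-!
Section 7: translates of a strip event.
-/

namespace Pool.Agent.W_7d29a1_h3

open MeasureTheory ProbabilityTheory Filter Topology Pool.Agent.W_MP_7d29a1_pr
  Pool.Agent.W_7d29a1_h46 Pool.Agent.W_7d29a1_h46u

variable {d : ℕ} {ρ : Measure ℝ} [IsProbabilityMeasure ρ]

private theorem ThinC_meas_sh (t : ℕ) (x : Site d) : Measurable (sh t x : Env d → Env d) :=
  measurable_pi_lambda _ fun _ => measurable_pi_apply _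

private theorem ThinC_far {S w a i j : ℕ} (hwa : 2 * S + 2 ≤ w * a) (hij : i < j) {u : ℤ}
    (h1 : |u - ((i * w * a : ℕ) : ℤ)| ≤ S) (h2 : |u - ((j * w * a : ℕ) : ℤ)| ≤ S) : False := by
  have h3 : i * w * a + w * a ≤ j * w * a := by
    have h4 : (i + 1) * (w * a) ≤ j * (w * a) := Nat.mul_le_mul_right _ hij
    calc i * w * a + w * a = (i + 1) * (w * a) := by ring
      _ ≤ j * (w * a) := h4
      _ = j * w * a := by ring
  rw [abs_le] at h1 h2
  have h5 : ((i * w * a + w * a : ℕ) : ℤ) ≤ ((j * w * a : ℕ) : ℤ) := by exact_mod_cast h3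
  have h6 : ((2 * S + 2 : ℕ) : ℤ) ≤ ((w * a : ℕ) : ℤ) := by exact_mod_cast hwa
  push_cast at h1 h2 h5 h6
  linarith [h1.1, h1.2, h2.1, h2.2]

/-- TASK Thin3. `J` translates of a strip event: all fail with probability at most `(1 - p)^J`. -/
theorem trans_fail (j0 : Fin d) (β : ℝ) {p B : ℝ} {N S t w a : ℕ} {z : Site d}
    (hwa : 2 * S + 2 ≤ w * a)
    (hp : p ≤ (law d ρ).real {η : Env d | Real.exp B ≤ V ρ β η (stP N S z)}) (J : ℕ) :
    (law d ρ).real {η : Env d | ∀ j < J, ¬ Real.exp B ≤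
      V ρ β (sh t (((j * w * a : ℕ) : ℤ) • es j0) η) (stP N S z)} ≤ (1 - p) ^ J := by
  classical
  obtain ⟨x, hx⟩ : ∃ x : ℕ → Site d, x = fun j => ((j * w * a : ℕ) : ℤ) • es j0 := ⟨_, rfl⟩
  have hxj : ∀ j, x j j0 = ((j * w * a : ℕ) : ℤ) := by
    intro j
    rw [hx]
    simp [es]
  have hA0 : MeasurableSet {η : Env d | Real.exp B ≤ V ρ β η (stP N S z)} :=
    measurableSet_le measurable_const (measurable_V _)
  have hA : MeasurableSet {η : Env d | ¬ Real.exp B ≤ V ρ β η (stP N S z)} := hA0.compl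
  have key := indep_events (ρ := ρ) (Finset.range J)
    (fun j => {η : Env d | ¬ Real.exp B ≤ V ρ β (sh t (x j) η) (stP N S z)})
    (fun j => {q : ℕ × Site d | t < q.1 ∧ q.1 ≤ t + N ∧ sn (q.2 - x j) ≤ S})
    (fun j _ => (ThinC_meas_sh t (x j)) hA)
    (fun j _ η η' hη => by
      have h1 := dep_st_sh (ρ := ρ) (β := β) t (x j) N S z
      have h2 : V ρ β (sh t (x j) η) (stP N S z) = V ρ β (sh t (x j) η') (stP N S z) :=
        @h1 η η' (fun q hq => hη q hq)
      show (¬ Real.exp B ≤ V ρ β (sh t (x j) η) (stP N S z)) ↔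
        (¬ Real.exp B ≤ V ρ β (sh t (x j) η') (stP N S z))
      rw [h2])
    (fun i _ j _ hij => by
      refine Set.disjoint_left.2 fun q hqi hqj => ?_
      have h1 := (sn_le_iff.1 hqi.2.2) j0
      have h2 := (sn_le_iff.1 hqj.2.2) j0
      rw [Pi.sub_apply, hxj] at h1 h2
      rcases lt_or_gt_of_ne hij with h | h
      · exact ThinC_far hwa h h1 h2
      · exact ThinC_far hwa h h2 h1)
  have hset : {η : Env d | ∀ j < J, ¬ Real.exp B ≤
      V ρ β (sh t (((j * w * a : ℕ) : ℤ) • es j0) η) (stP N S z)} =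
      {η : Env d | ∀ i ∈ Finset.range J, η ∈ {η : Env d | ¬ Real.exp B ≤ V ρ β (sh t (x i) η) (stP N S z)}} := by
    ext η
    simp only [Set.mem_ofPred_eq, Finset.mem_range, hx]
  rw [hset, key]
  have hone : ∀ j ∈ Finset.range J,
      (law d ρ).real {η : Env d | ¬ Real.exp B ≤ V ρ β (sh t (x j) η) (stP N S z)} ≤ 1 - p := by
    intro j _
    have h1 : (law d ρ).real {η : Env d | ¬ Real.exp B ≤ V ρ β (sh t (x j) η) (stP N S z)} =
        (law d ρ).real {η : Env d | ¬ Real.exp B ≤ V ρ β η (stP N S z)} :=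
      real_sh t (x j) hA
    rw [h1]
    have h2 : (law d ρ).real {η : Env d | ¬ Real.exp B ≤ V ρ β η (stP N S z)} =
        1 - (law d ρ).real {η : Env d | Real.exp B ≤ V ρ β η (stP N S z)} := by
      have h3 := probReal_compl_eq_one_sub (μ := law d ρ) hA0
      exact h3
    rw [h2]
    linarith
  refine (Finset.prod_le_prod (fun j _ => measureReal_nonneg) hone).trans ?_
  rw [Finset.prod_const, Finset.card_range]

end Pool.Agent.W_7d29a1_h3
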