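import Pool.Agent.W_7d29a1_h3.ConfC
import Pool.Agent.W_7d29a1_h3.ThinC

/-!
Section 7: the contradiction.
-/

namespace Pool.Agent.W_7d29a1_h3

open MeasureTheory ProbabilityTheory Filter Topology Pool.Agent.W_MP_7d29a1_pr
  Pool.Agent.W_7d29a1_h46 Pool.Agent.W_7d29a1_h46u

variable {d : ℕ} {ρ : Measure ℝ} [IsProbabilityMeasure ρ]

/-- A random variable of nonnegative mean which is at most `-A` outside a small event has a large second moment. -/
private theorem ThinD_int {Ω : Type*} [MeasurableSpace Ω] {μ : Measure Ω} [IsProbabilityMeasure μ]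
    {H : Ω → ℝ} (hH : Measurable H) (h1 : Integrable H μ) (h2 : Integrable (fun ω => H ω ^ 2) μ)
    (h0 : 0 ≤ ∫ ω, H ω ∂μ) {B : Set Ω} (hB : MeasurableSet B) {A s : ℝ} (hs : 0 < s) (hA : 0 ≤ A)
    (hg : ∀ ω, ω ∉ B → H ω ≤ -A) :
    A * (1 - μ.real B) ≤ (s * ∫ ω, max (H ω) 0 ^ 2 ∂μ + μ.real B / s) / 2 := by
  have hmax : Integrable (fun ω => max (H ω) 0 ^ 2) μ := by
    refine h2.mono' ((hH.max measurable_const).pow_const 2).aestronglyMeasurable
      (ae_of_all _ fun ω => ?_)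
    rw [Real.norm_eq_abs, abs_of_nonneg (sq_nonneg _), ← sq_abs (H ω)]
    exact pow_le_pow_left₀ (le_max_right _ _) (max_le (le_abs_self _) (abs_nonneg _)) 2
  have hind : Integrable (B.indicator fun _ => (1 : ℝ)) μ :=
    (integrable_const (1 : ℝ)).indicator hB
  have hindE : ∫ ω, B.indicator (fun _ => (1 : ℝ)) ω ∂μ = μ.real B := by
    rw [integral_indicator_const _ hB, smul_eq_mul, mul_one]
  have hpt : ∀ ω, H ω ≤ -A + A * B.indicator (fun _ => (1 : ℝ)) ω +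
      (s * max (H ω) 0 ^ 2 + B.indicator (fun _ => (1 : ℝ)) ω / s) / 2 := by
    intro ω
    by_cases hω : ω ∈ B
    · rw [Set.indicator_of_mem hω]
      have h3 : 2 * max (H ω) 0 ≤ s * max (H ω) 0 ^ 2 + 1 / s := by
        have h4 : 0 ≤ (s * max (H ω) 0 - 1) ^ 2 / s := by positivity
        have h5 : (s * max (H ω) 0 - 1) ^ 2 / s =
            s * max (H ω) 0 ^ 2 + 1 / s - 2 * max (H ω) 0 := by
          field_simp
          ring
        linarith
      have h6 := le_max_left (H ω) 0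
      linarith
    · rw [Set.indicator_of_notMem hω]
      have h3 := hg ω hω
      have h4 : 0 ≤ s * max (H ω) 0 ^ 2 := by positivity
      simp only [mul_zero, add_zero, zero_div]
      linarith
  have hi1 : Integrable (fun ω => -A + A * B.indicator (fun _ => (1 : ℝ)) ω) μ :=
    (integrable_const (-A)).add (hind.const_mul A)
  have hi2 : Integrable (fun ω => (s * max (H ω) 0 ^ 2 + B.indicator (fun _ => (1 : ℝ)) ω / s) / 2) μ :=
    ((hmax.const_mul s).add (hind.div_const s)).div_const 2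
  have hle : ∫ ω, H ω ∂μ ≤ ∫ ω, (-A + A * B.indicator (fun _ => (1 : ℝ)) ω +
      (s * max (H ω) 0 ^ 2 + B.indicator (fun _ => (1 : ℝ)) ω / s) / 2) ∂μ :=
    integral_mono h1 (hi1.add hi2) hpt
  have e1 : ∫ ω, (-A + A * B.indicator (fun _ => (1 : ℝ)) ω +
      (s * max (H ω) 0 ^ 2 + B.indicator (fun _ => (1 : ℝ)) ω / s) / 2) ∂μ =
      -A + A * μ.real B + (s * ∫ ω, max (H ω) 0 ^ 2 ∂μ + μ.real B / s) / 2 := by
    rw [integral_add hi1 hi2, integral_add (integrable_const _) (hind.const_mul A),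
      integral_const, integral_const_mul, hindE, integral_div,
      integral_add (hmax.const_mul s) (hind.div_const s), integral_const_mul, integral_div, hindE]
    simp
  rw [e1] at hle
  linarith

/-- On a good event the point to level passage time is small. -/
private theorem ThinD_good (j0 : Fin d) {β κ : ℝ} (η : Env d) {t N S y : ℕ} {z : Site d} {u v : ℝ}
    (h1 : Real.exp (-(κ * y + v)) ≤ Vp ρ β η t ((y : ℤ) • es j0))
    (h2 : Real.exp (u - κ * z j0) ≤ V ρ β (sh t ((y : ℤ) • es j0) η) (stP N S z)) :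
    HH ρ β (tl κ j0 true) η (t + N) ≤ v - u := by
  have h3 : V ρ β (sh t ((y : ℤ) • es j0) η) (stP N S z) ≤
      Vp ρ β (sh t ((y : ℤ) • es j0) η) N z := V_mono _ stP_sub
  have h4 := Vp_add (ρ := ρ) (β := β) η t N ((y : ℤ) • es j0) z
  have h5 := V_le_H (ρ := ρ) (β := β) j0 (tl κ j0 true) η (n := t + N)
    (y := (y : ℤ) • es j0 + z) (E := toP (t + N) ((y : ℤ) • es j0 + z)) le_rfl
  have h6 : inner ℝ (tl κ j0 true) (emb ((y : ℤ) • es j0 + z)) = κ * y + κ * z j0 := by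
    rw [inner_tl]
    simp [es]
    ring
  rw [h6] at h5
  have h7 : Real.exp (-(κ * y + v)) * Real.exp (u - κ * z j0) ≤
      V ρ β η (toP (t + N) ((y : ℤ) • es j0 + z)) :=
    (mul_le_mul h1 (h2.trans h3) (Real.exp_pos _).le ((Real.exp_pos _).le.trans h1)).trans h4
  have h8 := (mul_le_mul_of_nonneg_right h7 (Real.exp_pos (κ * y + κ * z j0)).le).trans h5
  rw [← Real.exp_add, ← Real.exp_add, Real.exp_le_exp] at h8
  linarith

/-- The probability of the bad event. -/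
private theorem ThinD_bad (j0 : Fin d) (β : ℝ) {κ ε c p B : ℝ} {N S L w a J : ℕ} {z : Site d}
    (hw : 1 ≤ w) (hJ : 1 ≤ J) (hwa : 2 * S + 2 ≤ w * a)
    (htr : ∀ i j : ℕ, j ≤ i → 1 ≤ i →
      (law d ρ).real {η | ¬ Real.exp (-(κ * (j * a) + 4 * ε * (i * a))) ≤
        Vp ρ β η (i * L) (((j * a : ℕ) : ℤ) • es j0)} ≤ Real.exp (-(c * i)))
    (hp : p ≤ (law d ρ).real {η : Env d | Real.exp B ≤ V ρ β η (stP N S z)}) :
    (law d ρ).real {η : Env d | (∀ j < J, ¬ Real.exp B ≤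
      V ρ β (sh (J * w * L) (((j * w * a : ℕ) : ℤ) • es j0) η) (stP N S z)) ∨
      ∃ j < J, ¬ Real.exp (-(κ * ((j * w * a : ℕ) : ℝ) + 4 * ε * (J * w * a))) ≤
        Vp ρ β η (J * w * L) (((j * w * a : ℕ) : ℤ) • es j0)} ≤
      (1 - p) ^ J + J * Real.exp (-(c * (J * w))) := by
  have hsub : {η : Env d | (∀ j < J, ¬ Real.exp B ≤
      V ρ β (sh (J * w * L) (((j * w * a : ℕ) : ℤ) • es j0) η) (stP N S z)) ∨
      ∃ j < J, ¬ Real.exp (-(κ * ((j * w * a : ℕ) : ℝ) + 4 * ε * (J * w * a))) ≤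
        Vp ρ β η (J * w * L) (((j * w * a : ℕ) : ℤ) • es j0)} =
      {η : Env d | ∀ j < J, ¬ Real.exp B ≤
      V ρ β (sh (J * w * L) (((j * w * a : ℕ) : ℤ) • es j0) η) (stP N S z)} ∪
      ⋃ j ∈ Finset.range J, {η : Env d |
        ¬ Real.exp (-(κ * ((j * w * a : ℕ) : ℝ) + 4 * ε * (J * w * a))) ≤
        Vp ρ β η (J * w * L) (((j * w * a : ℕ) : ℤ) • es j0)} := by
    ext η
    simp
  rw [hsub]
  refine (measureReal_union_le _ _).trans (add_le_add (trans_fail j0 β hwa hp J) ?_)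
  refine (measureReal_biUnion_finset_le _ _).trans ?_
  have hone : ∀ j ∈ Finset.range J, (law d ρ).real {η : Env d |
        ¬ Real.exp (-(κ * ((j * w * a : ℕ) : ℝ) + 4 * ε * (J * w * a))) ≤
        Vp ρ β η (J * w * L) (((j * w * a : ℕ) : ℤ) • es j0)} ≤ Real.exp (-(c * (J * w))) := by
    intro j hj
    have hj1 : j * w ≤ J * w := Nat.mul_le_mul_right w (Finset.mem_range.1 hj).le
    have h1 := htr (J * w) (j * w) hj1 (Nat.mul_pos hJ hw)
    push_cast at h1 ⊢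
    exact h1
  calc ∑ j ∈ Finset.range J, (law d ρ).real {η : Env d |
        ¬ Real.exp (-(κ * ((j * w * a : ℕ) : ℝ) + 4 * ε * (J * w * a))) ≤
        Vp ρ β η (J * w * L) (((j * w * a : ℕ) : ℤ) • es j0)}
      ≤ ∑ _j ∈ Finset.range J, Real.exp (-(c * (J * w))) := Finset.sum_le_sum hone
    _ = J * Real.exp (-(c * (J * w))) := by
      rw [Finset.sum_const, Finset.card_range, nsmul_eq_mul]

private theorem ThinD_meas (j0 : Fin d) (β : ℝ) {κ ε B : ℝ} {N S L w a J : ℕ} {z : Site d} :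
    MeasurableSet {η : Env d | (∀ j < J, ¬ Real.exp B ≤
      V ρ β (sh (J * w * L) (((j * w * a : ℕ) : ℤ) • es j0) η) (stP N S z)) ∨
      ∃ j < J, ¬ Real.exp (-(κ * ((j * w * a : ℕ) : ℝ) + 4 * ε * (J * w * a))) ≤
        Vp ρ β η (J * w * L) (((j * w * a : ℕ) : ℤ) • es j0)} := by
  have h1 : ∀ j : ℕ, MeasurableSet {η : Env d | Real.exp B ≤
      V ρ β (sh (J * w * L) (((j * w * a : ℕ) : ℤ) • es j0) η) (stP N S z)} := fun j =>
    measurableSet_le measurable_const ((measurable_V _).comp (measurable_sh _ _))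
  have h2 : ∀ j : ℕ, MeasurableSet {η : Env d |
      Real.exp (-(κ * ((j * w * a : ℕ) : ℝ) + 4 * ε * (J * w * a))) ≤
        Vp ρ β η (J * w * L) (((j * w * a : ℕ) : ℤ) • es j0)} := fun j =>
    measurableSet_le measurable_const (measurable_V _)
  have e : {η : Env d | (∀ j < J, ¬ Real.exp B ≤
      V ρ β (sh (J * w * L) (((j * w * a : ℕ) : ℤ) • es j0) η) (stP N S z)) ∨
      ∃ j < J, ¬ Real.exp (-(κ * ((j * w * a : ℕ) : ℝ) + 4 * ε * (J * w * a))) ≤
        Vp ρ β η (J * w * L) (((j * w * a : ℕ) : ℤ) • es j0)} =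
      (⋂ j ∈ Finset.range J, {η : Env d | Real.exp B ≤
      V ρ β (sh (J * w * L) (((j * w * a : ℕ) : ℤ) • es j0) η) (stP N S z)}ᶜ) ∪
      ⋃ j ∈ Finset.range J, {η : Env d |
      Real.exp (-(κ * ((j * w * a : ℕ) : ℝ) + 4 * ε * (J * w * a))) ≤
        Vp ρ β η (J * w * L) (((j * w * a : ℕ) : ℤ) • es j0)}ᶜ := by
    ext η
    simp
  rw [e]
  exact (Finset.measurableSet_biInter _ fun j _ => (h1 j).compl).union
    (Finset.measurableSet_biUnion _ fun j _ => (h2 j).compl)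

/-- TASK Thin4. The contradiction. `ε` such that `4 ε J (2 S + 2 + a) ≤ δ b / 16` (`S ≤ C9 b + 1`; `J` first, then `ε`, then `L, a` from
`travel`, then `n`); `w` least with `w a ≥ 2 S + 2`, `t = J w L ≤ n` (`bb_le`). On the union of the `J` translated events
and the climbs (`travel`, `i = J w`, `j' = j w`) `HH (tl κ j0 true) η (t + N') ≤ - δ b / 4` (`V_append`, `V_le_H`). So
`0 ≤ ∫ H ≤ -(δ b / 4) (1 - f) + (∫ H_+²)^(1/2) f^(1/2)`, `f = (1 - p1/2)^J + J exp (-(c J w))`, `Post.dd` with `A = 4`. -/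
theorem thin_contra (j0 : Fin d) {β κ q : ℝ} (P : Post d ρ β κ q) {δ p1 C9 : ℝ}
    (hδ : 0 < δ) (hp : 0 < p1) (hC : 0 < C9) : ∀ᶠ n : ℕ in atTop, ∀ (N' : ℕ) (z : Site d),
      N' ≤ 3 * n → Even N' →
      (law d ρ).real {η : Env d | Real.exp (δ / 2 * bb d ρ β q n - 1 - κ * z j0) ≤
          V ρ β η (stP N' ⌈C9 * bb d ρ β q n⌉₊ z)} < p1 := by
  have hd0 : 0 < d := j0.pos
  have hq1 : q < 1 := by linarith [P.q1]
  rcases lt_or_ge 1 p1 with hp1 | hp1
  · exact Eventually.of_forall fun n N' z _ _ => measureReal_le_one.trans_lt hp1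
  obtain ⟨Cd, hCd, hdd⟩ := P.dd j0 4
  obtain ⟨Cb, hCb, hble⟩ := bb_le j0 P.em β P.q0 hq1
  obtain ⟨cl, hcl, hlow⟩ := P.low
  -- the constants
  obtain ⟨σ, hσd⟩ : ∃ σ : ℝ, σ = δ / (16 * Cd ^ 2) := ⟨_, rfl⟩
  have hσ : 0 < σ := by rw [hσd]; positivity
  have hσC : σ * Cd ^ 2 = δ / 16 := by
    rw [hσd]
    field_simp
  obtain ⟨f0, hf0d⟩ : ∃ f0 : ℝ, f0 = min (1 / 2) (σ * δ / 16) := ⟨_, rfl⟩
  have hf0 : 0 < f0 := by rw [hf0d]; positivity
  have hf0a : f0 ≤ 1 / 2 := by rw [hf0d]; exact min_le_left _ _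
  have hf0b : f0 ≤ σ * δ / 16 := by rw [hf0d]; exact min_le_right _ _
  obtain ⟨J0, hJ0⟩ := exists_pow_lt_of_lt_one (half_pos hf0) (show 1 - p1 < 1 by linarith)
  obtain ⟨J, hJd⟩ : ∃ J : ℕ, J = J0 + 1 := ⟨_, rfl⟩
  have hJ1 : 1 ≤ J := by omega
  have hJr : (1 : ℝ) ≤ J := by exact_mod_cast hJ1
  have hJp : (1 - p1) ^ J ≤ f0 / 2 := by
    rw [hJd]
    exact (pow_le_pow_of_le_one (by linarith) (by linarith) (Nat.le_succ J0)).trans hJ0.le
  obtain ⟨ε, hεd⟩ : ∃ ε : ℝ, ε = δ / (128 * J * C9) := ⟨_, rfl⟩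
  have hε : 0 < ε := by rw [hεd]; positivity
  have hεe : 8 * ε * J * C9 = δ / 16 := by
    rw [hεd]
    field_simp
    norm_num
  obtain ⟨L, a, hL, ha, hLe, hae, haL, c, hc, htr⟩ :=
    travel j0 P.em P.κpos.le (fun t ht => P.steep j0 t ht) hε
  have har : (0 : ℝ) < a := by exact_mod_cast ha
  obtain ⟨M2, hM2⟩ := eventually_atTop.1
    ((Real.tendsto_exp_neg_atTop_nhds_zero.eventually_lt_const
      (show (0 : ℝ) < f0 / (2 * J) by positivity)))
  -- the eventual facts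
  have hc0 : 0 < c0 d := by
    unfold c0
    positivity
  have htend : Tendsto (fun n : ℕ => cl * (n : ℝ) ^ c0 d) atTop atTop :=
    ((tendsto_rpow_atTop hc0).comp tendsto_natCast_atTop_atTop).const_mul_atTop hcl
  have hE2 := htend.eventually_ge_atTop
    (8 / δ + 64 * ε * J * (4 + a) / δ + |M2| * a / (2 * c * C9))
  have hE3 : ∀ᶠ n : ℕ in atTop, (J : ℝ) * L * (2 * C9 * (Cb * (n : ℝ) ^ (0.53 : ℝ)) + 5) ≤ n := by
    have h1 : Tendsto (fun n : ℕ => ((n : ℝ) ^ (0.47 : ℝ))) atTop atTop :=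
      (tendsto_rpow_atTop (by norm_num)).comp tendsto_natCast_atTop_atTop
    filter_upwards [h1.eventually_ge_atTop ((J : ℝ) * L * (2 * C9 * Cb + 5)),
      eventually_ge_atTop 1] with n hn hn1
    have hnr : (1 : ℝ) ≤ n := by exact_mod_cast hn1
    have h2 : (1 : ℝ) ≤ (n : ℝ) ^ (0.53 : ℝ) := Real.one_le_rpow hnr (by norm_num)
    have h3 : (n : ℝ) = (n : ℝ) ^ (0.47 : ℝ) * (n : ℝ) ^ (0.53 : ℝ) := by
      rw [← Real.rpow_add (by linarith)]
      norm_num
    have h4 : 2 * C9 * (Cb * (n : ℝ) ^ (0.53 : ℝ)) + 5 ≤ (2 * C9 * Cb + 5) * (n : ℝ) ^ (0.53 : ℝ) := by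
      nlinarith
    calc (J : ℝ) * L * (2 * C9 * (Cb * (n : ℝ) ^ (0.53 : ℝ)) + 5)
        ≤ (J : ℝ) * L * ((2 * C9 * Cb + 5) * (n : ℝ) ^ (0.53 : ℝ)) :=
          mul_le_mul_of_nonneg_left h4 (by positivity)
      _ = ((J : ℝ) * L * (2 * C9 * Cb + 5)) * (n : ℝ) ^ (0.53 : ℝ) := by ring
      _ ≤ (n : ℝ) ^ (0.47 : ℝ) * (n : ℝ) ^ (0.53 : ℝ) :=
          mul_le_mul_of_nonneg_right hn (by linarith)
      _ = n := h3.symm
  filter_upwards [hdd, hlow, hE2, hE3, eventually_ge_atTop 1] with n hD hlo hE2 hE3 hn1 N' z hN hev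
  by_contra hcon
  rw [not_lt] at hcon
  obtain ⟨b, hb⟩ : ∃ b : ℝ, b = bb d ρ β q n := ⟨_, rfl⟩
  rw [← hb] at hD hlo hcon
  have hb1 : 1 ≤ b := by rw [hb]; exact one_le_bb β q n
  have hb0 : 0 < b := by linarith
  have hbn : b ≤ Cb * (n : ℝ) ^ (0.53 : ℝ) := by rw [hb]; exact hble n hn1
  have hbig := hE2.trans hlo
  have hx1 : 0 ≤ 8 / δ := by positivity
  have hx2 : 0 ≤ 64 * ε * J * (4 + a) / δ := by positivity
  have hx3 : 0 ≤ |M2| * a / (2 * c * C9) := by positivity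
  have hb8 : 1 ≤ δ * b / 8 := by
    have h1 : 8 / δ ≤ b := by linarith
    rw [div_le_iff₀ hδ] at h1
    linarith
  have hb64 : 4 * ε * J * (4 + a) ≤ δ * b / 16 := by
    have h1 : 64 * ε * J * (4 + a) / δ ≤ b := by linarith
    rw [div_le_iff₀ hδ] at h1
    linarith
  have hbM : M2 ≤ c * (2 * C9 * b / a) := by
    have h1 : |M2| * a / (2 * c * C9) ≤ b := by linarith
    rw [div_le_iff₀ (by positivity)] at h1
    refine (le_abs_self M2).trans ?_
    rw [mul_div_assoc', le_div_iff₀ har]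
    linarith
  -- the widths
  obtain ⟨S, hS⟩ : ∃ S : ℕ, S = ⌈C9 * b⌉₊ := ⟨_, rfl⟩
  rw [← hS] at hcon
  have hS1 : C9 * b ≤ S := by rw [hS]; exact Nat.le_ceil _
  have hS2 : (S : ℝ) ≤ C9 * b + 1 := by
    rw [hS]
    exact (Nat.ceil_lt_add_one (by positivity)).le
  obtain ⟨w, hw⟩ : ∃ w : ℕ, w = (2 * S + 2) / a + 1 := ⟨_, rfl⟩
  have hw1 : 1 ≤ w := by
    rw [hw]
    exact Nat.le_add_left 1 _
  have hwa : 2 * S + 2 ≤ w * a := by
    have h1 := Nat.div_add_mod (2 * S + 2) a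
    have h2 := Nat.mod_lt (2 * S + 2) ha
    rw [hw, add_mul, one_mul, mul_comm ((2 * S + 2) / a) a]
    omega
  have hwa2 : w * a ≤ 2 * S + 2 + a := by
    have h1 := Nat.div_mul_le_self (2 * S + 2) a
    rw [hw, add_mul, one_mul]
    omega
  have hwar : (2 * (S : ℝ) + 2) ≤ w * a := by exact_mod_cast hwa
  have hwar2 : (w : ℝ) * a ≤ 2 * S + 2 + a := by exact_mod_cast hwa2
  have hw3 : (w : ℝ) ≤ 2 * C9 * b + 5 := by
    have h1 : w ≤ 2 * S + 3 := by
      rw [hw]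
      have := Nat.div_le_self (2 * S + 2) a
      omega
    have h2 : (w : ℝ) ≤ 2 * S + 3 := by exact_mod_cast h1
    linarith
  have hw4 : 2 * C9 * b / a ≤ w := by
    rw [div_le_iff₀ har]
    linarith
  -- the time
  have ht : J * w * L ≤ n := by
    have h1 : (J : ℝ) * w * L ≤ n := by
      calc (J : ℝ) * w * L = (J : ℝ) * L * w := by ring
        _ ≤ (J : ℝ) * L * (2 * C9 * (Cb * (n : ℝ) ^ (0.53 : ℝ)) + 5) := by
            refine mul_le_mul_of_nonneg_left ?_ (by positivity)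
            have h2 : 2 * C9 * b ≤ 2 * C9 * (Cb * (n : ℝ) ^ (0.53 : ℝ)) :=
              mul_le_mul_of_nonneg_left hbn (by positivity)
            linarith
        _ ≤ n := hE3
    exact_mod_cast h1
  -- the bad event
  have hbad := ThinD_bad (ε := ε) j0 β hw1 hJ1 hwa htr hcon
  have hmeas := ThinD_meas (ρ := ρ) (κ := κ) (ε := ε) (B := δ / 2 * b - 1 - κ * z j0) (N := N')
    (S := S) (L := L) (w := w) (a := a) (J := J) (z := z) j0 β
  obtain ⟨Bd, hBd⟩ : ∃ Bd : Set (Env d), Bd = {η : Env d | (∀ j < J, ¬ Real.exp (δ / 2 * b - 1 - κ * z j0) ≤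
      V ρ β (sh (J * w * L) (((j * w * a : ℕ) : ℤ) • es j0) η) (stP N' S z)) ∨
      ∃ j < J, ¬ Real.exp (-(κ * ((j * w * a : ℕ) : ℝ) + 4 * ε * (J * w * a))) ≤
        Vp ρ β η (J * w * L) (((j * w * a : ℕ) : ℤ) • es j0)} := ⟨_, rfl⟩
  rw [← hBd] at hbad hmeas
  have hexp : (J : ℝ) * Real.exp (-(c * (J * w))) ≤ f0 / 2 := by
    have h1 : M2 ≤ c * (J * w) := by
      refine hbM.trans (mul_le_mul_of_nonneg_left ?_ hc.le)
      have h2 : (w : ℝ) ≤ J * w := by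
        have : (0 : ℝ) ≤ w := Nat.cast_nonneg w
        nlinarith
      linarith
    have h2 := (hM2 _ h1).le
    rw [le_div_iff₀ (by positivity)] at h2
    linarith
  have hfB : (law d ρ).real Bd ≤ f0 := by linarith
  -- the value on the good event
  have hgood : ∀ η, η ∉ Bd → HH ρ β (tl κ j0 true) η (J * w * L + N') ≤ -(δ * b / 4) := by
    intro η hη
    rw [hBd] at hη
    simp only [Set.mem_ofPred_eq, not_or, not_forall, not_exists, not_and, not_not] at hη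
    obtain ⟨⟨j, hj, hj1⟩, hj2⟩ := hη
    have h1 := ThinD_good (ρ := ρ) j0 η (u := δ / 2 * b - 1) (hj2 j hj) hj1
    have h2 : 4 * ε * (J * w * a) ≤ δ * b / 8 := by
      have h3 : 4 * ε * (J * w * a) = 4 * ε * J * (w * a) := by ring
      have h4 : (w : ℝ) * a ≤ 2 * (C9 * b) + 4 + a := by linarith
      have h5 : 4 * ε * J * (w * a) ≤ 4 * ε * J * (2 * (C9 * b) + 4 + a) :=
        mul_le_mul_of_nonneg_left h4 (by positivity)
      have h6 : 4 * ε * J * (2 * (C9 * b) + 4 + a) = (8 * ε * J * C9) * b + 4 * ε * J * (4 + a) := by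
        ring
      rw [h6, hεe] at h5
      rw [h3]
      linarith
    linarith
  -- the moments
  obtain ⟨_, _, hfour⟩ := H_four hd0 P.em β (tl κ j0 true)
  obtain ⟨_, hi2, hi1, _, _⟩ := hfour (J * w * L + N')
  have hflat : lam ρ β (tl κ j0 true) ≤ lam ρ β (0 : Vec d) := by
    have h1 := P.flat j0 κ (by rw [abs_of_pos P.κpos])
    unfold tl
    rw [if_pos rfl, h1]
  have hmean := H_mean_nonneg hd0 P.em β (tl κ j0 true) hflat (J * w * L + N')
  have hsq : ∫ η, max (HH ρ β (tl κ j0 true) η (J * w * L + N')) 0 ^ 2 ∂(law d ρ) ≤ (Cd * b) ^ 2 := by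
    have h1 : Real.sqrt (∫ η, max (HH ρ β (tl κ j0 true) η (J * w * L + N')) 0 ^ 2 ∂(law d ρ)) ≤
        Cd * b := by
      refine le_trans ?_ hD
      unfold D2
      exact Finset.le_sup' (fun l => Real.sqrt
        (∫ η, max (HH ρ β (tl κ j0 true) η l) 0 ^ 2 ∂(law d ρ)))
        (Finset.mem_range.2 (by omega))
    have h2 : 0 ≤ ∫ η, max (HH ρ β (tl κ j0 true) η (J * w * L + N')) 0 ^ 2 ∂(law d ρ) :=
      integral_nonneg fun η => sq_nonneg _
    calc _ = Real.sqrt (∫ η, max (HH ρ β (tl κ j0 true) η (J * w * L + N')) 0 ^ 2 ∂(law d ρ)) ^ 2 :=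
          (Real.sq_sqrt h2).symm
      _ ≤ (Cd * b) ^ 2 := pow_le_pow_left₀ (Real.sqrt_nonneg _) h1 2
  have hfin := ThinD_int (measurable_HH (tl κ j0 true) (J * w * L + N')) hi1 hi2 hmean hmeas
    (A := δ * b / 4) (s := σ / b) (by positivity) (by positivity) hgood
  have k1 : σ / b * ∫ η, max (HH ρ β (tl κ j0 true) η (J * w * L + N')) 0 ^ 2 ∂(law d ρ) ≤
      δ * b / 16 := by
    calc _ ≤ σ / b * (Cd * b) ^ 2 := mul_le_mul_of_nonneg_left hsq (by positivity)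
      _ = (σ * Cd ^ 2) * b := by
        field_simp
      _ = δ * b / 16 := by rw [hσC]; ring
  have k2 : (law d ρ).real Bd / (σ / b) ≤ δ * b / 16 := by
    rw [div_le_iff₀ (by positivity)]
    have h1 : (law d ρ).real Bd ≤ σ * δ / 16 := hfB.trans hf0b
    have h2 : δ * b / 16 * (σ / b) = σ * δ / 16 := by
      field_simp
    rw [h2]
    exact h1
  have k3 : δ * b / 8 ≤ δ * b / 4 * (1 - (law d ρ).real Bd) := by
    have h1 : (law d ρ).real Bd ≤ 1 / 2 := hfB.trans hf0a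
    have h2 : 0 < δ * b := by positivity
    nlinarith
  have k4 : 0 < δ * b := by positivity
  linarith

end Pool.Agent.W_7d29a1_h3
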