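import Pool.Agent.W_7d29a1_h3.ThinA
import Pool.Agent.W_7d29a1_h3.ThinB
import Pool.Agent.W_7d29a1_h3.ThinD

/-!
Section 7: the thin lower tail.
-/

namespace Pool.Agent.W_7d29a1_h3

open MeasureTheory ProbabilityTheory Filter Topology Pool.Agent.W_MP_7d29a1_pr
  Pool.Agent.W_7d29a1_h46 Pool.Agent.W_7d29a1_h46u

variable {d : ℕ} {ρ : Measure ℝ} [IsProbabilityMeasure ρ]

/-- Section 7 (from the three lemmas above). -/
theorem thin (j0 : Fin d) {β κ q : ℝ} (P : Post d ρ β κ q) {K δ p0 : ℝ} (hK : 0 < K)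
    (hδ : 0 < δ) (hp : 0 < p0) : ∀ᶠ n : ℕ in atTop, ∀ N : ℕ, Even N → n ≤ N →
      N ≤ 2 * n → (law d ρ).real (Win (d := d) ρ β κ q K δ n N) ≤ p0 := by
  obtain ⟨p1, hp1, h1⟩ := thin_cell j0 P hK hδ hp
  obtain ⟨C9, hC9, h2⟩ := thin_loc j0 P hK hδ hp1
  have h3 := thin_contra j0 P hδ (half_pos hp1) hC9
  filter_upwards [h1, h2, h3] with n h1 h2 h3 N hN hn1 hn2
  by_contra hcon
  obtain ⟨N', z, e1, e2, e3, e4, e5⟩ := h1 N hN hn1 hn2 (not_le.1 hcon)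
  exact absurd (h2 N' z e2 e3 e4 e5) (not_le.2 (h3 N' z e2 e1))

end Pool.Agent.W_7d29a1_h3
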