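import Pool.Agent.W_7d29a1_h3.QuantA
import Pool.Agent.W_7d29a1_h3.Ind

/-!
Section 9: one sequence.
-/

namespace Pool.Agent.W_7d29a1_h3

open MeasureTheory ProbabilityTheory Filter Topology Pool.Agent.W_MP_7d29a1_pr
  Pool.Agent.W_7d29a1_h46 Pool.Agent.W_7d29a1_h46u

variable {d : ℕ} {ρ : Measure ℝ} [IsProbabilityMeasure ρ]

/-- The odd numbers below `m`. -/
def odds (m : ℕ) : Finset ℕ := (Finset.range m).filter fun i => Odd i

/-- TASK Contra1. (9.5) for one sequence: `few_events` with `A i = {η | Vp (sh (i N1 - l) (c i) η) (2 n) 0 ≤ exp (-Q n)}`,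
`S i = {p | i N1 - l < p.1 ∧ p.1 ≤ (i+1) N1 + l}` (`dep_V_sh`), disjoint for odd `i` as `2 l ≤ N1`; probabilities by
`real_sh` and `Q_spec`. -/
theorem seq_prob (j0 : Fin d) {β q : ℝ} (h0 : 0 < q) (h1 : q < 1) {m n N1 l : ℕ}
    (hn : N1 + 2 * l = 2 * n) (hl : 2 * l ≤ N1) (c : ℕ → Site d) :
    (law d ρ).real {η : Env d | (Set.ncard {i | i ∈ odds m ∧
      Vp ρ β (sh (i * N1 - l) (c i) η) (2 * n) 0 ≤ Real.exp (-Q d ρ β q n)} : ℝ) <
        q / 8 * (odds m).card} ≤ Real.exp (-(q * (odds m).card / 2)) := by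
  have hsh : ∀ (t : ℕ) (x : Site d), Measurable (sh t x : Env d → Env d) := fun t x =>
    measurable_pi_lambda _ fun p => measurable_pi_apply _
  have hA0 : MeasurableSet {η : Env d | Vp ρ β η (2 * n) 0 ≤ Real.exp (-Q d ρ β q n)} :=
    measurableSet_le (measurable_V _) measurable_const
  refine few_events (odds m)
    (fun i => {η : Env d | Vp ρ β (sh (i * N1 - l) (c i) η) (2 * n) 0 ≤ Real.exp (-Q d ρ β q n)})
    (fun i => {p | i * N1 - l < p.1 ∧ p.1 ≤ i * N1 - l + 2 * n}) ?_ ?_ ?_ h0.le ?_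
  · intro i _
    exact hsh (i * N1 - l) (c i) hA0
  · intro i _ η η' hη
    have h := dep_V_sh (ρ := ρ) (β := β) (i * N1 - l) (c i) (toP (2 * n) (0 : Site d)) hη
    have h' : Vp ρ β (sh (i * N1 - l) (c i) η) (2 * n) 0 = Vp ρ β (sh (i * N1 - l) (c i) η') (2 * n) 0 := h
    simp only [Set.mem_ofPred_eq, h']
  · have key : ∀ i j : ℕ, i ∈ odds m → j ∈ odds m → i < j → i * N1 - l + 2 * n ≤ j * N1 - l := by
      intro i j hi hj hij
      have hi1 : Odd i := (Finset.mem_filter.1 hi).2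
      have hj1 : Odd j := (Finset.mem_filter.1 hj).2
      obtain ⟨a, rfl⟩ := hi1
      obtain ⟨b, rfl⟩ := hj1
      have hab : 2 * a + 1 + 2 ≤ 2 * b + 1 := by omega
      have e1 : (2 * a + 1 + 2) * N1 ≤ (2 * b + 1) * N1 := Nat.mul_le_mul_right _ hab
      have e2 : N1 ≤ (2 * a + 1) * N1 := Nat.le_mul_of_pos_left _ (by omega)
      have e3 : (2 * a + 1 + 2) * N1 = (2 * a + 1) * N1 + 2 * N1 := by ring
      omega
    intro i hi j hj hij
    rw [Set.disjoint_left]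
    rintro p ⟨h1, h2⟩ ⟨h3, h4⟩
    rcases Nat.lt_or_gt_of_ne hij with h | h
    · have := key i j hi hj h
      omega
    · have := key j i hj hi h
      omega
  · intro i _
    have h := real_sh (ρ := ρ) (i * N1 - l) (c i) hA0
    have h' : (law d ρ).real {η : Env d | Vp ρ β (sh (i * N1 - l) (c i) η) (2 * n) 0 ≤ Real.exp (-Q d ρ β q n)} =
        (law d ρ).real {η : Env d | Vp ρ β η (2 * n) 0 ≤ Real.exp (-Q d ρ β q n)} := h
    rw [h']
    exact (Q_spec j0 β h0 h1 n).2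

end Pool.Agent.W_7d29a1_h3
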