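import Pool.Agent.W_7d29a1_h3.MomC

/-!
Section 9: the connectors.
-/

namespace Pool.Agent.W_7d29a1_h3

open MeasureTheory ProbabilityTheory Filter Topology Pool.Agent.W_MP_7d29a1_pr
  Pool.Agent.W_7d29a1_h46 Pool.Agent.W_7d29a1_h46u

variable {d : ℕ} {ρ : Measure ℝ} [IsProbabilityMeasure ρ]

/-- TASK Contra2. The connectors exist with high probability (`micro`, `real_sh`, union over `i ≤ m`, `c`, `v`; `l ≥ 4 d R`, so
`adm l v`; at most `m * C n^(2 d)` cases for `K B, R ≤ n`). -/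
theorem conn_prob (j0 : Fin d) (hρ : EM ρ) (β : ℝ) : ∃ C5 : ℝ, 0 < C5 ∧ ∀ (m n N1 R l K' : ℕ),
    1 ≤ n → l = 4 * d * R → l ≤ N1 → K' ≤ n → R ≤ n →
    (law d ρ).real {η : Env d | ¬ ((∀ i, 1 ≤ i → i ≤ m → ∀ c v : Site d, sn c ≤ K' →
      sn v ≤ 2 * R → Even (ln v) → Real.exp (-(C5 * l)) ≤ Vp ρ β (sh (i * N1 - l) c η) l v) ∧
      (∀ i, 1 ≤ i → i ≤ m → ∀ c v : Site d, sn c ≤ K' →
      sn v ≤ 2 * R → Even (ln v) → Real.exp (-(C5 * l)) ≤ Vp ρ β (sh (i * N1) (c + v) η) l (-v)))} ≤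
      2 * m * (3 * (n : ℝ)) ^ d * (5 * (n : ℝ)) ^ d * Real.exp (-(l : ℝ)) := by
  classical
  obtain ⟨C, hC, hmic⟩ := micro (ρ := ρ) j0 hρ β
  refine ⟨C, hC, ?_⟩
  intro m n N1 R l K' hn hl hlN hK hR
  have hprob : IsProbabilityMeasure (law d ρ) := by
    unfold law
    infer_instance
  -- the basic bad event
  set B : Site d → Set (Env d) := fun v => {η | ¬ Real.exp (-(C * l)) ≤ Vp ρ β η l v} with hB
  have hBm : ∀ v, MeasurableSet (B v) := by
    intro v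
    have h1 : Measurable fun η : Env d => Vp ρ β η l v := measurable_V (toP l v)
    exact (measurableSet_le measurable_const h1).compl
  have hadm : ∀ v : Site d, sn v ≤ 2 * R → Even (ln v) → adm l v := by
    intro v hv he
    refine ⟨?_, ?_⟩
    · calc ln v ≤ d * sn v := ln_le_sn v
        _ ≤ d * (2 * R) := Nat.mul_le_mul_left _ hv
        _ ≤ l := by rw [hl]; nlinarith [Nat.zero_le (d * R)]
    · have h1 : Even l := by rw [hl]; exact ⟨2 * d * R, by ring⟩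
      exact Nat.even_iff.1 (he.add h1)
  have hBp : ∀ v : Site d, adm l v → (law d ρ).real (B v) ≤ Real.exp (-(l : ℝ)) := fun v hv =>
    hmic l v hv
  have hS : ∀ (t : ℕ) (x v : Site d), adm l v →
      (law d ρ).real {η | sh t x η ∈ B v} ≤ Real.exp (-(l : ℝ)) := by
    intro t x v hv
    rw [real_sh t x (hBm v)]
    exact hBp v hv
  set I : Finset (ℕ × Site d × Site d) :=
    (Finset.Icc 1 m) ×ˢ (boxF d K' ×ˢ (boxF d (2 * R)).filter fun v => Even (ln v)) with hI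
  set S : ℕ × Site d × Site d → Set (Env d) := fun p =>
    {η | sh (p.1 * N1 - l) p.2.1 η ∈ B p.2.2} ∪ {η | sh (p.1 * N1) (p.2.1 + p.2.2) η ∈ B (-p.2.2)}
    with hSdef
  have hsub : {η : Env d | ¬ ((∀ i, 1 ≤ i → i ≤ m → ∀ c v : Site d, sn c ≤ K' →
      sn v ≤ 2 * R → Even (ln v) → Real.exp (-(C * l)) ≤ Vp ρ β (sh (i * N1 - l) c η) l v) ∧
      (∀ i, 1 ≤ i → i ≤ m → ∀ c v : Site d, sn c ≤ K' →
      sn v ≤ 2 * R → Even (ln v) → Real.exp (-(C * l)) ≤ Vp ρ β (sh (i * N1) (c + v) η) l (-v)))} ⊆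
      ⋃ p ∈ I, S p := by
    intro η hη
    rw [Set.mem_setOf_eq, not_and_or] at hη
    simp only [Set.mem_iUnion]
    rcases hη with hη | hη
    · push Not at hη
      obtain ⟨i, h1, h2, c, v, h3, h4, h5, h6⟩ := hη
      refine ⟨(i, c, v), ?_, Or.inl ?_⟩
      · simp only [hI, Finset.mem_product, Finset.mem_Icc, Finset.mem_filter, mem_boxF_iff]
        exact ⟨⟨h1, h2⟩, h3, h4, h5⟩
      · exact not_le.2 h6
    · push Not at hη
      obtain ⟨i, h1, h2, c, v, h3, h4, h5, h6⟩ := hη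
      refine ⟨(i, c, v), ?_, Or.inr ?_⟩
      · simp only [hI, Finset.mem_product, Finset.mem_Icc, Finset.mem_filter, mem_boxF_iff]
        exact ⟨⟨h1, h2⟩, h3, h4, h5⟩
      · exact not_le.2 h6
  have hone : ∀ p ∈ I, (law d ρ).real (S p) ≤ 2 * Real.exp (-(l : ℝ)) := by
    intro p hp
    simp only [hI, Finset.mem_product, Finset.mem_Icc, Finset.mem_filter, mem_boxF_iff] at hp
    have ha := hadm p.2.2 hp.2.2.1 hp.2.2.2
    refine (measureReal_union_le _ _).trans ?_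
    have h1 := hS (p.1 * N1 - l) p.2.1 p.2.2 ha
    have h2 := hS (p.1 * N1) (p.2.1 + p.2.2) (-p.2.2) (adm_neg ha)
    linarith
  have hcard : (I.card : ℝ) ≤ m * (3 * (n : ℝ)) ^ d * (5 * (n : ℝ)) ^ d := by
    have h1 : I.card ≤ m * ((3 * n) ^ d * (5 * n) ^ d) := by
      rw [hI, Finset.card_product, Finset.card_product, Nat.card_Icc, card_boxF]
      have h2 : ((boxF d (2 * R)).filter fun v => Even (ln v)).card ≤ (5 * n) ^ d := by
        refine (Finset.card_filter_le _ _).trans ?_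
        rw [card_boxF]
        exact Nat.pow_le_pow_left (by omega) d
      have h3 : (2 * K' + 1) ^ d ≤ (3 * n) ^ d := Nat.pow_le_pow_left (by omega) d
      have h4 : m + 1 - 1 = m := by omega
      rw [h4]
      exact Nat.mul_le_mul_left _ (Nat.mul_le_mul h3 h2)
    have h5 : (I.card : ℝ) ≤ ((m * ((3 * n) ^ d * (5 * n) ^ d) : ℕ) : ℝ) := by exact_mod_cast h1
    refine h5.trans (le_of_eq ?_)
    push_cast
    ring
  have hfin : (law d ρ).real (⋃ p ∈ I, S p) ≤ ∑ p ∈ I, (law d ρ).real (S p) :=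
    measureReal_biUnion_finset_le I S
  calc _ ≤ (law d ρ).real (⋃ p ∈ I, S p) := measureReal_mono hsub (measure_ne_top _ _)
    _ ≤ ∑ p ∈ I, (law d ρ).real (S p) := hfin
    _ ≤ ∑ _p ∈ I, 2 * Real.exp (-(l : ℝ)) := Finset.sum_le_sum hone
    _ = I.card * (2 * Real.exp (-(l : ℝ))) := by rw [Finset.sum_const, nsmul_eq_mul]
    _ ≤ (m * (3 * (n : ℝ)) ^ d * (5 * (n : ℝ)) ^ d) * (2 * Real.exp (-(l : ℝ))) :=
        mul_le_mul_of_nonneg_right hcard (by positivity)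
    _ = 2 * m * (3 * (n : ℝ)) ^ d * (5 * (n : ℝ)) ^ d * Real.exp (-(l : ℝ)) := by ring

end Pool.Agent.W_7d29a1_h3
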