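import Pool.Agent.W_7d29a1_h3.CheapC
import Pool.Agent.W_7d29a1_h3.Ind

/-!
The critical scale `n ^ (1 / (d + 2))`: one step.
-/

namespace Pool.Agent.W_7d29a1_h3

open MeasureTheory ProbabilityTheory Filter Topology Pool.Agent.W_MP_7d29a1_pr
  Pool.Agent.W_7d29a1_h46 Pool.Agent.W_7d29a1_h46u

variable {d : ℕ} {ρ : Measure ℝ} [IsProbabilityMeasure ρ]

private theorem CritA_ZT (β : ℝ) (η : Env d) {n : ℕ} (E : Set (Fin n → Step d)) :
    ZT β 0 η E = ZE β η n E := by
  unfold ZT ZE
  refine Finset.sum_congr rfl fun s _ => ?_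
  unfold wgt
  rw [inner_zero_left, zero_add]

private theorem CritA_dep (β : ℝ) (n r : ℕ) {η η' : Env d}
    (h : ∀ p : ℕ × Site d, p.2 ∈ boxF d r → η p = η' p) :
    V ρ β η (good d n r) = V ρ β η' (good d n r) := by
  unfold V
  rw [CritA_ZT, CritA_ZT, ZE_congr (η' := η')]
  intro p hp
  exact h p (Finset.mem_product.1 hp).2

/-- TASK CritA1. Deterministic: climb to `y e_j0`, `2 r < y`, in time `t`, then stay in the shifted box (`V_append`); the polymer of length
`t + m` is confined to the box `r` with mass `≥ 1/2`. -/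
theorem crit_det (j0 : Fin d) {β : ℝ} (η : Env d) {t m r y : ℕ} {R u : ℝ} (hR : R ≤ r)
    (hclimb : Real.exp (-u) ≤ Vp ρ β η t ((y : ℤ) • es j0))
    (hP : 1 / 2 ≤ Pol β η (t + m) (inBall d (t + m) R)) :
    1 / 2 * (Real.exp (-u) * V ρ β (sh t ((y : ℤ) • es j0) η) (good d m r)) ≤
      V ρ β η (good d (t + m) r) := by
  have hd : 0 < d := Nat.lt_of_le_of_lt (Nat.zero_le _) j0.2
  have h1 := half_le_of_Pol hd hR hP
  rw [← CritA_ZT, ← CritA_ZT] at h1
  have h2 : 1 / 2 * V ρ β η (Set.univ : Set (Fin (t + m) → Step d)) ≤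
      V ρ β η (good d (t + m) r) := by
    unfold V
    calc 1 / 2 * (Real.exp (-(((t + m : ℕ) : ℝ) * lam ρ β (0 : Vec d))) *
          ZT β 0 η (Set.univ : Set (Fin (t + m) → Step d)))
        = Real.exp (-(((t + m : ℕ) : ℝ) * lam ρ β (0 : Vec d))) *
          (1 / 2 * ZT β 0 η (Set.univ : Set (Fin (t + m) → Step d))) := by ring
      _ ≤ _ := mul_le_mul_of_nonneg_left h1 (Real.exp_pos _).le
  have h3 := V_append (ρ := ρ) (β := β) η (m := t) (n := m) (x := (y : ℤ) • es j0)
    (E1 := toP t ((y : ℤ) • es j0)) (E2 := good d m r) (E := Set.univ) (fun s hs => hs)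
    fun s _ q _ => Set.mem_univ _
  have h4 : Real.exp (-u) * V ρ β (sh t ((y : ℤ) • es j0) η) (good d m r) ≤
      V ρ β η (toP t ((y : ℤ) • es j0)) * V ρ β (sh t ((y : ℤ) • es j0) η) (good d m r) :=
    mul_le_mul_of_nonneg_right hclimb (V_nonneg _ _)
  linarith

/-- TASK CritA2. The quantile step (compare `IID.step` in `W_MP_7d29a1_pr/Quant.lean`): the two weights depend on disjoint sets of
sites (`|x| ≤ r` resp. `|x - y e_j0| ≤ r`, `2 r < y`), so with probability `≥ ε²` both events hold, and
`μ(not hclimb) + μ(not hP) ≤ 2 δ < ε²`. -/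
theorem crit_step (j0 : Fin d) (β : ℝ) {t m r y : ℕ} (hy : 2 * r < y) {R u δ ε α γ : ℝ}
    (hR : R ≤ r) (hε : 0 < ε) (hδ : 2 * δ < ε ^ 2)
    (hP : (law d ρ).real {η : Env d | ¬ (1 / 2 ≤ Pol β η (t + m) (inBall d (t + m) R))} ≤ δ)
    (hclimb : (law d ρ).real {η : Env d | ¬ Real.exp (-u) ≤ Vp ρ β η t ((y : ℤ) • es j0)} ≤ δ)
    (hα : ε ≤ (law d ρ).real {η : Env d | V ρ β η (good d (t + m) r) ≤ Real.exp α})
    (hγ : ε ≤ (law d ρ).real {η : Env d | Real.exp γ ≤ V ρ β η (good d m r)}) :
    γ - u - Real.log 2 ≤ α := by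
  classical
  by_contra hcon
  push Not at hcon
  set x : Site d := (y : ℤ) • es j0 with hx
  set A : Bool → Set (Env d) := fun b => if b then {η | V ρ β η (good d (t + m) r) ≤ Real.exp α}
    else {η | sh t x η ∈ {η' : Env d | Real.exp γ ≤ V ρ β η' (good d m r)}} with hA
  set S : Bool → Set (ℕ × Site d) := fun b => if b then {p | p.2 ∈ boxF d r}
    else {p | p.2 - x ∈ boxF d r} with hS
  have hAt : A true = {η | V ρ β η (good d (t + m) r) ≤ Real.exp α} := if_pos rfl
  have hAf : A false = {η | sh t x η ∈ {η' : Env d | Real.exp γ ≤ V ρ β η' (good d m r)}} :=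
    if_neg Bool.false_ne_true
  have hSt : S true = {p | p.2 ∈ boxF d r} := if_pos rfl
  have hSf : S false = {p | p.2 - x ∈ boxF d r} := if_neg Bool.false_ne_true
  have hB : MeasurableSet {η' : Env d | Real.exp γ ≤ V ρ β η' (good d m r)} :=
    measurableSet_le measurable_const (measurable_V _)
  have hdisj : Disjoint (S true) (S false) := by
    rw [hSt, hSf, Set.disjoint_left]
    intro p hp hp'
    have h1 := mem_boxF.1 hp j0
    have h2 := mem_boxF.1 hp' j0
    have h3 : (p.2 - x) j0 = p.2 j0 - y := by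
      rw [hx]
      simp [es]
    rw [h3] at h2
    rw [abs_le] at h1 h2
    have h4 : (2 * r : ℤ) < y := by exact_mod_cast hy
    linarith [h1.1, h1.2, h2.1, h2.2]
  have hind := indep_events (ρ := ρ) (Finset.univ : Finset Bool) A S (by
      intro b _
      cases b
      · rw [hAf]
        exact hB.preimage (mp_sh (ρ := ρ) t x).measurable
      · rw [hAt]
        exact measurableSet_le (measurable_V _) measurable_const) (by
      intro b _ η η' h
      cases b
      · rw [hAf]
        rw [hSf] at h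
        have h1 : V ρ β (sh t x η) (good d m r) = V ρ β (sh t x η') (good d m r) := by
          refine CritA_dep β m r fun p hp => h _ ?_
          change p.2 + x - x ∈ boxF d r
          rw [add_sub_cancel_right]
          exact hp
        change Real.exp γ ≤ V ρ β (sh t x η) (good d m r) ↔
          Real.exp γ ≤ V ρ β (sh t x η') (good d m r)
        rw [h1]
      · rw [hAt]
        rw [hSt] at h
        have h1 : V ρ β η (good d (t + m) r) = V ρ β η' (good d (t + m) r) :=
          CritA_dep β (t + m) r fun p hp => h p hp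
        change V ρ β η (good d (t + m) r) ≤ Real.exp α ↔
          V ρ β η' (good d (t + m) r) ≤ Real.exp α
        rw [h1]) (by
      intro b _ c _ hbc
      cases b <;> cases c
      · exact absurd rfl hbc
      · exact hdisj.symm
      · exact hdisj
      · exact absurd rfl hbc)
  rw [Fintype.prod_bool, hAt, hAf, real_sh t x hB] at hind
  have h5 : ε ^ 2 ≤ (law d ρ).real {η : Env d | ∀ i ∈ (Finset.univ : Finset Bool), η ∈ A i} := by
    rw [hind, sq]
    exact mul_le_mul hα hγ hε.le measureReal_nonneg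
  have hsub : {η : Env d | ∀ i ∈ (Finset.univ : Finset Bool), η ∈ A i} ⊆
      {η : Env d | ¬ (1 / 2 ≤ Pol β η (t + m) (inBall d (t + m) R))} ∪
        {η : Env d | ¬ Real.exp (-u) ≤ Vp ρ β η t x} := by
    intro η hη
    have h1 : V ρ β η (good d (t + m) r) ≤ Real.exp α := by
      have := hη true (Finset.mem_univ _)
      rw [hAt] at this
      exact this
    have h2 : Real.exp γ ≤ V ρ β (sh t x η) (good d m r) := by
      have := hη false (Finset.mem_univ _)
      rw [hAf] at this
      exact this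
    by_contra h
    rw [Set.mem_union, not_or] at h
    have h3 : 1 / 2 ≤ Pol β η (t + m) (inBall d (t + m) R) := not_not.1 h.1
    have h4 : Real.exp (-u) ≤ Vp ρ β η t x := not_not.1 h.2
    have h6 := crit_det j0 η hR h4 h3
    have h7 : 1 / 2 * (Real.exp (-u) * Real.exp γ) ≤ Real.exp α := by
      have h8 : Real.exp (-u) * Real.exp γ ≤ Real.exp (-u) * V ρ β (sh t x η) (good d m r) :=
        mul_le_mul_of_nonneg_left h2 (Real.exp_pos _).le
      linarith
    have h8 : 1 / 2 * (Real.exp (-u) * Real.exp γ) = Real.exp (γ - u - Real.log 2) := by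
      rw [sub_eq_add_neg (γ - u) (Real.log 2), Real.exp_add, Real.exp_neg (Real.log 2),
        Real.exp_log two_pos, sub_eq_add_neg γ u, Real.exp_add]
      ring
    rw [h8, Real.exp_le_exp] at h7
    linarith
  have h9 := (measureReal_mono (μ := law d ρ) hsub).trans (measureReal_union_le _ _)
  linarith

end Pool.Agent.W_7d29a1_h3
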