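import Pool.Agent.W_7d29a1_h3.CritA
import Pool.Agent.W_MP_7d29a1_pr.Quant

/-!
The critical scale `n ^ (1 / (d + 2))`: the wandering is of larger order.
-/

namespace Pool.Agent.W_7d29a1_h3

open MeasureTheory ProbabilityTheory Filter Topology Pool.Agent.W_MP_7d29a1_pr
  Pool.Agent.W_7d29a1_h46 Pool.Agent.W_7d29a1_h46u

variable {d : ℕ} {ρ : Measure ℝ} [IsProbabilityMeasure ρ]

private theorem CritB_ZT (β : ℝ) (η : Env d) {n : ℕ} (E : Set (Fin n → Step d)) :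
    ZT β (0 : Vec d) η E = ZE β η n E := by
  unfold ZT ZE wgt
  refine Finset.sum_congr rfl fun s _ => ?_
  rw [inner_zero_left, zero_add]

private theorem CritB_V (β : ℝ) (η : Env d) {m r : ℕ} (hne : (good d m r).Nonempty) :
    V ρ β η (good d m r) = Real.exp (XF β m r η - m * lam ρ β (0 : Vec d)) := by
  unfold V XF
  rw [CritB_ZT, sub_eq_add_neg, Real.exp_add, Real.exp_log (ZE_pos β η m hne), mul_comm]

private theorem CritB_X (β : ℝ) (η : Env d) (n : ℕ) :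
    X β (0 : Vec d) η n = Real.log (ZE β η n Set.univ) := by
  unfold X Z
  rw [CritB_ZT]

private theorem CritB_dev (j0 : Fin d) (hρ : EM ρ) (β : ℝ) {δ θ : ℝ} (hδ : 0 < δ) (hθ : 0 < θ) :
    ∃ N : ℕ, ∀ m ≥ N, (law d ρ).real {η : Env d | θ * m < |X β (0 : Vec d) η m - m * lam ρ β (0 : Vec d)|} ≤ δ := by
  have hd := Fin.pos j0
  obtain ⟨C, hC0, hC⟩ := momU (ρ := ρ) hd hρ β 2
  have h1 := tendsto_A (ρ := ρ) hd hρ β (0 : Vec d)
  have h2 := (Metric.tendsto_atTop.1 h1) (θ / 2) (by linarith)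
  obtain ⟨N1, hN1⟩ := h2
  obtain ⟨N2, hN2⟩ := exists_nat_ge (C / (δ * (θ / 2) ^ 2))
  refine ⟨max 1 (max N1 N2), fun m hm => ?_⟩
  have hm1 : 1 ≤ m := (le_max_left _ _).trans hm
  have hmN1 : N1 ≤ m := ((le_max_left _ _).trans (le_max_right _ _)).trans hm
  have hmN2 : N2 ≤ m := ((le_max_right _ _).trans (le_max_right _ _)).trans hm
  have hm0 : (0 : ℝ) < m := by exact_mod_cast hm1
  have h3 := hN1 m hmN1
  rw [Real.dist_eq] at h3
  have h4 : |A ρ β (0 : Vec d) m - m * lam ρ β (0 : Vec d)| ≤ θ / 2 * m := by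
    have e1 : A ρ β (0 : Vec d) m - m * lam ρ β (0 : Vec d) =
        (A ρ β (0 : Vec d) m / m - lam ρ β (0 : Vec d)) * m := by
      field_simp
    rw [e1, abs_mul, abs_of_pos hm0]
    exact mul_le_mul_of_nonneg_right h3.le hm0.le
  obtain ⟨h5, h6⟩ := hC (0 : Vec d) m hm1
  have e2 : ((m : ℝ)) ^ ((1 / 2 : ℝ) * ((2 : ℕ) : ℝ)) = m := by
    rw [show ((1 / 2 : ℝ) * ((2 : ℕ) : ℝ)) = 1 by norm_num, Real.rpow_one]
  rw [e2] at h6
  have h7 := mul_meas_ge_le_integral_of_nonneg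
    (Filter.Eventually.of_forall fun η : Env d => sq_nonneg |X β (0 : Vec d) η m - A ρ β (0 : Vec d) m|) h5
    ((θ / 2 * m) ^ 2)
  have h8 : (law d ρ).real {η : Env d | θ * m < |X β (0 : Vec d) η m - m * lam ρ β (0 : Vec d)|} ≤
      (law d ρ).real {η : Env d | (θ / 2 * m) ^ 2 ≤ |X β (0 : Vec d) η m - A ρ β (0 : Vec d) m| ^ 2} := by
    refine measureReal_mono fun η hη => ?_
    simp only [Set.mem_ofPred_eq] at hη ⊢
    refine pow_le_pow_left₀ (by positivity) ?_ 2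
    have e3 : X β (0 : Vec d) η m - m * lam ρ β (0 : Vec d) =
        (X β (0 : Vec d) η m - A ρ β (0 : Vec d) m) + (A ρ β (0 : Vec d) m - m * lam ρ β (0 : Vec d)) := by ring
    rw [e3] at hη
    have e4 := abs_add_le (X β (0 : Vec d) η m - A ρ β (0 : Vec d) m) (A ρ β (0 : Vec d) m - m * lam ρ β (0 : Vec d))
    linarith
  refine h8.trans ?_
  have h9 : (θ / 2 * m) ^ 2 * (law d ρ).real {η : Env d | (θ / 2 * m) ^ 2 ≤ |X β (0 : Vec d) η m - A ρ β (0 : Vec d) m| ^ 2} ≤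
      C * m := h7.trans h6
  have h10 : C * m ≤ (θ / 2 * m) ^ 2 * δ := by
    have e5 : C / (δ * (θ / 2) ^ 2) ≤ m := hN2.trans (by exact_mod_cast hmN2)
    rw [div_le_iff₀ (by positivity)] at e5
    have e6 : C * m ≤ (m * (δ * (θ / 2) ^ 2)) * m := mul_le_mul_of_nonneg_right e5 hm0.le
    calc C * m ≤ (m * (δ * (θ / 2) ^ 2)) * m := e6
      _ = (θ / 2 * m) ^ 2 * δ := by ring
  exact le_of_mul_le_mul_left (h9.trans h10) (by positivity)

private theorem CritB_up (j0 : Fin d) (hρ : EM ρ) (β : ℝ) {ε θ : ℝ} (hε : ε ≤ 1 / 4) (hθ : 0 < θ) :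
    ∃ N : ℕ, ∀ m ≥ N, ∀ (r : ℕ) (α : ℝ), (good d m r).Nonempty →
      (law d ρ).real {η : Env d | XF β m r η < α} ≤ ε → α ≤ m * lam ρ β (0 : Vec d) + θ * m := by
  obtain ⟨N, hN⟩ := CritB_dev (ρ := ρ) j0 hρ β (show (0 : ℝ) < 1 / 2 by norm_num) hθ
  refine ⟨N, fun m hm r α hne hα => ?_⟩
  by_contra hcon
  push Not at hcon
  have h1 := hN m hm
  have h2 : (Set.univ : Set (Env d)) ⊆ {η : Env d | XF β m r η < α} ∪
      {η : Env d | θ * m < |X β (0 : Vec d) η m - m * lam ρ β (0 : Vec d)|} := by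
    intro η _
    by_cases h3 : XF β m r η < α
    · exact Or.inl h3
    · right
      push Not at h3
      have h4 : XF β m r η ≤ X β (0 : Vec d) η m := by
        rw [CritB_X]
        exact Real.log_le_log (ZE_pos β η m hne) (ZE_mono β η m (Set.subset_univ _))
      rw [Set.mem_ofPred_eq]
      have h5 := le_abs_self (X β (0 : Vec d) η m - m * lam ρ β (0 : Vec d))
      linarith
  have h3 := (measureReal_mono (μ := law d ρ) h2).trans (measureReal_union_le _ _)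
  rw [probReal_univ] at h3
  linarith

private theorem CritB_low (j0 : Fin d) (hρ : EM ρ) (β : ℝ) {ε δ θ : ℝ} (hδ : δ < ε) (hθ : 0 < θ) :
    ∃ N : ℕ, ∀ m ≥ N, ∀ (r : ℕ) (R α : ℝ), R ≤ r →
      (law d ρ).real {η : Env d | ¬ (1 / 2 ≤ Pol β η m (inBall d m R))} ≤ δ →
      ε ≤ (law d ρ).real {η : Env d | XF β m r η ≤ α} → m * lam ρ β (0 : Vec d) - θ * m ≤ α := by
  have hd := Fin.pos j0
  obtain ⟨N, hN⟩ := CritB_dev (ρ := ρ) j0 hρ β (show (0 : ℝ) < (ε - δ) / 2 by linarith)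
    (show (0 : ℝ) < θ / 2 by linarith)
  obtain ⟨N2, hN2⟩ := exists_nat_ge (Real.log 2 / (θ / 2))
  refine ⟨max N N2, fun m hm r R α hR hP hα => ?_⟩
  have hmN : N ≤ m := (le_max_left _ _).trans hm
  have hmN2 : N2 ≤ m := (le_max_right _ _).trans hm
  have hlog : Real.log 2 ≤ θ / 2 * m := by
    have e1 : Real.log 2 / (θ / 2) ≤ m := hN2.trans (by exact_mod_cast hmN2)
    rw [div_le_iff₀ (by linarith)] at e1
    linarith
  by_contra hcon
  push Not at hcon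
  have h1 := hN m hmN
  have h2 : {η : Env d | XF β m r η ≤ α} ⊆ {η : Env d | ¬ (1 / 2 ≤ Pol β η m (inBall d m R))} ∪
      {η : Env d | θ / 2 * m < |X β (0 : Vec d) η m - m * lam ρ β (0 : Vec d)|} := by
    intro η hη
    by_cases h3 : 1 / 2 ≤ Pol β η m (inBall d m R)
    · right
      have hη : XF β m r η ≤ α := hη
      have h4 := half_le_of_Pol hd hR h3
      have h5 : X β (0 : Vec d) η m - Real.log 2 ≤ XF β m r η := by
        rw [CritB_X]
        unfold XF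
        have h6 := Real.log_le_log (mul_pos (by norm_num) (ZE_univ_pos hd β η m)) h4
        rw [Real.log_mul (by norm_num) (ZE_univ_pos hd β η m).ne', one_div, Real.log_inv] at h6
        linarith
      rw [Set.mem_ofPred_eq]
      have h7 := neg_abs_le (X β (0 : Vec d) η m - m * lam ρ β (0 : Vec d))
      linarith
    · exact Or.inl h3
  have h3 := (measureReal_mono (μ := law d ρ) h2).trans (measureReal_union_le _ _)
  linarith

private theorem CritB_pow (d : ℕ) {a : ℝ} (ha : a = 1 / ((d : ℝ) + 2)) (n : ℕ) :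
    ((n : ℝ) ^ a) ^ (d + 2) = n := by
  have hd2 : (0 : ℝ) < (d : ℝ) + 2 := by positivity
  rw [← Real.rpow_natCast, ← Real.rpow_mul (Nat.cast_nonneg n)]
  have h1 : a * ((d + 2 : ℕ) : ℝ) = 1 := by
    rw [ha]
    push_cast
    field_simp
  rw [h1, Real.rpow_one]

/-- TASK CritB. Suppose the integral is `≥ 1` (so `= 1`); put `a = 1 / (d + 2)`. `fluct_box` gives `ε₀, c`; `ε = min (ε₀/2) (1/4)`,
`δ = ε²/4`; `exists_bad_small'` (`W_7d29a1_h46/Basic.lean`): for `N ≥ n0` the confinement `1/2 ≤ Pol_N (inBall (K N^a))` fails with probability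
`≤ δ`. Fix `n` large, `r = ⌈K n^a⌉`. For `m ∈ [n/2, n]` let `α_m, γ_m` be the lower and upper `ε`-quantiles of
`log V (good d m r)`: `γ_m - α_m ≥ c m / √(m (2r+1)^d) ≥ F := c' n^a` (FLUCT, `c'` depends on `K`). `travel` with `κ = 0` and
`ε'` such that `5 ε' (2 r + 2 + a') ≤ F / 4` for large `n` (first `ε'`, then `L', a'`, then `n`): `i` least with
`i a' ≥ 2 r + 1`, `y = i a'`, `t = i L' ≤ C n^a`, `u = 4 ε' i a'`, `crit_step`: `α_(t+m) ≥ α_m + F - u - log 2 ≥ α_m + F / 2`. Iterate from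
`m0 ∈ [n/2, n/2 + 1]`: `α_(m0 + k t) ≥ α_(m0) + k F / 2` with `k t ≤ n/2`, `k ≥ n / (4 t)`, so `k F / 2 ≥ c'' n`. But `α_m ≤ C √m` and
`α_(m0) ≥ -o(n)`: `V (good) ≤ V univ = exp (- HH 0)`, `∫ HH 0 ≥ 0` and `= o(n)` (`A_le_lam`, `tendsto_A`), `concU`; and
`V (good) ≥ 1/2 V univ` on the confinement event. -/
theorem crit (j0 : Fin d) (hρ : EM ρ) (hnc : ∀ c : ℝ, ρ {c} ≠ 1) {β : ℝ} (hβ : 0 < β)
    (hst : ∀ t : ℝ, 0 < t → lam ρ β (0 : Vec d) < lam ρ β (t • ej j0)) (K : ℝ) :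
    ∫ η, liminf (fun n : ℕ => Pol β η n
      (inBall d n (K * (n : ℝ) ^ (1 / ((d : ℝ) + 2))))) atTop ∂(law d ρ) < 1 := by
  by_contra hcon
  push Not at hcon
  have hd := Fin.pos j0
  have hd2 : (0 : ℝ) < (d : ℝ) + 2 := by positivity
  obtain ⟨a, ha⟩ : ∃ a : ℝ, a = 1 / ((d : ℝ) + 2) := ⟨_, rfl⟩
  rw [← ha] at hcon
  have ha0 : 0 < a := by
    rw [ha]
    positivity
  have ha1 : a ≤ 1 := by
    rw [ha, div_le_one hd2]
    have : (0 : ℝ) ≤ d := Nat.cast_nonneg d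
    linarith
  have hu0 : ∀ (n : ℕ) (η : Env d), 0 ≤ Pol β η n (inBall d n (K * (n : ℝ) ^ a)) :=
    fun n η => Pol_nonneg _ _ _ _
  have hu1 : ∀ (n : ℕ) (η : Env d), Pol β η n (inBall d n (K * (n : ℝ) ^ a)) ≤ 1 :=
    fun n η => Pol_le_one _ _ _ _
  have hI : ∫ η, liminf (fun n : ℕ => Pol β η n (inBall d n (K * (n : ℝ) ^ a))) atTop ∂(law d ρ) = 1 := by
    refine le_antisymm ?_ hcon
    have h1 : ∀ η : Env d, 0 ≤ liminf (fun n : ℕ => Pol β η n (inBall d n (K * (n : ℝ) ^ a))) atTop := by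
      intro η
      refine le_liminf_of_le ?_ (Filter.Eventually.of_forall fun n => hu0 n η)
      exact (isBoundedUnder_of ⟨1, fun n => hu1 n η⟩).isCoboundedUnder_ge
    have h2 : ∀ η : Env d, liminf (fun n : ℕ => Pol β η n (inBall d n (K * (n : ℝ) ^ a))) atTop ≤ 1 :=
      fun η => liminf_le_one (fun n => hu0 n η) (fun n => hu1 n η)
    have h3 := integral_mono_of_nonneg (μ := law d ρ) (Filter.Eventually.of_forall h1)
      (integrable_const (1 : ℝ)) (Filter.Eventually.of_forall h2)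
    refine h3.trans (le_of_eq ?_)
    simp
  obtain ⟨ε₀, hε₀, c, hc, hf⟩ := fluct_box d ρ hnc β hβ (hρ β)
  obtain ⟨ε, hεdef⟩ : ∃ ε : ℝ, ε = min (ε₀ / 2) (1 / 4) := ⟨_, rfl⟩
  have hε : 0 < ε := by
    rw [hεdef]
    exact lt_min (by linarith) (by norm_num)
  have hε4 : ε ≤ 1 / 4 := by
    rw [hεdef]
    exact min_le_right _ _
  have hε2 : 2 * ε ≤ ε₀ := by
    have := min_le_left (ε₀ / 2) (1 / 4)
    rw [← hεdef] at this
    linarith
  have hε1 : ε < 1 := by linarith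
  obtain ⟨δ, hδdef⟩ : ∃ δ : ℝ, δ = ε ^ 2 / 4 := ⟨_, rfl⟩
  have hδ : 0 < δ := by
    rw [hδdef]
    positivity
  have hδ2 : 2 * δ < ε ^ 2 := by
    rw [hδdef]
    nlinarith
  have hδ1 : δ < ε := by
    rw [hδdef]
    nlinarith
  obtain ⟨n0, hn0⟩ := exists_bad_small
    (u := fun n (η : Env d) => Pol β η n (inBall d n (K * (n : ℝ) ^ a)))
    (fun n => measurable_Pol β n _) (fun n η => hu0 n η) (fun n η => hu1 n η) hI hδ
  obtain ⟨C2, hC2⟩ : ∃ C2 : ℝ, C2 = 2 * (|K| + 1) + 1 := ⟨_, rfl⟩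
  have hK0 := abs_nonneg K
  have hC21 : 1 ≤ C2 := by
    rw [hC2]
    linarith
  obtain ⟨B, hB⟩ : ∃ B : ℝ, B = 2 * C2 + 1 := ⟨_, rfl⟩
  have hB1 : 1 ≤ B := by
    rw [hB]
    linarith
  have hBd : 0 < Real.sqrt (B ^ d) := Real.sqrt_pos.2 (by positivity)
  obtain ⟨c', hc'⟩ : ∃ c' : ℝ, c' = c / Real.sqrt (B ^ d) := ⟨_, rfl⟩
  have hc'0 : 0 < c' := by
    rw [hc']
    positivity
  obtain ⟨L, a', hL, ha', -, -, -, ct, hct, htr⟩ := travel j0 hρ (le_refl (0 : ℝ)) hst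
    (show (0 : ℝ) < c' / (32 * C2) by positivity)
  have hL0 : (0 : ℝ) < L := by exact_mod_cast hL
  have hL1 : (1 : ℝ) ≤ L := by exact_mod_cast hL
  have ha'0 : (0 : ℝ) < a' := by exact_mod_cast ha'
  obtain ⟨θ, hθ⟩ : ∃ θ : ℝ, θ = c' / (32 * B * L) := ⟨_, rfl⟩
  have hθ0 : 0 < θ := by
    rw [hθ]
    positivity
  obtain ⟨Nu, hNu⟩ := CritB_up (ρ := ρ) j0 hρ β hε4 hθ0
  obtain ⟨Nl, hNl⟩ := CritB_low (ρ := ρ) j0 hρ β hδ1 hθ0
  have htd := (tendsto_rpow_atTop ha0).comp (tendsto_natCast_atTop_atTop (R := ℝ))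
  obtain ⟨n, ⟨⟨hx1, hx2⟩, hx3⟩, ⟨hnn0, hnNu⟩, hnNl, hn1⟩ :=
    ((((htd.eventually_ge_atTop ((4 * (c' / (32 * C2)) * a' + Real.log 2) / (c' / 4))).and
      (htd.eventually_ge_atTop (B * L))).and (htd.eventually_ge_atTop (a' / (2 * ct * δ)))).and
      (((eventually_ge_atTop n0).and (eventually_ge_atTop Nu)).and
        ((eventually_ge_atTop Nl).and (eventually_ge_atTop 1)))).exists
  simp only [Function.comp_apply] at hx1 hx2 hx3
  have hxn := CritB_pow d ha n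
  have hn1' : (1 : ℝ) ≤ n := by exact_mod_cast hn1
  have hx0 : 1 ≤ (n : ℝ) ^ a := Real.one_le_rpow hn1' ha0.le
  have h2n : (2 * (n : ℝ)) ^ a ≤ 2 * (n : ℝ) ^ a := by
    rw [Real.mul_rpow (by norm_num) (Nat.cast_nonneg n)]
    refine mul_le_mul_of_nonneg_right ?_ (by positivity)
    calc (2 : ℝ) ^ a ≤ (2 : ℝ) ^ (1 : ℝ) := Real.rpow_le_rpow_of_exponent_le (by norm_num) ha1
      _ = 2 := Real.rpow_one 2
  have h2n' : (n : ℝ) ^ a ≤ (2 * (n : ℝ)) ^ a :=
    Real.rpow_le_rpow (Nat.cast_nonneg n) (by linarith) ha0.le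
  obtain ⟨r, hr⟩ : ∃ r : ℕ, r = ⌈(|K| + 1) * (2 * (n : ℝ)) ^ a⌉₊ := ⟨_, rfl⟩
  have hr0 : (|K| + 1) * (2 * (n : ℝ)) ^ a ≤ r := by
    rw [hr]
    exact Nat.le_ceil _
  have hR : ∀ N : ℕ, N ≤ 2 * n → K * (N : ℝ) ^ a ≤ r := by
    intro N hN
    have hN' : (N : ℝ) ≤ 2 * n := by exact_mod_cast hN
    have e1 : (N : ℝ) ^ a ≤ (2 * (n : ℝ)) ^ a := Real.rpow_le_rpow (Nat.cast_nonneg _) hN' ha0.le
    have e2 : 0 ≤ (N : ℝ) ^ a := by positivity
    have e3 : K * (N : ℝ) ^ a ≤ |K| * (N : ℝ) ^ a := mul_le_mul_of_nonneg_right (le_abs_self K) e2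
    have e4 : |K| * (N : ℝ) ^ a ≤ |K| * (2 * (n : ℝ)) ^ a := mul_le_mul_of_nonneg_left e1 hK0
    have e5 : 0 ≤ (2 * (n : ℝ)) ^ a := by positivity
    linarith
  have hr3 : (r : ℝ) ≤ C2 * (n : ℝ) ^ a := by
    have e1 : (r : ℝ) < (|K| + 1) * (2 * (n : ℝ)) ^ a + 1 := by
      rw [hr]
      exact Nat.ceil_lt_add_one (by positivity)
    have e2 : (|K| + 1) * (2 * (n : ℝ)) ^ a ≤ (|K| + 1) * (2 * (n : ℝ) ^ a) :=
      mul_le_mul_of_nonneg_left h2n (by linarith)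
    rw [hC2]
    linarith
  have hr2 : (n : ℝ) ^ a ≤ r := by
    have e1 : 0 ≤ |K| * (2 * (n : ℝ)) ^ a := by positivity
    linarith
  have hrB : 2 * (r : ℝ) + 1 ≤ B * (n : ℝ) ^ a := by
    rw [hB]
    linarith
  -- the climb
  obtain ⟨i, hi⟩ : ∃ i : ℕ, i = 2 * r / a' + 1 := ⟨_, rfl⟩
  have hi1 : 2 * r < i * a' := by
    have := Nat.lt_mul_div_succ (2 * r) ha'
    rw [hi, Nat.mul_comm (2 * r / a' + 1) a']
    exact this
  have hi2 : i * a' ≤ 2 * r + a' := by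
    have := Nat.div_mul_le_self (2 * r) a'
    rw [hi, add_mul, one_mul]
    omega
  have hi3 : i ≤ 2 * r + 1 := by
    have := Nat.div_le_self (2 * r) a'
    omega
  have hi4 : 1 ≤ i := by
    rw [hi]
    exact Nat.le_add_left 1 _
  have hi1' : 2 * (r : ℝ) < i * a' := by exact_mod_cast hi1
  have hi2' : (i : ℝ) * a' ≤ 2 * r + a' := by exact_mod_cast hi2
  have hi3' : (i : ℝ) ≤ 2 * r + 1 := by exact_mod_cast hi3
  have hi4' : (1 : ℝ) ≤ i := by exact_mod_cast hi4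
  have hu : 0 * ((i : ℝ) * a') + 4 * (c' / (32 * C2)) * (i * a') + Real.log 2 ≤ c' / 2 * (n : ℝ) ^ a := by
    rw [div_le_iff₀ (by linarith)] at hx1
    have e1 : 4 * (c' / (32 * C2)) * (i * a') ≤ 4 * (c' / (32 * C2)) * (2 * (C2 * (n : ℝ) ^ a) + a') :=
      mul_le_mul_of_nonneg_left (by linarith) (by positivity)
    have e2 : 4 * (c' / (32 * C2)) * (2 * (C2 * (n : ℝ) ^ a) + a') =
        c' / 4 * (n : ℝ) ^ a + 4 * (c' / (32 * C2)) * a' := by
      field_simp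
      ring
    linarith
  have hclimb : (law d ρ).real {η : Env d | ¬ Real.exp (-(0 * ((i : ℝ) * a') + 4 * (c' / (32 * C2)) * (i * a'))) ≤
      Vp ρ β η (i * L) (((i * a' : ℕ) : ℤ) • es j0)} ≤ δ := by
    refine (htr i i le_rfl hi4).trans ?_
    have e1 : 1 / δ ≤ ct * i := by
      rw [div_le_iff₀ (by positivity)] at hx3
      rw [div_le_iff₀ hδ]
      have e2 : a' ≤ ct * (i * a') * δ := by
        have e3 : (n : ℝ) ^ a * (2 * ct * δ) ≤ ct * (i * a') * δ := by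
          have e4 : 2 * (n : ℝ) ^ a ≤ i * a' := by linarith
          have e5 : (2 * (n : ℝ) ^ a) * (ct * δ) ≤ (i * a') * (ct * δ) :=
            mul_le_mul_of_nonneg_right e4 (by positivity)
          linarith
        linarith
      have e6 : a' * 1 ≤ a' * (ct * i * δ) := by linarith
      exact le_of_mul_le_mul_left e6 ha'0
    have e7 := Real.add_one_le_exp (ct * i)
    rw [Real.exp_neg, inv_le_comm₀ (Real.exp_pos _) hδ]
    rw [one_div] at e1
    linarith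
  obtain ⟨t, ht⟩ : ∃ t : ℕ, t = i * L := ⟨_, rfl⟩
  rw [← ht] at hclimb
  have ht0 : 0 < t := by
    rw [ht]
    exact Nat.mul_pos (by omega) hL
  have ht1 : (t : ℝ) ≤ B * L * (n : ℝ) ^ a := by
    rw [ht]
    push_cast
    have e1 : (i : ℝ) * L ≤ (B * (n : ℝ) ^ a) * L := mul_le_mul_of_nonneg_right (by linarith) hL0.le
    linarith
  have ht2 : t ≤ n := by
    have e1 : (t : ℝ) ≤ n := by
      have e2 : B * L * (n : ℝ) ^ a ≤ (n : ℝ) ^ a * (n : ℝ) ^ a := mul_le_mul_of_nonneg_right hx2 (by linarith)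
      have e3 : (n : ℝ) ^ a * (n : ℝ) ^ a ≤ ((n : ℝ) ^ a) ^ (d + 2) := by
        rw [← sq]
        exact pow_le_pow_right₀ hx0 (by omega)
      linarith
    exact_mod_cast e1
  -- quantiles
  have hPol : ∀ N : ℕ, n ≤ N → (law d ρ).real {η : Env d | ¬ (1 / 2 ≤ Pol β η N
      (inBall d N (K * (N : ℝ) ^ a)))} ≤ δ := fun N hN => hn0 N (hnn0.trans hN)
  have hne : ∀ N : ℕ, n ≤ N → N ≤ 2 * n → (good d N r).Nonempty := by
    intro N hN hN2
    have hex : ∃ η : Env d, 1 / 2 ≤ Pol β η N (inBall d N (K * (N : ℝ) ^ a)) := by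
      by_contra hno
      push Not at hno
      have h1 : {η : Env d | ¬ (1 / 2 ≤ Pol β η N (inBall d N (K * (N : ℝ) ^ a)))} = Set.univ := by
        ext x
        simp only [Set.mem_univ, iff_true]
        exact not_le.2 (hno x)
      have h2 := hPol N hN
      rw [h1, probReal_univ] at h2
      nlinarith
    obtain ⟨η, hη⟩ := hex
    exact good_nonempty_of_Pol hd (hR N hN2) hη
  have hXm : ∀ m : ℕ, Measurable fun η : Env d => XF β m r η := fun m => measurable_XF β m r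
  choose αf hα1 hα2 using fun m : ℕ => exists_lower_quantile (law d ρ) (hXm m) hε hε1
  choose γf hγ1 hγ2 using fun m : ℕ => exists_upper_quantile (law d ρ) (hXm m) hε hε1
  have fact1 : ∀ m : ℕ, n ≤ m → m ≤ 2 * n → c' * (n : ℝ) ^ a ≤ γf m - αf m := by
    intro m hm hm2
    have hm1 : (1 : ℝ) ≤ m := by exact_mod_cast hn1.trans hm
    have hbad : (law d ρ) {η : Env d | XF β m r (fun p => η p) ∉ Set.Icc (αf m) (γf m)} ≤
        ENNReal.ofReal ε₀ := by
      rw [ENNReal.le_ofReal_iff_toReal_le (measure_ne_top _ _) hε₀.le]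
      have hsub : {η : Env d | XF β m r (fun p => η p) ∉ Set.Icc (αf m) (γf m)} ⊆
          {η : Env d | XF β m r η < αf m} ∪ {η : Env d | γf m < XF β m r η} := by
        intro x hx
        have hx : ¬ (αf m ≤ XF β m r x ∧ XF β m r x ≤ γf m) := hx
        rw [not_and_or, not_le, not_le] at hx
        exact hx
      have h1 := (measureReal_mono (μ := law d ρ) hsub).trans (measureReal_union_le _ _)
      have h2 := hα1 m
      have h3 := hγ1 m
      change (law d ρ).real _ ≤ ε₀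
      linarith
    have h1 := (FreeV_iid (d := d) (ρ := ρ)).fluct_of hf (hne m hm hm2) (αf m) (γf m) hbad
    rw [Real.sqrt_mul (Nat.cast_nonneg m)] at h1
    have hsm : 0 < Real.sqrt m := Real.sqrt_pos.2 (by linarith)
    have h2 : Real.sqrt m * Real.sqrt m = m := Real.mul_self_sqrt (by linarith)
    obtain ⟨Kd, hKd⟩ : ∃ Kd : ℝ, Kd = Real.sqrt ((2 * (r : ℝ) + 1) ^ d) := ⟨_, rfl⟩
    rw [← hKd] at h1
    have h3 : Real.sqrt m * (c * Real.sqrt m) ≤ Real.sqrt m * ((γf m - αf m) * Kd) := by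
      calc Real.sqrt m * (c * Real.sqrt m) = c * (Real.sqrt m * Real.sqrt m) := by ring
        _ = c * m := by rw [h2]
        _ ≤ (γf m - αf m) * (Real.sqrt m * Kd) := h1
        _ = _ := by ring
    have h4 := le_of_mul_le_mul_left h3 hsm
    have h5 : Real.sqrt n ≤ Real.sqrt m := Real.sqrt_le_sqrt (by exact_mod_cast hm)
    have h6 : c * Real.sqrt n ≤ (γf m - αf m) * Kd := (mul_le_mul_of_nonneg_left h5 hc.le).trans h4
    have hKd0 : 0 < Kd := by
      rw [hKd]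
      exact Real.sqrt_pos.2 (by positivity)
    have hxd : 0 < Real.sqrt (((n : ℝ) ^ a) ^ d) := Real.sqrt_pos.2 (by positivity)
    have h7 : Kd ≤ Real.sqrt (B ^ d) * Real.sqrt (((n : ℝ) ^ a) ^ d) := by
      rw [hKd, ← Real.sqrt_mul (by positivity), ← mul_pow]
      exact Real.sqrt_le_sqrt (pow_le_pow_left₀ (by positivity) hrB d)
    have h8 : Real.sqrt n = Real.sqrt (((n : ℝ) ^ a) ^ d) * (n : ℝ) ^ a := by
      have e1 : (n : ℝ) = ((n : ℝ) ^ a) ^ d * ((n : ℝ) ^ a) ^ 2 := by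
        rw [← pow_add]
        exact hxn.symm
      rw [show Real.sqrt (n : ℝ) = Real.sqrt (((n : ℝ) ^ a) ^ d * ((n : ℝ) ^ a) ^ 2) by rw [← e1],
        Real.sqrt_mul (by positivity), Real.sqrt_sq (by positivity)]
    have h9 : 0 ≤ γf m - αf m := by
      by_contra hneg
      push Not at hneg
      have e1 : (γf m - αf m) * Kd < 0 := mul_neg_of_neg_of_pos hneg hKd0
      have e2 : 0 ≤ c * Real.sqrt n := mul_nonneg hc.le (Real.sqrt_nonneg _)
      linarith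
    have h10 : c * (Real.sqrt (((n : ℝ) ^ a) ^ d) * (n : ℝ) ^ a) ≤
        (γf m - αf m) * (Real.sqrt (B ^ d) * Real.sqrt (((n : ℝ) ^ a) ^ d)) := by
      rw [← h8]
      exact h6.trans (mul_le_mul_of_nonneg_left h7 h9)
    have h11 : Real.sqrt (((n : ℝ) ^ a) ^ d) * (c * (n : ℝ) ^ a) ≤
        Real.sqrt (((n : ℝ) ^ a) ^ d) * ((γf m - αf m) * Real.sqrt (B ^ d)) := by
      linarith
    have h12 := le_of_mul_le_mul_left h11 hxd
    rw [hc', div_mul_eq_mul_div, div_le_iff₀ hBd]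
    exact h12
  have fact2 : ∀ m : ℕ, n ≤ m → t + m ≤ 2 * n →
      (αf m - m * lam ρ β (0 : Vec d)) + c' / 2 * (n : ℝ) ^ a ≤
        αf (t + m) - ((t + m : ℕ) : ℝ) * lam ρ β (0 : Vec d) := by
    intro m hm hm2
    have h1 := fact1 m hm (by omega)
    have hα' : ε ≤ (law d ρ).real {η : Env d | V ρ β η (good d (t + m) r) ≤
        Real.exp (αf (t + m) - ((t + m : ℕ) : ℝ) * lam ρ β (0 : Vec d))} := by
      refine (hα2 (t + m)).trans (measureReal_mono fun η hη => ?_)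
      rw [Set.mem_ofPred_eq, CritB_V β η (hne (t + m) (by omega) hm2)]
      have hη : XF β (t + m) r η ≤ αf (t + m) := hη
      exact Real.exp_le_exp.2 (by linarith)
    have hγ' : ε ≤ (law d ρ).real {η : Env d | Real.exp (γf m - m * lam ρ β (0 : Vec d)) ≤
        V ρ β η (good d m r)} := by
      refine (hγ2 m).trans (measureReal_mono fun η hη => ?_)
      rw [Set.mem_ofPred_eq, CritB_V β η (hne m hm (by omega))]
      have hη : γf m ≤ XF β m r η := hη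
      exact Real.exp_le_exp.2 (by linarith)
    have h2 := crit_step (ρ := ρ) j0 β (t := t) (m := m) (r := r) (y := i * a') hi1 (hR (t + m) hm2) hε hδ2
      (hPol (t + m) (by omega)) hclimb hα' hγ'
    linarith
  have hind : ∀ j : ℕ, n + j * t ≤ 2 * n →
      (αf n - n * lam ρ β (0 : Vec d)) + j * (c' / 2 * (n : ℝ) ^ a) ≤
        αf (n + j * t) - ((n + j * t : ℕ) : ℝ) * lam ρ β (0 : Vec d) := by
    intro j
    induction j with
    | zero => intro _; simp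
    | succ j ih =>
      intro hj
      have e1 : n + (j + 1) * t = t + (n + j * t) := by ring
      rw [e1] at hj ⊢
      have h1 := ih (by omega)
      have h2 := fact2 (n + j * t) (by omega) hj
      push_cast at h1 h2 ⊢
      linarith
  obtain ⟨J, hJ⟩ : ∃ J : ℕ, J = n / t := ⟨_, rfl⟩
  have hJk : J * t ≤ n := by
    rw [hJ]
    exact Nat.div_mul_le_self n t
  have h1 := hind J (by omega)
  have h2 := hNu (n + J * t) (by omega) r (αf (n + J * t)) (hne (n + J * t) (by omega) (by omega))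
    (hα1 (n + J * t))
  have h3 := hNl n hnNl r _ (αf n) (hR n (by omega)) (hPol n le_rfl) (hα2 n)
  have hnJ : ((n + J * t : ℕ) : ℝ) ≤ 2 * n := by exact_mod_cast (show n + J * t ≤ 2 * n by omega)
  have h4 : θ * ((n + J * t : ℕ) : ℝ) ≤ θ * (2 * n) := mul_le_mul_of_nonneg_left hnJ hθ0.le
  have h5 : (J : ℝ) * (c' / 2 * (n : ℝ) ^ a) ≤ 3 * θ * n := by linarith
  have hn2 : (n : ℝ) ≤ 2 * t * J := by
    have hJ1 : 1 ≤ J := by
      rw [hJ]
      exact Nat.div_pos ht2 ht0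
    have h6 : n < t * (J + 1) := by
      rw [hJ]
      exact Nat.lt_mul_div_succ n ht0
    have h7 : n ≤ 2 * t * J := by nlinarith
    exact_mod_cast h7
  have h6 : (n : ℝ) * (c' / 2 * (n : ℝ) ^ a) ≤ (2 * t * J) * (c' / 2 * (n : ℝ) ^ a) :=
    mul_le_mul_of_nonneg_right hn2 (by positivity)
  have h7 : 2 * (t : ℝ) * ((J : ℝ) * (c' / 2 * (n : ℝ) ^ a)) ≤ 2 * t * (3 * θ * n) :=
    mul_le_mul_of_nonneg_left h5 (by positivity)
  have h8 : 2 * (t : ℝ) * (3 * θ * n) ≤ 2 * (B * L * (n : ℝ) ^ a) * (3 * θ * n) :=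
    mul_le_mul_of_nonneg_right (by linarith) (by positivity)
  have h9 : 2 * (B * L * (n : ℝ) ^ a) * (3 * θ * n) = (n : ℝ) * (3 / 16 * c' * (n : ℝ) ^ a) := by
    rw [hθ]
    field_simp
    ring
  have h10 : 0 < (n : ℝ) * (c' * (n : ℝ) ^ a) := by positivity
  nlinarith

end Pool.Agent.W_7d29a1_h3
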