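import Pool.Agent.W_7d29a1_h3.Wt

/-!
Decomposition at the first exit from a cube.
-/

namespace Pool.Agent.W_7d29a1_h3

open MeasureTheory ProbabilityTheory Filter Topology Pool.Agent.W_MP_7d29a1_pr
  Pool.Agent.W_7d29a1_h46 Pool.Agent.W_7d29a1_h46u

variable {d : ℕ} {ρ : Measure ℝ} {β : ℝ}

private theorem decA_wgt_pos (h : Vec d) (η : Env d) {n : ℕ} (s : Fin n → Step d) : 0 < wgt β h η s := by
  unfold wgt
  exact Real.exp_pos _

private theorem decA_ind (h : Vec d) (η : Env d) {n : ℕ} (E : Set (Fin n → Step d)) :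
    ZT β h η E = ∑ s : Fin n → Step d, Set.indicator E (fun s => wgt β h η s) s := by
  classical
  unfold ZT
  refine Finset.sum_congr rfl fun s _ => ?_
  by_cases hs : s ∈ E
  · rw [if_pos hs, Set.indicator_of_mem hs]
  · rw [if_neg hs, Set.indicator_of_notMem hs]

private theorem decA_ZT (η : Env d) {i k : ℕ} (p z : Site d) :
    ZT β 0 η {s : Fin (i + k) → Step d | pos s i = p ∧ pos s (i + k) = z} =
      ZT β 0 η (toP i p) * ZT β 0 (sh i p η) (toP k (z - p)) := by
  rw [decA_ind, decA_ind, decA_ind, sum_glue, Finset.sum_mul_sum]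
  refine Finset.sum_congr rfl fun s _ => Finset.sum_congr rfl fun q _ => ?_
  have hm : Fin.append s q ∈ {s : Fin (i + k) → Step d | pos s i = p ∧ pos s (i + k) = z} ↔
      s ∈ toP i p ∧ q ∈ toP k (z - p) := by
    unfold toP
    rw [Set.mem_ofPred_eq, Set.mem_ofPred_eq, Set.mem_ofPred_eq, pos_glue_le s q le_rfl,
      pos_glue_add s q k]
    constructor
    · rintro ⟨h1, h2⟩
      refine ⟨h1, ?_⟩
      rw [← h2, h1]
      abel
    · rintro ⟨h1, h2⟩
      refine ⟨h1, ?_⟩
      rw [h1, h2]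
      abel
  by_cases h1 : s ∈ toP i p
  · by_cases h2 : q ∈ toP k (z - p)
    · rw [Set.indicator_of_mem (hm.2 ⟨h1, h2⟩), Set.indicator_of_mem h1, Set.indicator_of_mem h2,
        wgt_glue]
      have h3 : pos s i = p := h1
      rw [h3]
    · rw [Set.indicator_of_notMem h2, mul_zero, Set.indicator_of_notMem fun h3 => h2 (hm.1 h3).2]
  · rw [Set.indicator_of_notMem h1, zero_mul, Set.indicator_of_notMem fun h3 => h1 (hm.1 h3).1]

private theorem decA_ZT_le (η : Env d) {n : ℕ} (E E' : Set (Fin n → Step d)) (I : Finset ℕ)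
    (J : Finset (Site d)) (F : ℕ → Site d → Set (Fin n → Step d))
    (h : ∀ s ∈ E, s ∈ E' ∨ ∃ i ∈ I, ∃ p ∈ J, s ∈ F i p) :
    ZT β 0 η E ≤ ZT β 0 η E' + ∑ i ∈ I, ∑ p ∈ J, ZT β 0 η (F i p) := by
  classical
  simp only [decA_ind]
  have h2 : ∑ i ∈ I, ∑ p ∈ J, ∑ s : Fin n → Step d, Set.indicator (F i p) (fun s => wgt β 0 η s) s =
      ∑ s : Fin n → Step d, ∑ i ∈ I, ∑ p ∈ J, Set.indicator (F i p) (fun s => wgt β 0 η s) s := by
    rw [Finset.sum_congr rfl fun i _ => Finset.sum_comm, Finset.sum_comm]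
  rw [h2, ← Finset.sum_add_distrib]
  refine Finset.sum_le_sum fun s _ => ?_
  have hw : ∀ G : Set (Fin n → Step d), 0 ≤ Set.indicator G (fun s => wgt β 0 η s) s := fun G =>
    Set.indicator_nonneg (fun s _ => (decA_wgt_pos (0 : Vec d) η s).le) s
  have hnn : ∀ i ∈ I, (0 : ℝ) ≤ ∑ p ∈ J, Set.indicator (F i p) (fun s => wgt β 0 η s) s :=
    fun i _ => Finset.sum_nonneg fun p _ => hw _
  by_cases hs : s ∈ E
  · rw [Set.indicator_of_mem hs]
    rcases h s hs with h' | ⟨i, hi, p, hp, h'⟩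
    · rw [Set.indicator_of_mem h']
      have := Finset.sum_nonneg hnn
      linarith
    · have h3 := Finset.single_le_sum (f := fun p => Set.indicator (F i p) (fun s => wgt β 0 η s) s)
        (fun p _ => hw _) hp
      rw [Set.indicator_of_mem h'] at h3
      have h5 := Finset.single_le_sum hnn hi
      have h6 := hw E'
      linarith
  · rw [Set.indicator_of_notMem hs]
    exact add_nonneg (hw _) (Finset.sum_nonneg hnn)

/-- TASK Dec1. The weight of the walks through `p` at time `i` is the product. -/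
theorem V_through (η : Env d) {i n : ℕ} (hi : i ≤ n) (p z : Site d) :
    V ρ β η {s : Fin n → Step d | pos s i = p ∧ pos s n = z} =
      Vp ρ β η i p * Vp ρ β (sh i p η) (n - i) (z - p) := by
  obtain ⟨k, rfl⟩ := Nat.exists_eq_add_of_le hi
  rw [Nat.add_sub_cancel_left]
  unfold Vp V
  rw [decA_ZT]
  have h1 : Real.exp (-(((i + k : ℕ) : ℝ) * lam ρ β (0 : Vec d))) =
      Real.exp (-((i : ℝ) * lam ρ β (0 : Vec d))) * Real.exp (-((k : ℝ) * lam ρ β (0 : Vec d))) := by
    rw [← Real.exp_add]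
    congr 1
    push_cast
    ring
  rw [h1]
  ring

private theorem decA_pos_zero {n : ℕ} (s : Fin n → Step d) : pos s 0 = 0 := by
  unfold pos
  simp

private theorem decA_sn_zero : sn (0 : Site d) = 0 := by
  unfold sn
  simp

private theorem decA_sn_vec (e : Step d) : sn (vec e) ≤ 1 := by
  rw [sn_le_iff]
  intro j
  unfold vec
  by_cases h : j = e.1
  · subst h
    rw [Pi.single_eq_same]
    split_ifs <;> simp
  · rw [Pi.single_eq_of_ne h]
    simp

private theorem decA_pos_succ {n : ℕ} (s : Fin n → Step d) {i : ℕ} (hi : i < n) :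
    pos s (i + 1) = pos s i + vec (s ⟨i, hi⟩) := by
  unfold pos
  have h1 : ∀ l : Fin n, (if (l : ℕ) < i + 1 then vec (s l) else 0) =
      (if (l : ℕ) < i then vec (s l) else 0) + (if l = (⟨i, hi⟩ : Fin n) then vec (s l) else 0) := by
    intro l
    rcases lt_trichotomy (l : ℕ) i with h | h | h
    · rw [if_pos (by omega), if_pos h, if_neg, add_zero]
      intro h2
      rw [h2] at h
      simp at h
    · rw [if_pos (by omega), if_neg (by omega), if_pos (Fin.ext h), zero_add]
    · rw [if_neg (by omega), if_neg (by omega), if_neg, add_zero]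
      intro h2
      rw [h2] at h
      simp at h
  rw [Finset.sum_congr rfl fun l _ => h1 l, Finset.sum_add_distrib]
  congr 1
  rw [Finset.sum_ite_eq']
  simp

/-- A walk which leaves the cube visits a point with `sn = S + 1`. -/
private theorem decA_exit {n S : ℕ} (s : Fin n → Step d) (h : ¬ ∀ i ≤ n, sn (pos s i) ≤ S) :
    ∃ i ≤ n, sn (pos s i) = S + 1 := by
  classical
  push Not at h
  have hex : ∃ i, i ≤ n ∧ S < sn (pos s i) := h
  obtain ⟨h1, h2⟩ := Nat.find_spec hex
  set i := Nat.find hex with hi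
  refine ⟨i, h1, ?_⟩
  have h0 : i ≠ 0 := by
    intro h0
    rw [h0, decA_pos_zero, decA_sn_zero] at h2
    omega
  obtain ⟨k, hk⟩ : ∃ k, i = k + 1 := ⟨i - 1, by omega⟩
  have hkn : k < n := by omega
  have h3 : ¬ (k ≤ n ∧ S < sn (pos s k)) := Nat.find_min hex (by omega)
  have h4 : sn (pos s k) ≤ S := by
    by_contra hc
    exact h3 ⟨by omega, by omega⟩
  have h5 := sn_add (pos s k) (vec (s ⟨k, hkn⟩))
  rw [← decA_pos_succ s hkn, ← hk] at h5
  have h6 := decA_sn_vec (s ⟨k, hkn⟩)
  omega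

/-- TASK Dec2. A walk which leaves the cube visits a point with `sn p = S + 1` (each step changes `sn` by at
most `1`). -/
theorem exit_le (η : Env d) (n S : ℕ) (z : Site d) :
    Vp ρ β η n z ≤ V ρ β η (stP n S z) + ∑ i ∈ Finset.range (n + 1),
      ∑ p ∈ (boxF d n).filter (fun p => sn p = S + 1),
        Vp ρ β η i p * Vp ρ β (sh i p η) (n - i) (z - p) := by
  classical
  have h1 : ∑ i ∈ Finset.range (n + 1), ∑ p ∈ (boxF d n).filter (fun p => sn p = S + 1),
        Vp ρ β η i p * Vp ρ β (sh i p η) (n - i) (z - p) =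
      ∑ i ∈ Finset.range (n + 1), ∑ p ∈ (boxF d n).filter (fun p => sn p = S + 1),
        V ρ β η {s : Fin n → Step d | pos s i = p ∧ pos s n = z} := by
    refine Finset.sum_congr rfl fun i hi => Finset.sum_congr rfl fun p _ => ?_
    rw [Finset.mem_range] at hi
    rw [V_through η (by omega) p z]
  rw [h1]
  unfold Vp V
  simp only [← Finset.mul_sum]
  rw [← mul_add]
  refine mul_le_mul_of_nonneg_left ?_ (Real.exp_pos _).le
  refine decA_ZT_le η _ _ _ _ (fun i p => {s : Fin n → Step d | pos s i = p ∧ pos s n = z}) ?_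
  intro s hz
  by_cases hs : ∀ i ≤ n, sn (pos s i) ≤ S
  · exact Or.inl ⟨hs, hz⟩
  · obtain ⟨i, hi, hsi⟩ := decA_exit s hs
    exact Or.inr ⟨i, Finset.mem_range.2 (Nat.lt_succ_of_le hi), pos s i,
      Finset.mem_filter.2 ⟨pos_mem_box s i, hsi⟩, rfl, hz⟩

/-- If the strip has at most half of the weight, some exit point has a large product. -/
theorem exit_exists (j0 : Fin d) (η : Env d) {n S : ℕ} {z : Site d} (hz : adm n z)
    (h : V ρ β η (stP n S z) ≤ 1 / 2 * Vp ρ β η n z) :
    ∃ i ≤ n, ∃ p : Site d, sn p = S + 1 ∧ Vp ρ β η n z ≤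
      2 * ((n : ℝ) + 1) * (2 * (n : ℝ) + 1) ^ d *
        (Vp ρ β η i p * Vp ρ β (sh i p η) (n - i) (z - p)) := by
  classical
  by_contra hc
  push Not at hc
  have h0 := exit_le (ρ := ρ) (β := β) η n S z
  have hV := Vp_pos (ρ := ρ) (β := β) j0 η hz
  set v := Vp ρ β η n z with hv
  have hn1 : (0 : ℝ) < (n : ℝ) + 1 := by positivity
  have hn2 : (0 : ℝ) < (2 * (n : ℝ) + 1) ^ d := by positivity
  set c : ℝ := v / (2 * ((n : ℝ) + 1) * (2 * (n : ℝ) + 1) ^ d) with hcd
  have hc0 : 0 < c := by positivity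
  have h1 : ∀ i ∈ Finset.range (n + 1), ∑ p ∈ (boxF d n).filter (fun p => sn p = S + 1),
      Vp ρ β η i p * Vp ρ β (sh i p η) (n - i) (z - p) < (2 * (n : ℝ) + 1) ^ d * c := by
    intro i hi
    rw [Finset.mem_range] at hi
    rcases ((boxF d n).filter (fun p => sn p = S + 1)).eq_empty_or_nonempty with he | hne
    · rw [he, Finset.sum_empty]
      positivity
    · have h2 : ∑ p ∈ (boxF d n).filter (fun p => sn p = S + 1),
          Vp ρ β η i p * Vp ρ β (sh i p η) (n - i) (z - p) <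
          ∑ p ∈ (boxF d n).filter (fun p => sn p = S + 1), c := by
        refine Finset.sum_lt_sum_of_nonempty hne fun p hp => ?_
        rw [Finset.mem_filter] at hp
        have h3 := hc i (by omega) p hp.2
        rw [hcd, lt_div_iff₀ (by positivity)]
        linarith
      refine h2.trans_le ?_
      rw [Finset.sum_const, nsmul_eq_mul]
      refine mul_le_mul_of_nonneg_right ?_ hc0.le
      have h4 : ((boxF d n).filter (fun p => sn p = S + 1)).card ≤ (boxF d n).card :=
        Finset.card_filter_le _ _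
      rw [card_boxF] at h4
      exact_mod_cast h4
  have h2 : ∑ i ∈ Finset.range (n + 1), ∑ p ∈ (boxF d n).filter (fun p => sn p = S + 1),
      Vp ρ β η i p * Vp ρ β (sh i p η) (n - i) (z - p) <
      ∑ i ∈ Finset.range (n + 1), (2 * (n : ℝ) + 1) ^ d * c :=
    Finset.sum_lt_sum_of_nonempty ⟨0, by simp⟩ h1
  rw [Finset.sum_const, Finset.card_range, nsmul_eq_mul] at h2
  have h3 : ((n + 1 : ℕ) : ℝ) * ((2 * (n : ℝ) + 1) ^ d * c) = 1 / 2 * v := by
    rw [hcd]
    push_cast
    field_simp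
  linarith

end Pool.Agent.W_7d29a1_h3
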