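import Pool.Agent.W_7d29a1_h3.Wt
import Pool.Agent.W_7d29a1_h3.DecA

/-!
Decomposition into equal blocks.
-/

namespace Pool.Agent.W_7d29a1_h3

open MeasureTheory ProbabilityTheory Filter Topology Pool.Agent.W_MP_7d29a1_pr
  Pool.Agent.W_7d29a1_h46 Pool.Agent.W_7d29a1_h46u

variable {d : ℕ} {ρ : Measure ℝ} {β : ℝ}

private theorem DecB_ind (h : Vec d) (η : Env d) {n : ℕ} (E : Set (Fin n → Step d)) :
    ZT β h η E = ∑ s : Fin n → Step d, Set.indicator E (fun s => wgt β h η s) s := by
  classical
  unfold ZT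
  refine Finset.sum_congr rfl fun s _ => ?_
  by_cases hs : s ∈ E
  · rw [if_pos hs, Set.indicator_of_mem hs]
  · rw [if_neg hs, Set.indicator_of_notMem hs]

/-- The weight of the walk of length `0`. -/
private theorem DecB_zero (η : Env d) {k : ℕ} (hk : k = 0) (y : Site d) : Vp ρ β η k y ≤ 1 := by
  subst hk
  unfold Vp V
  rw [DecB_ind]
  have h1 : ∀ s : Fin 0 → Step d, Set.indicator (toP 0 y) (fun s => wgt β (0 : Vec d) η s) s ≤ 1 := by
    intro s
    have h2 : wgt β (0 : Vec d) η s = 1 := by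
      unfold wgt energy
      simp
    by_cases hs : s ∈ toP 0 y
    · rw [Set.indicator_of_mem hs, h2]
    · rw [Set.indicator_of_notMem hs]
      exact zero_le_one
  have h3 : ∑ s : Fin 0 → Step d, Set.indicator (toP 0 y) (fun s => wgt β (0 : Vec d) η s) s ≤ 1 := by
    refine (Finset.sum_le_sum fun s _ => h1 s).trans ?_
    simp
  have h4 : Real.exp (-(((0 : ℕ) : ℝ) * lam ρ β (0 : Vec d))) = 1 := by simp
  rw [h4, one_mul]
  exact h3

/-- The weight of the walks to `z`, split over the position at time `i`. -/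
private theorem DecB_sum (η : Env d) {i n : ℕ} (hi : i ≤ n) (z : Site d) :
    Vp ρ β η n z ≤ ∑ p ∈ boxF d n, Vp ρ β η i p * Vp ρ β (sh i p η) (n - i) (z - p) := by
  have h1 : ∀ p : Site d, Vp ρ β η i p * Vp ρ β (sh i p η) (n - i) (z - p) =
      V ρ β η {s : Fin n → Step d | pos s i = p ∧ pos s n = z} := fun p =>
    (V_through η hi p z).symm
  simp only [h1]
  unfold Vp V
  rw [← Finset.mul_sum]
  refine mul_le_mul_of_nonneg_left ?_ (Real.exp_pos _).le
  simp only [DecB_ind]
  rw [Finset.sum_comm]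
  refine Finset.sum_le_sum fun s _ => ?_
  have h2 : 0 < wgt β (0 : Vec d) η s := by
    unfold wgt
    exact Real.exp_pos _
  have hw : ∀ G : Set (Fin n → Step d), 0 ≤ Set.indicator G (fun s => wgt β (0 : Vec d) η s) s := by
    intro G
    by_cases hs : s ∈ G
    · rw [Set.indicator_of_mem hs]
      exact h2.le
    · rw [Set.indicator_of_notMem hs]
  by_cases hs : s ∈ toP n z
  · rw [Set.indicator_of_mem hs]
    have h5 : s ∈ {s' : Fin n → Step d | pos s' i = pos s i ∧ pos s' n = z} := ⟨rfl, hs⟩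
    have h4 := Finset.single_le_sum (f := fun p => Set.indicator
      {s' : Fin n → Step d | pos s' i = p ∧ pos s' n = z} (fun s => wgt β (0 : Vec d) η s) s)
      (fun p _ => hw _) (pos_mem_box s i)
    simp only [Set.indicator_of_mem h5] at h4
    exact h4
  · rw [Set.indicator_of_notMem hs]
    exact Finset.sum_nonneg fun p _ => hw _

/-- Some position at time `i` has a large product. -/
private theorem DecB_max (η : Env d) {i n : ℕ} (hi : i ≤ n) (z : Site d) :
    ∃ p : Site d, Vp ρ β η n z ≤ (2 * ((n : ℕ) : ℝ) + 1) ^ d *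
      (Vp ρ β η i p * Vp ρ β (sh i p η) (n - i) (z - p)) := by
  obtain ⟨p, -, hp⟩ := Finset.exists_max_image (boxF d n)
    (fun p => Vp ρ β η i p * Vp ρ β (sh i p η) (n - i) (z - p)) ⟨0, zero_mem_boxF n⟩
  refine ⟨p, (DecB_sum η hi z).trans ?_⟩
  refine (Finset.sum_le_card_nsmul _ _ _ hp).trans (le_of_eq ?_)
  rw [card_boxF, nsmul_eq_mul]
  push_cast
  ring

/-- TASK Dec3. Blocks of length `N`: some sequence of positions has a large product. Induction on `m`
(`Vp (m N + N) y = ∑_x Vp (m N) x * Vp (sh (m N) x) N (y - x)`, at most `(2 (m N) + 1) ^ d` points `x`). -/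
theorem block_exists (j0 : Fin d) (η : Env d) (N m : ℕ) {y : Site d} (hy : adm (m * N) y) :
    ∃ x : ℕ → Site d, x 0 = 0 ∧ x m = y ∧ (∀ i < m, adm N (x (i + 1) - x i)) ∧
      Vp ρ β η (m * N) y ≤ ((2 * ((m * N : ℕ) : ℝ) + 1) ^ d) ^ m *
        ∏ i ∈ Finset.range m, Vp ρ β (sh (i * N) (x i) η) N (x (i + 1) - x i) := by
  induction m generalizing y with
  | zero =>
    have h1 : y = 0 := by
      have h2 : ln y = 0 := by
        have := hy.1
        rw [Nat.zero_mul] at this
        exact Nat.le_zero.1 this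
      exact Cat_eq_zero h2
    refine ⟨fun _ => 0, rfl, h1.symm, fun i hi => absurd hi (Nat.not_lt_zero i), ?_⟩
    rw [Finset.range_zero, Finset.prod_empty, pow_zero, mul_one]
    exact DecB_zero η (Nat.zero_mul N) y
  | succ m ih =>
    have hN : (m + 1) * N = m * N + N := by ring
    obtain ⟨p, hp⟩ := DecB_max η (i := m * N) (n := (m + 1) * N) (by rw [hN]; exact Nat.le_add_right _ _) y
    have hsub : (m + 1) * N - m * N = N := by rw [hN]; exact Nat.add_sub_cancel_left _ _
    rw [hsub] at hp
    have hpos : 0 < Vp ρ β η ((m + 1) * N) y := Vp_pos j0 η hy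
    have ha1 : adm (m * N) p := by
      by_contra hcon
      rw [Vp_zero j0 η hcon, zero_mul, mul_zero] at hp
      linarith
    have ha2 : adm N (y - p) := by
      by_contra hcon
      rw [Vp_zero j0 _ hcon, mul_zero, mul_zero] at hp
      linarith
    obtain ⟨x, hx0, hxm, hadm, hx⟩ := ih ha1
    refine ⟨fun i => if i ≤ m then x i else y, ?_, ?_, ?_, ?_⟩
    · show (if 0 ≤ m then x 0 else y) = 0
      rw [if_pos (Nat.zero_le m)]
      exact hx0
    · show (if m + 1 ≤ m then x (m + 1) else y) = y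
      rw [if_neg (by omega)]
    · intro i hi
      show adm N ((if i + 1 ≤ m then x (i + 1) else y) - (if i ≤ m then x i else y))
      rw [if_pos (show i ≤ m by omega)]
      by_cases him : i + 1 ≤ m
      · rw [if_pos him]
        exact hadm i (by omega)
      · rw [if_neg him]
        have h1 : i = m := by omega
        rw [h1, hxm]
        exact ha2
    · rw [Finset.prod_range_succ]
      have h1 : ∀ i ∈ Finset.range m,
          Vp ρ β (sh (i * N) (if i ≤ m then x i else y) η) N
            ((if i + 1 ≤ m then x (i + 1) else y) - (if i ≤ m then x i else y)) =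
          Vp ρ β (sh (i * N) (x i) η) N (x (i + 1) - x i) := by
        intro i hi
        have hi' := Finset.mem_range.1 hi
        rw [if_pos (show i ≤ m by omega), if_pos (show i + 1 ≤ m by omega)]
      simp only [Finset.prod_congr rfl h1, if_pos (le_refl m), if_neg (show ¬ m + 1 ≤ m by omega), hxm]
      set Pm : ℝ := ∏ i ∈ Finset.range m, Vp ρ β (sh (i * N) (x i) η) N (x (i + 1) - x i) with hPm
      have hP0 : 0 ≤ Pm := Finset.prod_nonneg fun i _ => V_nonneg _ _
      have hq0 : 0 ≤ Vp ρ β (sh (m * N) p η) N (y - p) := V_nonneg _ _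
      set c : ℝ := (2 * (((m + 1) * N : ℕ) : ℝ) + 1) ^ d with hc
      set c' : ℝ := (2 * ((m * N : ℕ) : ℝ) + 1) ^ d with hc'
      have hcc : c' ≤ c := by
        refine pow_le_pow_left₀ (by positivity) ?_ d
        have h2 : ((m * N : ℕ) : ℝ) ≤ (((m + 1) * N : ℕ) : ℝ) := by
          rw [hN]
          exact_mod_cast Nat.le_add_right _ _
        linarith
      have hc0 : 0 ≤ c' := by positivity
      have hc1 : 0 ≤ c := by positivity
      calc Vp ρ β η ((m + 1) * N) y
          ≤ c * (Vp ρ β η (m * N) p * Vp ρ β (sh (m * N) p η) N (y - p)) := hp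
        _ ≤ c * (c' ^ m * Pm * Vp ρ β (sh (m * N) p η) N (y - p)) :=
          mul_le_mul_of_nonneg_left (mul_le_mul_of_nonneg_right hx hq0) hc1
        _ ≤ c * (c ^ m * Pm * Vp ρ β (sh (m * N) p η) N (y - p)) := by
          refine mul_le_mul_of_nonneg_left (mul_le_mul_of_nonneg_right
            (mul_le_mul_of_nonneg_right (pow_le_pow_left₀ hc0 hcc m) hP0) hq0) hc1
        _ = c ^ (m + 1) * (Pm * Vp ρ β (sh (m * N) p η) N (y - p)) := by ring

end Pool.Agent.W_7d29a1_h3
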