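import Pool.Agent.W_7d29a1_h46u.RateU
import Pool.Agent.W_7d29a1_h46u.StrU
import Pool.Agent.W_7d29a1_h46.Flu

/-!
Directed polymers in all dimensions: no corner at zero tilt. Definitions. The paper proof is row 587
of the table `proofs`.

`V ρ β η E` is the partition function of the set `E` of walks of length `n`, normalised by
`exp (n lam 0)`; `-log V` is `T^E` of the paper. The event `T^E ≤ x` is always written as
`exp (-x) ≤ V ρ β η E` (so that the empty set makes no trouble).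
-/

namespace Pool.Agent.W_7d29a1_h3

open MeasureTheory ProbabilityTheory Filter Topology Pool.Agent.W_MP_7d29a1_pr
  Pool.Agent.W_7d29a1_h46 Pool.Agent.W_7d29a1_h46u

/-- The sup norm. -/
def sn {d : ℕ} (x : Site d) : ℕ := Finset.univ.sup fun j => (x j).natAbs

/-- The `l1` norm. -/
def ln {d : ℕ} (x : Site d) : ℕ := ∑ j, (x j).natAbs

/-- The site `y` can be reached in exactly `n` steps. -/
def adm {d : ℕ} (n : ℕ) (y : Site d) : Prop := ln y ≤ n ∧ (ln y + n) % 2 = 0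

/-- The walks of length `n` from `0` to `y`. -/
def toP {d : ℕ} (n : ℕ) (y : Site d) : Set (Fin n → Step d) := {s | pos s n = y}

/-- The walks of length `n` from `0` to `y` which stay in the cube `sn ≤ S`. -/
def stP {d : ℕ} (n S : ℕ) (y : Site d) : Set (Fin n → Step d) :=
  {s | (∀ i ≤ n, sn (pos s i) ≤ S) ∧ pos s n = y}

/-- The normalised weight of a set of walks. -/
noncomputable def V {d : ℕ} (ρ : Measure ℝ) (β : ℝ) (η : Env d) {n : ℕ}
    (E : Set (Fin n → Step d)) : ℝ :=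
  Real.exp (-(n * lam ρ β (0 : Vec d))) * ZT β 0 η E

/-- The normalised point to point weight. -/
noncomputable def Vp {d : ℕ} (ρ : Measure ℝ) (β : ℝ) (η : Env d) (n : ℕ) (y : Site d) : ℝ :=
  V ρ β η (toP n y)

/-- `H_h(n) = n lam 0 - log Z_n(h)`, the point to level 'passage time' with tilt `h`. -/
noncomputable def HH {d : ℕ} (ρ : Measure ℝ) (β : ℝ) (h : Vec d) (η : Env d) (n : ℕ) : ℝ :=
  n * lam ρ β (0 : Vec d) - X β h η n

/-- The mean of `- log V` (to be used for nonempty sets). -/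
noncomputable def gE {d : ℕ} (ρ : Measure ℝ) (β : ℝ) {n : ℕ} (E : Set (Fin n → Step d)) : ℝ :=
  ∫ η, -Real.log (V ρ β η E) ∂(law d ρ)

/-- The mean of the point to point passage time. -/
noncomputable def g {d : ℕ} (ρ : Measure ℝ) (β : ℝ) (n : ℕ) (y : Site d) : ℝ := gE ρ β (toP n y)

/-- The lattice unit vector. -/
def es {d : ℕ} (j : Fin d) : Site d := Pi.single j 1

/-- The coordinate tilts `± κ e_j`. -/
noncomputable def tl {d : ℕ} (κ : ℝ) (j : Fin d) (s : Bool) : Vec d :=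
  (if s then κ else -κ) • ej j

/-- The negation of the theorem, in the form in which it is used: `lam` is constant exactly up to
`κ > 0` on the coordinate axes. -/
structure Setup (d : ℕ) (ρ : Measure ℝ) (β κ : ℝ) : Prop where
  em : EM ρ
  nc : ∀ c : ℝ, ρ {c} ≠ 1
  βpos : 0 < β
  κpos : 0 < κ
  flat : ∀ (j : Fin d) (t : ℝ), |t| ≤ κ → lam ρ β (t • ej j) = lam ρ β (0 : Vec d)
  steep : ∀ (j : Fin d) (t : ℝ), κ < t → lam ρ β (0 : Vec d) < lam ρ β (t • ej j)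

/-- `D1 N = max_{l ≤ N} E (H_h(l))_+`. -/
noncomputable def D1 {d : ℕ} (ρ : Measure ℝ) (β : ℝ) (h : Vec d) (N : ℕ) : ℝ :=
  (Finset.range (N + 1)).sup' ⟨0, by simp⟩ fun l => ∫ η, max (HH ρ β h η l) 0 ∂(law d ρ)

/-- `D2 N = max_{l ≤ N} (E (H_h(l))_+ ^ 2) ^ (1/2)`. -/
noncomputable def D2 {d : ℕ} (ρ : Measure ℝ) (β : ℝ) (h : Vec d) (N : ℕ) : ℝ :=
  (Finset.range (N + 1)).sup' ⟨0, by simp⟩ fun l =>
    Real.sqrt (∫ η, max (HH ρ β h η l) 0 ^ 2 ∂(law d ρ))

open Classical in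
/-- An upper quantile of `T(2 r, 0)`: see `Q_spec`. -/
noncomputable def Q (d : ℕ) (ρ : Measure ℝ) (β q : ℝ) (r : ℕ) : ℝ :=
  Classical.epsilon fun x : ℝ =>
    (law d ρ).real {η : Env d | ¬ Real.exp (-x) ≤ Vp ρ β η (2 * r) 0} ≤ q ∧
      q ≤ (law d ρ).real {η : Env d | Vp ρ β η (2 * r) 0 ≤ Real.exp (-x)}

/-- `b(n) = max (1, max_{r ≤ n} Q r)`. -/
noncomputable def bb (d : ℕ) (ρ : Measure ℝ) (β q : ℝ) (n : ℕ) : ℝ :=
  (Finset.range (n + 1)).sup' ⟨0, by simp⟩ fun r => max 1 (Q d ρ β q r)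

/-- The strip width `ξ(n)`. -/
noncomputable def xi (d : ℕ) (ρ : Measure ℝ) (β q : ℝ) (n : ℕ) : ℕ :=
  sInf {Y : ℕ | ∀ r ≤ n, (law d ρ).real {η : Env d | ¬ Real.exp (-(bb d ρ β q n + 1)) ≤
    V ρ β η (stP (2 * r) Y 0)} ≤ 2 * q}

/-- The exponent `c0 = 1 / (2 d + 4)`. -/
noncomputable def c0 (d : ℕ) : ℝ := 1 / (2 * (d : ℝ) + 4)

/-- `ξ' = max (ξ, n ^ c0)`. -/
noncomputable def xi' (d : ℕ) (ρ : Measure ℝ) (β q : ℝ) (n : ℕ) : ℝ :=
  max (xi d ρ β q n : ℝ) ((n : ℝ) ^ c0 d)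

end Pool.Agent.W_7d29a1_h3
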