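import Pool.Agent.W_7d29a1_h3.QuantA
import Pool.Agent.W_7d29a1_h3.Ind

/-!
Section 4: independent lanes.
-/

namespace Pool.Agent.W_7d29a1_h3

open MeasureTheory ProbabilityTheory Filter Topology Pool.Agent.W_MP_7d29a1_pr
  Pool.Agent.W_7d29a1_h46 Pool.Agent.W_7d29a1_h46u

variable {d : ℕ} {ρ : Measure ℝ} [IsProbabilityMeasure ρ]

private lemma LaneA_es (j0 : Fin d) (z : ℤ) : (z • es j0 : Site d) j0 = z := by
  simp [es]

private lemma LaneA_inner (j0 : Fin d) (κ : ℝ) (y : ℕ) :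
    inner ℝ (tl κ j0 true) (emb (((y : ℤ) • es j0 : Site d))) = κ * y := by
  unfold tl ej emb
  rw [if_pos rfl, inner_smul_left]
  simp [EuclideanSpace.inner_single_left, es]

/-- TASK Lane1. `J` independent lanes of width `S` at the positions `y_j = j w a e_j0`, lane `j` used in the time
interval `(t_j, l]`, `t_j = j w L ≤ l`, `l - t_j = 2 r_j` with `r_j ≤ n`: the probability that all fail is at most
`(2 q) ^ J`. `indep_events` with `S j = {p | t_j < p.1 ∧ p.1 ≤ l ∧ sn (p.2 - y_j) ≤ S}` (`dep_st_sh`), disjoint as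
`y_(j+1) - y_j = w a ≥ 2 S + 2`; each factor is `≤ 2 q` by `real_sh` and the hypothesis. -/
theorem lanes_fail (j0 : Fin d) (β : ℝ) {q B : ℝ} {n S J w a L l : ℕ} (hwa : 2 * S + 2 ≤ w * a)
    (hS : ∀ r ≤ n, (law d ρ).real {η : Env d | ¬ Real.exp (-B) ≤ V ρ β η (stP (2 * r) S 0)} ≤ 2 * q)
    (hL : Even L) (hl : Even l) (hln : l ≤ 2 * n) (hJ : ∀ j < J, j * w * L ≤ l) :
    (law d ρ).real {η : Env d | ∀ j < J, ¬ Real.exp (-B) ≤
      V ρ β (sh (j * w * L) (((j * w * a : ℕ) : ℤ) • es j0) η) (stP (l - j * w * L) S 0)} ≤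
      (2 * q) ^ J := by
  classical
  let A : ℕ → Set (Env d) := fun j => {η | ¬ Real.exp (-B) ≤
    V ρ β (sh (j * w * L) (((j * w * a : ℕ) : ℤ) • es j0) η) (stP (l - j * w * L) S 0)}
  let T : ℕ → Set (ℕ × Site d) := fun j => {p | j * w * L < p.1 ∧
    p.1 ≤ j * w * L + (l - j * w * L) ∧ sn (p.2 - ((j * w * a : ℕ) : ℤ) • es j0) ≤ S}
  have hset : {η : Env d | ∀ j < J, ¬ Real.exp (-B) ≤
      V ρ β (sh (j * w * L) (((j * w * a : ℕ) : ℤ) • es j0) η) (stP (l - j * w * L) S 0)} =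
      {η | ∀ j ∈ Finset.range J, η ∈ A j} := by
    ext η
    constructor
    · intro h j hj
      exact h j (Finset.mem_range.1 hj)
    · intro h j hj
      exact h j (Finset.mem_range.2 hj)
  have hm0 : ∀ m : ℕ, MeasurableSet {η : Env d | ¬ Real.exp (-B) ≤ V ρ β η (stP m S 0)} := by
    intro m
    exact (measurableSet_le measurable_const (measurable_V _)).compl
  have hm : ∀ j ∈ Finset.range J, MeasurableSet (A j) := by
    intro j _
    exact measurable_sh (j * w * L) (((j * w * a : ℕ) : ℤ) • es j0) (hm0 (l - j * w * L))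
  have hdep : ∀ j ∈ Finset.range J, ∀ η η' : Env d, (∀ p ∈ T j, η p = η' p) →
      (η ∈ A j ↔ η' ∈ A j) := by
    intro j _ η η' h
    have h1 := dep_st_sh (ρ := ρ) (β := β) (j * w * L) (((j * w * a : ℕ) : ℤ) • es j0)
      (l - j * w * L) S (0 : Site d) h
    show (¬ Real.exp (-B) ≤ V ρ β (sh (j * w * L) (((j * w * a : ℕ) : ℤ) • es j0) η)
      (stP (l - j * w * L) S 0)) ↔ (¬ Real.exp (-B) ≤ V ρ β (sh (j * w * L)
      (((j * w * a : ℕ) : ℤ) • es j0) η') (stP (l - j * w * L) S 0))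
    simp only at h1
    rw [h1]
  have hdisj : ∀ i ∈ Finset.range J, ∀ j ∈ Finset.range J, i ≠ j → Disjoint (T i) (T j) := by
    intro i _ j _ hij
    rw [Set.disjoint_left]
    rintro p ⟨-, -, hi⟩ ⟨-, -, hj⟩
    rw [sn_le_iff] at hi hj
    have h1 := hi j0
    have h2 := hj j0
    rw [Pi.sub_apply, LaneA_es] at h1 h2
    have h3 : |((i * w * a : ℕ) : ℤ) - ((j * w * a : ℕ) : ℤ)| ≤ 2 * S := by
      rw [abs_le] at h1 h2 ⊢
      constructor <;> linarith
    have h4 : ∀ i j : ℕ, i < j → 2 * S + 2 ≤ j * w * a - i * w * a := by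
      intro i j h
      have h5 : (i + 1) * (w * a) ≤ j * (w * a) := Nat.mul_le_mul_right _ h
      have h6 : (i + 1) * (w * a) = i * (w * a) + w * a := by ring
      have h7 : j * w * a = j * (w * a) := by ring
      have h8 : i * w * a = i * (w * a) := by ring
      omega
    rcases lt_or_gt_of_ne hij with h | h
    · have h5 := h4 i j h
      rw [abs_le] at h3
      omega
    · have h5 := h4 j i h
      rw [abs_le] at h3
      omega
  rw [hset, indep_events (ρ := ρ) (Finset.range J) A T hm hdep hdisj]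
  have hle : ∀ j ∈ Finset.range J, (law d ρ).real (A j) ≤ 2 * q := by
    intro j hj
    have h1 : (law d ρ).real (A j) =
        (law d ρ).real {η : Env d | ¬ Real.exp (-B) ≤ V ρ β η (stP (l - j * w * L) S 0)} :=
      real_sh (ρ := ρ) (j * w * L) (((j * w * a : ℕ) : ℤ) • es j0) (hm0 (l - j * w * L))
    obtain ⟨r, hr⟩ : Even (l - j * w * L) := hl.tsub (hL.mul_left (j * w))
    have h2 : l - j * w * L = 2 * r := by omega
    rw [h1, h2]
    exact hS r (by omega)
  calc ∏ j ∈ Finset.range J, (law d ρ).real (A j) ≤ ∏ _j ∈ Finset.range J, (2 * q) :=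
        Finset.prod_le_prod (fun j _ => measureReal_nonneg) hle
    _ = (2 * q) ^ J := by rw [Finset.prod_const, Finset.card_range]

/-- TASK Lane2. The cost of lane `j` (deterministic): climb to `y_j`, then the lane. -/
theorem lane_cost (j0 : Fin d) {β κ : ℝ} (η : Env d) {t l S y : ℕ} (ht : t ≤ l) {u B : ℝ}
    (hclimb : Real.exp (-(κ * y + u)) ≤ Vp ρ β η t ((y : ℤ) • es j0))
    (hlane : Real.exp (-B) ≤ V ρ β (sh t ((y : ℤ) • es j0) η) (stP (l - t) S 0)) :
    HH ρ β (tl κ j0 true) η l ≤ u + B := by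
  obtain ⟨m, rfl⟩ := Nat.exists_eq_add_of_le ht
  rw [Nat.add_sub_cancel_left] at hlane
  have h1 : Real.exp (-B) ≤ Vp ρ β (sh t ((y : ℤ) • es j0) η) m 0 :=
    hlane.trans (V_mono _ stP_sub)
  have h2 := Vp_add (ρ := ρ) (β := β) η t m ((y : ℤ) • es j0) 0
  have h3 : Real.exp (-(κ * y + u)) * Real.exp (-B) ≤
      Vp ρ β η (t + m) ((y : ℤ) • es j0 + 0) :=
    (mul_le_mul hclimb h1 (Real.exp_pos _).le ((Real.exp_pos _).le.trans hclimb)).trans h2
  rw [add_zero] at h3
  have h4 := V_le_H (ρ := ρ) (β := β) j0 (tl κ j0 true) η (n := t + m)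
    (y := (y : ℤ) • es j0) (E := toP (t + m) ((y : ℤ) • es j0)) subset_rfl
  rw [LaneA_inner] at h4
  have h5 : Real.exp (-(κ * y + u)) * Real.exp (-B) * Real.exp (κ * y) ≤
      Real.exp (-HH ρ β (tl κ j0 true) η (t + m)) :=
    (mul_le_mul_of_nonneg_right h3 (Real.exp_pos _).le).trans h4
  rw [← Real.exp_add, ← Real.exp_add, Real.exp_le_exp] at h5
  linarith

end Pool.Agent.W_7d29a1_h3
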