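import Pool.Agent.W_7d29a1_h3.StopB

/-!
Section 2: D1 and D2.
-/

namespace Pool.Agent.W_7d29a1_h3

open MeasureTheory ProbabilityTheory Filter Topology Pool.Agent.W_MP_7d29a1_pr
  Pool.Agent.W_7d29a1_h46 Pool.Agent.W_7d29a1_h46u

variable {d : ℕ} {ρ : Measure ℝ} [IsProbabilityMeasure ρ]

theorem D2_mono (β : ℝ) (h : Vec d) {m n : ℕ} (hmn : m ≤ n) : D2 ρ β h m ≤ D2 ρ β h n := by
  unfold D2
  exact Finset.sup'_mono _ (Finset.range_subset_range.2 (by omega)) _

theorem D1_mono (β : ℝ) (h : Vec d) {m n : ℕ} (hmn : m ≤ n) : D1 ρ β h m ≤ D1 ρ β h n := by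
  unfold D1
  exact Finset.sup'_mono _ (Finset.range_subset_range.2 (by omega)) _

theorem D1_nonneg (β : ℝ) (h : Vec d) (n : ℕ) : 0 ≤ D1 ρ β h n := by
  unfold D1
  refine le_trans ?_ (Finset.le_sup' (s := Finset.range (n + 1))
    (fun l => ∫ η, max (HH ρ β h η l) 0 ∂(law d ρ)) (b := 0) (Finset.mem_range.2 (by omega)))
  exact integral_nonneg fun η => le_max_right _ _

private lemma StopC_max_sq (a : ℝ) : max a 0 ^ 2 ≤ a ^ 2 := by
  rcases le_total a 0 with h | h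
  · rw [max_eq_right h]
    nlinarith [sq_nonneg a]
  · rw [max_eq_left h]

/-- Cauchy-Schwarz for a function and the constant one. -/
private lemma StopC_cs {Ω : Type} [MeasurableSpace Ω] (μ : Measure Ω) [IsProbabilityMeasure μ]
    {f : Ω → ℝ} (h1 : Integrable f μ) (h2 : Integrable (fun x => f x ^ 2) μ) :
    ∫ x, f x ∂μ ≤ Real.sqrt (∫ x, f x ^ 2 ∂μ) := by
  refine Real.le_sqrt_of_sq_le ?_
  set a : ℝ := ∫ x, f x ∂μ with ha
  have h3 : 0 ≤ ∫ x, (f x - a) ^ 2 ∂μ := integral_nonneg fun x => sq_nonneg _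
  have h4 : ∫ x, (f x - a) ^ 2 ∂μ = ∫ x, f x ^ 2 ∂μ - 2 * a * a + a ^ 2 := by
    have e1 : (fun x => (f x - a) ^ 2) = fun x => (f x ^ 2 - 2 * a * f x) + a ^ 2 := by
      funext x
      ring
    have e2 : Integrable (fun x => 2 * a * f x) μ := h1.const_mul _
    have e3 : Integrable (fun x => f x ^ 2 - 2 * a * f x) μ := h2.sub e2
    rw [e1, integral_add e3 (integrable_const _), integral_sub h2 e2, integral_const_mul,
      integral_const, ← ha]
    simp
  nlinarith [h3, h4]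

private lemma StopC_int (hd : 0 < d) (hρ : EM ρ) (β : ℝ) (h : Vec d) (n : ℕ) :
    Integrable (fun η => max (HH ρ β h η n) 0) (law d ρ) ∧
      Integrable (fun η => max (HH ρ β h η n) 0 ^ 2) (law d ρ) := by
  obtain ⟨C, -, hC⟩ := H_four hd hρ β h
  obtain ⟨-, h2, h1, -, -⟩ := hC n
  have h3 : Integrable (fun η => max (HH ρ β h η n) 0) (law d ρ) := h1.sup (integrable_zero _ _ _)
  refine ⟨h3, h2.mono (h3.aestronglyMeasurable.pow 2) (Filter.Eventually.of_forall fun η => ?_)⟩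
  rw [Real.norm_eq_abs, Real.norm_eq_abs, abs_of_nonneg (sq_nonneg _), abs_of_nonneg (sq_nonneg _)]
  exact StopC_max_sq _

/-- Cauchy-Schwarz (`H_four` for integrability). -/
theorem D1_le_D2 (hd : 0 < d) (hρ : EM ρ) (β : ℝ) (h : Vec d) (n : ℕ) :
    D1 ρ β h n ≤ D2 ρ β h n := by
  unfold D1 D2
  refine Finset.sup'_le _ _ fun l hl => ?_
  obtain ⟨h1, h2⟩ := StopC_int hd hρ β h l
  refine le_trans (StopC_cs (law d ρ) h1 h2) ?_
  exact Finset.le_sup' (s := Finset.range (n + 1))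
    (fun l => Real.sqrt (∫ η, max (HH ρ β h η l) 0 ^ 2 ∂(law d ρ))) hl

private lemma StopC_le (β : ℝ) (h : Vec d) {l n : ℕ} (hl : l ≤ n) :
    Real.sqrt (∫ η, max (HH ρ β h η l) 0 ^ 2 ∂(law d ρ)) ≤ D2 ρ β h n := by
  unfold D2
  exact Finset.le_sup' (s := Finset.range (n + 1))
    (fun l => Real.sqrt (∫ η, max (HH ρ β h η l) 0 ^ 2 ∂(law d ρ)))
    (Finset.mem_range.2 (by omega))

theorem D2_add (hd : 0 < d) (hρ : EM ρ) (β : ℝ) (h : Vec d) (m n : ℕ) :
    D2 ρ β h (m + n) ≤ D2 ρ β h m + D2 ρ β h n := by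
  have key : ∀ l, l ≤ m + n → Real.sqrt (∫ η, max (HH ρ β h η l) 0 ^ 2 ∂(law d ρ)) ≤
      D2 ρ β h m + D2 ρ β h n := by
    intro l hl
    obtain ⟨a, b, ha, hb, rfl⟩ : ∃ a b, a ≤ m ∧ b ≤ n ∧ l = a + b := by
      rcases Nat.le_total l m with h1 | h1
      · exact ⟨l, 0, h1, by omega, by omega⟩
      · exact ⟨m, l - m, le_rfl, by omega, by omega⟩
    exact (H2_add hd hρ β h a b).trans (add_le_add (StopC_le β h ha) (StopC_le β h hb))
  refine Finset.sup'_le _ _ fun l hl => key l ?_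
  have := Finset.mem_range.1 hl
  omega

private lemma StopC_HH_zero (β : ℝ) (h : Vec d) (η : Env d) : HH ρ β h η 0 = 0 := by
  classical
  have h0 : Z β h η 0 = 1 := by
    unfold Z ZT
    rw [Fintype.sum_unique, if_pos (Set.mem_univ _)]
    unfold wgt
    have h1 : pos (default : Fin 0 → Step d) 0 = 0 := by
      simp [pos]
    have h2 : energy η (default : Fin 0 → Step d) = 0 := by
      simp [energy]
    have h3 : emb (0 : Site d) = 0 := by
      ext i
      simp [emb]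
    rw [h1, h2, h3]
    simp
  unfold HH X
  rw [h0]
  simp

theorem D2_mul (hd : 0 < d) (hρ : EM ρ) (β : ℝ) (h : Vec d) (A n : ℕ) :
    D2 ρ β h (A * n) ≤ A * D2 ρ β h n := by
  induction A with
  | zero =>
    rw [Nat.zero_mul]
    have h1 : D2 ρ β h 0 = 0 := by
      unfold D2
      simp [StopC_HH_zero]
    rw [h1]
    simp
  | succ A ih =>
    rw [Nat.succ_mul]
    refine (D2_add hd hρ β h (A * n) n).trans ?_
    push_cast
    linarith

end Pool.Agent.W_7d29a1_h3
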