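import Pool.Agent.W_7d29a1_h3.LaneA
import Pool.Agent.W_7d29a1_h3.CheapC
import Pool.Agent.W_7d29a1_h3.StopC

/-!
Section 4: the sum over the first good lane.
-/

namespace Pool.Agent.W_7d29a1_h3

open MeasureTheory ProbabilityTheory Filter Topology Pool.Agent.W_MP_7d29a1_pr
  Pool.Agent.W_7d29a1_h46 Pool.Agent.W_7d29a1_h46u

/-- Cauchy-Schwarz on a set. -/
private theorem LaneB_cs {Ω : Type*} [MeasurableSpace Ω] {P : Measure Ω} [IsProbabilityMeasure P]
    {f : Ω → ℝ} (hf : Measurable f) (hf0 : ∀ w, 0 ≤ f w) (hi : Integrable (fun w => f w ^ 2) P)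
    {A : Set Ω} (hA : MeasurableSet A) :
    Integrable (fun w => A.indicator (fun _ => (1 : ℝ)) w * f w) P ∧
    ∫ w, A.indicator (fun _ => (1 : ℝ)) w * f w ∂P ≤
      Real.sqrt (∫ w, f w ^ 2 ∂P) * Real.sqrt (P.real A) := by
  have hL : MemLp f 2 P := (memLp_two_iff_integrable_sq hf.aestronglyMeasurable).2 hi
  have hL1 : MemLp (A.indicator fun _ => (1 : ℝ)) 2 P :=
    (memLp_const (1 : ℝ)).indicator hA
  refine ⟨?_, ?_⟩
  · exact hL1.integrable_mul hL
  have h := integral_mul_le_Lp_mul_Lq_of_nonneg (μ := P) (p := 2) (q := 2)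
    Real.HolderConjugate.two_two (f := A.indicator fun _ => (1 : ℝ)) (g := f)
    (ae_of_all _ fun w => Set.indicator_nonneg (fun _ _ => zero_le_one) w)
    (ae_of_all _ hf0) (by simpa using hL1) (by simpa using hL)
  have e1 : ∫ w, (A.indicator (fun _ => (1 : ℝ)) w) ^ (2 : ℝ) ∂P = P.real A := by
    have : (fun w => (A.indicator (fun _ => (1 : ℝ)) w) ^ (2 : ℝ)) =
        A.indicator fun _ => (1 : ℝ) := by
      funext w
      by_cases hw : w ∈ A <;> simp [hw]
    rw [this, integral_indicator_const _ hA]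
    simp
  have e2 : ∫ w, (f w) ^ (2 : ℝ) ∂P = ∫ w, f w ^ 2 ∂P := by
    refine integral_congr_ae (ae_of_all _ fun w => ?_)
    show (f w) ^ (2 : ℝ) = f w ^ 2
    rw [← Real.rpow_natCast]; norm_num
  rw [e1, e2, ← Real.sqrt_eq_rpow, ← Real.sqrt_eq_rpow] at h
  rw [mul_comm (Real.sqrt (∫ w, f w ^ 2 ∂P))]
  exact h

/-- The sum over the first good lane, abstract form. -/
private theorem LaneB_abs {Ω : Type*} [MeasurableSpace Ω] {P : Measure Ω} [IsProbabilityMeasure P]
    {H : Ω → ℝ} (hH : Measurable H) (hH4 : Integrable (fun w => H w ^ 4) P) {M : ℝ} (hM : 0 ≤ M)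
    (h4 : ∫ w, H w ^ 4 ∂P ≤ M ^ 2) {K : ℕ} {F : ℕ → Set Ω}
    (hFm : ∀ m, MeasurableSet (F m)) (hF : ∀ m ≤ K, P.real (F m) ≤ (1 / 8) ^ m)
    {Bad : Set Ω} (hBm : MeasurableSet Bad) {p : ℝ} (hp : P.real Bad ≤ p) {A B : ℝ} (hA : 0 ≤ A)
    (hB : 0 ≤ B) (hdet : ∀ w, w ∉ Bad → ∃ m, m ≤ K ∧ w ∈ F m ∧ H w ≤ A + m * B) :
    ∫ w, max (H w) 0 ^ 2 ∂P ≤ 2 * (A + B) ^ 2 + M * Real.sqrt p := by
  obtain ⟨f, hf⟩ : ∃ f : Ω → ℝ, f = fun w => max (H w) 0 ^ 2 := ⟨_, rfl⟩
  have hfm : Measurable f := by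
    rw [hf]
    exact (hH.max measurable_const).pow_const 2
  have hf0 : ∀ w, 0 ≤ f w := fun w => by rw [hf]; positivity
  have hf4 : ∀ w, f w ^ 2 ≤ H w ^ 4 := by
    intro w
    rw [hf]
    show (max (H w) 0 ^ 2) ^ 2 ≤ H w ^ 4
    rcases le_total (H w) 0 with h | h
    · rw [max_eq_right h]
      have : 0 ≤ H w ^ 4 := by positivity
      simpa using this
    · rw [max_eq_left h]
      exact le_of_eq (by ring)
  have hi2 : Integrable (fun w => f w ^ 2) P := by
    refine Integrable.mono' hH4 (hfm.pow_const 2).aestronglyMeasurable (ae_of_all _ fun w => ?_)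
    rw [Real.norm_eq_abs, abs_of_nonneg (by positivity)]
    exact hf4 w
  obtain ⟨hcsi, hcs⟩ := LaneB_cs hfm hf0 hi2 hBm
  have hcs2 : ∫ w, Bad.indicator (fun _ => (1 : ℝ)) w * f w ∂P ≤ M * Real.sqrt p := by
    refine hcs.trans ?_
    have e1 : Real.sqrt (∫ w, f w ^ 2 ∂P) ≤ M := by
      rw [Real.sqrt_le_left hM]
      exact (integral_mono hi2 hH4 hf4).trans h4
    exact mul_le_mul e1 (Real.sqrt_le_sqrt hp) (Real.sqrt_nonneg _) hM
  have hFi : ∀ m, Integrable (fun w => (F m).indicator (fun _ => (A + m * B) ^ 2) w) P := fun m =>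
    (integrable_const _).indicator (hFm m)
  have hpt : ∀ w, max (H w) 0 ^ 2 ≤
      (∑ m ∈ Finset.range (K + 1), (F m).indicator (fun _ => (A + m * B) ^ 2) w) +
        Bad.indicator (fun _ => (1 : ℝ)) w * f w := by
    intro w
    have hnn : ∀ m ∈ Finset.range (K + 1), 0 ≤ (F m).indicator (fun _ => (A + m * B) ^ 2) w :=
      fun m _ => Set.indicator_nonneg (fun _ _ => by positivity) w
    by_cases hw : w ∈ Bad
    · rw [Set.indicator_of_mem hw, one_mul]
      have := Finset.sum_nonneg hnn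
      have e : f w = max (H w) 0 ^ 2 := by rw [hf]
      rw [e]
      linarith
    · obtain ⟨m, hmK, hmF, hHm⟩ := hdet w hw
      rw [Set.indicator_of_notMem hw, zero_mul, add_zero]
      have h1 : (F m).indicator (fun _ => (A + m * B) ^ 2) w ≤
          ∑ m ∈ Finset.range (K + 1), (F m).indicator (fun _ => (A + m * B) ^ 2) w :=
        Finset.single_le_sum hnn (Finset.mem_range.2 (by omega))
      refine le_trans ?_ h1
      rw [Set.indicator_of_mem hmF]
      have h2 : max (H w) 0 ≤ A + m * B := max_le hHm (by positivity)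
      exact pow_le_pow_left₀ (le_max_right _ _) h2 2
  have hsumi : Integrable (fun w => ∑ m ∈ Finset.range (K + 1),
      (F m).indicator (fun _ => (A + m * B) ^ 2) w) P := integrable_finsetSum _ fun m _ => hFi m
  have hfi : Integrable (fun w => max (H w) 0 ^ 2) P := by
    refine Integrable.mono' ((integrable_const (1 : ℝ)).add hi2)
      ((hH.max measurable_const).pow_const 2).aestronglyMeasurable (ae_of_all _ fun w => ?_)
    rw [Real.norm_eq_abs, abs_of_nonneg (by positivity)]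
    show max (H w) 0 ^ 2 ≤ 1 + f w ^ 2
    rw [hf]
    show max (H w) 0 ^ 2 ≤ 1 + (max (H w) 0 ^ 2) ^ 2
    nlinarith [sq_nonneg (max (H w) 0 ^ 2 - 1), sq_nonneg (max (H w) 0)]
  have hmain := integral_mono hfi (hsumi.add hcsi) hpt
  have hadd : ∫ w, ((fun w => ∑ m ∈ Finset.range (K + 1),
      (F m).indicator (fun _ => (A + m * B) ^ 2) w) + (fun w =>
        Bad.indicator (fun _ => (1 : ℝ)) w * f w)) w ∂P =
      (∫ w, ∑ m ∈ Finset.range (K + 1), (F m).indicator (fun _ => (A + m * B) ^ 2) w ∂P) +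
        ∫ w, Bad.indicator (fun _ => (1 : ℝ)) w * f w ∂P := integral_add hsumi hcsi
  rw [hadd, integral_finsetSum _ fun m _ => hFi m] at hmain
  have hsum : ∑ m ∈ Finset.range (K + 1), ∫ w, (F m).indicator (fun _ => (A + m * B) ^ 2) w ∂P ≤
      2 * (A + B) ^ 2 := by
    have hterm : ∀ m ∈ Finset.range (K + 1),
        ∫ w, (F m).indicator (fun _ => (A + m * B) ^ 2) w ∂P ≤ (1 / 2) ^ m * (A + B) ^ 2 := by
      intro m hm
      rw [integral_indicator_const _ (hFm m), smul_eq_mul]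
      have h1 := hF m (by have := Finset.mem_range.1 hm; omega)
      have h2 : (A + m * B) ^ 2 ≤ (2 ^ m * (A + B)) ^ 2 := by
        have hm2 : (m : ℝ) + 1 ≤ 2 ^ m := by
          have := Nat.lt_two_pow_self (n := m)
          exact_mod_cast this
        refine pow_le_pow_left₀ (by positivity) ?_ 2
        have hm0 : (0 : ℝ) ≤ m := Nat.cast_nonneg m
        nlinarith [mul_nonneg hm0 hA, mul_le_mul_of_nonneg_right hm2 (add_nonneg hA hB)]
      calc P.real (F m) * (A + m * B) ^ 2 ≤ (1 / 8) ^ m * (2 ^ m * (A + B)) ^ 2 :=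
            mul_le_mul h1 h2 (by positivity) (by positivity)
        _ = (1 / 2) ^ m * (A + B) ^ 2 := by
            have e : ((1 : ℝ) / 8) ^ m * (2 ^ m) ^ 2 = (1 / 2) ^ m := by
              rw [← pow_mul, mul_comm m 2, pow_mul, ← mul_pow]
              norm_num
            rw [mul_pow, ← mul_assoc, e]
    refine (Finset.sum_le_sum hterm).trans ?_
    rw [← Finset.sum_mul]
    refine mul_le_mul_of_nonneg_right ?_ (sq_nonneg _)
    exact sum_geometric_two_le _
  linarith

variable {d : ℕ} {ρ : Measure ℝ}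

private theorem LaneB_inner (j0 : Fin d) (κ : ℝ) (y : Site d) :
    inner ℝ (tl κ j0 true) (emb y) = κ * (y j0 : ℝ) := by
  unfold tl ej
  rw [if_pos rfl, inner_smul_left, EuclideanSpace.inner_single_left]
  simp [emb]

/-- The weight of the walk of length `0`. -/
private theorem LaneB_Vp0 (β : ℝ) (η : Env d) : Vp ρ β η 0 (0 : Site d) = 1 := by
  unfold Vp V toP ZT
  have hp : ∀ s : Fin 0 → Step d, pos s 0 = (0 : Site d) := by
    intro s
    unfold pos
    simp
  have he : emb (0 : Site d) = 0 := by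
    unfold emb
    ext j
    simp
  simp [hp, wgt, energy, he]

variable [IsProbabilityMeasure ρ]

/-- The event that a shifted weight is small is measurable. -/
private theorem LaneB_meas (β B : ℝ) (t : ℕ) (x : Site d) {n : ℕ} (E : Set (Fin n → Step d)) :
    MeasurableSet {η : Env d | ¬ Real.exp (-B) ≤ V ρ β (sh t x η) E} := by
  have h1 : Measurable fun η : Env d => V ρ β (sh t x η) E :=
    (measurable_V (ρ := ρ) (β := β) E).comp (mp_sh (ρ := ρ) t x).measurable
  exact (measurableSet_le measurable_const h1).compl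

/-- TASK Lane3. One time `l = i L ≤ 2 n`: for every `ε > 0` the constants of `travel`; `w` least with
`w a ≥ 2 ξ' + 2`; `J` lanes. Pointwise, with `c_j = 4 ε j w a + b + 1`:
`H_+^2 ≤ ∑_{j ≤ J'} 1(lanes 0..j-1 fail) c_j^2 + 1(bad) H_+^2`, where `J' = min (J, number of j with t_j ≤ l)` and `bad` =
some climb fails (`travel`: the climbs to `y_j`, `1 ≤ j < J`, `t_j ≤ l`, and the pure climb of length `l = i L`, cost
`4 ε i a ≤ 4 ε w a J'`) or `J` lanes fail. -/
theorem lane_sum (j0 : Fin d) {β κ : ℝ} (S : Setup d ρ β κ) {q : ℝ} (h0 : 0 < q) (h1 : q ≤ 1 / 16)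
    {ε : ℝ} (hε : 0 < ε) :
    ∃ L : ℕ, 0 < L ∧ ∃ C c : ℝ, 0 < C ∧ 0 < c ∧ ∀ (n J i : ℕ), 1 ≤ n → 1 ≤ J → 1 ≤ i → i * L ≤ 2 * n →
      ∫ η, max (HH ρ β (tl κ j0 true) η (i * L)) 0 ^ 2 ∂(law d ρ) ≤
        100 * (bb d ρ β q n + 1 + ε * (xi' d ρ β q n + C)) ^ 2 +
        C * (n : ℝ) ^ 2 * Real.sqrt ((2 * q) ^ J + J * Real.exp (-(c * (n : ℝ) ^ c0 d)) +
          Real.exp (-(c * i))) := by
  have hd : 0 < d := j0.pos
  obtain ⟨L, a, hL, ha, hLe, hae, haL, c1, hc1, htr⟩ :=
    travel j0 S.em S.κpos.le (S.steep j0) (ε := ε / 8) (β := β) (by positivity)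
  obtain ⟨C4, hC4, hmom⟩ := H_four hd S.em β (tl κ j0 true)
  have haR : (0 : ℝ) < a := by exact_mod_cast ha
  refine ⟨L, hL, 1 + a + 4 * Real.sqrt C4, min c1 (2 * c1 / a), by positivity,
    lt_min hc1 (by positivity), ?_⟩
  intro n J i hn hJ hi hil
  obtain ⟨c, hc⟩ : ∃ c : ℝ, c = min c1 (2 * c1 / a) := ⟨_, rfl⟩
  have hcc1 : c ≤ c1 := by rw [hc]; exact min_le_left _ _
  have hcc2 : c ≤ 2 * c1 / a := by rw [hc]; exact min_le_right _ _
  rw [← hc]
  obtain ⟨x, hx⟩ : ∃ x : ℕ, x = xi d ρ β q n := ⟨_, rfl⟩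
  obtain ⟨X', hX'⟩ : ∃ X' : ℝ, X' = xi' d ρ β q n := ⟨_, rfl⟩
  obtain ⟨b, hb⟩ : ∃ b : ℝ, b = bb d ρ β q n := ⟨_, rfl⟩
  have hb1 : 1 ≤ b := by rw [hb]; exact one_le_bb β q n
  have hxX : (x : ℝ) ≤ X' := by rw [hx, hX']; exact le_max_left _ _
  have hnX : (n : ℝ) ^ c0 d ≤ X' := by rw [hX']; exact le_max_right _ _
  have hX0 : 0 ≤ X' := le_trans (Nat.cast_nonneg x) hxX
  rw [← hX', ← hb]
  obtain ⟨w, hw⟩ : ∃ w : ℕ, w = ⌈(2 * X' + 2) / a⌉₊ := ⟨_, rfl⟩
  have hw1 : 2 * X' + 2 ≤ w * a := by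
    have := Nat.le_ceil ((2 * X' + 2) / (a : ℝ))
    rw [← hw, div_le_iff₀ haR] at this
    exact this
  have hw2 : (w : ℝ) * a ≤ 2 * X' + 2 + a := by
    have := Nat.ceil_lt_add_one (a := (2 * X' + 2) / (a : ℝ)) (by positivity)
    rw [← hw] at this
    have h3 := mul_le_mul_of_nonneg_right this.le haR.le
    rw [add_mul, div_mul_cancel₀ _ haR.ne'] at h3
    linarith
  have hwpos : 1 ≤ w := by
    rcases Nat.eq_zero_or_pos w with h | h
    · rw [h] at hw1
      push_cast at hw1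
      linarith
    · exact h
  have hwx : 2 * x + 2 ≤ w * a := by
    have : ((2 * x + 2 : ℕ) : ℝ) ≤ ((w * a : ℕ) : ℝ) := by
      push_cast
      linarith
    exact_mod_cast this
  obtain ⟨K, hK⟩ : ∃ K : ℕ, K = min J (i / w + 1) := ⟨_, rfl⟩
  have hKJ : K ≤ J := by rw [hK]; exact min_le_left _ _
  have hKi : ∀ j < K, j * w ≤ i := by
    intro j hj
    have h2 : j < i / w + 1 := lt_of_lt_of_le hj (by rw [hK]; exact min_le_right _ _)
    have h3 : j ≤ i / w := by omega
    exact (Nat.mul_le_mul_right w h3).trans (Nat.div_mul_le_self i w)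
  have hK2 : K < J → i ≤ K * w := by
    intro h
    have h2 : K = i / w + 1 := by
      rw [hK] at h ⊢
      omega
    rw [h2]
    have h3 := Nat.div_add_mod i w
    have h4 := Nat.mod_lt i hwpos
    have h5 : (i / w + 1) * w = w * (i / w) + w := by ring
    omega
  -- the events
  obtain ⟨Lf, hLf⟩ : ∃ Lf : ℕ → Set (Env d), Lf = fun j => {η : Env d | ¬ Real.exp (-(b + 1)) ≤
      V ρ β (sh (j * w * L) (((j * w * a : ℕ) : ℤ) • es j0) η) (stP (i * L - j * w * L) x 0)} :=
    ⟨_, rfl⟩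
  obtain ⟨F, hF⟩ : ∃ F : ℕ → Set (Env d), F = fun m => {η : Env d | ∀ j < m, η ∈ Lf j} := ⟨_, rfl⟩
  obtain ⟨Cf, hCf⟩ : ∃ Cf : ℕ → Set (Env d), Cf = fun k : ℕ => {η : Env d |
      ¬ Real.exp (-(κ * (k * a) + 4 * (ε / 8) * (k * a))) ≤
        Vp ρ β η (k * L) (((k * a : ℕ) : ℤ) • es j0)} := ⟨_, rfl⟩
  have hLfm : ∀ j, MeasurableSet (Lf j) := by
    intro j
    rw [hLf]
    exact LaneB_meas β _ _ _ _
  have hFm : ∀ m, MeasurableSet (F m) := by
    intro m
    have e : F m = ⋂ j ∈ Finset.range m, Lf j := by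
      rw [hF]
      ext η
      simp
    rw [e]
    exact Finset.measurableSet_biInter _ fun j _ => hLfm j
  have hCfm : ∀ k, MeasurableSet (Cf k) := by
    intro k
    rw [hCf]
    exact (measurableSet_le measurable_const (measurable_V _)).compl
  have hCfp : ∀ k, 1 ≤ k → (law d ρ).real (Cf k) ≤ Real.exp (-(c1 * k)) := by
    intro k hk
    have := htr k k le_rfl hk
    rw [hCf]
    exact this
  have hFp : ∀ m ≤ K, (law d ρ).real (F m) ≤ (2 * q) ^ m := by
    intro m hm
    have h := lanes_fail (ρ := ρ) j0 β (q := q) (B := b + 1) (n := n) (S := x) (J := m) (w := w)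
      (a := a) (L := L) (l := i * L) hwx (fun r hr => by
        have := xi_spec (ρ := ρ) j0 β h0 (lt_of_le_of_lt h1 (by norm_num)) hr
        rw [← hb, ← hx] at this
        exact this) hLe (hLe.mul_left i) hil (fun j hj =>
          Nat.mul_le_mul_right L (hKi j (lt_of_lt_of_le hj hm)))
    rw [hF, hLf]
    exact h
  obtain ⟨B1, hB1⟩ : ∃ B1 : Set (Env d), B1 = ⋃ j ∈ (Finset.range K).filter (fun j => 1 ≤ j),
      Cf (j * w) := ⟨_, rfl⟩
  obtain ⟨B3, hB3⟩ : ∃ B3 : Set (Env d), B3 = {η | K = J ∧ η ∈ F J} := ⟨_, rfl⟩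
  have hB1m : MeasurableSet B1 := by
    rw [hB1]
    exact Finset.measurableSet_biUnion _ fun j _ => hCfm _
  have hB3m : MeasurableSet B3 := by
    rw [hB3]
    by_cases h : K = J
    · have : {η : Env d | K = J ∧ η ∈ F J} = F J := by
        ext η
        simp [h]
      rw [this]
      exact hFm J
    · have : {η : Env d | K = J ∧ η ∈ F J} = ∅ := by
        ext η
        simp [h]
      rw [this]
      exact MeasurableSet.empty
  have hpB1 : (law d ρ).real B1 ≤ J * Real.exp (-(c * (n : ℝ) ^ c0 d)) := by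
    rw [hB1]
    refine (measureReal_biUnion_finset_le _ _).trans ?_
    have hterm : ∀ j ∈ (Finset.range K).filter (fun j => 1 ≤ j),
        (law d ρ).real (Cf (j * w)) ≤ Real.exp (-(c * (n : ℝ) ^ c0 d)) := by
      intro j hj
      have hj1 : 1 ≤ j := (Finset.mem_filter.1 hj).2
      have hjw : 1 ≤ j * w := Nat.one_le_iff_ne_zero.2 (by positivity)
      refine (hCfp _ hjw).trans (Real.exp_le_exp.2 (neg_le_neg ?_))
      have hn0 : (0 : ℝ) ≤ (n : ℝ) ^ c0 d := by positivity
      have e1 : c * (n : ℝ) ^ c0 d ≤ 2 * c1 / a * (n : ℝ) ^ c0 d :=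
        mul_le_mul_of_nonneg_right hcc2 hn0
      have e2 : 2 * c1 / a * (n : ℝ) ^ c0 d ≤ c1 * w := by
        rw [div_mul_eq_mul_div, div_le_iff₀ haR]
        have : 2 * (n : ℝ) ^ c0 d ≤ w * a := by linarith
        nlinarith
      have e3 : c1 * (w : ℝ) ≤ c1 * ((j * w : ℕ) : ℝ) := by
        refine mul_le_mul_of_nonneg_left ?_ hc1.le
        have : w ≤ j * w := Nat.le_mul_of_pos_left w hj1
        exact_mod_cast this
      linarith
    refine (Finset.sum_le_sum hterm).trans ?_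
    rw [Finset.sum_const, nsmul_eq_mul]
    refine mul_le_mul_of_nonneg_right ?_ (Real.exp_pos _).le
    have : ((Finset.range K).filter (fun j => 1 ≤ j)).card ≤ J :=
      (Finset.card_filter_le _ _).trans (by rw [Finset.card_range]; exact hKJ)
    exact_mod_cast this
  have hpCi : (law d ρ).real (Cf i) ≤ Real.exp (-(c * i)) :=
    (hCfp i hi).trans (Real.exp_le_exp.2 (neg_le_neg
      (mul_le_mul_of_nonneg_right hcc1 (Nat.cast_nonneg i))))
  have hpB3 : (law d ρ).real B3 ≤ (2 * q) ^ J := by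
    rw [hB3]
    by_cases h : K = J
    · have e : {η : Env d | K = J ∧ η ∈ F J} = F J := by
        ext η
        simp [h]
      rw [e]
      exact hFp J h.ge
    · have e : {η : Env d | K = J ∧ η ∈ F J} = ∅ := by
        ext η
        simp [h]
      rw [e]
      simp only [measureReal_empty]
      positivity
  have hpBad : (law d ρ).real (B3 ∪ B1 ∪ Cf i) ≤ (2 * q) ^ J +
      J * Real.exp (-(c * (n : ℝ) ^ c0 d)) + Real.exp (-(c * i)) := by
    have e1 := measureReal_union_le (μ := law d ρ) (B3 ∪ B1) (Cf i)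
    have e2 := measureReal_union_le (μ := law d ρ) B3 B1
    linarith
  obtain ⟨D, hD⟩ : ∃ D : ℝ, D = ε / 2 * (w * a) := ⟨_, rfl⟩
  have hD0 : 0 ≤ D := by rw [hD]; positivity
  have hdet : ∀ η, η ∉ B3 ∪ B1 ∪ Cf i → ∃ m, m ≤ K ∧ η ∈ F m ∧
      HH ρ β (tl κ j0 true) η (i * L) ≤ (b + 1) + m * D := by
    intro η hη
    simp only [Set.mem_union, not_or] at hη
    obtain ⟨⟨hη3, hη1⟩, hηi⟩ := hη
    by_cases hex : ∃ j, j < K ∧ η ∉ Lf j
    · classical
      obtain ⟨m, hm⟩ : ∃ m, m = Nat.find hex := ⟨_, rfl⟩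
      have hms := Nat.find_spec hex
      rw [← hm] at hms
      have hmin : ∀ j < m, η ∈ Lf j := by
        intro j hj
        by_contra hcon
        exact Nat.find_min hex (hm ▸ hj) ⟨lt_trans hj hms.1, hcon⟩
      refine ⟨m, hms.1.le, ?_, ?_⟩
      · rw [hF]
        exact hmin
      · have ht : m * w * L ≤ i * L := Nat.mul_le_mul_right L (hKi m hms.1)
        have hlane : Real.exp (-(b + 1)) ≤
            V ρ β (sh (m * w * L) (((m * w * a : ℕ) : ℤ) • es j0) η)
              (stP (i * L - m * w * L) x 0) := by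
          by_contra hcon
          apply hms.2
          rw [hLf]
          exact hcon
        have hclimb : Real.exp (-(κ * ((m * w * a : ℕ) : ℝ) + m * D)) ≤
            Vp ρ β η (m * w * L) (((m * w * a : ℕ) : ℤ) • es j0) := by
          rcases Nat.eq_zero_or_pos m with hm0 | hm0
          · have := LaneB_Vp0 (ρ := ρ) β η
            rw [hm0]
            simp only [zero_mul, Nat.cast_zero, zero_smul, mul_zero, add_zero, neg_zero,
              Real.exp_zero]
            exact this.ge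
          · have hnot : η ∉ Cf (m * w) := by
              intro hcon
              apply hη1
              rw [hB1]
              simp only [Set.mem_iUnion]
              exact ⟨m, Finset.mem_filter.2 ⟨Finset.mem_range.2 hms.1, hm0⟩, hcon⟩
            rw [hCf] at hnot
            simp only [Set.mem_ofPred_eq, not_not] at hnot
            refine le_trans (le_of_eq ?_) hnot
            congr 1
            rw [hD]
            push_cast
            ring
        have := lane_cost (ρ := ρ) j0 η ht hclimb hlane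
        linarith
    · push Not at hex
      refine ⟨K, le_rfl, ?_, ?_⟩
      · rw [hF]
        exact hex
      · have hKJ' : K < J := by
          refine lt_of_le_of_ne hKJ fun h => hη3 ?_
          rw [hB3]
          refine ⟨h, ?_⟩
          rw [← h, hF]
          exact hex
        have hiK := hK2 hKJ'
        rw [hCf] at hηi
        simp only [Set.mem_ofPred_eq, not_not] at hηi
        have hV := V_le_H (ρ := ρ) (β := β) j0 (tl κ j0 true) η (n := i * L)
          (y := ((i * a : ℕ) : ℤ) • es j0) (E := toP (i * L) (((i * a : ℕ) : ℤ) • es j0)) subset_rfl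
        have hinner : inner ℝ (tl κ j0 true) (emb (((i * a : ℕ) : ℤ) • es j0)) = κ * (i * a) := by
          rw [LaneB_inner]
          unfold es
          simp
        rw [hinner] at hV
        have h5 : Real.exp (-(4 * (ε / 8) * (i * a))) ≤
            Real.exp (-HH ρ β (tl κ j0 true) η (i * L)) := by
          refine le_trans ?_ hV
          have := mul_le_mul_of_nonneg_right hηi (Real.exp_pos (κ * (i * a))).le
          rw [← Real.exp_add] at this
          refine le_trans (le_of_eq ?_) this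
          congr 1
          ring
        rw [Real.exp_le_exp] at h5
        have h6 : (i : ℝ) ≤ K * w := by exact_mod_cast hiK
        have h7 : ε / 2 * ((i : ℝ) * a) ≤ K * D := by
          rw [hD]
          have := mul_le_mul_of_nonneg_right h6 haR.le
          nlinarith
        linarith
  have h8 : ∀ m ≤ K, (law d ρ).real (F m) ≤ (1 / 8) ^ m := by
    intro m hm
    exact (hFp m hm).trans (pow_le_pow_left₀ (by positivity) (by linarith) m)
  obtain ⟨M, hM⟩ : ∃ M : ℝ, M = Real.sqrt C4 * (i * L : ℕ) ^ 2 := ⟨_, rfl⟩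
  have hM0 : 0 ≤ M := by rw [hM]; positivity
  have hM4 : ∫ η, HH ρ β (tl κ j0 true) η (i * L) ^ 4 ∂(law d ρ) ≤ M ^ 2 := by
    have := (hmom (i * L)).2.2.2.1
    rw [hM, mul_pow, Real.sq_sqrt hC4]
    refine this.trans (le_of_eq ?_)
    ring
  have hMn : M ≤ 4 * Real.sqrt C4 * (n : ℝ) ^ 2 := by
    rw [hM]
    have h9 : ((i * L : ℕ) : ℝ) ≤ 2 * n := by exact_mod_cast hil
    have h10 : ((i * L : ℕ) : ℝ) ^ 2 ≤ (2 * n) ^ 2 := pow_le_pow_left₀ (Nat.cast_nonneg _) h9 2
    have := mul_le_mul_of_nonneg_left h10 (Real.sqrt_nonneg C4)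
    linarith
  have habs := LaneB_abs (P := law d ρ) (H := fun η => HH ρ β (tl κ j0 true) η (i * L))
    (measurable_HH _ _) (hmom (i * L)).1 hM0 hM4 (K := K) (F := F) hFm h8
    (Bad := B3 ∪ B1 ∪ Cf i) ((hB3m.union hB1m).union (hCfm i)) hpBad (A := b + 1) (B := D)
    (by linarith) hD0 hdet
  refine habs.trans ?_
  have hsq := Real.sqrt_nonneg ((2 * q) ^ J + J * Real.exp (-(c * (n : ℝ) ^ c0 d)) +
      Real.exp (-(c * i)))
  have hDle : D ≤ ε * (X' + (1 + a + 4 * Real.sqrt C4)) := by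
    rw [hD]
    have := Real.sqrt_nonneg C4
    nlinarith [mul_le_mul_of_nonneg_left hw2 hε.le, mul_nonneg hε.le this, mul_pos hε haR]
  have hfirst : 2 * (b + 1 + D) ^ 2 ≤
      100 * (b + 1 + ε * (X' + (1 + a + 4 * Real.sqrt C4))) ^ 2 := by
    have h11 : (b + 1 + D) ^ 2 ≤ (b + 1 + ε * (X' + (1 + a + 4 * Real.sqrt C4))) ^ 2 :=
      pow_le_pow_left₀ (by linarith) (by linarith) 2
    nlinarith [sq_nonneg (b + 1 + ε * (X' + (1 + a + 4 * Real.sqrt C4)))]
  have hsecond : M * Real.sqrt ((2 * q) ^ J + J * Real.exp (-(c * (n : ℝ) ^ c0 d)) +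
      Real.exp (-(c * i))) ≤ (1 + a + 4 * Real.sqrt C4) * (n : ℝ) ^ 2 *
      Real.sqrt ((2 * q) ^ J + J * Real.exp (-(c * (n : ℝ) ^ c0 d)) + Real.exp (-(c * i))) := by
    refine mul_le_mul_of_nonneg_right ?_ hsq
    have : 0 ≤ (1 + (a : ℝ)) * (n : ℝ) ^ 2 := by positivity
    nlinarith
  linarith

end Pool.Agent.W_7d29a1_h3
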