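import Pool.Agent.W_7d29a1_h3.Contra
import Pool.Agent.W_7d29a1_h3.CheapA

/-!
Theorem (P): `lam h > lam 0` for every `h ≠ 0`, in every dimension.
-/

namespace Pool.Agent.W_7d29a1_h3

open MeasureTheory ProbabilityTheory Filter Topology Pool.Agent.W_MP_7d29a1_pr
  Pool.Agent.W_7d29a1_h46 Pool.Agent.W_7d29a1_h46u

variable {d : ℕ} {ρ : Measure ℝ} [IsProbabilityMeasure ρ]

theorem lam_pos (hρ : EM ρ) (hnc : ∀ c : ℝ, ρ {c} ≠ 1) {β : ℝ} (hβ : 0 < β) {h : Vec d}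
    (hh : h ≠ 0) : lam ρ β (0 : Vec d) < lam ρ β h := by
  by_contra hcon
  obtain ⟨κ, S⟩ := setup_of hρ hnc hβ hh (not_lt.1 hcon)
  obtain ⟨j0, -⟩ : ∃ j : Fin d, h j ≠ 0 := by
    by_contra hno
    push Not at hno
    exact hh (by ext j; exact hno j)
  obtain ⟨εF, hε, cF, hc, hf⟩ := fluct ρ hnc β hβ (hρ β)
  have h0 : 0 < min (εF / 4) (1 / 16) := lt_min (by linarith) (by norm_num)
  refine contra j0 (post j0 S h0 (min_le_right _ _) hc hf ?_)
  linarith [min_le_left (εF / 4) (1 / 16)]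

end Pool.Agent.W_7d29a1_h3
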