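import Pool.Agent.W_7d29a1_h3.Wt

/-!
Moments of the point to level passage times.
-/

namespace Pool.Agent.W_7d29a1_h3

open MeasureTheory ProbabilityTheory Filter Topology Pool.Agent.W_MP_7d29a1_pr
  Pool.Agent.W_7d29a1_h46 Pool.Agent.W_7d29a1_h46u

variable {d : ℕ} {ρ : Measure ℝ} [IsProbabilityMeasure ρ]

private theorem MomB_four (x y : ℝ) : (x + y) ^ 4 ≤ 8 * (x ^ 4 + y ^ 4) := by
  nlinarith [sq_nonneg (x - y), sq_nonneg (x ^ 2 - y ^ 2), sq_nonneg (x + y), sq_nonneg (x * y),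
    mul_nonneg (sq_nonneg (x - y)) (sq_nonneg (x + y)), mul_nonneg (sq_nonneg (x - y)) (sq_nonneg (x - y)),
    mul_nonneg (sq_nonneg (x - y)) (sq_nonneg x), mul_nonneg (sq_nonneg (x - y)) (sq_nonneg y)]

/-- The crude bound for the mean. -/
private theorem MomB_mean (hd : 0 < d) (hρ : EM ρ) (β : ℝ) (h : Vec d) :
    ∃ K : ℝ, 0 ≤ K ∧ ∀ n : ℕ, 1 ≤ n → |A ρ β h n - n * lam ρ β (0 : Vec d)| ≤ K * n := by
  refine ⟨|lam ρ β h| + |lam ρ β (0 : Vec d)| + |A ρ β h 1|, by positivity, fun n hn => ?_⟩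
  have h1 := A_le_lam hd hρ β h n
  have h2 : n * A ρ β h 1 ≤ A ρ β h n := by
    induction n, hn using Nat.le_induction with
    | base => simp
    | succ n hn ih =>
      have h3 := A_add_le hd hρ β h n 1
      have h4 := ih (A_le_lam hd hρ β h n)
      push_cast
      linarith
  have hn0 : (0 : ℝ) ≤ n := Nat.cast_nonneg n
  have a1 := mul_le_mul_of_nonneg_left (le_abs_self (lam ρ β h)) hn0
  have a2 := mul_le_mul_of_nonneg_left (le_abs_self (lam ρ β (0 : Vec d))) hn0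
  have a3 := mul_le_mul_of_nonneg_left (neg_abs_le (lam ρ β (0 : Vec d))) hn0
  have a4 := mul_le_mul_of_nonneg_left (neg_abs_le (A ρ β h 1)) hn0
  have a5 := mul_nonneg hn0 (abs_nonneg (lam ρ β h))
  have a6 := mul_nonneg hn0 (abs_nonneg (A ρ β h 1))
  rw [abs_le]
  constructor <;> linarith

omit [IsProbabilityMeasure ρ] in
private theorem MomB_zero (β : ℝ) (h : Vec d) (η : Env d) : HH ρ β h η 0 = 0 := by
  rw [HH, X, Z_zero, Real.log_one]
  simp

/-- TASK Mom3. All moments of `H_h(n)` exist, with the crude bound `E |H|^4 ≤ C n^4` (from `momU`, `q = 4`, and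
`|A_h(n) - n lam 0| ≤ C n`: `A_le_lam` above, and below `-C n`: one straight path, or
`A_add_le` iterated: `n A_h(1) ≤ A_h(n)`). The same for `n = 0` (`H = 0`). -/
theorem H_four (hd : 0 < d) (hρ : EM ρ) (β : ℝ) (h : Vec d) :
    ∃ C : ℝ, 0 ≤ C ∧ ∀ n : ℕ, Integrable (fun η => HH ρ β h η n ^ 4) (law d ρ) ∧
      Integrable (fun η => HH ρ β h η n ^ 2) (law d ρ) ∧
      Integrable (fun η => HH ρ β h η n) (law d ρ) ∧
      ∫ η, HH ρ β h η n ^ 4 ∂(law d ρ) ≤ C * (n : ℝ) ^ 4 ∧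
      ∫ η, HH ρ β h η n ^ 2 ∂(law d ρ) ≤ C * (n : ℝ) ^ 2 := by
  obtain ⟨K, hK, hKn⟩ := MomB_mean hd hρ β h
  obtain ⟨C4, hC4, hm4⟩ := momU hd hρ β 4
  obtain ⟨C2, hC2, hm2⟩ := momU hd hρ β 2
  refine ⟨8 * (C4 + K ^ 4) + 2 * (C2 + K ^ 2), by positivity, fun n => ?_⟩
  rcases Nat.eq_zero_or_pos n with rfl | hn
  · simp only [MomB_zero]
    simp
  obtain ⟨i4, b4⟩ := hm4 h n hn
  obtain ⟨i2, b2⟩ := hm2 h n hn
  have hn1 : (1 : ℝ) ≤ n := by exact_mod_cast hn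
  have hn0 : (0 : ℝ) ≤ n := by linarith
  have e4 : (n : ℝ) ^ ((1 / 2 : ℝ) * (4 : ℕ)) = (n : ℝ) ^ 2 := by
    rw [← Real.rpow_natCast]
    norm_num
  have e2 : (n : ℝ) ^ ((1 / 2 : ℝ) * (2 : ℕ)) = (n : ℝ) := by
    norm_num
  rw [e4] at b4
  rw [e2] at b2
  have hmeas : Measurable fun η : Env d => HH ρ β h η n := measurable_HH h n
  have hHH : ∀ η : Env d, |HH ρ β h η n| ≤ |X β h η n - A ρ β h n| + K * n := by
    intro η
    have h1 : HH ρ β h η n = -(X β h η n - A ρ β h n) + -(A ρ β h n - n * lam ρ β (0 : Vec d)) := by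
      rw [HH]
      ring
    rw [h1]
    refine (abs_add_le _ _).trans ?_
    rw [abs_neg, abs_neg]
    linarith [hKn n hn]
  have p4 : ∀ η : Env d, HH ρ β h η n ^ 4 ≤ 8 * |X β h η n - A ρ β h n| ^ 4 + 8 * (K ^ 4 * n ^ 4) := by
    intro η
    have h1 : HH ρ β h η n ^ 4 = |HH ρ β h η n| ^ 4 := by
      rw [← abs_pow, abs_of_nonneg (by positivity)]
    rw [h1]
    have h2 := pow_le_pow_left₀ (abs_nonneg _) (hHH η) 4
    have h3 := MomB_four (|X β h η n - A ρ β h n|) (K * n)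
    calc |HH ρ β h η n| ^ 4 ≤ (|X β h η n - A ρ β h n| + K * n) ^ 4 := h2
      _ ≤ 8 * (|X β h η n - A ρ β h n| ^ 4 + (K * n) ^ 4) := h3
      _ = _ := by ring
  have p2 : ∀ η : Env d, HH ρ β h η n ^ 2 ≤ 2 * |X β h η n - A ρ β h n| ^ 2 + 2 * (K ^ 2 * n ^ 2) := by
    intro η
    have h1 : HH ρ β h η n ^ 2 = |HH ρ β h η n| ^ 2 := (sq_abs _).symm
    rw [h1]
    have h2 := pow_le_pow_left₀ (abs_nonneg _) (hHH η) 2
    nlinarith [sq_nonneg (|X β h η n - A ρ β h n| - K * n)]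
  have I4 : Integrable (fun η => 8 * |X β h η n - A ρ β h n| ^ 4 + 8 * (K ^ 4 * (n : ℝ) ^ 4)) (law d ρ) :=
    (i4.const_mul 8).add (integrable_const _)
  have I2 : Integrable (fun η => 2 * |X β h η n - A ρ β h n| ^ 2 + 2 * (K ^ 2 * (n : ℝ) ^ 2)) (law d ρ) :=
    (i2.const_mul 2).add (integrable_const _)
  have J4 : Integrable (fun η => HH ρ β h η n ^ 4) (law d ρ) := by
    refine I4.mono' (hmeas.pow_const 4).aestronglyMeasurable (Eventually.of_forall fun η => ?_)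
    rw [Real.norm_eq_abs, abs_of_nonneg (by positivity)]
    exact p4 η
  have J2 : Integrable (fun η => HH ρ β h η n ^ 2) (law d ρ) := by
    refine I2.mono' (hmeas.pow_const 2).aestronglyMeasurable (Eventually.of_forall fun η => ?_)
    rw [Real.norm_eq_abs, abs_of_nonneg (by positivity)]
    exact p2 η
  have J1 : Integrable (fun η => HH ρ β h η n) (law d ρ) := by
    unfold HH
    exact (integrable_const _).sub (concU hd hρ β h n).1
  refine ⟨J4, J2, J1, ?_, ?_⟩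
  · have h1 := integral_mono J4 I4 p4
    rw [integral_add (i4.const_mul 8) (integrable_const _), integral_const_mul, integral_const] at h1
    simp only [probReal_univ, one_smul] at h1
    have h2 : (n : ℝ) ^ 2 ≤ (n : ℝ) ^ 4 := pow_le_pow_right₀ hn1 (by norm_num)
    have h3 : C4 * (n : ℝ) ^ 2 ≤ C4 * (n : ℝ) ^ 4 := mul_le_mul_of_nonneg_left h2 hC4
    have h4 : 0 ≤ 2 * (C2 + K ^ 2) * (n : ℝ) ^ 4 := by positivity
    linarith
  · have h1 := integral_mono J2 I2 p2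
    rw [integral_add (i2.const_mul 2) (integrable_const _), integral_const_mul, integral_const] at h1
    simp only [probReal_univ, one_smul] at h1
    have h2 : (n : ℝ) ≤ (n : ℝ) ^ 2 := le_self_pow₀ hn1 (by norm_num)
    have h3 : C2 * (n : ℝ) ≤ C2 * (n : ℝ) ^ 2 := mul_le_mul_of_nonneg_left h2 hC2
    have h4 : 0 ≤ 8 * (C4 + K ^ 4) * (n : ℝ) ^ 2 := by positivity
    linarith

/-- (0.3) for a tilt with `lam h = lam 0`. -/
theorem H_mean_nonneg (hd : 0 < d) (hρ : EM ρ) (β : ℝ) (h : Vec d)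
    (hh : lam ρ β h ≤ lam ρ β (0 : Vec d)) (n : ℕ) : 0 ≤ ∫ η, HH ρ β h η n ∂(law d ρ) := by
  have h1 : ∫ η, HH ρ β h η n ∂(law d ρ) = n * lam ρ β (0 : Vec d) - A ρ β h n := by
    unfold HH A
    rw [integral_sub (integrable_const _) (concU hd hρ β h n).1, integral_const]
    simp
  rw [h1]
  have h2 := A_le_lam hd hρ β h n
  have h3 : (n : ℝ) * lam ρ β h ≤ n * lam ρ β (0 : Vec d) :=
    mul_le_mul_of_nonneg_left hh (Nat.cast_nonneg n)
  linarith

end Pool.Agent.W_7d29a1_h3
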