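import Pool.Agent.W_7d29a1_h3.Wt
import Pool.Agent.W_7d29a1_h3.Ind

/-!
Microscopic moves.
-/

namespace Pool.Agent.W_7d29a1_h3

open MeasureTheory ProbabilityTheory Filter Topology Pool.Agent.W_MP_7d29a1_pr
  Pool.Agent.W_7d29a1_h46 Pool.Agent.W_7d29a1_h46u

variable {d : ℕ} {ρ : Measure ℝ} [IsProbabilityMeasure ρ]

/-- TASK Mom4. (0.6) one path: for `adm n y` some walk `s` has `pos s n = y` (`adm_iff`), so
`V ≥ exp (-n lam 0) exp (β energy s)`, and `∫ exp (-β energy s) = (∫ exp (-β t) dρ)^n`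
(`IID.integral_exp_energy` with `FreeV_iid`, or `indep_prod`), Markov. -/
theorem micro (j0 : Fin d) (hρ : EM ρ) (β : ℝ) :
    ∃ C : ℝ, 0 < C ∧ ∀ (n : ℕ) (y : Site d), adm n y →
      (law d ρ).real {η | ¬ Real.exp (-(C * n)) ≤ Vp ρ β η n y} ≤ Real.exp (-n) := by
  obtain ⟨L, hL⟩ : ∃ L : ℝ, L = lam ρ β (0 : Vec d) := ⟨_, rfl⟩
  obtain ⟨m, hm⟩ : ∃ m : ℝ, m = ∫ t, Real.exp (-β * t) ∂ρ := ⟨_, rfl⟩
  have hm0 : 0 < m := by
    rw [hm]
    exact integral_exp_pos (hρ (-β))
  refine ⟨|L| + |Real.log m| + 1, by positivity, fun n y hy => ?_⟩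
  obtain ⟨s, hs⟩ := (adm_iff j0).1 hy
  have hE := (FreeV_iid (d := d) (ρ := ρ)).integral_exp_energy (hρ (-β)) s
  rw [← hm] at hE
  have hsub : {η : Env d | ¬ Real.exp (-((|L| + |Real.log m| + 1) * n)) ≤ Vp ρ β η n y} ⊆
      {η : Env d | Real.exp ((|Real.log m| + 1) * n) ≤ Real.exp (-β * energy η s)} := by
    intro η hη
    have h1 : Vp ρ β η n y < Real.exp (-((|L| + |Real.log m| + 1) * n)) := not_le.1 hη
    have h2 : wgt β 0 η s ≤ ZT β 0 η (toP n y) := by
      classical
      unfold ZT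
      have h3 := Finset.single_le_sum (f := fun q : Fin n → Step d =>
        if q ∈ toP n y then wgt β 0 η q else 0) (fun q _ => by
          split_ifs
          · exact (wgt_pos _ _ _ _).le
          · exact le_rfl) (Finset.mem_univ s)
      rw [if_pos hs] at h3
      exact h3
    have h4 : wgt β (0 : Vec d) η s = Real.exp (β * energy η s) := by
      unfold wgt
      rw [inner_zero_left, zero_add]
    rw [h4] at h2
    have h5 : Real.exp (-(n * L)) * Real.exp (β * energy η s) ≤ Vp ρ β η n y := by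
      unfold Vp V
      rw [← hL]
      exact mul_le_mul_of_nonneg_left h2 (Real.exp_pos _).le
    have h6 := h5.trans_lt h1
    rw [← Real.exp_add, Real.exp_lt_exp] at h6
    show Real.exp ((|Real.log m| + 1) * n) ≤ Real.exp (-β * energy η s)
    rw [Real.exp_le_exp]
    have h7 : (n : ℝ) * L ≤ |L| * n := by
      rw [mul_comm]
      exact mul_le_mul_of_nonneg_right (le_abs_self L) (Nat.cast_nonneg n)
    nlinarith [h6, h7]
  have hM := mul_meas_ge_le_integral_of_nonneg (μ := law d ρ)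
    (Filter.Eventually.of_forall fun η => (Real.exp_pos (-β * energy η s)).le) hE.1
    (Real.exp ((|Real.log m| + 1) * n))
  rw [hE.2] at hM
  have h8 : (law d ρ).real {η | ¬ Real.exp (-((|L| + |Real.log m| + 1) * n)) ≤ Vp ρ β η n y} ≤
      (law d ρ).real {η : Env d | Real.exp ((|Real.log m| + 1) * n) ≤
        Real.exp (-β * energy η s)} :=
    measureReal_mono hsub
  refine h8.trans ?_
  have h9 : m ^ n ≤ Real.exp (|Real.log m| * n) := by
    have h10 : m = Real.exp (Real.log m) := (Real.exp_log hm0).symm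
    calc m ^ n = Real.exp (Real.log m) ^ n := by rw [← h10]
      _ = Real.exp (n * Real.log m) := (Real.exp_nat_mul _ _).symm
      _ ≤ Real.exp (|Real.log m| * n) := by
        apply Real.exp_le_exp.2
        rw [mul_comm]
        exact mul_le_mul_of_nonneg_right (le_abs_self _) (Nat.cast_nonneg n)
  have h11 : Real.exp ((|Real.log m| + 1) * n) * Real.exp (-(n : ℝ)) =
      Real.exp (|Real.log m| * n) := by
    rw [← Real.exp_add]
    congr 1
    ring
  have h12 := hM.trans (h9.trans h11.ge)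
  exact le_of_mul_le_mul_left h12 (Real.exp_pos _)

end Pool.Agent.W_7d29a1_h3
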