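import Pool.Agent.W_7d29a1_h3.MomA
import Pool.Agent.W_7d29a1_h3.MomB
import Pool.Agent.W_7d29a1_h3.MomC
import Pool.Agent.W_7d29a1_h3.SymB

/-!
The means of the point to point passage times.
-/

namespace Pool.Agent.W_7d29a1_h3

open MeasureTheory ProbabilityTheory Filter Topology Pool.Agent.W_MP_7d29a1_pr
  Pool.Agent.W_7d29a1_h46 Pool.Agent.W_7d29a1_h46u

variable {d : ℕ} {ρ : Measure ℝ} [IsProbabilityMeasure ρ]

private theorem MeanA_int (j0 : Fin d) (hρ : EM ρ) (β : ℝ) {n : ℕ} {y : Site d} (h : adm n y) :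
    Integrable (fun η => -Real.log (V ρ β η (toP n y))) (law d ρ) :=
  (concE hρ β ((adm_iff j0).1 h)).1.neg

/-- TASK Mean1. (0.5). -/
theorem g_nonneg (j0 : Fin d) (hρ : EM ρ) (β : ℝ) {n : ℕ} {y : Site d} (h : adm n y) :
    0 ≤ g ρ β n y := by
  have hd : 0 < d := j0.pos
  obtain ⟨C, -, hC⟩ := H_four hd hρ β (0 : Vec d)
  have h1 := H_mean_nonneg hd hρ β (0 : Vec d) le_rfl n
  refine h1.trans ?_
  unfold g gE
  refine integral_mono (hC n).2.2.1 (MeanA_int j0 hρ β h) fun η => ?_
  have h2 : V ρ β η (toP n y) ≤ Real.exp (-HH ρ β (0 : Vec d) η n) := Vp_le_H j0 η n y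
  have h3 := Real.log_le_log (V_pos η ((adm_iff j0).1 h)) h2
  rw [Real.log_exp] at h3
  show HH ρ β (0 : Vec d) η n ≤ -Real.log (V ρ β η (toP n y))
  linarith

theorem g_add (j0 : Fin d) (hρ : EM ρ) (β : ℝ) {m n : ℕ} {x y : Site d} (h : adm m x)
    (h' : adm n y) : g ρ β (m + n) (x + y) ≤ g ρ β m x + g ρ β n y := by
  have h'' : adm (m + n) (x + y) := adm_add h h'
  have e1 : g ρ β n y = ∫ η, -Real.log (V ρ β (sh m x η) (toP n y)) ∂(law d ρ) :=
    (LawU_integral (mp_sh m x) (MeanA_int j0 hρ β h').aestronglyMeasurable).symm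
  have i1 : Integrable (fun η => -Real.log (V ρ β (sh m x η) (toP n y))) (law d ρ) :=
    (mp_sh m x).integrable_comp_of_integrable (MeanA_int j0 hρ β h')
  rw [e1]
  unfold g gE
  rw [← integral_add (MeanA_int j0 hρ β h) i1]
  refine integral_mono (MeanA_int j0 hρ β h'') ((MeanA_int j0 hρ β h).add i1) fun η => ?_
  have h2 : V ρ β η (toP m x) * V ρ β (sh m x η) (toP n y) ≤ V ρ β η (toP (m + n) (x + y)) :=
    Vp_add η m n x y
  have p1 : 0 < V ρ β η (toP m x) := V_pos η ((adm_iff j0).1 h)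
  have p2 : 0 < V ρ β (sh m x η) (toP n y) := V_pos _ ((adm_iff j0).1 h')
  have h3 := Real.log_le_log (mul_pos p1 p2) h2
  rw [Real.log_mul p1.ne' p2.ne'] at h3
  show -Real.log (V ρ β η (toP (m + n) (x + y))) ≤
    -Real.log (V ρ β η (toP m x)) + -Real.log (V ρ β (sh m x η) (toP n y))
  linarith

theorem g_le (j0 : Fin d) (hρ : EM ρ) (β : ℝ) :
    ∃ C : ℝ, 0 < C ∧ ∀ (n : ℕ) (y : Site d), adm n y → g ρ β n y ≤ C * n := by
  obtain ⟨L, hL⟩ : ∃ L : ℝ, L = lam ρ β (0 : Vec d) := ⟨_, rfl⟩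
  obtain ⟨m, hm⟩ : ∃ m : ℝ, m = ∫ t, Real.exp (-β * t) ∂ρ := ⟨_, rfl⟩
  have hm0 : 0 < m := by
    rw [hm]
    exact integral_exp_pos (hρ (-β))
  refine ⟨|L| + |Real.log m| + 1, by positivity, fun n y hy => ?_⟩
  obtain ⟨s, hs⟩ := (adm_iff j0).1 hy
  have hE := (FreeV_iid (d := d) (ρ := ρ)).integral_exp_energy (hρ (-β)) s
  rw [← hm] at hE
  have hpt : ∀ η : Env d, -Real.log (V ρ β η (toP n y)) ≤
      (n * L + n * Real.log m - 1) + (m ^ n)⁻¹ * Real.exp (-β * energy η s) := by
    intro η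
    have h2 : wgt β 0 η s ≤ ZT β 0 η (toP n y) := by
      classical
      unfold ZT
      have h3 := Finset.single_le_sum (f := fun q : Fin n → Step d =>
        if q ∈ toP n y then wgt β 0 η q else 0) (fun q _ => by
          split_ifs
          · exact (wgt_pos _ _ _ _).le
          · exact le_rfl) (Finset.mem_univ s)
      rw [if_pos hs] at h3
      exact h3
    have h4 : wgt β (0 : Vec d) η s = Real.exp (β * energy η s) := by
      unfold wgt
      rw [inner_zero_left, zero_add]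
    rw [h4] at h2
    have h5 : Real.exp (-(n * L)) * Real.exp (β * energy η s) ≤ V ρ β η (toP n y) := by
      unfold V
      rw [← hL]
      exact mul_le_mul_of_nonneg_left h2 (Real.exp_pos _).le
    rw [← Real.exp_add] at h5
    have h6 := Real.log_le_log (Real.exp_pos _) h5
    rw [Real.log_exp] at h6
    have h7 : (m ^ n)⁻¹ * Real.exp (-β * energy η s) =
        Real.exp (-β * energy η s - n * Real.log m) := by
      rw [Real.exp_sub, Real.exp_nat_mul, Real.exp_log hm0, div_eq_inv_mul]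
    have h8 := Real.add_one_le_exp (-β * energy η s - n * Real.log m)
    rw [h7]
    linarith
  have hi : Integrable (fun η : Env d => (n * L + n * Real.log m - 1) +
      (m ^ n)⁻¹ * Real.exp (-β * energy η s)) (law d ρ) :=
    (integrable_const _).add (hE.1.const_mul _)
  have hg : g ρ β n y ≤ ∫ η, ((n * L + n * Real.log m - 1) +
      (m ^ n)⁻¹ * Real.exp (-β * energy η s)) ∂(law d ρ) := by
    unfold g gE
    exact integral_mono (MeanA_int j0 hρ β hy) hi hpt
  have hv : ∫ η, ((n * L + n * Real.log m - 1) +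
      (m ^ n)⁻¹ * Real.exp (-β * energy η s)) ∂(law d ρ) = n * L + n * Real.log m := by
    rw [integral_add (integrable_const _) (hE.1.const_mul _), integral_const_mul, hE.2,
      inv_mul_cancel₀ (pow_pos hm0 n).ne']
    simp
  rw [hv] at hg
  refine hg.trans ?_
  have h1 : (n : ℝ) * L ≤ n * |L| := mul_le_mul_of_nonneg_left (le_abs_self L) (Nat.cast_nonneg n)
  have h2 : (n : ℝ) * Real.log m ≤ n * |Real.log m| :=
    mul_le_mul_of_nonneg_left (le_abs_self _) (Nat.cast_nonneg n)
  have h3 : (0 : ℝ) ≤ n := Nat.cast_nonneg n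
  linarith

private theorem MeanA_adm {L : ℕ} {x : Site d} (hx : adm L x) (hL : adm L (0 : Site d)) (i : ℕ) :
    ∀ j ≤ i, adm (i * L) (j • x) := by
  induction i with
  | zero =>
    intro j hj
    have h0 : j = 0 := by omega
    subst h0
    rw [zero_smul, zero_mul]
    exact adm_zero 0
  | succ i ih =>
    intro j hj
    rw [Nat.succ_mul]
    rcases Nat.lt_or_ge i j with h1 | h1
    · have h2 : j = i + 1 := by omega
      subst h2
      rw [succ_nsmul]
      exact adm_add (ih i le_rfl) hx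
    · have h3 := adm_add (ih j h1) hL
      rwa [add_zero] at h3

/-- Iterated: `i` blocks, `j` of them climb. -/
theorem g_mul (j0 : Fin d) (hρ : EM ρ) (β : ℝ) {L : ℕ} {x : Site d} (hx : adm L x)
    (hL : adm L (0 : Site d)) (i j : ℕ) (hj : j ≤ i) :
    g ρ β (i * L) (j • x) ≤ j * g ρ β L x + ((i : ℝ) - j) * g ρ β L (0 : Site d) := by
  induction i generalizing j with
  | zero =>
    have h0 : j = 0 := by omega
    subst h0
    obtain ⟨C, -, hC⟩ := g_le (d := d) j0 hρ β
    have h1 := hC (0 * L) ((0 : ℕ) • x) (MeanA_adm hx hL 0 0 le_rfl)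
    simpa using h1
  | succ i ih =>
    rcases Nat.lt_or_ge i j with h1 | h1
    · have h2 : j = i + 1 := by omega
      subst h2
      have h3 := g_add j0 hρ β (MeanA_adm hx hL i i le_rfl) hx
      have h4 := ih i le_rfl
      rw [← Nat.succ_mul, ← succ_nsmul] at h3
      push_cast
      linarith
    · have h3 := g_add j0 hρ β (MeanA_adm hx hL i j h1) hL
      have h4 := ih j h1
      rw [← Nat.succ_mul, add_zero] at h3
      push_cast
      linarith

end Pool.Agent.W_7d29a1_h3
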