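import Pool.Agent.W_7d29a1_h3.Conc

/-!
Tails and maxima from the concentration.
-/

namespace Pool.Agent.W_7d29a1_h3

open MeasureTheory ProbabilityTheory Filter Topology Pool.Agent.W_MP_7d29a1_pr
  Pool.Agent.W_7d29a1_h46 Pool.Agent.W_7d29a1_h46u

variable {d : ℕ} {ρ : Measure ℝ} [IsProbabilityMeasure ρ]

/-- TASK Mom1. Markov for the exponential moment: upper tail of `T^E = -log V`. -/
theorem concE_up (hρ : EM ρ) (β : ℝ) {n : ℕ} {E : Set (Fin n → Step d)} (hE : E.Nonempty)
    {t z : ℝ} (ht : 0 ≤ t) (ht1 : t ≤ 1) :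
    (law d ρ).real {η | ¬ Real.exp (-(gE ρ β E + z)) ≤ V ρ β η E} ≤
      Real.exp (Kc β ρ ^ 2 * t ^ 2 * n - t * z) := by
  obtain ⟨-, h2⟩ := concE (d := d) hρ β hE
  obtain ⟨hi, hb⟩ := h2 t (by rw [abs_of_nonneg ht]; exact ht1)
  have hm := mul_meas_ge_le_integral_of_nonneg
    (Filter.Eventually.of_forall fun η => (Real.exp_pos _).le) hi (Real.exp (t * z))
  have hsub : {η : Env d | ¬ Real.exp (-(gE ρ β E + z)) ≤ V ρ β η E} ⊆
      {η | Real.exp (t * z) ≤ Real.exp (t * (-Real.log (V ρ β η E) - gE ρ β E))} := by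
    intro η hη
    simp only [Set.mem_ofPred_eq, not_le] at hη ⊢
    rw [Real.exp_le_exp]
    have h3 := (Real.log_lt_iff_lt_exp (V_pos (ρ := ρ) (β := β) η hE)).2 hη
    apply mul_le_mul_of_nonneg_left _ ht
    linarith
  have h4 : (law d ρ).real {η | ¬ Real.exp (-(gE ρ β E + z)) ≤ V ρ β η E} ≤
      (law d ρ).real
        {η | Real.exp (t * z) ≤ Real.exp (t * (-Real.log (V ρ β η E) - gE ρ β E))} :=
    measureReal_mono hsub
  have h5 : Real.exp (t * z) *
      (law d ρ).real {η | ¬ Real.exp (-(gE ρ β E + z)) ≤ V ρ β η E} ≤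
      Real.exp (Kc β ρ ^ 2 * t ^ 2 * n) :=
    ((mul_le_mul_of_nonneg_left h4 (Real.exp_pos _).le).trans hm).trans hb
  rw [Real.exp_sub, le_div_iff₀ (Real.exp_pos _), mul_comm]
  exact h5

theorem concE_dn (hρ : EM ρ) (β : ℝ) {n : ℕ} {E : Set (Fin n → Step d)} (hE : E.Nonempty)
    {t z : ℝ} (ht : 0 ≤ t) (ht1 : t ≤ 1) :
    (law d ρ).real {η | Real.exp (-(gE ρ β E - z)) ≤ V ρ β η E} ≤
      Real.exp (Kc β ρ ^ 2 * t ^ 2 * n - t * z) := by
  obtain ⟨-, h2⟩ := concE (d := d) hρ β hE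
  obtain ⟨hi, hb⟩ := h2 (-t) (by rw [abs_neg, abs_of_nonneg ht]; exact ht1)
  have hm := mul_meas_ge_le_integral_of_nonneg
    (Filter.Eventually.of_forall fun η => (Real.exp_pos _).le) hi (Real.exp (t * z))
  have hsub : {η : Env d | Real.exp (-(gE ρ β E - z)) ≤ V ρ β η E} ⊆
      {η | Real.exp (t * z) ≤ Real.exp (-t * (-Real.log (V ρ β η E) - gE ρ β E))} := by
    intro η hη
    simp only [Set.mem_ofPred_eq] at hη ⊢
    rw [Real.exp_le_exp]
    have h3 := (Real.le_log_iff_exp_le (V_pos (ρ := ρ) (β := β) η hE)).2 hη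
    have h6 : t * z ≤ t * (gE ρ β E + Real.log (V ρ β η E)) := by
      apply mul_le_mul_of_nonneg_left _ ht
      linarith
    have h7 : -t * (-Real.log (V ρ β η E) - gE ρ β E) =
        t * (gE ρ β E + Real.log (V ρ β η E)) := by ring
    rw [h7]
    exact h6
  have h4 : (law d ρ).real {η | Real.exp (-(gE ρ β E - z)) ≤ V ρ β η E} ≤
      (law d ρ).real
        {η | Real.exp (t * z) ≤ Real.exp (-t * (-Real.log (V ρ β η E) - gE ρ β E))} :=
    measureReal_mono hsub
  have h5 : Real.exp (t * z) *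
      (law d ρ).real {η | Real.exp (-(gE ρ β E - z)) ≤ V ρ β η E} ≤
      Real.exp (Kc β ρ ^ 2 * (-t) ^ 2 * n) :=
    ((mul_le_mul_of_nonneg_left h4 (Real.exp_pos _).le).trans hm).trans hb
  rw [neg_sq] at h5
  rw [Real.exp_sub, le_div_iff₀ (Real.exp_pos _), mul_comm]
  exact h5

/-- TASK Mom2. `E max_{i ∈ F} |T_i - g_i| ≤ √n (log (2 card) + K²)`: with `t = 1/√n`,
`exp (t max) ≤ ∑ (exp (t (T - g)) + exp (-t (T - g)))`, then Jensen (`log` concave). -/
theorem concE_max (hρ : EM ρ) (β : ℝ) {n : ℕ} (hn : 1 ≤ n) (F : Finset (Site d)) (hF : F.Nonempty)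
    (hadm : ∀ y ∈ F, (toP n y).Nonempty) :
    Integrable (fun η => F.sup' hF fun y => |(-Real.log (Vp ρ β η n y)) - g ρ β n y|) (law d ρ) ∧
    ∫ η, F.sup' hF (fun y => |(-Real.log (Vp ρ β η n y)) - g ρ β n y|) ∂(law d ρ) ≤
      Real.sqrt n * (Real.log (2 * F.card) + Kc β ρ ^ 2) := by
  classical
  have hX : ∀ y ∈ F, Integrable (fun η => |(-Real.log (Vp ρ β η n y)) - g ρ β n y|) (law d ρ) :=
    fun y hy => (((concE (d := d) hρ β (hadm y hy)).1).neg.sub (integrable_const _)).abs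
  have hmeas : Measurable fun η : Env d =>
      F.sup' hF fun y => |(-Real.log (Vp ρ β η n y)) - g ρ β n y| := by
    have h1 : Measurable (F.sup' hF fun y => fun η : Env d =>
        |(-Real.log (Vp ρ β η n y)) - g ρ β n y|) := by
      apply Finset.measurable_sup'
      intro y _
      exact ((((measurable_V (ρ := ρ) (β := β) (toP n y)).log).neg).sub_const _).abs
    have h2 : (F.sup' hF fun y => fun η : Env d =>
        |(-Real.log (Vp ρ β η n y)) - g ρ β n y|) =
        fun η : Env d => F.sup' hF fun y => |(-Real.log (Vp ρ β η n y)) - g ρ β n y| := by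
      funext η
      rw [Finset.sup'_apply]
    rw [← h2]
    exact h1
  have hnn : ∀ η : Env d, 0 ≤ F.sup' hF fun y => |(-Real.log (Vp ρ β η n y)) - g ρ β n y| := by
    intro η
    obtain ⟨y, hy⟩ := hF
    exact (abs_nonneg _).trans
      (Finset.le_sup' (fun y => |(-Real.log (Vp ρ β η n y)) - g ρ β n y|) hy)
  have hint : Integrable
      (fun η => F.sup' hF fun y => |(-Real.log (Vp ρ β η n y)) - g ρ β n y|) (law d ρ) := by
    refine Integrable.mono' (integrable_finsetSum F hX) hmeas.aestronglyMeasurable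
      (Filter.Eventually.of_forall fun η => ?_)
    rw [Real.norm_eq_abs, abs_of_nonneg (hnn η)]
    refine Finset.sup'_le _ _ fun y hy => ?_
    exact Finset.single_le_sum
      (f := fun y => |(-Real.log (Vp ρ β η n y)) - g ρ β n y|) (fun _ _ => abs_nonneg _) hy
  refine ⟨hint, ?_⟩
  have hn0 : (0 : ℝ) < n := by exact_mod_cast hn
  have hs : 0 < Real.sqrt n := Real.sqrt_pos.2 hn0
  have hs1 : 1 ≤ Real.sqrt n := by
    rw [Real.one_le_sqrt]
    exact_mod_cast hn
  set t : ℝ := 1 / Real.sqrt n with ht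
  have ht0 : 0 < t := by positivity
  have ht1 : t ≤ 1 := by
    rw [ht, div_le_one hs]
    exact hs1
  have htt : t ^ 2 * n = 1 := by
    rw [ht, div_pow, Real.sq_sqrt hn0.le]
    field_simp
  set A : ℝ := Real.log (2 * F.card) + Kc β ρ ^ 2 with hA
  have hc : (0 : ℝ) < F.card := by exact_mod_cast Finset.card_pos.2 hF
  -- the two exponential moments
  have hup : ∀ y ∈ F, Integrable
      (fun η => Real.exp (t * (-Real.log (Vp ρ β η n y) - g ρ β n y))) (law d ρ) ∧
      ∫ η, Real.exp (t * (-Real.log (Vp ρ β η n y) - g ρ β n y)) ∂(law d ρ) ≤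
        Real.exp (Kc β ρ ^ 2) := by
    intro y hy
    obtain ⟨h1, h2⟩ := (concE (d := d) hρ β (hadm y hy)).2 t (by rw [abs_of_pos ht0]; exact ht1)
    refine ⟨h1, h2.trans (le_of_eq ?_)⟩
    congr 1
    rw [mul_assoc, htt, mul_one]
  have hdn : ∀ y ∈ F, Integrable
      (fun η => Real.exp (-t * (-Real.log (Vp ρ β η n y) - g ρ β n y))) (law d ρ) ∧
      ∫ η, Real.exp (-t * (-Real.log (Vp ρ β η n y) - g ρ β n y)) ∂(law d ρ) ≤
        Real.exp (Kc β ρ ^ 2) := by
    intro y hy
    obtain ⟨h1, h2⟩ := (concE (d := d) hρ β (hadm y hy)).2 (-t)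
      (by rw [abs_neg, abs_of_pos ht0]; exact ht1)
    refine ⟨h1, h2.trans (le_of_eq ?_)⟩
    congr 1
    rw [neg_sq, mul_assoc, htt, mul_one]
  have hsumI : Integrable (fun η => Real.exp (-A) * ∑ y ∈ F,
      (Real.exp (t * (-Real.log (Vp ρ β η n y) - g ρ β n y)) +
        Real.exp (-t * (-Real.log (Vp ρ β η n y) - g ρ β n y)))) (law d ρ) := by
    refine Integrable.const_mul ?_ _
    exact integrable_finsetSum F fun y hy => (hup y hy).1.add (hdn y hy).1
  have hpt : ∀ η : Env d,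
      1 + t * (F.sup' hF fun y => |(-Real.log (Vp ρ β η n y)) - g ρ β n y|) - A ≤
      Real.exp (-A) * ∑ y ∈ F,
      (Real.exp (t * (-Real.log (Vp ρ β η n y) - g ρ β n y)) +
        Real.exp (-t * (-Real.log (Vp ρ β η n y) - g ρ β n y))) := by
    intro η
    obtain ⟨y, hy, hye⟩ := Finset.exists_mem_eq_sup' hF
      fun y => |(-Real.log (Vp ρ β η n y)) - g ρ β n y|
    rw [hye]
    set x : ℝ := (-Real.log (Vp ρ β η n y)) - g ρ β n y with hx
    have h1 : Real.exp (t * |x|) ≤ Real.exp (t * x) + Real.exp (-t * x) := by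
      rcases abs_choice x with h | h
      · rw [h]
        linarith [Real.exp_pos (-t * x)]
      · rw [h, show t * -x = -t * x by ring]
        linarith [Real.exp_pos (t * x)]
    have h2 : Real.exp (t * x) + Real.exp (-t * x) ≤ ∑ y ∈ F,
        (Real.exp (t * (-Real.log (Vp ρ β η n y) - g ρ β n y)) +
        Real.exp (-t * (-Real.log (Vp ρ β η n y) - g ρ β n y))) :=
      Finset.single_le_sum
        (f := fun y => Real.exp (t * (-Real.log (Vp ρ β η n y) - g ρ β n y)) +
          Real.exp (-t * (-Real.log (Vp ρ β η n y) - g ρ β n y)))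
        (fun _ _ => (add_pos (Real.exp_pos _) (Real.exp_pos _)).le) hy
    have h3 : 1 + t * |x| - A ≤ Real.exp (-A) * Real.exp (t * |x|) := by
      rw [← Real.exp_add]
      linarith [Real.add_one_le_exp (-A + t * |x|)]
    exact h3.trans (mul_le_mul_of_nonneg_left (h1.trans h2) (Real.exp_pos _).le)
  have hI1 : Integrable (fun η =>
      1 + t * (F.sup' hF fun y => |(-Real.log (Vp ρ β η n y)) - g ρ β n y|) - A) (law d ρ) :=
    ((integrable_const _).add (hint.const_mul t)).sub (integrable_const _)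
  have hmain := integral_mono hI1 hsumI hpt
  have hL : ∫ η, (1 + t * (F.sup' hF fun y => |(-Real.log (Vp ρ β η n y)) - g ρ β n y|) - A)
      ∂(law d ρ) =
      1 + t * ∫ η, (F.sup' hF fun y => |(-Real.log (Vp ρ β η n y)) - g ρ β n y|) ∂(law d ρ)
        - A := by
    have ha : Integrable (fun η =>
        1 + t * (F.sup' hF fun y => |(-Real.log (Vp ρ β η n y)) - g ρ β n y|)) (law d ρ) :=
      (integrable_const _).add (hint.const_mul t)
    rw [integral_sub ha (integrable_const _),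
      integral_add (integrable_const _) (hint.const_mul t), integral_const_mul]
    simp
  have hR : ∫ η, (Real.exp (-A) * ∑ y ∈ F,
      (Real.exp (t * (-Real.log (Vp ρ β η n y) - g ρ β n y)) +
        Real.exp (-t * (-Real.log (Vp ρ β η n y) - g ρ β n y)))) ∂(law d ρ) ≤ 1 := by
    have hi : ∀ y ∈ F, Integrable (fun η =>
        Real.exp (t * (-Real.log (Vp ρ β η n y) - g ρ β n y)) +
        Real.exp (-t * (-Real.log (Vp ρ β η n y) - g ρ β n y))) (law d ρ) :=
      fun y hy => (hup y hy).1.add (hdn y hy).1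
    rw [integral_const_mul, integral_finsetSum F hi]
    have h1 : ∀ y ∈ F, ∫ η, (Real.exp (t * (-Real.log (Vp ρ β η n y) - g ρ β n y)) +
        Real.exp (-t * (-Real.log (Vp ρ β η n y) - g ρ β n y))) ∂(law d ρ) ≤
        2 * Real.exp (Kc β ρ ^ 2) := by
      intro y hy
      rw [integral_add (hup y hy).1 (hdn y hy).1]
      linarith [(hup y hy).2, (hdn y hy).2]
    have h2 := Finset.sum_le_sum h1
    rw [Finset.sum_const, nsmul_eq_mul] at h2
    have h3 : Real.exp (-A) * ((F.card : ℝ) * (2 * Real.exp (Kc β ρ ^ 2))) = 1 := by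
      have h4 : (F.card : ℝ) * (2 * Real.exp (Kc β ρ ^ 2)) = Real.exp A := by
        rw [hA, Real.exp_add, Real.exp_log (by positivity)]
        ring
      rw [h4, ← Real.exp_add]
      simp
    calc _ ≤ Real.exp (-A) * ((F.card : ℝ) * (2 * Real.exp (Kc β ρ ^ 2))) :=
          mul_le_mul_of_nonneg_left h2 (Real.exp_pos _).le
      _ = 1 := h3
  have hfin : t * ∫ η, (F.sup' hF fun y => |(-Real.log (Vp ρ β η n y)) - g ρ β n y|)
      ∂(law d ρ) ≤ A := by
    linarith [hmain, hL, hR]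
  have h9 : ∫ η, (F.sup' hF fun y => |(-Real.log (Vp ρ β η n y)) - g ρ β n y|) ∂(law d ρ) =
      Real.sqrt n * (t * ∫ η, (F.sup' hF fun y => |(-Real.log (Vp ρ β η n y)) - g ρ β n y|)
        ∂(law d ρ)) := by
    rw [← mul_assoc, ht, mul_one_div_cancel hs.ne', one_mul]
  rw [h9]
  exact mul_le_mul_of_nonneg_left hfin hs.le

end Pool.Agent.W_7d29a1_h3
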