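import Pool.Agent.W_7d29a1_h3.CheapB
import Pool.Agent.W_7d29a1_h3.AeX

/-!
No corner at velocity `0`, point to point: if `lam` is larger than `lam 0` off `0`, then the polymer measure gives
the end points at distance `δ n` mass at least `exp (-ε δ n)`.
-/

namespace Pool.Agent.W_7d29a1_h3

open MeasureTheory ProbabilityTheory Filter Topology Pool.Agent.W_MP_7d29a1_pr
  Pool.Agent.W_7d29a1_h46 Pool.Agent.W_7d29a1_h46u

variable {d : ℕ} {ρ : Measure ℝ} [IsProbabilityMeasure ρ]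

private theorem PtP_es (j : Fin d) (c : ℤ) : (c • es j : Site d) j = c := by
  simp [es]

private theorem PtP_es_ne {j i : Fin d} (h : i ≠ j) (c : ℤ) : (c • es j : Site d) i = 0 := by
  simp [es, Pi.single_eq_of_ne h]

private theorem PtP_act (j0 j : Fin d) (c : ℤ) (s : Bool) :
    sAct (Equiv.swap j0 j) (fun _ => s) (c • es j0 : Site d) = (if s then c else -c) • es j := by
  funext i
  unfold sAct
  by_cases h : i = j
  · subst h
    rw [Equiv.swap_apply_right, PtP_es, PtP_es]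
    cases s <;> simp
  · have h1 : (Equiv.swap j0 j) i ≠ j0 := by
      intro h2
      rw [Equiv.swap_apply_eq_iff, Equiv.swap_apply_left] at h2
      exact h h2
    rw [PtP_es_ne h1, PtP_es_ne h, mul_zero]

private theorem PtP_g (j0 j : Fin d) (β : ℝ) (L a : ℕ) (s : Bool) :
    g ρ β L ((if s then (a : ℤ) else -a) • es j) = g ρ β L ((a : ℤ) • es j0) := by
  rw [← PtP_act j0 j (a : ℤ) s, g_act]

private theorem PtP_ln_es (j : Fin d) (c : ℤ) : ln (c • es j : Site d) = c.natAbs := by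
  rw [Cat_ln_split _ j, PtP_es]
  have h : ∑ i ∈ Finset.univ.erase j, ((c • es j : Site d) i).natAbs = 0 := by
    refine Finset.sum_eq_zero fun i hi => ?_
    rw [PtP_es_ne (Finset.ne_of_mem_erase hi)]
    rfl
  rw [h, add_zero]

private theorem PtP_ln_sub (y : Site d) (j : Fin d) (c : ℤ) (h : (y j - c).natAbs + c.natAbs = (y j).natAbs) :
    ln (y - c • es j) + c.natAbs = ln y := by
  rw [Cat_ln_split (y - c • es j) j, Cat_ln_split y j, Pi.sub_apply, PtP_es]
  have h1 : ∑ i ∈ Finset.univ.erase j, ((y - c • es j) i).natAbs =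
      ∑ i ∈ Finset.univ.erase j, (y i).natAbs := by
    refine Finset.sum_congr rfl fun i hi => ?_
    rw [Pi.sub_apply, PtP_es_ne (Finset.ne_of_mem_erase hi), sub_zero]
  rw [h1]
  omega

/-- Decomposition of the end point into `k` climbs and a bounded rest. -/
private theorem PtP_dec (j0 : Fin d) (hρ : EM ρ) (β : ℝ) {L a : ℕ} (ha : 0 < a) (hL2 : Even L)
    (ha2 : Even a) (haL : a ≤ L) (N : ℕ) : ∀ y : Site d, ln y ≤ N →
      ∃ (k : ℕ) (z : Site d), k * a + ln z = ln y ∧ ln z ≤ d * a ∧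
        ∀ m : ℕ, adm m z → adm (k * L + m) y ∧
          g ρ β (k * L + m) y ≤ k * g ρ β L ((a : ℤ) • es j0) + g ρ β m z := by
  induction N using Nat.strong_induction_on with
  | _ N ih =>
    intro y hy
    by_cases hall : ∀ j, (y j).natAbs ≤ a
    · refine ⟨0, y, by omega, ?_, fun m hm => ?_⟩
      · unfold ln
        have := Finset.sum_le_card_nsmul Finset.univ (fun j => (y j).natAbs) a fun j _ => hall j
        simpa using this
      · rw [Nat.zero_mul, zero_add, Nat.cast_zero, zero_mul, zero_add]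
        exact ⟨hm, le_rfl⟩
    · push Not at hall
      obtain ⟨j, hj⟩ := hall
      obtain ⟨s, hs⟩ : ∃ s : Bool, (y j - (if s then (a : ℤ) else -a)).natAbs +
          (if s then (a : ℤ) else -a).natAbs = (y j).natAbs := by
        rcases le_total 0 (y j) with h0 | h0
        · refine ⟨true, ?_⟩
          simp only [if_true]
          omega
        · refine ⟨false, ?_⟩
          simp only [Bool.false_eq_true, if_false]
          omega
      obtain ⟨c, hc⟩ : ∃ c : ℤ, c = if s then (a : ℤ) else -a := ⟨_, rfl⟩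
      have hca : c.natAbs = a := by
        rw [hc]
        cases s <;> simp
      rw [← hc] at hs
      have h1 := PtP_ln_sub y j c hs
      rw [hca] at h1
      obtain ⟨k, z, hk, hz, hm⟩ := ih (ln (y - c • es j)) (by omega) (y - c • es j) le_rfl
      refine ⟨k + 1, z, ?_, hz, fun m hmz => ?_⟩
      · rw [Nat.add_mul, one_mul]
        omega
      · obtain ⟨h2, h3⟩ := hm m hmz
        have hadm : adm L (c • es j : Site d) := by
          unfold adm
          rw [PtP_ln_es, hca]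
          obtain ⟨p, hp⟩ := hL2
          obtain ⟨q, hq⟩ := ha2
          omega
        have h4 := adm_add hadm h2
        have h5 := g_add j0 hρ β hadm h2
        have e1 : L + (k * L + m) = (k + 1) * L + m := by ring
        have e2 : c • es j + (y - c • es j) = y := by abel
        rw [e1, e2] at h4 h5
        refine ⟨h4, h5.trans ?_⟩
        rw [hc, PtP_g j0 j β L a s]
        rw [hc] at h3
        push_cast
        linarith

/-- A sublinear bound for the waiting cost. -/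
private theorem PtP_wait (j0 : Fin d) (hρ : EM ρ) (β : ℝ) {η : ℝ} (hη : 0 < η) :
    ∃ C : ℝ, 0 ≤ C ∧ ∀ q : ℕ, g ρ β (2 * q) (0 : Site d) ≤ η * q + C := by
  obtain ⟨C1, hC1, h1⟩ := g_zero_le (d := d) j0 hρ β
  obtain ⟨C2, hC2, h2⟩ := g_le (d := d) j0 hρ β
  have h3 : Tendsto (fun q : ℕ => (q : ℝ) ^ (-(0.48 : ℝ))) atTop (𝓝 0) :=
    (tendsto_rpow_neg_atTop (by norm_num)).comp tendsto_natCast_atTop_atTop
  have h4 := h3.eventually_le_const (by positivity : (0 : ℝ) < η / C1)
  rw [Filter.eventually_atTop] at h4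
  obtain ⟨N, hN⟩ := h4
  refine ⟨C2 * (2 * N), by positivity, fun q => ?_⟩
  rcases Nat.lt_or_ge q (max N 1) with hq | hq
  · have h5 := h2 (2 * q) 0 (adm_zero q)
    have h6 : (q : ℝ) ≤ N := by
      have : q ≤ N := by
        rcases Nat.eq_zero_or_pos N with h0 | h0
        · rw [h0] at hq ⊢
          simpa using hq
        · rw [max_eq_left h0] at hq
          omega
      exact_mod_cast this
    push_cast at h5
    have h7 : 0 ≤ η * q := by positivity
    nlinarith
  · have h5 := h1 q (le_trans (le_max_right _ _) hq)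
    have hq0 : (0 : ℝ) < q := by
      have : 0 < q := lt_of_lt_of_le Nat.one_pos (le_trans (le_max_right _ _) hq)
      exact_mod_cast this
    have h6 : (q : ℝ) ^ (0.52 : ℝ) ≤ η / C1 * q := by
      have e1 := hN q (le_trans (le_max_left _ _) hq)
      have e2 : (q : ℝ) ^ (0.52 : ℝ) = (q : ℝ) ^ (-(0.48 : ℝ)) * q := by
        nth_rewrite 3 [← Real.rpow_one (q : ℝ)]
        rw [← Real.rpow_add hq0]
        norm_num
      rw [e2]
      exact mul_le_mul_of_nonneg_right e1 hq0.le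
    have h7 : C1 * (q : ℝ) ^ (0.52 : ℝ) ≤ η * q := by
      have := mul_le_mul_of_nonneg_left h6 hC1.le
      have e : C1 * (η / C1 * q) = η * q := by field_simp
      linarith
    have h8 : 0 ≤ C2 * (2 * (N : ℝ)) := by positivity
    linarith

/-- TASK PtP1. `cheap` with `κ = 0` for each coordinate (`L, a` the same for all `j`, both signs: `g_act`):
`g L (± a e_j) ≤ ε a`, `g L 0 ≤ ε a`. For `y` with `adm n y`, `ln y ≤ δ n`, `δ = a / (4 L)`, write
`y = ∑_j k_j (± a e_j) + z`, `ln z ≤ d a` (each coordinate even part), use `∑ k_j ≤ ln y / a` blocks of length `L`, then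
blocks of length `L` at `0`, and at the end less than `2 L` steps for `z` (`g_le`): `g_add`. The waiting blocks cost
`g L 0 ≤ C L ^ 0.52` each (`g_zero_le`), so the total is `≤ ε ln y + ε' n + C`: with the mean of a waiting block of length `L'`
`≤ ε' L'`, `L'` large. Statement: the mean cost is at most `ε δ n + C` if `ln y ≤ δ n`. -/
theorem g_small (j0 : Fin d) (hρ : EM ρ) {β : ℝ}
    (hst : ∀ (j : Fin d) (t : ℝ), 0 < t → lam ρ β (0 : Vec d) < lam ρ β (t • ej j)) {ε : ℝ}
    (hε : 0 < ε) : ∃ δ0 : ℝ, 0 < δ0 ∧ ∀ δ : ℝ, 0 < δ → δ ≤ δ0 → ∃ C : ℝ, ∀ (n : ℕ) (y : Site d),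
      adm n y → (ln y : ℝ) ≤ δ * n → g ρ β n y ≤ ε * δ * n + C := by
  obtain ⟨L, a, hL, ha, hL2, ha2, haL, hg, _⟩ := cheap (β := β) j0 hρ (κ := 0) le_rfl
    (fun t ht => hst j0 t ht) (ε := ε / 2) (by positivity)
  rw [zero_add] at hg
  have hLr : (0 : ℝ) < L := by exact_mod_cast hL
  have har : (0 : ℝ) < a := by exact_mod_cast ha
  refine ⟨a / (2 * L), by positivity, fun δ hδ hδ0 => ?_⟩
  obtain ⟨C1, hC1, hw⟩ := PtP_wait (d := d) j0 hρ β (η := ε * δ) (by positivity)
  obtain ⟨C2, hC2, hl⟩ := g_le (d := d) j0 hρ β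
  refine ⟨C1 + C2 * (2 * (d * a + 2)), fun n y hadm hln => ?_⟩
  obtain ⟨k, z, hk, hz, hm⟩ := PtP_dec (d := d) j0 hρ β ha hL2 ha2 haL (ln y) y le_rfl
  have hkr : (k : ℝ) * a ≤ ln y := by
    have : k * a ≤ ln y := by omega
    exact_mod_cast this
  -- the climbs use at most half of the time
  have hkL : (k : ℝ) * L ≤ n / 2 := by
    have e1 : (k : ℝ) * a ≤ a / (2 * L) * n :=
      hkr.trans (hln.trans (mul_le_mul_of_nonneg_right hδ0 (Nat.cast_nonneg n)))
    have e2 : (a : ℝ) / (2 * L) * n = a * (n / (2 * L)) := by ring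
    rw [e2, mul_comm (k : ℝ)] at e1
    have e3 := le_of_mul_le_mul_left e1 har
    have e4 := mul_le_mul_of_nonneg_right e3 hLr.le
    have e5 : (n : ℝ) / (2 * L) * L = n / 2 := by field_simp
    linarith
  have hkL2 : 2 * (k * L) ≤ n := by
    have : ((2 * (k * L) : ℕ) : ℝ) ≤ n := by
      push_cast
      linarith
    exact_mod_cast this
  obtain ⟨m, hmn⟩ : ∃ m, k * L + m = n := ⟨n - k * L, by omega⟩
  have hm2 : n ≤ 2 * m := by omega
  have hpar : (ln z + m) % 2 = 0 := by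
    obtain ⟨h1, h2⟩ := hadm
    obtain ⟨p, hp⟩ := hL2
    obtain ⟨q, hq⟩ := ha2
    have e1 : k * a = 2 * (k * q) := by rw [hq]; ring
    have e2 : k * L = 2 * (k * p) := by rw [hp]; ring
    omega
  have hn0 : (0 : ℝ) ≤ n := Nat.cast_nonneg n
  have hεδn : 0 ≤ ε * δ * n := by positivity
  rcases Nat.lt_or_ge m (d * a + 2) with hsm | hbig
  · have h1 := hl n y hadm
    have h2 : (n : ℝ) ≤ 2 * (d * a + 2) := by
      have : n ≤ 2 * (d * a + 2) := by omega
      exact_mod_cast this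
    have h3 := mul_le_mul_of_nonneg_left h2 hC2.le
    linarith
  · -- the waiting block
    obtain ⟨r, q, hr, hrz, hr2, hrd⟩ : ∃ r q : ℕ, 2 * q + r = m ∧ ln z ≤ r ∧ (ln z + r) % 2 = 0 ∧
        r ≤ d * a + 1 := by
      obtain ⟨p, hp⟩ := ha2
      have e1 : d * a = 2 * (d * p) := by rw [hp]; ring
      refine ⟨d * a + m % 2, (m - (d * a + m % 2)) / 2, ?_, ?_, ?_, ?_⟩ <;> omega
    have hz1 : adm r z := ⟨hrz, hr2⟩
    have h1 := g_add j0 hρ β (adm_zero (d := d) q) hz1
    rw [hr, zero_add] at h1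
    have hmz : adm m z := by
      have := adm_add (adm_zero (d := d) q) hz1
      rwa [hr, zero_add] at this
    obtain ⟨_, h2⟩ := hm m hmz
    rw [hmn] at h2
    have h3 := hw q
    have h4 := hl r z hz1
    have h5 : (r : ℝ) ≤ d * a + 2 := by
      have : r ≤ d * a + 2 := by omega
      exact_mod_cast this
    have h6 : (q : ℝ) ≤ n / 2 := by
      have : 2 * q ≤ n := by omega
      have h7 : ((2 * q : ℕ) : ℝ) ≤ n := by exact_mod_cast this
      push_cast at h7
      linarith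
    have h7 := mul_le_mul_of_nonneg_left h6 (by positivity : 0 ≤ ε * δ)
    have h8 := mul_le_mul_of_nonneg_left h5 hC2.le
    have h9 : (k : ℝ) * g ρ β L ((a : ℤ) • es j0) ≤ ε / 2 * (δ * n) := by
      have e1 := mul_le_mul_of_nonneg_left hg (Nat.cast_nonneg k : (0 : ℝ) ≤ k)
      have e2 := mul_le_mul_of_nonneg_left (hkr.trans hln) (by positivity : 0 ≤ ε / 2)
      nlinarith
    have h10 : 0 ≤ C2 * (d * a + 2) := by positivity
    nlinarith

private theorem PtP_pol (j0 : Fin d) (ρ : Measure ℝ) (β : ℝ) (η : Env d) (n : ℕ) (y : Site d) :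
    Pol β η n {s : Fin n → Step d | pos s n = y} =
      V ρ β η (toP n y) * Real.exp (n * lam ρ β (0 : Vec d) - X β (0 : Vec d) η n) := by
  have hZ : 0 < Z β (0 : Vec d) η n := Z_pos j0.pos β 0 η n
  have h1 : Real.exp (X β (0 : Vec d) η n) = Z β (0 : Vec d) η n := Real.exp_log hZ
  have h2 : Pol β η n {s : Fin n → Step d | pos s n = y} = ZT β 0 η (toP n y) / Z β (0 : Vec d) η n := by
    unfold Pol Z ZT toP
    congr 1
    · refine Finset.sum_congr rfl fun s _ => ?_
      simp [wgt]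
    · refine Finset.sum_congr rfl fun s _ => ?_
      simp [wgt]
  rw [h2, Real.exp_sub, h1]
  unfold V
  rw [Real.exp_neg]
  field_simp

/-- The union bound. -/
private theorem PtP_bad (j0 : Fin d) (hρ : EM ρ) (β : ℝ) {c : ℝ} (hc : 0 < c) :
    ∃ r : ℝ, 0 < r ∧ ∀ n : ℕ, (law d ρ).real {η | ∃ y ∈ (boxF d n), adm n y ∧
      ¬ Real.exp (-(gE ρ β (toP n y) + c * n)) ≤ V ρ β η (toP n y)} ≤
        (2 * n + 1 : ℝ) ^ d * Real.exp (-(r * n)) := by
  classical
  obtain ⟨K, hK⟩ : ∃ K : ℝ, K = Kc β ρ ^ 2 := ⟨_, rfl⟩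
  have hK0 : 0 ≤ K := by rw [hK]; positivity
  obtain ⟨t, ht⟩ : ∃ t : ℝ, t = min 1 (c / (2 * K + 1)) := ⟨_, rfl⟩
  have ht0 : 0 < t := by rw [ht]; positivity
  have ht1 : t ≤ 1 := by rw [ht]; exact min_le_left _ _
  have htc : K * t ≤ c / 2 := by
    have e1 : t ≤ c / (2 * K + 1) := by rw [ht]; exact min_le_right _ _
    rw [le_div_iff₀ (by positivity)] at e1
    nlinarith
  refine ⟨t * c / 2, by positivity, fun n => ?_⟩
  have hset : {η : Env d | ∃ y ∈ (boxF d n), adm n y ∧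
      ¬ Real.exp (-(gE ρ β (toP n y) + c * n)) ≤ V ρ β η (toP n y)} =
      ⋃ y ∈ (boxF d n).filter (fun y => adm n y),
        {η : Env d | ¬ Real.exp (-(gE ρ β (toP n y) + c * n)) ≤ V ρ β η (toP n y)} := by
    ext η
    simp only [Set.mem_ofPred_eq, Set.mem_iUnion, Finset.mem_filter, exists_prop, and_assoc]
  rw [hset]
  refine (measureReal_biUnion_finset_le _ _).trans ?_
  have hterm : ∀ y ∈ (boxF d n).filter (fun y => adm n y), (law d ρ).real
      {η : Env d | ¬ Real.exp (-(gE ρ β (toP n y) + c * n)) ≤ V ρ β η (toP n y)} ≤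
        Real.exp (-(t * c / 2 * n)) := by
    intro y hy
    have hE := (adm_iff j0).1 (Finset.mem_filter.1 hy).2
    refine (concE_up (ρ := ρ) hρ β hE (t := t) (z := c * n) ht0.le ht1).trans ?_
    refine Real.exp_le_exp.2 ?_
    rw [← hK]
    have hn0 : (0 : ℝ) ≤ n := Nat.cast_nonneg n
    have e1 := mul_le_mul_of_nonneg_right htc (mul_nonneg ht0.le hn0)
    nlinarith
  refine (Finset.sum_le_card_nsmul _ _ _ hterm).trans ?_
  rw [nsmul_eq_mul]
  refine mul_le_mul_of_nonneg_right ?_ (Real.exp_pos _).le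
  have h2 : ((boxF d n).filter (fun y => adm n y)).card ≤ (2 * n + 1) ^ d := by
    rw [← card_boxF]
    exact Finset.card_filter_le _ _
  exact_mod_cast h2

/-- TASK PtP2. Almost surely, for all large `n` and all admissible `y` with `ln y ≤ δ n` the polymer measure gives
`{S_n = y}` at least `exp (-ε δ n)`: `g_small` with `ε / 2`, `concE_up` and `concU` (`X ≤ n lam 0 + o(n)`, `ae_X`), union over
`(2 n + 1)^d` points, Borel-Cantelli. -/
theorem pol_point (j0 : Fin d) (hρ : EM ρ) {β : ℝ}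
    (hst : ∀ (j : Fin d) (t : ℝ), 0 < t → lam ρ β (0 : Vec d) < lam ρ β (t • ej j)) {ε : ℝ}
    (hε : 0 < ε) : ∃ δ0 : ℝ, 0 < δ0 ∧ ∀ δ : ℝ, 0 < δ → δ ≤ δ0 → ∀ᵐ η ∂(law d ρ),
      ∀ᶠ n : ℕ in atTop, ∀ y : Site d, adm n y → (ln y : ℝ) ≤ δ * n →
        Real.exp (-(ε * δ * n)) ≤ Pol β η n {s : Fin n → Step d | pos s n = y} := by
  obtain ⟨δ0, hδ0, hg⟩ := g_small j0 hρ hst (ε := ε / 2) (by positivity)
  refine ⟨δ0, hδ0, fun δ hδ hδδ => ?_⟩
  obtain ⟨C, hC⟩ := hg δ hδ hδδ
  obtain ⟨c, hc⟩ : ∃ c : ℝ, c = ε * δ / 8 := ⟨_, rfl⟩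
  have hc0 : 0 < c := by rw [hc]; positivity
  obtain ⟨r, hr, hbad⟩ := PtP_bad (ρ := ρ) j0 hρ β hc0
  -- summability
  have hsum : Summable fun n : ℕ => (law d ρ).real {η : Env d | ∃ y ∈ (boxF d n), adm n y ∧
      ¬ Real.exp (-(gE ρ β (toP n y) + c * n)) ≤ V ρ β η (toP n y)} := by
    have h1 : Summable fun n : ℕ => (n : ℝ) ^ d * Real.exp (-r * n) :=
      Real.summable_pow_mul_exp_neg_nat_mul d hr
    have h2 : Summable fun n : ℕ => (n : ℝ) ^ 0 * Real.exp (-r * n) :=
      Real.summable_pow_mul_exp_neg_nat_mul 0 hr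
    refine Summable.of_nonneg_of_le (fun n => measureReal_nonneg) (fun n => ?_)
      ((h1.add h2).mul_left ((3 : ℝ) ^ d))
    refine (hbad n).trans ?_
    rw [pow_zero, ← add_mul, ← mul_assoc, neg_mul]
    refine mul_le_mul_of_nonneg_right ?_ (Real.exp_pos _).le
    have hn0 : (0 : ℝ) ≤ n := Nat.cast_nonneg n
    rcases Nat.eq_zero_or_pos n with h0 | h0
    · subst h0
      have e1 : (1 : ℝ) ≤ 3 ^ d := one_le_pow₀ (by norm_num)
      have e2 : (0 : ℝ) ≤ ((0 : ℕ) : ℝ) ^ d := by positivity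
      have e3 : (2 * ((0 : ℕ) : ℝ) + 1) ^ d = 1 := by simp
      rw [e3]
      nlinarith
    · have h1 : (1 : ℝ) ≤ n := by exact_mod_cast h0
      have e1 : (2 * (n : ℝ) + 1) ^ d ≤ (3 * n) ^ d :=
        pow_le_pow_left₀ (by positivity) (by linarith) d
      rw [mul_pow] at e1
      have e2 : (0 : ℝ) ≤ 3 ^ d := by positivity
      nlinarith
  have hae : ∀ᵐ η ∂(law d ρ), ∀ᶠ n : ℕ in atTop, η ∉ {η : Env d | ∃ y ∈ (boxF d n), adm n y ∧
      ¬ Real.exp (-(gE ρ β (toP n y) + c * n)) ≤ V ρ β η (toP n y)} := by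
    refine ae_eventually_notMem ?_
    have e2 : ∀ n : ℕ, (law d ρ) {η : Env d | ∃ y ∈ (boxF d n), adm n y ∧
        ¬ Real.exp (-(gE ρ β (toP n y) + c * n)) ≤ V ρ β η (toP n y)} =
        ENNReal.ofReal ((law d ρ).real {η : Env d | ∃ y ∈ (boxF d n), adm n y ∧
          ¬ Real.exp (-(gE ρ β (toP n y) + c * n)) ≤ V ρ β η (toP n y)}) := fun n => by
      rw [ofReal_measureReal]
    simp only [e2]
    exact hsum.tsum_ofReal_ne_top
  filter_upwards [hae, ae_X j0.pos hρ β (0 : Vec d)] with η h1 h2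
  have h3 := h2.eventually_lt_const (lt_add_of_pos_right (lam ρ β (0 : Vec d)) hc0)
  have h4 : ∀ᶠ n : ℕ in atTop, C / c ≤ n := (tendsto_natCast_atTop_atTop).eventually_ge_atTop _
  filter_upwards [h1, h3, h4, eventually_ge_atTop 1] with n h5 h6 h7 h8 y hy hly
  have hn0 : (0 : ℝ) < n := by exact_mod_cast h8
  rw [div_lt_iff₀ hn0] at h6
  rw [div_le_iff₀ hc0] at h7
  push Not at h5
  have hyb : y ∈ boxF d n := by
    obtain ⟨s, hs⟩ := (adm_iff j0).1 hy
    rw [← (show pos s n = y from hs)]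
    exact pos_mem_box s n
  have h9 := h5 y hyb hy
  have h10 : gE ρ β (toP n y) ≤ ε / 2 * δ * n + C := hC n y hy hly
  rw [PtP_pol j0 ρ β η n y]
  calc Real.exp (-(ε * δ * n)) ≤ Real.exp (-(gE ρ β (toP n y) + c * n)) *
        Real.exp (n * lam ρ β (0 : Vec d) - X β (0 : Vec d) η n) := by
        rw [← Real.exp_add]
        refine Real.exp_le_exp.2 ?_
        have e1 : ε * δ * n = 8 * c * n := by rw [hc]; ring
        have e2 : ε / 2 * δ * n = 4 * c * n := by rw [hc]; ring
        rw [e1]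
        rw [e2] at h10
        nlinarith
    _ ≤ _ := mul_le_mul_of_nonneg_right h9 (Real.exp_pos _).le

end Pool.Agent.W_7d29a1_h3
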