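import Pool.Agent.W_7d29a1_h3.Wt
import Pool.Agent.W_7d29a1_h46u.FreeV

/-!
Section 5: fluctuation in a strip.
-/

namespace Pool.Agent.W_7d29a1_h3

open MeasureTheory ProbabilityTheory Filter Topology Pool.Agent.W_MP_7d29a1_pr
  Pool.Agent.W_7d29a1_h46 Pool.Agent.W_7d29a1_h46u

variable {d : ℕ} {ρ : Measure ℝ} [IsProbabilityMeasure ρ]

private lemma ScaleA_good {n Y : ℕ} {s : Fin n → Step d} (hs : s ∈ stP n Y (0 : Site d)) :
    s ∈ good d n Y := fun i hi => mem_boxF_iff.2 (hs.1 i hi)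

omit [IsProbabilityMeasure ρ] in
private lemma ScaleA_log {n : ℕ} {β : ℝ} {η : Env d} {E : Set (Fin n → Step d)}
    (hE : E.Nonempty) :
    Real.log (V ρ β η E) = Real.log (ZT β 0 η E) - n * lam ρ β (0 : Vec d) := by
  have hZ : 0 < ZT β (0 : Vec d) η E := ZT_pos _ _ _ hE
  unfold V
  rw [Real.log_mul (Real.exp_pos _).ne' hZ.ne', Real.log_exp]
  ring

/-- TASK Scale1. FLUCT in the strip: `cond_fluct` with `FreeV_iid`, `h = 0`, `B = ∅`, `F = 0`,
`V = Finset.Icc 1 (2 n) ×ˢ boxF d Y`, `T = stP (2 n) Y 0`, `N = 2 n` (`siteOf_injective`, `card_sites`). -/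
theorem strip_fluct (j0 : Fin d) {β εF cF : ℝ} (hf : FluctAt ρ β εF cF) {n Y : ℕ} (hY : 1 ≤ Y)
    {u v : ℝ} (hbad : (law d ρ).real {η : Env d | ¬ Real.exp (-u) ≤ V ρ β η (stP (2 * n) Y 0)} +
      (law d ρ).real {η : Env d | Real.exp v ≤ V ρ β η (stP (2 * n) Y 0)} ≤ εF) :
    cF * (2 * n) ≤ (u + v) * Real.sqrt (2 * n * (2 * (Y : ℝ) + 1) ^ d) := by
  classical
  have hne : (stP (2 * n) Y (0 : Site d)).Nonempty := stP_nonempty j0 n hY
  have hsub : ∀ s ∈ stP (2 * n) Y (0 : Site d), sites s ⊆ FF d (2 * n) Y :=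
    fun s hs => sites_subset (ScaleA_good hs)
  have key := cond_fluct (d := d) (n := 2 * n) (FreeV_iid (d := d) (ρ := ρ)) hf (0 : Vec d)
    (V := FF d (2 * n) Y) (B := ∅) (Finset.disjoint_empty_right _)
    (T := stP (2 * n) Y (0 : Site d)) hne
    (fun s hs => (hsub s hs).trans Finset.subset_union_left) (N := 2 * n)
    (fun s hs => by
      rw [Finset.filter_true_of_mem fun p hp => hsub s hs hp, card_sites])
    (F := fun _ => 0) measurable_const (fun _ _ _ => rfl)
    (((2 * n : ℕ) : ℝ) * lam ρ β (0 : Vec d) - u) (((2 * n : ℕ) : ℝ) * lam ρ β (0 : Vec d) + v)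
    (by
      have h1 : {η : Env d | Real.log (ZT β (0 : Vec d) (fun p => η p)
            (stP (2 * n) Y (0 : Site d))) - 0 ∉
          Set.Icc (((2 * n : ℕ) : ℝ) * lam ρ β (0 : Vec d) - u)
            (((2 * n : ℕ) : ℝ) * lam ρ β (0 : Vec d) + v)} ⊆
          {η : Env d | ¬ Real.exp (-u) ≤ V ρ β η (stP (2 * n) Y 0)} ∪
            {η : Env d | Real.exp v ≤ V ρ β η (stP (2 * n) Y 0)} := by
        intro η hη
        have hV : 0 < V ρ β η (stP (2 * n) Y (0 : Site d)) := V_pos η hne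
        have hlog := ScaleA_log (ρ := ρ) (β := β) (η := η) hne
        by_contra hcon
        rw [Set.mem_union, not_or] at hcon
        obtain ⟨h2, h3⟩ := hcon
        rw [Set.mem_ofPred_eq, not_not] at h2
        rw [Set.mem_ofPred_eq, not_le] at h3
        apply hη
        have h4 := Real.log_le_log (Real.exp_pos _) h2
        have h5 := Real.log_lt_log hV h3
        rw [Real.log_exp] at h4 h5
        rw [hlog] at h4 h5
        rw [Set.mem_Icc]
        constructor
        · linarith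
        · linarith
      refine (measure_mono h1).trans ((measure_union_le _ _).trans ?_)
      rw [← ENNReal.ofReal_toReal (measure_ne_top (law d ρ)
          {η : Env d | ¬ Real.exp (-u) ≤ V ρ β η (stP (2 * n) Y 0)}),
        ← ENNReal.ofReal_toReal (measure_ne_top (law d ρ)
          {η : Env d | Real.exp v ≤ V ρ β η (stP (2 * n) Y 0)}),
        ← ENNReal.ofReal_add ENNReal.toReal_nonneg ENNReal.toReal_nonneg]
      exact ENNReal.ofReal_le_ofReal hbad)
  rw [card_FF] at key
  push_cast at key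
  have e : 2 * (n : ℝ) * lam ρ β (0 : Vec d) + v - (2 * (n : ℝ) * lam ρ β (0 : Vec d) - u) =
      u + v := by ring
  rw [e] at key
  exact key

end Pool.Agent.W_7d29a1_h3
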