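import Pool.Agent.W_7d29a1_h3.MomB

/-!
Section 2: the stopping lemma.
-/

namespace Pool.Agent.W_7d29a1_h3

open MeasureTheory ProbabilityTheory Filter Topology Pool.Agent.W_MP_7d29a1_pr
  Pool.Agent.W_7d29a1_h46 Pool.Agent.W_7d29a1_h46u

variable {d : ℕ} {ρ : Measure ℝ} [IsProbabilityMeasure ρ]

/-- Jensen: `H(m+n) ≤ H(m) + ∑_s p_s H^{(s)}(n)` (`FreeU_pt`). -/
theorem H_add_pt (hd : 0 < d) (β : ℝ) (h : Vec d) (m n : ℕ) (η : Env d) :
    HH ρ β h η (m + n) ≤ HH ρ β h η m +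
      ∑ s : Fin m → Step d, FreeU_p β h m s η * HH ρ β h (sh m (pos s m) η) n := by
  have h1 := FreeU_pt hd β h m n η
  have h2 := FreeU_sum hd β h m η
  have h3 : ∑ s : Fin m → Step d, FreeU_p β h m s η * HH ρ β h (sh m (pos s m) η) n =
      n * lam ρ β (0 : Vec d) -
        ∑ s : Fin m → Step d, FreeU_p β h m s η * X β h (sh m (pos s m) η) n := by
    unfold HH
    simp only [mul_sub]
    rw [Finset.sum_sub_distrib, ← Finset.sum_mul, h2, one_mul]
  rw [h3]
  unfold HH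
  push_cast
  linarith

/-- The stopping events. -/
def StopA_A {d : ℕ} (ρ : Measure ℝ) (β : ℝ) (h : Vec d) (Y : ℝ) (l : ℕ) : Set (Env d) :=
  {η | HH ρ β h η l ≤ -Y ∧ ∀ k ∈ Finset.range l, ¬ HH ρ β h η k ≤ -Y}

omit [IsProbabilityMeasure ρ] in
lemma StopA_meas (β : ℝ) (h : Vec d) (Y : ℝ) (l : ℕ) : MeasurableSet (StopA_A ρ β h Y l) := by
  have h1 : StopA_A ρ β h Y l = {η | HH ρ β h η l ≤ -Y} ∩
      ⋂ k ∈ Finset.range l, {η | HH ρ β h η k ≤ -Y}ᶜ := by
    ext η
    simp only [StopA_A, Set.mem_setOf_eq, Set.mem_inter_iff, Set.mem_iInter, Set.mem_compl_iff]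
  rw [h1]
  refine (measurableSet_le (measurable_HH h l) measurable_const).inter ?_
  exact Finset.measurableSet_biInter _ fun k _ =>
    (measurableSet_le (measurable_HH h k) measurable_const).compl

omit [IsProbabilityMeasure ρ] in
lemma StopA_HH (β : ℝ) (h : Vec d) {k l : ℕ} (hk : k ≤ l) {η η' : Env d}
    (hη : ∀ p ∈ {p : ℕ × Site d | p.1 ≤ l}, η p = η' p) :
    HH ρ β h η k = HH ρ β h η' k := by
  have h2 : Z β h η k = Z β h η' k := dependsOn_Z β h k fun p hp => hη p (hp.2.trans hk)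
  unfold HH X
  rw [h2]

omit [IsProbabilityMeasure ρ] in
lemma StopA_dep (β : ℝ) (h : Vec d) (Y : ℝ) (l : ℕ) {η η' : Env d}
    (hη : ∀ p ∈ {p : ℕ × Site d | p.1 ≤ l}, η p = η' p) :
    η ∈ StopA_A ρ β h Y l ↔ η' ∈ StopA_A ρ β h Y l := by
  unfold StopA_A
  simp only [Set.mem_setOf_eq]
  rw [StopA_HH β h le_rfl hη]
  refine and_congr_right fun _ => ?_
  refine forall₂_congr fun k hk => ?_
  rw [StopA_HH β h (Finset.mem_range.1 hk).le hη]

lemma StopA_dep2 (β : ℝ) (h : Vec d) (m n : ℕ) (y : Site d) :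
    DependsOn (fun η : Env d => HH ρ β h (sh m y η) n) {p : ℕ × Site d | p.1 ≤ m}ᶜ := by
  intro η η' hη
  have h1 := FreeU_dep2 β h m n y hη
  simp only at h1 ⊢
  unfold HH
  rw [h1]

lemma StopA_le_D1 (β : ℝ) (h : Vec d) {l N : ℕ} (hl : l ≤ N) :
    ∫ η, max (HH ρ β h η l) 0 ∂(law d ρ) ≤ D1 ρ β h N :=
  Finset.le_sup' (fun l => ∫ η, max (HH ρ β h η l) 0 ∂(law d ρ))
    (Finset.mem_range.2 (Nat.lt_succ_of_le hl))

/-- On the stopping event. -/
lemma StopA_on (hd : 0 < d) (hρ : EM ρ) (β : ℝ) (h : Vec d) {l N : ℕ} (hl : l ≤ N) (Y : ℝ) :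
    ∫ η in StopA_A ρ β h Y l, HH ρ β h η N ∂(law d ρ) ≤
      (-Y + D1 ρ β h N) * (law d ρ).real (StopA_A ρ β h Y l) := by
  obtain ⟨C, -, hC⟩ := H_four (d := d) hd hρ β h
  have hH : ∀ k, Integrable (fun η => HH ρ β h η k) (law d ρ) := fun k => (hC k).2.2.1
  have hA := StopA_meas (ρ := ρ) β h Y l
  obtain ⟨F, hF⟩ : ∃ F : (Fin l → Step d) → Env d → ℝ, F = fun s =>
    (StopA_A ρ β h Y l).indicator (FreeU_p β h l s) := ⟨_, rfl⟩
  have hFm : ∀ s, Measurable (F s) := fun s => by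
    rw [hF]
    exact (FreeU_meas β h l s).indicator hA
  have hF0 : ∀ s η, 0 ≤ F s η := fun s η => by
    rw [hF]
    exact Set.indicator_nonneg (fun η _ => FreeU_nonneg hd β h l s η) η
  have hF1 : ∀ s η, F s η ≤ 1 := fun s η => by
    rw [hF]
    refine Set.indicator_le' (fun η _ => FreeU_le_one hd β h l s η) (fun _ _ => zero_le_one) η
  have hFb : ∀ s η, ‖F s η‖ ≤ 1 := fun s η => by
    rw [Real.norm_eq_abs, abs_of_nonneg (hF0 s η)]
    exact hF1 s η
  have hFi : ∀ s, Integrable (F s) (law d ρ) := fun s =>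
    (integrable_const (1 : ℝ)).mono' (hFm s).aestronglyMeasurable
      (Filter.Eventually.of_forall fun η => hFb s η)
  have hFd : ∀ s, DependsOn (F s) {p : ℕ × Site d | p.1 ≤ l} := fun s => by
    intro η η' hη
    rw [hF]
    simp only [Set.indicator]
    have h1 := StopA_dep (ρ := ρ) β h Y l hη
    have h2 := FreeU_dep β h l s hη
    rw [h2]
    by_cases h3 : η' ∈ StopA_A ρ β h Y l
    · rw [if_pos h3, if_pos (h1.2 h3)]
    · rw [if_neg h3, if_neg fun h4 => h3 (h1.1 h4)]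
  have hFsum : ∀ η, ∑ s, F s η = (StopA_A ρ β h Y l).indicator (fun _ => (1 : ℝ)) η := by
    intro η
    rw [hF]
    by_cases h3 : η ∈ StopA_A ρ β h Y l
    · simp only [Set.indicator_of_mem h3]
      exact FreeU_sum hd β h l η
    · simp only [Set.indicator_of_notMem h3, Finset.sum_const_zero]
  have hHs : ∀ y : Site d, Integrable (fun η => HH ρ β h (sh l y η) (N - l)) (law d ρ) := fun y =>
    ((mp_sh l y).integrable_comp (measurable_HH h (N - l)).aestronglyMeasurable).2 (hH (N - l))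
  have hFH : ∀ s : Fin l → Step d,
      Integrable (fun η => F s η * HH ρ β h (sh l (pos s l) η) (N - l)) (law d ρ) := fun s =>
    (hHs (pos s l)).bdd_mul (c := 1) (hFm s).aestronglyMeasurable
      (Filter.Eventually.of_forall fun η => hFb s η)
  have hprod : ∀ s : Fin l → Step d,
      ∫ η, F s η * HH ρ β h (sh l (pos s l) η) (N - l) ∂(law d ρ) =
        (∫ η, F s η ∂(law d ρ)) * ∫ η, HH ρ β h η (N - l) ∂(law d ρ) := by
    intro s
    rw [integral_indep (ρ := ρ) {p : ℕ × Site d | p.1 ≤ l} (F := F s)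
      (G := fun η => HH ρ β h (sh l (pos s l) η) (N - l)) (hFm s)
      ((measurable_HH h (N - l)).comp (measurable_sh l (pos s l))) (hFd s)
      (StopA_dep2 β h l (N - l) (pos s l)), integral_sh l (pos s l) (measurable_HH h (N - l))]
  have hmass : ∑ s, ∫ η, F s η ∂(law d ρ) = (law d ρ).real (StopA_A ρ β h Y l) := by
    rw [← integral_finsetSum _ fun s _ => hFi s]
    simp only [hFsum]
    rw [integral_indicator hA]
    simp
  have hpt : ∀ η, (StopA_A ρ β h Y l).indicator (fun η => HH ρ β h η N) η ≤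
      -Y * (StopA_A ρ β h Y l).indicator (fun _ => (1 : ℝ)) η +
        ∑ s : Fin l → Step d, F s η * HH ρ β h (sh l (pos s l) η) (N - l) := by
    intro η
    rw [hF]
    by_cases h3 : η ∈ StopA_A ρ β h Y l
    · simp only [Set.indicator_of_mem h3]
      have h4 := H_add_pt (ρ := ρ) hd β h l (N - l) η
      rw [Nat.add_sub_cancel' hl] at h4
      have h5 : HH ρ β h η l ≤ -Y := h3.1
      linarith
    · simp only [Set.indicator_of_notMem h3, zero_mul, Finset.sum_const_zero, mul_zero, add_zero,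
        le_refl]
  have hI1 : Integrable ((StopA_A ρ β h Y l).indicator (fun _ => (1 : ℝ))) (law d ρ) :=
    (integrable_const (1 : ℝ)).indicator hA
  rw [← integral_indicator hA]
  have h6 : ∫ η, (StopA_A ρ β h Y l).indicator (fun η => HH ρ β h η N) η ∂(law d ρ) ≤
      ∫ η, (-Y * (StopA_A ρ β h Y l).indicator (fun _ => (1 : ℝ)) η +
        ∑ s : Fin l → Step d, F s η * HH ρ β h (sh l (pos s l) η) (N - l)) ∂(law d ρ) :=
    integral_mono ((hH N).indicator hA)
      ((hI1.const_mul (-Y)).add (integrable_finsetSum _ fun s _ => hFH s)) hpt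
  refine h6.trans ?_
  rw [integral_add (hI1.const_mul (-Y)) (integrable_finsetSum _ fun s _ => hFH s),
    integral_const_mul, integral_indicator hA, integral_finsetSum _ fun s _ => hFH s,
    Finset.sum_congr rfl fun s _ => hprod s, ← Finset.sum_mul, hmass]
  have h7 : ∫ η, HH ρ β h η (N - l) ∂(law d ρ) ≤ D1 ρ β h N := by
    refine le_trans ?_ (StopA_le_D1 (ρ := ρ) β h (Nat.sub_le N l))
    refine integral_mono (hH (N - l)) ((hH (N - l)).pos_part) fun η => le_max_left _ _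
  have h8 : (0 : ℝ) ≤ (law d ρ).real (StopA_A ρ β h Y l) := measureReal_nonneg
  have h9 := mul_le_mul_of_nonneg_left h7 h8
  have h10 : ∫ _ in StopA_A ρ β h Y l, (1 : ℝ) ∂(law d ρ) =
      (law d ρ).real (StopA_A ρ β h Y l) := by simp
  rw [h10]
  linarith

/-- TASK Stop1. (2.1). The events `A l = {H l ≤ -Y, H k > -Y for k < l}` depend on the rows `≤ l`; on `A l`
`H N ≤ -Y + ∑_s p_s H^{(s)}(N - l)`, and `∫ 1_{A l} p_s H^{(s)}(N-l) = (∫ 1_{A l} p_s) (∫ H (N-l))` by
`integral_indep` (as in `A_add_le`), `∫ H (N-l) ≤ D1 N`. Sum over `l`: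
`0 ≤ ∫ H N ≤ (-Y + D1) P + ∫ (H N)_+ ≤ (-Y + D1) P + D1`. -/
theorem stop (hd : 0 < d) (hρ : EM ρ) (β : ℝ) (h : Vec d) (hh : lam ρ β h ≤ lam ρ β (0 : Vec d))
    (N : ℕ) {Y : ℝ} (hY : 0 < Y) :
    (law d ρ).real {η | ∃ l ≤ N, HH ρ β h η l ≤ -Y} ≤ 2 * D1 ρ β h N / Y := by
  obtain ⟨C, -, hC⟩ := H_four (d := d) hd hρ β h
  have hH : ∀ k, Integrable (fun η => HH ρ β h η k) (law d ρ) := fun k => (hC k).2.2.1
  have hA := fun l => StopA_meas (ρ := ρ) β h Y l
  obtain ⟨U, hU⟩ : ∃ U : Set (Env d), U = {η | ∃ l ≤ N, HH ρ β h η l ≤ -Y} := ⟨_, rfl⟩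
  have hUA : U = ⋃ l ∈ Finset.range (N + 1), StopA_A ρ β h Y l := by
    classical
    rw [hU]
    ext η
    simp only [Set.mem_setOf_eq, Set.mem_iUnion, Finset.mem_range, exists_prop]
    constructor
    · rintro ⟨l, hl, hl2⟩
      have hex : ∃ l, HH ρ β h η l ≤ -Y := ⟨l, hl2⟩
      refine ⟨Nat.find hex, ?_, Nat.find_spec hex, fun k hk => ?_⟩
      · have := Nat.find_min' hex hl2
        omega
      · exact Nat.find_min hex (Finset.mem_range.1 hk)
    · rintro ⟨l, hl, hl2⟩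
      exact ⟨l, by omega, hl2.1⟩
  have hdisj : Set.PairwiseDisjoint (↑(Finset.range (N + 1)) : Set ℕ)
      (fun l => StopA_A ρ β h Y l) := by
    intro k _ l _ hkl
    refine Set.disjoint_left.2 fun η hk hl => ?_
    rcases lt_or_gt_of_ne hkl with h1 | h1
    · exact hl.2 k (Finset.mem_range.2 h1) hk.1
    · exact hk.2 l (Finset.mem_range.2 h1) hl.1
  have hUm : MeasurableSet U := by
    rw [hUA]
    exact Finset.measurableSet_biUnion _ fun l _ => hA l
  have h1 : ∫ η in U, HH ρ β h η N ∂(law d ρ) ≤ (-Y + D1 ρ β h N) * (law d ρ).real U := by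
    rw [hUA, integral_biUnion_finset _ (fun l _ => hA l) hdisj fun l _ => (hH N).integrableOn,
      measureReal_biUnion_finset hdisj fun l _ => hA l, Finset.mul_sum]
    refine Finset.sum_le_sum fun l hl => StopA_on hd hρ β h ?_ Y
    have := Finset.mem_range.1 hl
    omega
  have h2 : ∫ η in Uᶜ, HH ρ β h η N ∂(law d ρ) ≤ D1 ρ β h N := by
    refine le_trans ?_ (StopA_le_D1 (ρ := ρ) β h (le_refl N))
    rw [← integral_indicator hUm.compl]
    refine integral_mono ((hH N).indicator hUm.compl) (hH N).pos_part fun η => ?_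
    by_cases h3 : η ∈ Uᶜ
    · rw [Set.indicator_of_mem h3]
      exact le_max_left _ _
    · rw [Set.indicator_of_notMem h3]
      exact le_max_right _ _
  have h3 := integral_add_compl hUm (hH N)
  have h4 := H_mean_nonneg hd hρ β h hh N
  have h5 : (law d ρ).real U ≤ 1 := measureReal_le_one
  have h6 : 0 ≤ D1 ρ β h N :=
    (integral_nonneg fun η => le_max_right _ _).trans (StopA_le_D1 (ρ := ρ) β h (le_refl N))
  rw [← hU, le_div_iff₀ hY]
  have h7 : D1 ρ β h N * (law d ρ).real U ≤ D1 ρ β h N * 1 := mul_le_mul_of_nonneg_left h5 h6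
  nlinarith [h1, h2, h3, h4, h7]

end Pool.Agent.W_7d29a1_h3
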