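import Pool.Agent.W_7d29a1_h3.ConfC

/-!
Section 7: from windows to points.
-/

namespace Pool.Agent.W_7d29a1_h3

open MeasureTheory ProbabilityTheory Filter Topology Pool.Agent.W_MP_7d29a1_pr
  Pool.Agent.W_7d29a1_h46 Pool.Agent.W_7d29a1_h46u

variable {d : ℕ} {ρ : Measure ℝ} [IsProbabilityMeasure ρ]

/-- The event of section 7: a passage between two windows which is faster than `κ |p - x| - δ b`. -/
def Win {d : ℕ} (ρ : Measure ℝ) (β κ q K δ : ℝ) (n N : ℕ) : Set (Env d) :=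
  {η | ∃ x p : Site d, (sn x : ℝ) ≤ K * bb d ρ β q n ∧ (sn p : ℝ) ≤ K * bb d ρ β q n ∧
    Even (ln x) ∧ Even (ln p) ∧
    Real.exp (δ * bb d ρ β q n - κ * sn (p - x)) ≤ Vp ρ β (sh 0 x η) N (p - x)}

private theorem ThinA_meas_sh (t : ℕ) (x : Site d) : Measurable (sh t x : Env d → Env d) :=
  measurable_pi_lambda _ fun _ => measurable_pi_apply _

/-- The event for pairs of sites with the property `S` and the functional `x_j0`. -/
private def ThinA_W (ρ : Measure ℝ) (β κ D : ℝ) (j0 : Fin d) (N : ℕ) (S : Site d → Site d → Prop) :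
    Set (Env d) :=
  {η | ∃ x p : Site d, S x p ∧
    Real.exp (D - κ * ((p - x) j0 : ℤ)) ≤ Vp ρ β (sh 0 x η) N (p - x)}

omit [IsProbabilityMeasure ρ] in
private theorem ThinA_meas (β κ D : ℝ) (j0 : Fin d) (N : ℕ) (S : Site d → Site d → Prop) :
    MeasurableSet (ThinA_W ρ β κ D j0 N S) := by
  have h1 : ThinA_W ρ β κ D j0 N S = ⋃ x : Site d, ⋃ p : Site d, {η : Env d | S x p ∧
      Real.exp (D - κ * ((p - x) j0 : ℤ)) ≤ Vp ρ β (sh 0 x η) N (p - x)} := by
    ext η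
    simp only [ThinA_W, Set.mem_iUnion, Set.mem_ofPred_eq]
  rw [h1]
  refine MeasurableSet.iUnion fun x => MeasurableSet.iUnion fun p => ?_
  by_cases h : S x p
  · have h2 : {η : Env d | S x p ∧
        Real.exp (D - κ * ((p - x) j0 : ℤ)) ≤ Vp ρ β (sh 0 x η) N (p - x)} =
        {η : Env d | Real.exp (D - κ * ((p - x) j0 : ℤ)) ≤ Vp ρ β (sh 0 x η) N (p - x)} := by
      ext η
      simp only [Set.mem_ofPred_eq]
      exact ⟨fun h3 => h3.2, fun h3 => ⟨h, h3⟩⟩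
    rw [h2]
    exact measurableSet_le measurable_const ((measurable_V _).comp (ThinA_meas_sh 0 x))
  · have h2 : {η : Env d | S x p ∧
        Real.exp (D - κ * ((p - x) j0 : ℤ)) ≤ Vp ρ β (sh 0 x η) N (p - x)} = ∅ := by
      ext η
      simp only [Set.mem_ofPred_eq, Set.mem_empty_iff_false, iff_false]
      exact fun h3 => h h3.1
    rw [h2]
    exact MeasurableSet.empty

/-- The conditions on a pair of sites. -/
private def ThinA_S (B : ℝ) (x p : Site d) : Prop :=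
  (sn x : ℝ) ≤ B ∧ (sn p : ℝ) ≤ B ∧ Even (ln x) ∧ Even (ln p)

private theorem ThinA_sym (j0 : Fin d) {β κ B D : ℝ} (hκ : 0 ≤ κ) (N : ℕ) :
    (law d ρ).real {η : Env d | ∃ x p : Site d, (sn x : ℝ) ≤ B ∧ (sn p : ℝ) ≤ B ∧
      Even (ln x) ∧ Even (ln p) ∧
      Real.exp (D - κ * sn (p - x)) ≤ Vp ρ β (sh 0 x η) N (p - x)} ≤
    2 * d * (law d ρ).real (ThinA_W ρ β κ D j0 N (ThinA_S B)) := by
  have hm := ThinA_meas (ρ := ρ) β κ D j0 N (ThinA_S (d := d) B)
  have hsub : {η : Env d | ∃ x p : Site d, (sn x : ℝ) ≤ B ∧ (sn p : ℝ) ≤ B ∧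
      Even (ln x) ∧ Even (ln p) ∧
      Real.exp (D - κ * sn (p - x)) ≤ Vp ρ β (sh 0 x η) N (p - x)} ⊆
      ⋃ r : Fin d × Bool, (eAct (Equiv.swap r.1 j0) fun _ => r.2) ⁻¹'
        (ThinA_W ρ β κ D j0 N (ThinA_S B)) := by
    rintro η ⟨x, p, hx, hp, hxe, hpe, hV⟩
    obtain ⟨j, s, hjs⟩ := exists_tl j0 hκ (p - x)
    rw [inner_tl] at hjs
    rw [Set.mem_iUnion]
    refine ⟨(j, s), ?_⟩
    obtain ⟨x', hx'⟩ := (sAct_bij (Equiv.swap j j0) fun _ : Fin d => s).2 x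
    obtain ⟨p', hp'⟩ := (sAct_bij (Equiv.swap j j0) fun _ : Fin d => s).2 p
    have hsub : sAct (Equiv.swap j j0) (fun _ : Fin d => s) (p' - x') = p - x := by
      have h1 := sAct_add (Equiv.swap j j0) (fun _ : Fin d => s) (p' - x') x'
      rw [sub_add_cancel, hp', hx'] at h1
      rw [h1, add_sub_cancel_right]
    have hj : (p - x) j = (if s then 1 else -1) * (p' - x') j0 := by
      rw [← hsub]
      simp only [sAct, Equiv.swap_apply_left]
    have hκj : κ * ((p' - x') j0 : ℤ) = κ * sn (p - x) := by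
      rw [← hjs, hj]
      cases s
      · simp
        ring
      · simp
    refine ⟨x', p', ⟨?_, ?_, ?_, ?_⟩, ?_⟩
    · rw [← sAct_sn (Equiv.swap j j0) (fun _ : Fin d => s) x', hx']
      exact hx
    · rw [← sAct_sn (Equiv.swap j j0) (fun _ : Fin d => s) p', hp']
      exact hp
    · rw [← sAct_ln (Equiv.swap j j0) (fun _ : Fin d => s) x', hx']
      exact hxe
    · rw [← sAct_ln (Equiv.swap j j0) (fun _ : Fin d => s) p', hp']
      exact hpe
    · have h1 : sh 0 x' (eAct (Equiv.swap j j0) (fun _ : Fin d => s) η) =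
          eAct (Equiv.swap j j0) (fun _ : Fin d => s) (sh 0 x η) := by
        funext r
        change η (r.1 + 0, sAct (Equiv.swap j j0) (fun _ : Fin d => s) (r.2 + x')) =
          η (r.1 + 0, sAct (Equiv.swap j j0) (fun _ : Fin d => s) r.2 + x)
        rw [sAct_add, hx']
      change Real.exp (D - κ * ((p' - x') j0 : ℤ)) ≤
        Vp ρ β (sh 0 x' (eAct (Equiv.swap j j0) (fun _ : Fin d => s) η)) N (p' - x')
      rw [h1, V_act, hsub, hκj]
      exact hV
  calc (law d ρ).real _ ≤ (law d ρ).real (⋃ r : Fin d × Bool,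
        (eAct (Equiv.swap r.1 j0) fun _ => r.2) ⁻¹' (ThinA_W ρ β κ D j0 N (ThinA_S B))) :=
        measureReal_mono hsub
    _ ≤ ∑ r : Fin d × Bool, (law d ρ).real ((eAct (Equiv.swap r.1 j0) fun _ => r.2) ⁻¹'
        (ThinA_W ρ β κ D j0 N (ThinA_S B))) := measureReal_iUnion_fintype_le _
    _ = ∑ _r : Fin d × Bool, (law d ρ).real (ThinA_W ρ β κ D j0 N (ThinA_S B)) := by
        refine Finset.sum_congr rfl fun r _ => ?_
        exact (mp_eAct (ρ := ρ) (Equiv.swap r.1 j0) fun _ => r.2).measureReal_preimage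
          hm.nullMeasurableSet
    _ = 2 * d * (law d ρ).real (ThinA_W ρ β κ D j0 N (ThinA_S B)) := by
        rw [Finset.sum_const, Finset.card_univ, Fintype.card_prod, Fintype.card_fin,
          Fintype.card_bool, nsmul_eq_mul]
        push_cast
        ring

/-- The cube number `k`. -/
private def ThinA_cube (R : ℕ) (k x : Site d) : Prop :=
  ∀ i, (R : ℤ) * k i ≤ x i ∧ x i < R * k i + R

private theorem ThinA_index {R M : ℕ} {B : ℝ} (hR : 0 < R) (hB : B ≤ M * R) {x : Site d}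
    (hx : (sn x : ℝ) ≤ B) : ∃ k ∈ boxF d M, ThinA_cube R k x := by
  have hR' : (0 : ℤ) < R := by exact_mod_cast hR
  have h1 : sn x ≤ M * R := by
    have h2 := hx.trans hB
    exact_mod_cast h2
  have h2 := sn_le_iff.1 h1
  refine ⟨fun i => x i / R, ?_, fun i => ⟨?_, ?_⟩⟩
  · rw [mem_boxF]
    intro i
    have h3 := abs_le.1 (h2 i)
    push_cast at h3
    rw [abs_le]
    constructor
    · rw [Int.le_ediv_iff_mul_le hR']
      linarith [h3.1]
    · have h4 : x i / R ≤ (M * R : ℤ) / R := Int.ediv_le_ediv hR' h3.2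
      rwa [Int.mul_ediv_cancel _ hR'.ne'] at h4
  · exact Int.mul_ediv_self_le hR'.ne'
  · exact Int.lt_mul_ediv_self_add hR'

private theorem ThinA_pair (j0 : Fin d) {β κ B D p1 : ℝ} {N R M : ℕ} (hR : 0 < R)
    (hB : B ≤ M * R)
    (h : p1 * ((boxF d M).card : ℝ) ^ 2 < (law d ρ).real (ThinA_W ρ β κ D j0 N (ThinA_S B))) :
    ∃ k k' : Site d, p1 ≤ (law d ρ).real (ThinA_W ρ β κ D j0 N
      fun x p => ThinA_S B x p ∧ ThinA_cube R k x ∧ ThinA_cube R k' p) := by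
  by_contra hcon
  push Not at hcon
  have hsub : ThinA_W ρ β κ D j0 N (ThinA_S B) ⊆ ⋃ k ∈ boxF d M, ⋃ k' ∈ boxF d M,
      ThinA_W ρ β κ D j0 N
        fun x p => ThinA_S B x p ∧ ThinA_cube R k x ∧ ThinA_cube R k' p := by
    rintro η ⟨x, p, hS, hV⟩
    obtain ⟨k, hk, hkx⟩ := ThinA_index hR hB hS.1
    obtain ⟨k', hk', hkp⟩ := ThinA_index hR hB hS.2.1
    simp only [Set.mem_iUnion]
    exact ⟨k, hk, k', hk', x, p, ⟨hS, hkx, hkp⟩, hV⟩
  have h1 := measureReal_mono (μ := law d ρ) hsub (measure_ne_top _ _)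
  have h2 : (law d ρ).real (⋃ k ∈ boxF d M, ⋃ k' ∈ boxF d M, ThinA_W ρ β κ D j0 N
      fun x p => ThinA_S B x p ∧ ThinA_cube R k x ∧ ThinA_cube R k' p) ≤
      ∑ _k ∈ boxF d M, ∑ _k' ∈ boxF d M, p1 := by
    refine (measureReal_biUnion_finset_le _ _).trans (Finset.sum_le_sum fun k _ => ?_)
    refine (measureReal_biUnion_finset_le _ _).trans (Finset.sum_le_sum fun k' _ => ?_)
    exact (hcon k k').le
  rw [Finset.sum_const, Finset.sum_const, nsmul_eq_mul, nsmul_eq_mul] at h2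
  have h3 : ((boxF d M).card : ℝ) * (((boxF d M).card : ℝ) * p1) =
      p1 * ((boxF d M).card : ℝ) ^ 2 := by ring
  linarith

private theorem ThinA_even {c x : Site d} (hc : ∀ i, Even (c i)) (hx : Even (ln x)) :
    Even (ln (x - c)) := by
  have h2 : 2 ∣ ln (x - c) + ln x := by
    unfold ln
    rw [← Finset.sum_add_distrib]
    refine Finset.dvd_sum fun j _ => ?_
    obtain ⟨m, hm⟩ := hc j
    rw [Pi.sub_apply]
    omega
  obtain ⟨m, hm⟩ := hx
  rw [Nat.even_iff]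
  omega

/-- A site of a cube, seen from the corner. -/
private theorem ThinA_adm {R : ℕ} (hR : Even R) {k x : Site d} (hx : Even (ln x))
    (hk : ThinA_cube R k x) :
    sn (x - (R : ℤ) • k) ≤ R ∧ adm (2 * d * R) (x - (R : ℤ) • k) := by
  have h1 : sn (x - (R : ℤ) • k) ≤ R := by
    rw [sn_le_iff]
    intro i
    obtain ⟨h2, h3⟩ := hk i
    rw [Pi.sub_apply, Pi.smul_apply, smul_eq_mul, abs_le]
    constructor <;> linarith
  have h2 : Even (ln (x - (R : ℤ) • k)) := by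
    refine ThinA_even (fun i => ?_) hx
    rw [Pi.smul_apply, smul_eq_mul]
    obtain ⟨m, hm⟩ := hR
    exact ⟨m * k i, by rw [hm]; push_cast; ring⟩
  have h3 := ln_le_sn (x - (R : ℤ) • k)
  have h4 : d * sn (x - (R : ℤ) • k) ≤ d * R := Nat.mul_le_mul_left d h1
  refine ⟨h1, ?_, ?_⟩
  · have h5 : 2 * d * R = d * R + d * R := by ring
    omega
  · obtain ⟨m, hm⟩ := h2
    have h5 : 2 * d * R = 2 * (d * R) := by ring
    omega

private theorem ThinA_conn (j0 : Fin d) {β κ B D C5 : ℝ} (hκ : 0 ≤ κ)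
    (hC5 : ∀ (n : ℕ) (y : Site d), adm n y →
      (law d ρ).real {η | ¬ Real.exp (-(C5 * n)) ≤ Vp ρ β η n y} ≤ Real.exp (-n))
    {R N l : ℕ} (hR : Even R) (hl : l = 2 * d * R) (k k' : Site d) :
    (law d ρ).real (ThinA_W ρ β κ D j0 N
      fun x p => ThinA_S B x p ∧ ThinA_cube R k x ∧ ThinA_cube R k' p) ≤
    (law d ρ).real {η : Env d | Real.exp (D - κ * (((R : ℤ) • k' - (R : ℤ) • k) j0 : ℤ) -
      (κ * R + 2 * (C5 * l))) ≤ Vp ρ β η (l + N + l) ((R : ℤ) • k' - (R : ℤ) • k)} +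
    2 * ((2 * (R : ℝ) + 1) ^ d * Real.exp (-l)) := by
  classical
  obtain ⟨z, hz⟩ : ∃ z : Site d, z = (R : ℤ) • k' - (R : ℤ) • k := ⟨_, rfl⟩
  obtain ⟨F, hF⟩ : ∃ F : Finset (Site d), F = (boxF d R).filter fun u => adm l u := ⟨_, rfl⟩
  have hFc : (F.card : ℝ) ≤ (2 * (R : ℝ) + 1) ^ d := by
    have h1 : F.card ≤ (boxF d R).card := by
      rw [hF]
      exact Finset.card_filter_le _ _
    rw [card_boxF] at h1
    exact_mod_cast h1
  have hFm : ∀ u : Site d, sn u ≤ R → adm l u → u ∈ F := by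
    intro u h1 h2
    rw [hF, Finset.mem_filter, mem_boxF_iff]
    exact ⟨h1, h2⟩
  have hFa : ∀ u ∈ F, adm l u := by
    intro u hu
    rw [hF, Finset.mem_filter] at hu
    exact hu.2
  have hm := ThinA_meas (ρ := ρ) β κ D j0 N
    (fun x p => ThinA_S (d := d) B x p ∧ ThinA_cube R k x ∧ ThinA_cube R k' p)
  have hsh := real_sh (ρ := ρ) l (-((R : ℤ) • k)) hm
  rw [← hsh, ← hz]
  have hB1 : (law d ρ).real (⋃ u ∈ F, {η : Env d | ¬ Real.exp (-(C5 * l)) ≤ Vp ρ β η l u}) ≤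
      (2 * (R : ℝ) + 1) ^ d * Real.exp (-l) := by
    refine (measureReal_biUnion_finset_le _ _).trans ?_
    refine (Finset.sum_le_sum fun u hu => hC5 l u (hFa u hu)).trans ?_
    rw [Finset.sum_const, nsmul_eq_mul]
    exact mul_le_mul_of_nonneg_right hFc (Real.exp_pos _).le
  have hB2 : (law d ρ).real (⋃ u ∈ F, {η : Env d | sh (l + N) (z + u) η ∈
      {η : Env d | ¬ Real.exp (-(C5 * l)) ≤ Vp ρ β η l (-u)}}) ≤
      (2 * (R : ℝ) + 1) ^ d * Real.exp (-l) := by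
    refine (measureReal_biUnion_finset_le _ _).trans ?_
    refine (Finset.sum_le_sum fun u hu => ?_).trans
      (b := ∑ _u ∈ F, Real.exp (-(l : ℝ))) ?_
    · have hme : MeasurableSet {η : Env d | ¬ Real.exp (-(C5 * l)) ≤ Vp ρ β η l (-u)} :=
        (measurableSet_le measurable_const (measurable_V _)).compl
      rw [real_sh (l + N) (z + u) hme]
      exact hC5 l (-u) (adm_neg (hFa u hu))
    · rw [Finset.sum_const, nsmul_eq_mul]
      exact mul_le_mul_of_nonneg_right hFc (Real.exp_pos _).le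
  have hsub : {η : Env d | sh l (-((R : ℤ) • k)) η ∈ ThinA_W ρ β κ D j0 N
      fun x p => ThinA_S B x p ∧ ThinA_cube R k x ∧ ThinA_cube R k' p} ⊆
      {η : Env d | Real.exp (D - κ * ((z j0 : ℤ) : ℝ) - (κ * R + 2 * (C5 * l))) ≤
        Vp ρ β η (l + N + l) z} ∪
      ((⋃ u ∈ F, {η : Env d | ¬ Real.exp (-(C5 * l)) ≤ Vp ρ β η l u}) ∪
      (⋃ u ∈ F, {η : Env d | sh (l + N) (z + u) η ∈
        {η : Env d | ¬ Real.exp (-(C5 * l)) ≤ Vp ρ β η l (-u)}})) := by
    rintro η ⟨x, p, ⟨hS, hkx, hkp⟩, hV⟩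
    by_cases hb1 : η ∈ ⋃ u ∈ F, {η : Env d | ¬ Real.exp (-(C5 * l)) ≤ Vp ρ β η l u}
    · exact Or.inr (Or.inl hb1)
    by_cases hb2 : η ∈ ⋃ u ∈ F, {η : Env d | sh (l + N) (z + u) η ∈
        {η : Env d | ¬ Real.exp (-(C5 * l)) ≤ Vp ρ β η l (-u)}}
    · exact Or.inr (Or.inr hb2)
    left
    simp only [Set.mem_iUnion, Set.mem_ofPred_eq, not_exists, not_not] at hb1 hb2
    obtain ⟨hx1, hx2⟩ := ThinA_adm hR hS.2.2.1 hkx
    obtain ⟨hp1, hp2⟩ := ThinA_adm hR hS.2.2.2 hkp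
    rw [← hl] at hx2 hp2
    have g1 := hb1 _ (hFm _ hx1 hx2)
    have g2 := hb2 _ (hFm _ hp1 hp2)
    rw [sh_sh] at hV
    have e1 : x + -((R : ℤ) • k) = x - (R : ℤ) • k := by abel
    have e2 : 0 + l = l := Nat.zero_add l
    rw [e1, e2] at hV
    have g3 := Vp_add (ρ := ρ) (β := β) η l N (x - (R : ℤ) • k) (p - x)
    have e3 : x - (R : ℤ) • k + (p - x) = z + (p - (R : ℤ) • k') := by
      rw [hz]
      abel
    rw [e3] at g3
    have g4 := Vp_add (ρ := ρ) (β := β) η (l + N) l (z + (p - (R : ℤ) • k'))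
      (-(p - (R : ℤ) • k'))
    have e4 : z + (p - (R : ℤ) • k') + -(p - (R : ℤ) • k') = z := by abel
    rw [e4] at g4
    have g5 : Real.exp (-(C5 * l)) * Real.exp (D - κ * ((p - x) j0 : ℤ)) ≤
        Vp ρ β η (l + N) (z + (p - (R : ℤ) • k')) := by
      refine le_trans (mul_le_mul g1 hV (Real.exp_pos _).le ?_) g3
      exact (Real.exp_pos _).le.trans g1
    have g6 : Real.exp (-(C5 * l)) * Real.exp (D - κ * ((p - x) j0 : ℤ)) *
        Real.exp (-(C5 * l)) ≤ Vp ρ β η (l + N + l) z := by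
      refine le_trans (mul_le_mul g5 g2 (Real.exp_pos _).le ?_) g4
      exact (mul_pos (Real.exp_pos _) (Real.exp_pos _)).le.trans g5
    change Real.exp (D - κ * ((z j0 : ℤ) : ℝ) - (κ * R + 2 * (C5 * l))) ≤
      Vp ρ β η (l + N + l) z
    refine le_trans ?_ g6
    rw [← Real.exp_add, ← Real.exp_add, Real.exp_le_exp]
    have h5 : ((p - x) j0 : ℤ) ≤ z j0 + R := by
      obtain ⟨h6, -⟩ := hkx j0
      obtain ⟨-, h7⟩ := hkp j0
      rw [hz, Pi.sub_apply, Pi.sub_apply, Pi.smul_apply, Pi.smul_apply, smul_eq_mul, smul_eq_mul]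
      linarith
    have h6 : (((p - x) j0 : ℤ) : ℝ) ≤ ((z j0 : ℤ) : ℝ) + R := by exact_mod_cast h5
    have h7 := mul_le_mul_of_nonneg_left h6 hκ
    linarith
  have h1 := measureReal_mono (μ := law d ρ) hsub
  have h2 := measureReal_union_le (μ := law d ρ)
    {η : Env d | Real.exp (D - κ * ((z j0 : ℤ) : ℝ) - (κ * R + 2 * (C5 * l))) ≤
        Vp ρ β η (l + N + l) z}
    ((⋃ u ∈ F, {η : Env d | ¬ Real.exp (-(C5 * l)) ≤ Vp ρ β η l u}) ∪
      (⋃ u ∈ F, {η : Env d | sh (l + N) (z + u) η ∈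
        {η : Env d | ¬ Real.exp (-(C5 * l)) ≤ Vp ρ β η l (-u)}}))
  have h3 := measureReal_union_le (μ := law d ρ)
    (⋃ u ∈ F, {η : Env d | ¬ Real.exp (-(C5 * l)) ≤ Vp ρ β η l u})
    (⋃ u ∈ F, {η : Env d | sh (l + N) (z + u) η ∈
        {η : Env d | ¬ Real.exp (-(C5 * l)) ≤ Vp ρ β η l (-u)}})
  linarith

/-- TASK Thin1. From windows to points. If `P(Win) > p0`: one of the `2 d` functionals `± x_j` realises `sn (p - x)`
with probability `> p0 / (2 d)`, by symmetry (`V_act`) it is `+ x_j0`. Cut the windows in cubes of side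
`R = 2 ⌊ε' b / 2⌋` with corners in `(R ℤ)^d` (all coordinates even, so `ln c` even): at most `M = (4 K / ε' + 3)^d` cubes for `n`
large. For one pair `(c, c')` the probability is `≥ p0 / (2 d M^2)`. Connect: `l = 2 d R` (even), `micro`:
`Vp (sh ..) l (x - c) ≥ exp (-(C5 l))` for all `x` in the cube of `c` (even `ln`), and from `p` to `c'`, outside
probability `2 (2 R + 1)^d exp (-l)`; `Vp_add` twice; shift by `l` (`real_sh`). `N' = N + 2 l`, `z = c' - c`;
`2 C5 l + 2 κ R ≤ δ b / 2` for `ε'` small. -/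
theorem thin_cell (j0 : Fin d) {β κ q : ℝ} (P : Post d ρ β κ q) {K δ p0 : ℝ} (hK : 0 < K)
    (hδ : 0 < δ) (hp : 0 < p0) : ∃ p1 : ℝ, 0 < p1 ∧ ∀ᶠ n : ℕ in atTop, ∀ N : ℕ, Even N → n ≤ N →
      N ≤ 2 * n → p0 < (law d ρ).real (Win (d := d) ρ β κ q K δ n N) →
      ∃ (N' : ℕ) (z : Site d), Even N' ∧ N' ≤ 3 * n ∧ adm N' z ∧ (sn z : ℝ) ≤ 3 * K * bb d ρ β q n ∧
        p1 ≤ (law d ρ).real {η : Env d | Real.exp (δ / 2 * bb d ρ β q n - κ * z j0) ≤
          Vp ρ β η N' z} := by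
  have hd : 0 < d := Fin.pos j0
  have hdr : (1 : ℝ) ≤ d := by exact_mod_cast hd
  have hκ : 0 < κ := P.κpos
  obtain ⟨C5, hC5, hmic⟩ := micro (ρ := ρ) j0 P.em β
  obtain ⟨Cb, hCb, hble⟩ := bb_le (ρ := ρ) j0 P.em β P.q0 (by linarith [P.q1])
  obtain ⟨c, hc, hlow⟩ := P.low
  obtain ⟨e, he⟩ : ∃ e : ℝ, e = min (K / 2) (δ / (2 * (κ + 4 * d * C5))) := ⟨_, rfl⟩
  have hA : 0 < κ + 4 * d * C5 := by positivity
  have he0 : 0 < e := by
    rw [he]
    exact lt_min (by positivity) (by positivity)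
  have heK : e ≤ K / 2 := by
    rw [he]
    exact min_le_left _ _
  have heδ : e * (κ + 4 * d * C5) ≤ δ / 2 := by
    have h1 : e ≤ δ / (2 * (κ + 4 * d * C5)) := by
      rw [he]
      exact min_le_right _ _
    rw [le_div_iff₀ (by positivity)] at h1
    linarith
  obtain ⟨M, hM⟩ : ∃ M : ℕ, M = ⌈2 * K / e⌉₊ := ⟨_, rfl⟩
  have hMe : 2 * K / e ≤ M := by
    rw [hM]
    exact Nat.le_ceil _
  have hcard : 0 < ((boxF d M).card : ℝ) := by
    rw [card_boxF]
    positivity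
  obtain ⟨p1, hp1⟩ : ∃ p1 : ℝ, p1 = p0 / (8 * d * ((boxF d M).card : ℝ) ^ 2) := ⟨_, rfl⟩
  have hp1pos : 0 < p1 := by
    rw [hp1]
    positivity
  have hc0 : 0 < c0 d := by
    unfold c0
    positivity
  have htend : Tendsto (fun n : ℕ => c * (n : ℝ) ^ c0 d) atTop atTop :=
    ((tendsto_rpow_atTop hc0).comp tendsto_natCast_atTop_atTop).const_mul_atTop hc
  have hev1 : ∀ᶠ n : ℕ in atTop, (2 / p1 + 4) / e ≤ bb d ρ β q n := by
    filter_upwards [hlow, htend.eventually_ge_atTop ((2 / p1 + 4) / e)] with n h1 h2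
    exact h2.trans h1
  have hev2 : ∀ᶠ n : ℕ in atTop, 4 * d * (e * bb d ρ β q n) ≤ n := by
    have h1 : Tendsto (fun n : ℕ => (n : ℝ) ^ (0.47 : ℝ)) atTop atTop :=
      (tendsto_rpow_atTop (by norm_num)).comp tendsto_natCast_atTop_atTop
    filter_upwards [h1.eventually_ge_atTop (4 * d * (e * Cb)), eventually_ge_atTop 1] with n h2 h3
    have h4 := hble n h3
    have h6 : (0 : ℝ) < n := by exact_mod_cast h3
    have h5 : (n : ℝ) = (n : ℝ) ^ (0.53 : ℝ) * (n : ℝ) ^ (0.47 : ℝ) := by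
      rw [← Real.rpow_add h6]
      norm_num
    have h7 : 0 ≤ (n : ℝ) ^ (0.53 : ℝ) := Real.rpow_nonneg h6.le _
    calc 4 * d * (e * bb d ρ β q n) ≤ 4 * d * (e * (Cb * (n : ℝ) ^ (0.53 : ℝ))) :=
          mul_le_mul_of_nonneg_left (mul_le_mul_of_nonneg_left h4 he0.le) (by positivity)
      _ = (n : ℝ) ^ (0.53 : ℝ) * (4 * d * (e * Cb)) := by ring
      _ ≤ (n : ℝ) ^ (0.53 : ℝ) * (n : ℝ) ^ (0.47 : ℝ) := mul_le_mul_of_nonneg_left h2 h7
      _ = n := h5.symm
  refine ⟨p1, hp1pos, ?_⟩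
  filter_upwards [hev1, hev2] with n h1 h2 N hNe hN1 hN2 hWin
  obtain ⟨b, hb⟩ : ∃ b : ℝ, b = bb d ρ β q n := ⟨_, rfl⟩
  rw [← hb] at h1 h2 ⊢
  have hb1 : 1 ≤ b := by
    rw [hb]
    exact one_le_bb β q n
  have heb : 2 / p1 + 4 ≤ e * b := by
    rw [div_le_iff₀ he0] at h1
    linarith
  have h2p : 0 < 2 / p1 := by positivity
  obtain ⟨R, hR⟩ : ∃ R : ℕ, R = 2 * ⌊e * b / 2⌋₊ := ⟨_, rfl⟩
  have hRe : Even R := ⟨⌊e * b / 2⌋₊, by omega⟩
  have hRle : (R : ℝ) ≤ e * b := by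
    have h3 : (⌊e * b / 2⌋₊ : ℝ) ≤ e * b / 2 := Nat.floor_le (by positivity)
    rw [hR]
    push_cast
    linarith
  have hRge : e * b - 2 ≤ R := by
    have h3 := Nat.lt_floor_add_one (e * b / 2)
    rw [hR]
    push_cast
    linarith
  have hR2 : 2 / p1 ≤ R := by linarith
  have hR0 : 0 < R := by
    have h3 : (0 : ℝ) < R := by linarith
    exact_mod_cast h3
  have hR1 : (1 : ℝ) ≤ R := by exact_mod_cast hR0
  have hKB : K * b ≤ M * R := by
    calc K * b = 2 * K / e * (e * b / 2) := by field_simp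
      _ ≤ M * R := mul_le_mul hMe (by linarith) (by positivity) (by positivity)
  have hW := ThinA_sym (ρ := ρ) j0 (β := β) (B := K * b) (D := δ * b) hκ.le N
  have hW2 : p0 < 2 * d * (law d ρ).real (ThinA_W ρ β κ (δ * b) j0 N (ThinA_S (K * b))) := by
    refine lt_of_lt_of_le ?_ hW
    rw [hb]
    exact hWin
  have hW3 : 2 * p1 * ((boxF d M).card : ℝ) ^ 2 <
      (law d ρ).real (ThinA_W ρ β κ (δ * b) j0 N (ThinA_S (K * b))) := by
    have h3 : 2 * p1 * ((boxF d M).card : ℝ) ^ 2 = p0 / (4 * d) := by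
      rw [hp1]
      field_simp
      ring
    rw [h3, div_lt_iff₀ (by positivity)]
    have h4 : 0 ≤ (law d ρ).real (ThinA_W ρ β κ (δ * b) j0 N (ThinA_S (K * b))) :=
      measureReal_nonneg
    have h5 : 0 ≤ d * (law d ρ).real (ThinA_W ρ β κ (δ * b) j0 N (ThinA_S (K * b))) := by
      positivity
    linarith
  obtain ⟨k, k', hkk⟩ := ThinA_pair j0 hR0 hKB hW3
  obtain ⟨l, hl⟩ : ∃ l : ℕ, l = 2 * d * R := ⟨_, rfl⟩
  have hlr : (l : ℝ) = 2 * d * R := by
    rw [hl]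
    push_cast
    ring
  have hconn := ThinA_conn (ρ := ρ) j0 (β := β) (B := K * b) (D := δ * b) (N := N) hκ.le hmic
    hRe hl k k'
  obtain ⟨z, hz⟩ : ∃ z : Site d, z = (R : ℤ) • k' - (R : ℤ) • k := ⟨_, rfl⟩
  rw [← hz] at hconn
  have hsmall : 2 * ((2 * (R : ℝ) + 1) ^ d * Real.exp (-l)) ≤ p1 := by
    have h3 : (2 * (R : ℝ) + 1) ^ d * Real.exp (-l) =
        ((2 * (R : ℝ) + 1) * Real.exp (-(2 * R))) ^ d := by
      rw [mul_pow, ← Real.exp_nat_mul, hlr]
      congr 2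
      ring
    have h4 : (2 * (R : ℝ) + 1) * Real.exp (-(2 * R)) ≤ 1 / R := by
      rw [Real.exp_neg, ← div_eq_mul_inv, div_le_div_iff₀ (Real.exp_pos _) (by linarith)]
      have h5 := Real.quadratic_le_exp_of_nonneg (x := 2 * (R : ℝ)) (by linarith)
      nlinarith
    have h5 : 1 / (R : ℝ) ≤ 1 := by
      rw [div_le_one (by linarith)]
      exact hR1
    have h6 : 0 ≤ (2 * (R : ℝ) + 1) * Real.exp (-(2 * R)) := by positivity
    have h7 : ((2 * (R : ℝ) + 1) * Real.exp (-(2 * R))) ^ d ≤ 1 / R :=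
      (pow_le_of_le_one h6 (h4.trans h5) (by omega)).trans h4
    rw [h3]
    have h8 : 2 * (1 / (R : ℝ)) ≤ p1 := by
      rw [div_le_iff₀ hp1pos] at hR2
      rw [mul_one_div, div_le_iff₀ (by linarith)]
      linarith
    linarith
  have hfin : p1 ≤ (law d ρ).real {η : Env d | Real.exp (δ / 2 * b - κ * z j0) ≤
      Vp ρ β η (l + N + l) z} := by
    refine le_trans (b := (law d ρ).real {η : Env d | Real.exp (δ * b - κ * ((z j0 : ℤ) : ℝ) -
      (κ * R + 2 * (C5 * l))) ≤ Vp ρ β η (l + N + l) z}) (by linarith) ?_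
    refine measureReal_mono fun η hη => ?_
    change Real.exp (δ / 2 * b - κ * z j0) ≤ Vp ρ β η (l + N + l) z
    refine le_trans (Real.exp_le_exp.2 ?_) hη
    have h3 : κ * R + 2 * (C5 * l) = (κ + 4 * d * C5) * R := by
      rw [hlr]
      ring
    have h4 : (κ + 4 * d * C5) * R ≤ (κ + 4 * d * C5) * (e * b) :=
      mul_le_mul_of_nonneg_left hRle hA.le
    have h5 : e * (κ + 4 * d * C5) * b ≤ δ / 2 * b :=
      mul_le_mul_of_nonneg_right heδ (by linarith)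
    rw [h3]
    linarith
  refine ⟨l + N + l, z, ?_, ?_, ?_, ?_, hfin⟩
  · obtain ⟨m, hm⟩ := hNe
    exact ⟨l + m, by omega⟩
  · have h3 : 2 * (l : ℝ) ≤ n := by
      rw [hlr]
      have h4 : 4 * d * (R : ℝ) ≤ 4 * d * (e * b) :=
        mul_le_mul_of_nonneg_left hRle (by positivity)
      linarith
    have h4 : 2 * l ≤ n := by exact_mod_cast h3
    omega
  · by_contra hna
    have h3 : {η : Env d | Real.exp (δ / 2 * b - κ * z j0) ≤ Vp ρ β η (l + N + l) z} = ∅ := by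
      ext η
      simp only [Set.mem_ofPred_eq, Set.mem_empty_iff_false, iff_false, not_le]
      rw [Vp_zero j0 η hna]
      exact Real.exp_pos _
    rw [h3, measureReal_empty] at hfin
    linarith
  · rcases Set.eq_empty_or_nonempty (ThinA_W ρ β κ (δ * b) j0 N
      fun x p => ThinA_S (K * b) x p ∧ ThinA_cube R k x ∧ ThinA_cube R k' p) with h3 | h3
    · rw [h3, measureReal_empty] at hkk
      linarith
    · obtain ⟨η, x, p, ⟨hS, hkx, hkp⟩, -⟩ := h3
      have h4 : sn z ≤ sn p + sn x + R := by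
        rw [sn_le_iff]
        intro i
        have h5 := abs_le.1 ((sn_le_iff (k := sn x)).1 le_rfl i)
        have h6 := abs_le.1 ((sn_le_iff (k := sn p)).1 le_rfl i)
        obtain ⟨h7, h8⟩ := hkx i
        obtain ⟨h9, h10⟩ := hkp i
        rw [hz, Pi.sub_apply, Pi.smul_apply, Pi.smul_apply, smul_eq_mul, smul_eq_mul, abs_le]
        push_cast
        constructor <;> linarith
      have h5 : (sn z : ℝ) ≤ sn p + sn x + R := by exact_mod_cast h4
      have h6 : e * b ≤ K / 2 * b := mul_le_mul_of_nonneg_right heK (by linarith)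
      have h7 : 0 ≤ K * b := by positivity
      linarith [hS.1, hS.2.1]

end Pool.Agent.W_7d29a1_h3
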